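import Mathlib

set_option autoImplicit false

/-! Fourier analysis on `ZMod p` in the form needed for Gowers' quadruple lemma. -/

namespace Pool.Agent.J4H80.QU

open Finset

variable {p : ℕ} [NeZero p]

/-- the standard character -/
noncomputable def chi (x : ZMod p) : ℂ := ZMod.stdAddChar x

theorem chi_add (x y : ZMod p) : chi (x + y) = chi x * chi y := by
  unfold chi; exact AddChar.map_add_eq_mul _ _ _

theorem chi_zero : chi (0 : ZMod p) = 1 := by
  unfold chi; exact AddChar.map_zero_eq_one _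

theorem norm_chi (x : ZMod p) : ‖chi x‖ = 1 := by
  unfold chi
  rw [ZMod.stdAddChar_apply]
  exact Circle.norm_coe _

theorem star_chi (x : ZMod p) : (starRingEnd ℂ) (chi x) = chi (-x) := by
  have h1 : chi x * chi (-x) = 1 := by rw [← chi_add, add_neg_cancel, chi_zero]
  have h2 : chi x * (starRingEnd ℂ) (chi x) = 1 := by
    rw [Complex.mul_conj, Complex.normSq_eq_norm_sq, norm_chi]; norm_num
  have h3 : chi x ≠ 0 := fun h => by rw [h, zero_mul] at h1; exact zero_ne_one h1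
  exact mul_left_cancel₀ h3 (h2.trans h1.symm)

theorem sum_chi (t : ZMod p) : ∑ i : ZMod p, chi (t * i) = if t = 0 then (p : ℂ) else 0 := by
  unfold chi
  split_ifs with h
  · simp [h]
  · exact AddChar.sum_eq_zero_of_ne_one (ZMod.isPrimitive_stdAddChar p h)

/-- discrete Fourier transform -/
noncomputable def ft (g : ZMod p → ℂ) (j : ZMod p) : ℂ := ∑ x, g x * chi (-(j * x))

theorem sq_norm (z : ℂ) : ((‖z‖ ^ 2 : ℝ) : ℂ) = z * (starRingEnd ℂ) z := by
  rw [Complex.mul_conj, Complex.normSq_eq_norm_sq]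

theorem parseval (g : ZMod p → ℂ) : ∑ j, ‖ft g j‖ ^ 2 = p * ∑ x, ‖g x‖ ^ 2 := by
  apply Complex.ofReal_injective
  push_cast
  have h1 : ∀ j, ((‖ft g j‖ : ℂ)) ^ 2 = ∑ x, ∑ y, g x * (starRingEnd ℂ) (g y) * chi ((y - x) * j) := by
    intro j
    rw [← Complex.ofReal_pow, sq_norm]
    unfold ft
    rw [map_sum, Finset.sum_mul_sum]
    refine Finset.sum_congr rfl fun x _ => Finset.sum_congr rfl fun y _ => ?_
    rw [map_mul, star_chi]
    have : chi ((y - x) * j) = chi (-(j * x)) * chi (- -(j * y)) := by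
      rw [← chi_add]; congr 1; ring
    rw [this]; ring
  rw [Finset.sum_congr rfl fun j _ => h1 j, Finset.sum_comm, Finset.mul_sum]
  refine Finset.sum_congr rfl fun x _ => ?_
  rw [Finset.sum_comm]
  have h2 : ∀ y, ∑ j, g x * (starRingEnd ℂ) (g y) * chi ((y - x) * j) =
      if y = x then (p : ℂ) * (g x * (starRingEnd ℂ) (g x)) else 0 := by
    intro y
    rw [← Finset.mul_sum, sum_chi]
    by_cases h : y = x
    · rw [if_pos h, if_pos (sub_eq_zero.2 h), h]; ring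
    · rw [if_neg h, if_neg (sub_ne_zero.2 h), mul_zero]
  rw [Finset.sum_congr rfl fun y _ => h2 y, Finset.sum_ite_eq' Finset.univ x, if_pos (Finset.mem_univ x)]
  rw [← sq_norm]
  push_cast
  rfl

theorem ft_corr (G F : ZMod p → ℂ) (j : ZMod p) :
    ft (fun h => ∑ x, G x * F (x + h)) j = ft G (-j) * ft F j := by
  unfold ft
  simp only [Finset.sum_mul]
  rw [Finset.sum_comm]
  refine Finset.sum_congr rfl fun x _ => ?_
  rw [Finset.mul_sum]
  refine (Fintype.sum_equiv (Equiv.addLeft x) _ _ fun h => ?_)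
  rw [Equiv.coe_addLeft]
  have : chi (-(j * h)) = chi (-(-j * x)) * chi (-(j * (x + h))) := by
    rw [← chi_add]; congr 1; ring
  rw [this]; ring

/-- the energy of a correlation -/
theorem corr_sq_le (G F : ZMod p → ℂ) {M : ℝ} (hM : ∀ j, ‖ft F j‖ ≤ M) :
    ∑ h, ‖∑ x, G x * F (x + h)‖ ^ 2 ≤ M ^ 2 * ∑ x, ‖G x‖ ^ 2 := by
  have hp : (0 : ℝ) < p := by exact_mod_cast NeZero.pos p
  have h1 := parseval (fun h => ∑ x, G x * F (x + h))
  have h2 : ∑ j, ‖ft (fun h => ∑ x, G x * F (x + h)) j‖ ^ 2 ≤ M ^ 2 * (p * ∑ x, ‖G x‖ ^ 2) := by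
    have e : ∑ j, ‖ft G (-j)‖ ^ 2 = p * ∑ x, ‖G x‖ ^ 2 := by
      rw [← parseval]
      exact Fintype.sum_equiv (Equiv.neg _) _ _ fun j => rfl
    rw [← e, Finset.mul_sum]
    refine Finset.sum_le_sum fun j _ => ?_
    rw [ft_corr, norm_mul, mul_pow, mul_comm]
    exact mul_le_mul_of_nonneg_right (pow_le_pow_left₀ (norm_nonneg _) (hM j) 2) (by positivity)
  rw [h1] at h2
  have h3 : (p : ℝ) * ∑ h, ‖∑ x, G x * F (x + h)‖ ^ 2 ≤ p * (M ^ 2 * ∑ x, ‖G x‖ ^ 2) := by
    refine h2.trans (le_of_eq (by ring))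
  exact le_of_mul_le_mul_left h3 hp

/-- the number of large Fourier coefficients -/
theorem card_large (g : ZMod p → ℂ) {c : ℝ} (hc : 0 < c) (S : Finset (ZMod p))
    (hS : ∀ j ∈ S, c ≤ ‖ft g j‖) : (S.card : ℝ) * c ^ 2 ≤ p * ∑ x, ‖g x‖ ^ 2 := by
  rw [← parseval]
  calc (S.card : ℝ) * c ^ 2 = ∑ j ∈ S, c ^ 2 := by rw [Finset.sum_const, nsmul_eq_mul]
    _ ≤ ∑ j ∈ S, ‖ft g j‖ ^ 2 := Finset.sum_le_sum fun j hj => pow_le_pow_left₀ hc.le (hS j hj) 2
    _ ≤ ∑ j, ‖ft g j‖ ^ 2 := Finset.sum_le_sum_of_subset_of_nonneg (Finset.subset_univ _)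
        fun _ _ _ => by positivity

end Pool.Agent.J4H80.QU
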