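import Pool.Agent.J4H80.QU.A

set_option autoImplicit false

/-! Gowers' quadruple lemma on `ZMod p`. -/

namespace Pool.Agent.J4H80.QU

open Finset

variable {p : ℕ} [NeZero p]

/-- the multiplicative derivative of a real function, as a complex function -/
noncomputable def dl (F : ZMod p → ℝ) (h : ZMod p) (x : ZMod p) : ℂ := ((F x * F (x + h) : ℝ) : ℂ)

theorem sq_ft (g : ZMod p → ℝ) (j : ZMod p) :
    ((‖ft (fun x => (g x : ℂ)) j‖ ^ 2 : ℝ) : ℂ) =
      ∑ x, ∑ k, ((g x * g (x + k) : ℝ) : ℂ) * chi (j * k) := by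
  rw [sq_norm]
  unfold ft
  rw [map_sum, Finset.sum_mul_sum]
  refine Finset.sum_congr rfl fun x _ => ?_
  rw [← Fintype.sum_equiv (Equiv.addLeft x) (fun k => ((g x : ℂ) * chi (-(j * x))) *
    (starRingEnd ℂ) ((g (x + k) : ℂ) * chi (-(j * (x + k))))) _ (fun k => rfl)]
  refine Finset.sum_congr rfl fun k _ => ?_
  rw [map_mul, star_chi, Complex.conj_ofReal]
  have : chi (j * k) = chi (-(j * x)) * chi (- -(j * (x + k))) := by
    rw [← chi_add]; congr 1; ring
  rw [this]; push_cast; ring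

/-- a convolution square, in physical space -/
theorem conv_sq (β : ZMod p → ℂ) (D : ZMod p → ℝ) :
    ((∑ x, ‖∑ h, β h * (D (x + h) : ℂ)‖ ^ 2 : ℝ) : ℂ) =
      ∑ d, (∑ h, β h * (starRingEnd ℂ) (β (h + d))) * ((∑ y, D y * D (y + d) : ℝ) : ℂ) := by
  push_cast
  have h1 : ∀ x, ((‖∑ h, β h * (D (x + h) : ℂ)‖ : ℂ)) ^ 2 =
      ∑ d, ∑ h, (β h * (starRingEnd ℂ) (β (h + d))) * ((D (x + h) : ℂ) * (D (x + h + d) : ℂ)) := by
    intro x
    rw [← Complex.ofReal_pow, sq_norm, map_sum, Finset.sum_mul_sum, Finset.sum_comm]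
    rw [Finset.sum_comm]
    have e : ∀ h, ∑ h', β h * (D (x + h) : ℂ) * (starRingEnd ℂ) (β h' * (D (x + h') : ℂ)) =
        ∑ d, (β h * (starRingEnd ℂ) (β (h + d))) * ((D (x + h) : ℂ) * (D (x + h + d) : ℂ)) := by
      intro h
      rw [← Fintype.sum_equiv (Equiv.addLeft h) (fun d => β h * (D (x + h) : ℂ) *
        (starRingEnd ℂ) (β (h + d) * (D (x + (h + d)) : ℂ))) _ (fun k => rfl)]
      refine Finset.sum_congr rfl fun d _ => ?_
      rw [map_mul, Complex.conj_ofReal, add_assoc]; ring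
    rw [Finset.sum_congr rfl fun h _ => e h, Finset.sum_comm]
  rw [Finset.sum_congr rfl fun x _ => h1 x, Finset.sum_comm]
  refine Finset.sum_congr rfl fun d _ => ?_
  rw [Finset.sum_comm, Finset.sum_mul]
  refine Finset.sum_congr rfl fun h _ => ?_
  rw [← Finset.mul_sum]
  congr 1
  exact Fintype.sum_equiv (Equiv.addRight h) _ _ fun x => rfl

theorem sum_abs_le {F : ZMod p → ℝ} (h1 : ∀ x, |F x| ≤ 1) {I : Finset (ZMod p)}
    (hI : ∀ x, x ∉ I → F x = 0) {N : ℝ} (hN : (I.card : ℝ) ≤ N) : ∑ x, |F x| ≤ N := by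
  calc ∑ x, |F x| = ∑ x ∈ I, |F x| := by
        symm
        apply Finset.sum_subset (Finset.subset_univ _)
        intro x _ hx
        rw [hI x hx, abs_zero]
    _ ≤ ∑ x ∈ I, 1 := Finset.sum_le_sum fun x _ => h1 x
    _ = I.card := by rw [Finset.sum_const, nsmul_eq_mul, mul_one]
    _ ≤ N := hN

/-- the correlation energy of a bounded function with small support -/
theorem corr_energy {D : ZMod p → ℝ} (h1 : ∀ x, |D x| ≤ 1) {N : ℝ} (hN0 : 0 ≤ N)
    (h2 : ∑ x, |D x| ≤ N) : ∑ d, (∑ y, D y * D (y + d)) ^ 2 ≤ N ^ 3 := by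
  have a1 : ∀ d, |∑ y, D y * D (y + d)| ≤ N := by
    intro d
    refine (Finset.abs_sum_le_sum_abs _ _).trans ((Finset.sum_le_sum fun y _ => ?_).trans h2)
    rw [abs_mul]
    exact mul_le_of_le_one_right (abs_nonneg _) (h1 _)
  have a2 : ∑ d, |∑ y, D y * D (y + d)| ≤ N ^ 2 := by
    calc ∑ d, |∑ y, D y * D (y + d)| ≤ ∑ d, ∑ y, |D y| * |D (y + d)| := by
          refine Finset.sum_le_sum fun d _ => (Finset.abs_sum_le_sum_abs _ _).trans
            (Finset.sum_le_sum fun y _ => ?_)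
          rw [abs_mul]
      _ = ∑ y, |D y| * ∑ d, |D (y + d)| := by
          rw [Finset.sum_comm]
          refine Finset.sum_congr rfl fun y _ => ?_
          rw [Finset.mul_sum]
      _ = (∑ y, |D y|) * (∑ y, |D y|) := by
          rw [Finset.sum_mul]
          refine Finset.sum_congr rfl fun y _ => ?_
          congr 1
          exact Fintype.sum_equiv (Equiv.addLeft y) _ _ fun x => rfl
      _ ≤ N ^ 2 := by
          rw [sq]
          exact mul_le_mul h2 h2 (Finset.sum_nonneg fun _ _ => abs_nonneg _) hN0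
  calc ∑ d, (∑ y, D y * D (y + d)) ^ 2 ≤ ∑ d, N * |∑ y, D y * D (y + d)| := by
        refine Finset.sum_le_sum fun d _ => ?_
        rw [← sq_abs, sq]
        exact mul_le_mul_of_nonneg_right (a1 d) (abs_nonneg _)
    _ = N * ∑ d, |∑ y, D y * D (y + d)| := by rw [Finset.mul_sum]
    _ ≤ N * N ^ 2 := mul_le_mul_of_nonneg_left a2 hN0
    _ = N ^ 3 := by ring

/-- the coefficients `1_B(h) χ(j_h k)` -/
noncomputable def beta (B : Finset (ZMod p)) (jj : ZMod p → ZMod p) (k h : ZMod p) : ℂ :=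
  if h ∈ B then chi (jj h * k) else 0

/-- the correlation energies of the coefficients count additive quadruples -/
theorem beta_energy (B : Finset (ZMod p)) (jj : ZMod p → ZMod p) :
    ∑ k, ∑ d, ‖∑ h, beta B jj k h * (starRingEnd ℂ) (beta B jj k (h + d))‖ ^ 2 ≤
      p * (((B.image fun h => (h, jj h)).addEnergy (B.image fun h => (h, jj h)) : ℕ) : ℝ) := by
  classical
  have h1 : ∀ k d : ZMod p, ((‖∑ h, beta B jj k h * (starRingEnd ℂ) (beta B jj k (h + d))‖ ^ 2 : ℝ) : ℂ) =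
      ∑ h, ∑ h', if (h ∈ B ∧ h + d ∈ B) ∧ h' ∈ B ∧ h' + d ∈ B then
        chi ((jj h - jj (h + d) - jj h' + jj (h' + d)) * k) else 0 := by
    intro k d
    rw [sq_norm, map_sum, Finset.sum_mul_sum]
    refine Finset.sum_congr rfl fun h _ => Finset.sum_congr rfl fun h' _ => ?_
    unfold beta
    by_cases a1 : h ∈ B <;> by_cases a2 : h + d ∈ B <;> by_cases a3 : h' ∈ B <;>
      by_cases a4 : h' + d ∈ B <;> simp only [a1, a2, a3, a4, if_true, if_false, map_zero, mul_zero,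
        zero_mul, and_true, and_false, and_self]
    rw [map_mul, Complex.conj_conj, star_chi, star_chi, ← chi_add, ← chi_add, ← chi_add]
    congr 1
    ring
  have h2 : ((∑ k, ∑ d, ‖∑ h, beta B jj k h * (starRingEnd ℂ) (beta B jj k (h + d))‖ ^ 2 : ℝ) : ℂ) =
      ∑ d, ∑ h, ∑ h', if ((h ∈ B ∧ h + d ∈ B) ∧ h' ∈ B ∧ h' + d ∈ B) ∧
        jj h - jj (h + d) - jj h' + jj (h' + d) = 0 then (p : ℂ) else 0 := by
    rw [Complex.ofReal_sum, Finset.sum_congr rfl fun k _ => Complex.ofReal_sum _ _, Finset.sum_comm]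
    refine Finset.sum_congr rfl fun d _ => ?_
    rw [Finset.sum_congr rfl fun k _ => h1 k d, Finset.sum_comm]
    refine Finset.sum_congr rfl fun h _ => ?_
    rw [Finset.sum_comm]
    refine Finset.sum_congr rfl fun h' _ => ?_
    by_cases a : (h ∈ B ∧ h + d ∈ B) ∧ h' ∈ B ∧ h' + d ∈ B
    · simp only [a, if_true, and_self, true_and]
      exact sum_chi _
    · simp only [a, if_false, false_and, Finset.sum_const_zero]
  have h3 : (∑ k, ∑ d, ‖∑ h, beta B jj k h * (starRingEnd ℂ) (beta B jj k (h + d))‖ ^ 2 : ℝ) =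
      ∑ d : ZMod p, ∑ h : ZMod p, ∑ h' : ZMod p, if ((h ∈ B ∧ h + d ∈ B) ∧ h' ∈ B ∧ h' + d ∈ B) ∧
        jj h - jj (h + d) - jj h' + jj (h' + d) = 0 then (p : ℝ) else 0 := by
    apply Complex.ofReal_injective
    rw [h2]
    push_cast
    refine Finset.sum_congr rfl fun d _ => Finset.sum_congr rfl fun h _ =>
      Finset.sum_congr rfl fun h' _ => ?_
    split_ifs <;> simp
  rw [h3]
  set T : Finset (ZMod p × ZMod p × ZMod p) := Finset.univ.filter fun q =>
    ((q.2.1 ∈ B ∧ q.2.1 + q.1 ∈ B) ∧ q.2.2 ∈ B ∧ q.2.2 + q.1 ∈ B) ∧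
        jj q.2.1 - jj (q.2.1 + q.1) - jj q.2.2 + jj (q.2.2 + q.1) = 0 with hT
  have h4 : (∑ d : ZMod p, ∑ h : ZMod p, ∑ h' : ZMod p,
      if ((h ∈ B ∧ h + d ∈ B) ∧ h' ∈ B ∧ h' + d ∈ B) ∧
        jj h - jj (h + d) - jj h' + jj (h' + d) = 0 then (p : ℝ) else 0) = p * (T.card : ℝ) := by
    rw [hT, Finset.card_filter, Nat.cast_sum, Finset.mul_sum, Fintype.sum_prod_type]
    refine Finset.sum_congr rfl fun d _ => ?_
    rw [Fintype.sum_prod_type]
    refine Finset.sum_congr rfl fun h _ => Finset.sum_congr rfl fun h' _ => ?_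
    split_ifs <;> simp
  rw [h4]
  refine mul_le_mul_of_nonneg_left ?_ (Nat.cast_nonneg _)
  norm_cast
  unfold Finset.addEnergy
  apply Finset.card_le_card_of_injOn (fun q => ((((q.2.1, jj q.2.1), (q.2.1 + q.1, jj (q.2.1 + q.1))),
    ((q.2.2 + q.1, jj (q.2.2 + q.1)), (q.2.2, jj q.2.2)))))
  · rintro ⟨d, h, h'⟩ hq
    rw [Finset.mem_coe, hT, Finset.mem_filter] at hq
    obtain ⟨-, ⟨⟨a1, a2⟩, a3, a4⟩, a5⟩ := hq
    rw [Finset.mem_coe, Finset.mem_filter, Finset.mem_product, Finset.mem_product, Finset.mem_product]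
    refine ⟨⟨⟨Finset.mem_image_of_mem _ a1, Finset.mem_image_of_mem _ a2⟩,
      Finset.mem_image_of_mem _ a4, Finset.mem_image_of_mem _ a3⟩, ?_⟩
    simp only [Prod.mk_add_mk, Prod.mk.injEq]
    constructor
    · ring
    · linear_combination a5
  · rintro ⟨d, h, h'⟩ - ⟨d', k, k'⟩ - hq
    simp only [Prod.mk.injEq] at hq
    obtain ⟨⟨⟨b1, -⟩, b2, -⟩, -, b3, -⟩ := hq
    have b4 : d = d' := by rw [b1] at b2; exact add_left_cancel b2
    simp only [Prod.mk.injEq]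
    exact ⟨b4, b1, b3⟩

/-- **Gowers' quadruple lemma** -/
theorem quad {F : ZMod p → ℝ} (hF : ∀ x, |F x| ≤ 1) {N : ℝ} (hN0 : 0 ≤ N) (hN : ∑ x, |F x| ≤ N)
    (B : Finset (ZMod p)) (jj : ZMod p → ZMod p) :
    (∑ h ∈ B, ‖ft (dl F h) (jj h)‖ ^ 2) ^ 4 ≤ N ^ 7 * p ^ 2 *
      (((B.image fun h => (h, jj h)).addEnergy (B.image fun h => (h, jj h)) : ℕ) : ℝ) := by
  classical
  have hp : (0 : ℝ) ≤ p := Nat.cast_nonneg _
  set Q : ℝ := (((B.image fun h => (h, jj h)).addEnergy (B.image fun h => (h, jj h)) : ℕ) : ℝ) with hQ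
  set W : ZMod p → ZMod p → ℂ := fun k x => ∑ h, beta B jj k h * ((F (x + h) * F (x + h + k) : ℝ) : ℂ)
    with hW
  set X : ℝ := ∑ h ∈ B, ‖ft (dl F h) (jj h)‖ ^ 2 with hX
  have hX0 : 0 ≤ X := Finset.sum_nonneg fun _ _ => by positivity
  -- step 1
  have s1 : (X : ℂ) = ∑ x, ∑ k, ((F x * F (x + k) : ℝ) : ℂ) * W k x := by
    rw [hX, Complex.ofReal_sum]
    have e1 : ∀ h, ((‖ft (dl F h) (jj h)‖ ^ 2 : ℝ) : ℂ) =
        ∑ x, ∑ k, ((F x * F (x + h) * (F (x + k) * F (x + k + h)) : ℝ) : ℂ) * chi (jj h * k) := by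
      intro h
      exact sq_ft (fun x => F x * F (x + h)) (jj h)
    rw [Finset.sum_congr rfl fun h _ => e1 h, Finset.sum_comm]
    refine Finset.sum_congr rfl fun x _ => ?_
    rw [Finset.sum_comm]
    refine Finset.sum_congr rfl fun k _ => ?_
    simp only [hW]
    rw [Finset.mul_sum, ← Finset.sum_subset (Finset.subset_univ B)]
    · refine Finset.sum_congr rfl fun h hh => ?_
      unfold beta
      rw [if_pos hh]
      have e2 : x + k + h = x + h + k := by ring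
      rw [e2]
      push_cast
      ring
    · intro h _ hh
      unfold beta
      rw [if_neg hh]
      simp
  -- step 2
  have s2 : X ^ 2 ≤ N ^ 2 * ∑ x, ∑ k, ‖W k x‖ ^ 2 := by
    have a1 : X ≤ ∑ q : ZMod p × ZMod p, |F q.1 * F (q.1 + q.2)| * ‖W q.2 q.1‖ := by
      have : X = ‖(X : ℂ)‖ := by rw [Complex.norm_real, Real.norm_of_nonneg hX0]
      rw [this, s1, ← Fintype.sum_prod_type' (fun x k => ((F x * F (x + k) : ℝ) : ℂ) * W k x)]
      refine (norm_sum_le _ _).trans (le_of_eq (Finset.sum_congr rfl fun q _ => ?_))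
      rw [norm_mul, Complex.norm_real, Real.norm_eq_abs]
    have a2 := Finset.sum_mul_sq_le_sq_mul_sq (Finset.univ : Finset (ZMod p × ZMod p))
      (fun q => |F q.1 * F (q.1 + q.2)|) (fun q => ‖W q.2 q.1‖)
    have a3 : ∑ q : ZMod p × ZMod p, |F q.1 * F (q.1 + q.2)| ^ 2 ≤ N ^ 2 := by
      calc ∑ q : ZMod p × ZMod p, |F q.1 * F (q.1 + q.2)| ^ 2
          ≤ ∑ q : ZMod p × ZMod p, |F q.1| * |F (q.1 + q.2)| := by
            refine Finset.sum_le_sum fun q _ => ?_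
            rw [abs_mul, mul_pow]
            have b1 : |F q.1| ^ 2 ≤ |F q.1| := by
              rw [sq]; exact mul_le_of_le_one_right (abs_nonneg _) (hF _)
            have b2 : |F (q.1 + q.2)| ^ 2 ≤ |F (q.1 + q.2)| := by
              rw [sq]; exact mul_le_of_le_one_right (abs_nonneg _) (hF _)
            exact mul_le_mul b1 b2 (by positivity) (abs_nonneg _)
        _ = ∑ x, |F x| * ∑ k, |F (x + k)| := by
            rw [Fintype.sum_prod_type]
            refine Finset.sum_congr rfl fun x _ => ?_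
            rw [Finset.mul_sum]
        _ = (∑ y, |F y|) * (∑ y, |F y|) := by
            rw [Finset.sum_mul]
            refine Finset.sum_congr rfl fun y _ => ?_
            congr 1
            exact Fintype.sum_equiv (Equiv.addLeft y) _ _ fun x => rfl
        _ ≤ N ^ 2 := by
            rw [sq]
            exact mul_le_mul hN hN (Finset.sum_nonneg fun _ _ => abs_nonneg _) hN0
    calc X ^ 2 ≤ (∑ q : ZMod p × ZMod p, |F q.1 * F (q.1 + q.2)| * ‖W q.2 q.1‖) ^ 2 :=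
          pow_le_pow_left₀ hX0 a1 2
      _ ≤ _ := a2
      _ ≤ N ^ 2 * ∑ q : ZMod p × ZMod p, ‖W q.2 q.1‖ ^ 2 :=
          mul_le_mul_of_nonneg_right a3 (Finset.sum_nonneg fun _ _ => by positivity)
      _ = _ := by rw [Fintype.sum_prod_type]
  -- step 3
  have s3 : ∀ k, (∑ x, ‖W k x‖ ^ 2) ^ 2 ≤
      N ^ 3 * ∑ d, ‖∑ h, beta B jj k h * (starRingEnd ℂ) (beta B jj k (h + d))‖ ^ 2 := by
    intro k
    set D : ZMod p → ℝ := fun y => F y * F (y + k) with hD
    have hD1 : ∀ x, |D x| ≤ 1 := fun x => by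
      rw [hD]; simp only [abs_mul]
      exact mul_le_one₀ (hF _) (abs_nonneg _) (hF _)
    have hD2 : ∑ x, |D x| ≤ N := by
      refine (Finset.sum_le_sum fun x _ => ?_).trans hN
      rw [hD]; simp only [abs_mul]
      exact mul_le_of_le_one_right (abs_nonneg _) (hF _)
    have e := conv_sq (beta B jj k) D
    have e' : (∑ x, ‖W k x‖ ^ 2 : ℝ) ≤ ∑ d, ‖∑ h, beta B jj k h * (starRingEnd ℂ) (beta B jj k (h + d))‖ *
        |∑ y, D y * D (y + d)| := by
      have h0 : 0 ≤ ∑ x, ‖W k x‖ ^ 2 := Finset.sum_nonneg fun _ _ => by positivity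
      have : (∑ x, ‖W k x‖ ^ 2 : ℝ) = ‖((∑ x, ‖W k x‖ ^ 2 : ℝ) : ℂ)‖ := by
        rw [Complex.norm_real, Real.norm_of_nonneg h0]
      rw [this]
      have h5 : ((∑ x, ‖W k x‖ ^ 2 : ℝ) : ℂ) = ((∑ x, ‖∑ h, beta B jj k h * (D (x + h) : ℂ)‖ ^ 2 : ℝ) : ℂ) := rfl
      rw [h5, e]
      refine (norm_sum_le _ _).trans (le_of_eq (Finset.sum_congr rfl fun q _ => ?_))
      rw [norm_mul, Complex.norm_real, Real.norm_eq_abs]
    have h6 := Finset.sum_mul_sq_le_sq_mul_sq (Finset.univ : Finset (ZMod p))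
      (fun d => ‖∑ h, beta B jj k h * (starRingEnd ℂ) (beta B jj k (h + d))‖)
      (fun d => |∑ y, D y * D (y + d)|)
    have h7 := corr_energy hD1 hN0 hD2
    calc (∑ x, ‖W k x‖ ^ 2) ^ 2 ≤ _ :=
          pow_le_pow_left₀ (Finset.sum_nonneg fun _ _ => by positivity) e' 2
      _ ≤ _ := h6
      _ ≤ (∑ d, ‖∑ h, beta B jj k h * (starRingEnd ℂ) (beta B jj k (h + d))‖ ^ 2) * N ^ 3 := by
          refine mul_le_mul_of_nonneg_left ?_ (Finset.sum_nonneg fun _ _ => by positivity)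
          simp only [sq_abs]
          exact h7
      _ = _ := mul_comm _ _
  have s4 : (∑ x, ∑ k, ‖W k x‖ ^ 2) ^ 2 ≤ p * (N ^ 3 * (p * Q)) := by
    rw [Finset.sum_comm]
    have h8 := Finset.sum_mul_sq_le_sq_mul_sq (Finset.univ : Finset (ZMod p))
      (fun _ => (1 : ℝ)) (fun k => ∑ x, ‖W k x‖ ^ 2)
    simp only [one_mul, one_pow, Finset.sum_const, Finset.card_univ, ZMod.card, nsmul_eq_mul,
      mul_one] at h8
    refine h8.trans (mul_le_mul_of_nonneg_left ?_ hp)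
    refine (Finset.sum_le_sum fun k _ => s3 k).trans ?_
    rw [← Finset.mul_sum]
    exact mul_le_mul_of_nonneg_left (beta_energy B jj) (by positivity)
  calc X ^ 4 = (X ^ 2) ^ 2 := by ring
    _ ≤ (N ^ 2 * ∑ x, ∑ k, ‖W k x‖ ^ 2) ^ 2 := pow_le_pow_left₀ (by positivity) s2 2
    _ = N ^ 4 * (∑ x, ∑ k, ‖W k x‖ ^ 2) ^ 2 := by ring
    _ ≤ N ^ 4 * (p * (N ^ 3 * (p * Q))) := mul_le_mul_of_nonneg_left s4 (by positivity)
    _ = _ := by ring

end Pool.Agent.J4H80.QU
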