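import Pool.Agent.J4H80.QU.A

set_option autoImplicit false

/-! Correlations with linear phases of functions that are almost invariant under `n ↦ w n + b`. -/

namespace Pool.Agent.J4H80.QU

open Finset

/-- `exp (2 π i t)` -/
noncomputable def e (t : ℝ) : ℂ := Complex.exp (2 * Real.pi * t * Complex.I)

theorem norm_e (t : ℝ) : ‖e t‖ = 1 := by
  unfold e
  have : (2 * (Real.pi : ℂ) * t * Complex.I) = ((2 * Real.pi * t : ℝ) : ℂ) * Complex.I := by push_cast; ring
  rw [this, Complex.norm_exp_ofReal_mul_I]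

theorem e_add (s t : ℝ) : e (s + t) = e s * e t := by
  unfold e
  rw [← Complex.exp_add]
  congr 1
  push_cast
  ring

theorem e_sub_one (t : ℝ) : ‖e t - 1‖ ≤ 7 * |t| := by
  unfold e
  have : (2 * (Real.pi : ℂ) * t * Complex.I) = Complex.I * ((2 * Real.pi * t : ℝ) : ℂ) := by push_cast; ring
  rw [this]
  refine (Real.norm_exp_I_mul_ofReal_sub_one_le (x := 2 * Real.pi * t)).trans ?_
  rw [Real.norm_eq_abs, abs_mul, abs_of_pos (by positivity : 0 < 2 * Real.pi)]
  have := Real.pi_lt_d2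
  exact mul_le_mul_of_nonneg_right (by linarith) (abs_nonneg _)

theorem e_sub_e (s t : ℝ) : ‖e s - e t‖ ≤ 7 * |s - t| := by
  have h : e s - e t = e t * (e (s - t) - 1) := by
    rw [mul_sub, ← e_add, mul_one]
    congr 2
    ring
  rw [h, norm_mul, norm_e, one_mul]
  exact e_sub_one _

/-- the function `f` restricted to `[1, N]` -/
noncomputable def cut (f : ℤ → ℝ) (N : ℕ) (x : ℤ) : ℝ := if 1 ≤ x ∧ x ≤ N then f x else 0

theorem cut_abs {f : ℤ → ℝ} (hf : ∀ x, |f x| ≤ 1) (N : ℕ) (x : ℤ) : |cut f N x| ≤ 1 := by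
  unfold cut
  split_ifs
  · exact hf x
  · simp

/-- the correlation of `f(n) f(n+h)` with `e(-θ n)` -/
noncomputable def SZ (f : ℤ → ℝ) (N : ℕ) (h : ℤ) (θ : ℝ) : ℂ :=
  ∑ n ∈ Icc (1 : ℤ) N, ((cut f N n * cut f N (n + h) : ℝ) : ℂ) * e (-(θ * n))

/-- the exceptional integers for `w` -/
noncomputable def badset (f : ℤ → ℝ) (M w : ℕ) : Finset ℤ := by
  classical
  exact (Icc (1 : ℤ) M).filter fun m => ∃ b ∈ Finset.range (2 * w), f (w * m + b) ≠ f m

theorem mem_badset (f : ℤ → ℝ) (M w : ℕ) (m : ℤ) :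
    m ∈ badset f M w ↔ (1 ≤ m ∧ m ≤ M) ∧ ∃ b ∈ Finset.range (2 * w), f (w * m + b) ≠ f m := by
  classical
  unfold badset
  simp only [Finset.mem_filter, Finset.mem_Icc]

theorem card_shift (S X : Finset ℤ) (g : ℤ) [DecidablePred fun m : ℤ => m + g ∈ X] :
    (S.filter fun m => m + g ∈ X).card ≤ X.card := by
  apply Finset.card_le_card_of_injOn (fun m => m + g)
  · intro m hm
    rw [Finset.mem_coe, Finset.mem_filter] at hm
    exact hm.2
  · intro a _ b _ h
    exact add_right_cancel h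

/-- the comparison of the cut functions on one residue class -/
theorem cut_compare {f : ℤ → ℝ} (hf : ∀ x, |f x| ≤ 1) {N w : ℕ} (hw : 1 ≤ w) (g : ℤ) {c : ℤ}
    (hc0 : 0 ≤ c) (hc : c < 2 * w) :
    ∑ m ∈ Icc (1 : ℤ) ((N / w : ℕ) : ℤ), |cut f N (w * (m + g) + c) - cut f (N / w) (m + g)| ≤
      2 * ((badset f (N / w) w).card + 4 : ℝ) := by
  classical
  set M : ℕ := N / w with hM
  have hMw : M * w ≤ N := Nat.div_mul_le_self N w
  have hMw' : N < (M + 1) * w := by
    calc N < w * (M + 1) := Nat.lt_mul_div_succ N (by omega)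
      _ = _ := by ring
  have hMwZ : (M : ℤ) * w ≤ N := by exact_mod_cast hMw
  have hMwZ' : (N : ℤ) < (M + 1) * w := by exact_mod_cast hMw'
  have hwZ : (1 : ℤ) ≤ w := by exact_mod_cast hw
  set X : Finset ℤ := badset f M w ∪ {-1, 0, (M : ℤ) - 1, (M : ℤ)} with hX
  have hXc : (X.card : ℝ) ≤ (badset f M w).card + 4 := by
    have h1 : X.card ≤ (badset f M w).card + ({-1, 0, (M : ℤ) - 1, (M : ℤ)} : Finset ℤ).card :=
      Finset.card_union_le _ _
    have h2 : ({-1, 0, (M : ℤ) - 1, (M : ℤ)} : Finset ℤ).card ≤ 4 := Finset.card_le_four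
    exact_mod_cast h1.trans (Nat.add_le_add_left h2 _)
  have key : ∀ m : ℤ, m + g ∉ X → cut f N (w * (m + g) + c) = cut f M (m + g) := by
    intro m hm
    set m' : ℤ := m + g with hm'
    rw [hX, Finset.mem_union, not_or] at hm
    obtain ⟨hm1, hm2⟩ := hm
    simp only [Finset.mem_insert, Finset.mem_singleton, not_or] at hm2
    obtain ⟨a1, a2, a3, a4⟩ := hm2
    unfold cut
    rcases lt_or_ge m' 1 with h1 | h1
    · have h2 : m' ≤ -2 := by omega
      have h3 : ¬ (1 ≤ (w : ℤ) * m' + c ∧ (w : ℤ) * m' + c ≤ N) := by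
        intro h
        have : (w : ℤ) * m' ≤ w * (-2) := mul_le_mul_of_nonneg_left h2 (by omega)
        omega
      have h4 : ¬ (1 ≤ m' ∧ m' ≤ (M : ℤ)) := by omega
      rw [if_neg h3, if_neg h4]
    · rcases le_or_gt m' (M : ℤ) with h2 | h2
      · have h2' : m' ≤ M - 2 := by omega
        have h3 : (1 ≤ (w : ℤ) * m' + c ∧ (w : ℤ) * m' + c ≤ N) := by
          constructor
          · nlinarith
          · have : (w : ℤ) * m' ≤ w * (M - 2) := mul_le_mul_of_nonneg_left h2' (by omega)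
            nlinarith
        rw [if_pos h3, if_pos ⟨h1, h2⟩]
        by_contra hne
        apply hm1
        rw [mem_badset]
        refine ⟨⟨h1, h2⟩, c.toNat, ?_, ?_⟩
        · rw [Finset.mem_range]; omega
        · rw [Int.toNat_of_nonneg hc0]
          exact hne
      · have h3 : ¬ (1 ≤ (w : ℤ) * m' + c ∧ (w : ℤ) * m' + c ≤ N) := by
          intro h
          have : (w : ℤ) * (M + 1) ≤ w * m' := mul_le_mul_of_nonneg_left (by omega) (by omega)
          nlinarith
        have h4 : ¬ (1 ≤ m' ∧ m' ≤ (M : ℤ)) := by omega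
        rw [if_neg h3, if_neg h4]
  calc ∑ m ∈ Icc (1 : ℤ) (M : ℤ), |cut f N (w * (m + g) + c) - cut f M (m + g)|
      = ∑ m ∈ (Icc (1 : ℤ) (M : ℤ)).filter (fun m => m + g ∈ X),
          |cut f N (w * (m + g) + c) - cut f M (m + g)| := by
        symm
        apply Finset.sum_subset (Finset.filter_subset _ _)
        intro m hm hm'
        rw [Finset.mem_filter, not_and] at hm'
        rw [key m (hm' hm), sub_self, abs_zero]
    _ ≤ ∑ m ∈ (Icc (1 : ℤ) (M : ℤ)).filter (fun m => m + g ∈ X), (2 : ℝ) := by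
        refine Finset.sum_le_sum fun m _ => ?_
        have h1 := cut_abs hf N (w * (m + g) + c)
        have h2 := cut_abs hf M (m + g)
        have h3 := abs_sub (cut f N (w * (m + g) + c)) (cut f M (m + g))
        linarith
    _ = 2 * (((Icc (1 : ℤ) (M : ℤ)).filter (fun m => m + g ∈ X)).card : ℝ) := by
        rw [Finset.sum_const, nsmul_eq_mul, mul_comm]
    _ ≤ 2 * ((badset f M w).card + 4 : ℝ) := by
        have h1 := card_shift (Icc (1 : ℤ) (M : ℤ)) X g
        have h2 : (((Icc (1 : ℤ) (M : ℤ)).filter (fun m => m + g ∈ X)).card : ℝ) ≤ X.card := by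
          exact_mod_cast h1
        linarith

/-- splitting `[1, N]` into blocks of length `w` -/
theorem block_sum {G : ℤ → ℂ} (hG : ∀ n, ‖G n‖ ≤ 1) {N w : ℕ} (hw : 1 ≤ w)
    (hG0 : ∀ n : ℤ, (N : ℤ) < n → G n = 0) :
    ‖∑ n ∈ Icc (1 : ℤ) N, G n - ∑ i ∈ range w, ∑ m ∈ Icc (1 : ℤ) ((N / w : ℕ) : ℤ), G (w * m + i)‖ ≤ w := by
  classical
  set M : ℕ := N / w with hM
  have hMw : M * w ≤ N := Nat.div_mul_le_self N w
  have hMw' : N < (M + 1) * w := by
    calc N < w * (M + 1) := Nat.lt_mul_div_succ N (by omega)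
      _ = _ := by ring
  have hMwZ : (M : ℤ) * w ≤ N := by exact_mod_cast hMw
  have hMwZ' : (N : ℤ) < (M + 1) * w := by exact_mod_cast hMw'
  have hwZ : (1 : ℤ) ≤ w := by exact_mod_cast hw
  -- the double sum is a sum over `[w, (M+1) w)`
  have e1 : ∑ i ∈ range w, ∑ m ∈ Icc (1 : ℤ) (M : ℤ), G (w * m + i) =
      ∑ n ∈ Ico (w : ℤ) ((M + 1) * w), G n := by
    rw [← Finset.sum_product']
    apply Finset.sum_bij' (fun (q : ℕ × ℤ) _ => (w : ℤ) * q.2 + q.1)
      (fun (n : ℤ) _ => ((n % w).toNat, n / w))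
    · rintro ⟨i, m⟩ h
      rw [Finset.mem_product, Finset.mem_range, Finset.mem_Icc] at h
      rw [Finset.mem_Ico]
      simp only at h ⊢
      have hi : (i : ℤ) < w := by exact_mod_cast h.1
      constructor <;> nlinarith
    · intro n h
      rw [Finset.mem_Ico] at h
      rw [Finset.mem_product, Finset.mem_range, Finset.mem_Icc]
      simp only
      have h1 := Int.emod_nonneg n (by omega : (w : ℤ) ≠ 0)
      have h2 := Int.emod_lt_of_pos n (by omega : (0 : ℤ) < w)
      have h3 := Int.emod_add_mul_ediv n w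
      refine ⟨by omega, ?_, ?_⟩
      · exact (Int.le_ediv_iff_mul_le (by omega)).2 (by omega)
      · have := (Int.ediv_lt_iff_lt_mul (by omega : (0 : ℤ) < w)).2 h.2
        omega
    · rintro ⟨i, m⟩ h
      rw [Finset.mem_product, Finset.mem_range, Finset.mem_Icc] at h
      simp only at h ⊢
      have hi : (i : ℤ) < w := by exact_mod_cast h.1
      have h1 : ((w : ℤ) * m + i) % w = i := by
        rw [Int.mul_add_emod_self_left, Int.emod_eq_of_lt (by positivity) hi]
      have h2 : ((w : ℤ) * m + i) / w = m := by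
        rw [Int.mul_add_ediv_left _ _ (by omega), Int.ediv_eq_zero_of_lt (by positivity) hi, add_zero]
      rw [h1, h2]; simp
    · intro n h
      have h1 := Int.emod_nonneg n (by omega : (w : ℤ) ≠ 0)
      have h3 := Int.emod_add_mul_ediv n w
      simp only
      rw [Int.toNat_of_nonneg h1]
      omega
    · rintro ⟨i, m⟩ _; rfl
  rw [e1]
  -- the difference
  have e2 : ∑ n ∈ Ico (w : ℤ) ((M + 1) * w), G n =
      ∑ n ∈ (Icc (1 : ℤ) N).filter (fun n => (w : ℤ) ≤ n), G n := by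
    symm
    apply Finset.sum_subset
    · intro n hn
      rw [Finset.mem_filter, Finset.mem_Icc] at hn
      rw [Finset.mem_Ico]
      omega
    · intro n hn hn'
      rw [Finset.mem_Ico] at hn
      rw [Finset.mem_filter, Finset.mem_Icc] at hn'
      exact hG0 n (by by_contra h; exact hn' ⟨⟨by omega, by omega⟩, hn.1⟩)
  rw [e2, ← Finset.sum_filter_add_sum_filter_not (Icc (1 : ℤ) N) (fun n => (w : ℤ) ≤ n) G,
    add_sub_cancel_left]
  refine (norm_sum_le _ _).trans ?_
  calc ∑ n ∈ (Icc (1 : ℤ) N).filter (fun n => ¬ (w : ℤ) ≤ n), ‖G n‖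
      ≤ ∑ n ∈ (Icc (1 : ℤ) N).filter (fun n => ¬ (w : ℤ) ≤ n), (1 : ℝ) :=
        Finset.sum_le_sum fun n _ => hG n
    _ = (((Icc (1 : ℤ) N).filter (fun n => ¬ (w : ℤ) ≤ n)).card : ℝ) := by
        rw [Finset.sum_const, nsmul_eq_mul, mul_one]
    _ ≤ w := by
        norm_cast
        calc ((Icc (1 : ℤ) N).filter (fun n => ¬ (w : ℤ) ≤ n)).card ≤ (Icc (1 : ℤ) w).card := by
              apply Finset.card_le_card
              intro n hn
              rw [Finset.mem_filter, Finset.mem_Icc] at hn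
              rw [Finset.mem_Icc]
              omega
          _ = w := by rw [Int.card_Icc]; omega

/-- **the scaling of the correlations** -/
theorem scale {f : ℤ → ℝ} (hf : ∀ x, |f x| ≤ 1) {N w : ℕ} (hw : 1 ≤ w) (g l : ℤ) (hl0 : 0 ≤ l)
    (hl : l < w) (θ : ℝ) :
    ‖SZ f N (w * g + l) θ - w * SZ f (N / w) g (w * θ)‖ ≤
      w * (4 * ((badset f (N / w) w).card : ℝ) + 17) + 7 * |θ| * w * N := by
  classical
  set M : ℕ := N / w with hM
  have hMw : M * w ≤ N := Nat.div_mul_le_self N w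
  set G : ℤ → ℂ := fun n => ((cut f N n * cut f N (n + (w * g + l)) : ℝ) : ℂ) * e (-(θ * n)) with hG
  have hG1 : ∀ n, ‖G n‖ ≤ 1 := by
    intro n
    simp only [hG]
    rw [norm_mul, norm_e, mul_one, Complex.norm_real, Real.norm_eq_abs, abs_mul]
    exact mul_le_one₀ (cut_abs hf _ _) (abs_nonneg _) (cut_abs hf _ _)
  have hG0 : ∀ n : ℤ, (N : ℤ) < n → G n = 0 := by
    intro n hn
    simp only [hG]
    have : cut f N n = 0 := by unfold cut; rw [if_neg (by omega)]
    rw [this]; simp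
  have s1 := block_sum hG1 hw hG0
  set H : ℤ → ℂ := fun m => ((cut f M m * cut f M (m + g) : ℝ) : ℂ) * e (-(w * θ * m)) with hH
  have s2 : (w : ℂ) * SZ f M g (w * θ) = ∑ i ∈ range w, ∑ m ∈ Icc (1 : ℤ) (M : ℤ), H m := by
    rw [Finset.sum_const, Finset.card_range, nsmul_eq_mul]
    rfl
  have s3 : ∀ i ∈ range w, ‖∑ m ∈ Icc (1 : ℤ) (M : ℤ), G (w * m + i) - ∑ m ∈ Icc (1 : ℤ) (M : ℤ), H m‖ ≤
      4 * ((badset f M w).card + 4 : ℝ) + 7 * |θ| * w * M := by
    intro i hi
    rw [Finset.mem_range] at hi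
    rw [← Finset.sum_sub_distrib]
    refine (norm_sum_le _ _).trans ?_
    have t : ∀ m ∈ Icc (1 : ℤ) (M : ℤ), ‖G (w * m + i) - H m‖ ≤
        |cut f N (w * (m + 0) + i) - cut f M (m + 0)| +
        |cut f N (w * (m + g) + (i + l)) - cut f M (m + g)| + 7 * |θ| * w := by
      intro m _
      simp only [hG, hH, add_zero]
      have e1 : (w : ℤ) * m + i + (w * g + l) = w * (m + g) + (i + l) := by ring
      rw [e1]
      set a := cut f N (w * m + i)
      set b := cut f N (w * (m + g) + (i + l))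
      set a' := cut f M m
      set b' := cut f M (m + g)
      set E := e (-(θ * ((w * m + i : ℤ) : ℝ)))
      set E' := e (-(w * θ * m))
      have hE : ‖E - E'‖ ≤ 7 * |θ| * w := by
        refine (e_sub_e _ _).trans ?_
        have : -(θ * ((w * m + i : ℤ) : ℝ)) - -(w * θ * m) = -(θ * i) := by push_cast; ring
        rw [this, abs_neg, abs_mul, mul_assoc]
        refine mul_le_mul_of_nonneg_left (mul_le_mul_of_nonneg_left ?_ (abs_nonneg _)) (by norm_num)
        rw [abs_of_nonneg (Nat.cast_nonneg _)]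
        exact_mod_cast hi.le
      have ha' : |a'| ≤ 1 := cut_abs hf _ _
      have hb' : |b'| ≤ 1 := cut_abs hf _ _
      have hb : |b| ≤ 1 := cut_abs hf _ _
      have e2 : ((a * b : ℝ) : ℂ) * E - ((a' * b' : ℝ) : ℂ) * E' =
          (((a - a') * b : ℝ) : ℂ) * E + ((a' * (b - b') : ℝ) : ℂ) * E + ((a' * b' : ℝ) : ℂ) * (E - E') := by
        push_cast; ring
      rw [e2]
      refine (norm_add₃_le).trans ?_
      rw [norm_mul, norm_mul, norm_mul, Complex.norm_real, Complex.norm_real, Complex.norm_real,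
        Real.norm_eq_abs, Real.norm_eq_abs, Real.norm_eq_abs]
      have hE1 : ‖E‖ = 1 := norm_e _
      rw [hE1, mul_one, mul_one, abs_mul, abs_mul, abs_mul]
      have c1 : |a - a'| * |b| ≤ |a - a'| := mul_le_of_le_one_right (abs_nonneg _) hb
      have c2 : |a'| * |b - b'| ≤ |b - b'| := mul_le_of_le_one_left (abs_nonneg _) ha'
      have c3 : |a'| * |b'| * ‖E - E'‖ ≤ 7 * |θ| * w := by
        calc |a'| * |b'| * ‖E - E'‖ ≤ 1 * ‖E - E'‖ :=
              mul_le_mul_of_nonneg_right (mul_le_one₀ ha' (abs_nonneg _) hb') (norm_nonneg _)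
          _ = ‖E - E'‖ := one_mul _
          _ ≤ _ := hE
      linarith
    refine (Finset.sum_le_sum t).trans ?_
    rw [Finset.sum_add_distrib, Finset.sum_add_distrib]
    have u1 := cut_compare hf hw 0 (N := N) (c := (i : ℤ)) (by positivity) (by omega)
    have u2 := cut_compare hf hw g (N := N) (c := (i : ℤ) + l) (by positivity) (by omega)
    have u3 : ∑ m ∈ Icc (1 : ℤ) (M : ℤ), 7 * |θ| * (w : ℝ) = 7 * |θ| * w * M := by
      rw [Finset.sum_const, nsmul_eq_mul, Int.card_Icc]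
      have : ((M : ℤ) + 1 - 1).toNat = M := by rw [add_sub_cancel_right]; exact Int.toNat_natCast M
      rw [this]; ring
    rw [u3]
    linarith
  have s4 : ‖SZ f N (w * g + l) θ - w * SZ f M g (w * θ)‖ ≤
      w + w * (4 * ((badset f M w).card + 4 : ℝ) + 7 * |θ| * w * M) := by
    have e3 : SZ f N (w * g + l) θ - w * SZ f M g (w * θ) =
        (∑ n ∈ Icc (1 : ℤ) N, G n - ∑ i ∈ range w, ∑ m ∈ Icc (1 : ℤ) (M : ℤ), G (w * m + i)) +
        ∑ i ∈ range w, (∑ m ∈ Icc (1 : ℤ) (M : ℤ), G (w * m + i) - ∑ m ∈ Icc (1 : ℤ) (M : ℤ), H m) := by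
      rw [s2, Finset.sum_sub_distrib]
      have : SZ f N (w * g + l) θ = ∑ n ∈ Icc (1 : ℤ) N, G n := rfl
      rw [this]; ring
    rw [e3]
    refine (norm_add_le _ _).trans (add_le_add s1 ((norm_sum_le _ _).trans ?_))
    refine (Finset.sum_le_sum s3).trans (le_of_eq ?_)
    rw [Finset.sum_const, Finset.card_range, nsmul_eq_mul]
  refine s4.trans ?_
  have h5 : (w : ℝ) * M ≤ N := by
    have : ((M * w : ℕ) : ℝ) ≤ N := by exact_mod_cast hMw
    push_cast at this
    linarith
  have h6 : 7 * |θ| * w * ((w : ℝ) * M) ≤ 7 * |θ| * w * N :=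
    mul_le_mul_of_nonneg_left h5 (by positivity)
  nlinarith

/-- changing the length -/
theorem len_compare {f : ℤ → ℝ} (hf : ∀ x, |f x| ≤ 1) {M' M : ℕ} (hM : M' ≤ M) (g : ℤ) (θ : ℝ) :
    ‖SZ f M g θ - SZ f M' g θ‖ ≤ 2 * ((M : ℝ) - M') := by
  classical
  have e1 : SZ f M' g θ = ∑ n ∈ Icc (1 : ℤ) M, ((cut f M' n * cut f M' (n + g) : ℝ) : ℂ) * e (-(θ * n)) := by
    unfold SZ
    apply Finset.sum_subset
    · intro n hn
      rw [Finset.mem_Icc] at hn ⊢
      omega
    · intro n _ hn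
      rw [Finset.mem_Icc] at hn
      have : cut f M' n = 0 := by unfold cut; rw [if_neg (by omega)]
      rw [this]; simp
  rw [e1]
  unfold SZ
  rw [← Finset.sum_sub_distrib]
  refine (norm_sum_le _ _).trans ?_
  have hcut : ∀ x : ℤ, |cut f M x - cut f M' x| ≤ if (M' : ℤ) < x ∧ x ≤ M then 1 else 0 := by
    intro x
    unfold cut
    by_cases h1 : 1 ≤ x ∧ x ≤ (M : ℤ)
    · by_cases h2 : x ≤ (M' : ℤ)
      · rw [if_pos h1, if_pos ⟨h1.1, h2⟩, sub_self, abs_zero]
        split_ifs <;> norm_num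
      · rw [if_pos h1, if_neg (fun h => h2 h.2), sub_zero, if_pos ⟨by omega, h1.2⟩]
        exact hf x
    · rw [if_neg h1, if_neg (fun h => h1 ⟨h.1, by omega⟩), sub_self, abs_zero]
      split_ifs <;> norm_num
  calc ∑ n ∈ Icc (1 : ℤ) M, ‖((cut f M n * cut f M (n + g) : ℝ) : ℂ) * e (-(θ * n)) -
        ((cut f M' n * cut f M' (n + g) : ℝ) : ℂ) * e (-(θ * n))‖
      ≤ ∑ n ∈ Icc (1 : ℤ) M, ((if (M' : ℤ) < n ∧ n ≤ M then 1 else 0) +
          (if (M' : ℤ) < n + g ∧ n + g ≤ M then 1 else 0) : ℝ) := by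
        refine Finset.sum_le_sum fun n _ => ?_
        rw [← sub_mul, norm_mul, norm_e, mul_one, ← Complex.ofReal_sub, Complex.norm_real,
          Real.norm_eq_abs]
        have e2 : cut f M n * cut f M (n + g) - cut f M' n * cut f M' (n + g) =
            (cut f M n - cut f M' n) * cut f M (n + g) + cut f M' n * (cut f M (n + g) - cut f M' (n + g)) := by
          ring
        rw [e2]
        refine (abs_add_le _ _).trans ?_
        rw [abs_mul, abs_mul]
        refine add_le_add ?_ ?_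
        · exact (mul_le_of_le_one_right (abs_nonneg _) (cut_abs hf _ _)).trans (hcut n)
        · exact (mul_le_of_le_one_left (abs_nonneg _) (cut_abs hf _ _)).trans (hcut (n + g))
    _ ≤ 2 * ((M : ℝ) - M') := by
        rw [Finset.sum_add_distrib]
        have key : ∀ g : ℤ, ∑ n ∈ Icc (1 : ℤ) M, (if (M' : ℤ) < n + g ∧ n + g ≤ M then (1 : ℝ) else 0) ≤
            (M : ℝ) - M' := by
          intro g
          have h1 : ((Icc (1 : ℤ) M).filter fun n => n + g ∈ Ioc (M' : ℤ) M).card ≤ M - M' := by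
            refine (card_shift _ _ g).trans (le_of_eq ?_)
            rw [Int.card_Ioc]; omega
          have h2 : ∑ n ∈ Icc (1 : ℤ) M, (if (M' : ℤ) < n + g ∧ n + g ≤ M then (1 : ℝ) else 0) =
              (((Icc (1 : ℤ) M).filter fun n => n + g ∈ Ioc (M' : ℤ) M).card : ℝ) := by
            rw [Finset.card_filter]
            push_cast
            refine Finset.sum_congr rfl fun n _ => ?_
            simp only [Finset.mem_Ioc]
          rw [h2]
          have h3 : (((M - M' : ℕ)) : ℝ) = (M : ℝ) - M' := by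
            rw [Nat.cast_sub hM]
          rw [← h3]
          exact_mod_cast h1
        have k1 := key 0
        simp only [add_zero] at k1
        linarith [key g]

/-- changing the frequency -/
theorem freq_compare {f : ℤ → ℝ} (hf : ∀ x, |f x| ≤ 1) (N : ℕ) (h : ℤ) (θ θ' : ℝ) :
    ‖SZ f N h θ - SZ f N h θ'‖ ≤ 7 * |θ - θ'| * N ^ 2 := by
  unfold SZ
  rw [← Finset.sum_sub_distrib]
  refine (norm_sum_le _ _).trans ?_
  calc ∑ n ∈ Icc (1 : ℤ) N, ‖((cut f N n * cut f N (n + h) : ℝ) : ℂ) * e (-(θ * n)) -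
        ((cut f N n * cut f N (n + h) : ℝ) : ℂ) * e (-(θ' * n))‖
      ≤ ∑ n ∈ Icc (1 : ℤ) N, 7 * |θ - θ'| * N := by
        refine Finset.sum_le_sum fun n hn => ?_
        rw [Finset.mem_Icc] at hn
        rw [← mul_sub, norm_mul, Complex.norm_real, Real.norm_eq_abs, abs_mul]
        have h1 : |cut f N n| * |cut f N (n + h)| ≤ 1 :=
          mul_le_one₀ (cut_abs hf _ _) (abs_nonneg _) (cut_abs hf _ _)
        have h2 := e_sub_e (-(θ * n)) (-(θ' * n))
        have h3 : |(-(θ * n)) - (-(θ' * n))| ≤ |θ - θ'| * N := by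
          have : (-(θ * n)) - (-(θ' * n)) = -((θ - θ') * n) := by ring
          rw [this, abs_neg, abs_mul]
          refine mul_le_mul_of_nonneg_left ?_ (abs_nonneg _)
          rw [abs_of_nonneg (by exact_mod_cast (by omega : (0 : ℤ) ≤ n))]
          exact_mod_cast hn.2
        calc |cut f N n| * |cut f N (n + h)| * ‖e (-(θ * n)) - e (-(θ' * n))‖
            ≤ 1 * ‖e (-(θ * n)) - e (-(θ' * n))‖ := mul_le_mul_of_nonneg_right h1 (norm_nonneg _)
          _ = ‖e (-(θ * n)) - e (-(θ' * n))‖ := one_mul _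
          _ ≤ 7 * |(-(θ * n)) - (-(θ' * n))| := h2
          _ ≤ 7 * (|θ - θ'| * N) := mul_le_mul_of_nonneg_left h3 (by norm_num)
          _ = _ := by ring
    _ = 7 * |θ - θ'| * N ^ 2 := by
        rw [Finset.sum_const, nsmul_eq_mul, Int.card_Icc]
        have : ((N : ℤ) + 1 - 1).toNat = N := by omega
        rw [this]; ring

end Pool.Agent.J4H80.QU
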