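import Mathlib

set_option autoImplicit false

/-! The additive combinatorial step: a graph with small doubling and the relation `v z' - u z`. -/

namespace Pool.Agent.J4H80.QU

open Finset Pointwise

theorem pigeon {α β : Type*} [DecidableEq β] (P : Finset α) (f : α → β) (W : Finset β)
    (h : ∀ x ∈ P, f x ∈ W) (hP : P.Nonempty) :
    ∃ w ∈ W, (P.card : ℝ) ≤ W.card * ((P.filter fun x => f x = w).card : ℝ) := by
  obtain ⟨x, hx⟩ := hP
  have hW : W.Nonempty := ⟨f x, h x hx⟩
  obtain ⟨w, hw, hmax⟩ := Finset.exists_max_image W (fun w => (P.filter fun x => f x = w).card) hW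
  refine ⟨w, hw, ?_⟩
  have h1 := Finset.card_eq_sum_card_fiberwise (f := f) (s := P) (t := W) (fun x hx => h x hx)
  rw [h1]
  push_cast
  calc ∑ b ∈ W, ((P.filter fun x => f x = b).card : ℝ)
      ≤ ∑ b ∈ W, ((P.filter fun x => f x = w).card : ℝ) :=
        Finset.sum_le_sum fun b hb => by exact_mod_cast hmax b hb
    _ = _ := by rw [Finset.sum_const, nsmul_eq_mul]

variable {p : ℕ} [NeZero p]

omit [NeZero p] in
/-- the vectors `v z' - u z` with a given first coordinate are few -/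
theorem few_vectors {A : Finset (ZMod p × ZMod p)} (hA : A.Nonempty)
    (hgraph : ∀ a ∈ A, ∀ b ∈ A, a.1 = b.1 → a = b) {C : ℝ}
    (hC : ((A - A).card : ℝ) ≤ C * A.card) (u v : ℕ) (e : ZMod p)
    (W : Finset (ZMod p × ZMod p)) (hW : ∀ w ∈ W, w.1 = e ∧ ∃ z ∈ A, ∃ z' ∈ A, w = v • z' - u • z) :
    (W.card : ℝ) ≤ C ^ (u + v + 1) := by
  classical
  have hAc : (0 : ℝ) < A.card := by exact_mod_cast hA.card_pos
  -- Plünnecke
  have h1 := Finset.pluennecke_ruzsa_inequality_nsmul_sub_nsmul_sub hA A (v + 1) u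
  have h2 : (((v + 1) • A - u • A).card : ℝ) ≤ (((A - A).card : ℝ) / A.card) ^ (v + 1 + u) * A.card := by
    have := (NNRat.cast_le (K := ℝ)).2 h1
    push_cast at this
    exact this
  have h3 : ((A - A).card : ℝ) / A.card ≤ C := (div_le_iff₀ hAc).2 hC
  have h4 : (((v + 1) • A - u • A).card : ℝ) ≤ C ^ (v + 1 + u) * A.card :=
    h2.trans (mul_le_mul_of_nonneg_right (pow_le_pow_left₀ (by positivity) h3 _) hAc.le)
  -- the injection
  have h5 : (A ×ˢ W).card ≤ ((v + 1) • A - u • A).card := by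
    apply Finset.card_le_card_of_injOn (fun q => q.1 + q.2)
    · rintro ⟨a, w⟩ hq
      rw [Finset.mem_coe, Finset.mem_product] at hq
      obtain ⟨-, z, hz, z', hz', rfl⟩ := hW w hq.2
      rw [Finset.mem_coe]
      have e1 : a + (v • z' - u • z) = (v • z' + a) - u • z := by abel
      simp only [e1]
      apply Finset.sub_mem_sub
      · rw [add_nsmul, one_nsmul]
        exact Finset.add_mem_add (Finset.nsmul_mem_nsmul hz') hq.1
      · exact Finset.nsmul_mem_nsmul hz
    · rintro ⟨a, w⟩ hq ⟨b, w'⟩ hq' heq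
      rw [Finset.mem_coe, Finset.mem_product] at hq hq'
      simp only at heq
      have e1 : a.1 + w.1 = b.1 + w'.1 := congrArg Prod.fst heq
      rw [(hW w hq.2).1, (hW w' hq'.2).1] at e1
      have e2 := hgraph a hq.1 b hq'.1 (add_right_cancel e1)
      rw [e2] at heq
      rw [e2, add_left_cancel heq]
  rw [Finset.card_product] at h5
  have h6 : (A.card : ℝ) * W.card ≤ C ^ (v + 1 + u) * A.card := by
    refine le_trans ?_ h4
    exact_mod_cast h5
  have h7 : (A.card : ℝ) * W.card ≤ A.card * C ^ (u + v + 1) := by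
    refine h6.trans (le_of_eq ?_)
    have : v + 1 + u = u + v + 1 := by ring
    rw [this]; ring
  exact le_of_mul_le_mul_left h7 hAc

/-- many points of the graph have the same second coordinate -/
theorem comb {A : Finset (ZMod p × ZMod p)}
    (hgraph : ∀ a ∈ A, ∀ b ∈ A, a.1 = b.1 → a = b) {C : ℝ}
    (hC : ((A - A).card : ℝ) ≤ C * A.card) {P : Finset (ZMod p × ZMod p)} (hPA : P ⊆ A)
    (hP : P.Nonempty) (q : ZMod p × ZMod p → ZMod p × ZMod p) (hq : ∀ z ∈ P, q z ∈ A)
    {u v : ℕ} (huv : v < u) (E : Finset (ZMod p))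
    (hE : ∀ z ∈ P, (v • q z - u • z).1 ∈ E)
    (hb : ∀ z ∈ P, |((v : ℤ) * (q z).2.valMinAbs - u * z.2.valMinAbs)| * 2 < p)
    (he : ∀ z ∈ P, |((u : ℤ) * (q z).2.valMinAbs - v * z.2.valMinAbs)| ≤ 2 * u) :
    ∃ j : ZMod p, (P.card : ℝ) ≤ (E.card * C ^ (u + v + 1)) * (4 * u + 1) *
      ((A.filter fun z => z.2 = j).card : ℝ) := by
  classical
  have hA : A.Nonempty := hP.mono hPA
  have hAc : (0 : ℝ) < A.card := by exact_mod_cast hA.card_pos
  have hC0 : 0 ≤ C := by
    by_contra hneg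
    push Not at hneg
    have : C * A.card < 0 := mul_neg_of_neg_of_pos hneg hAc
    have h0 : (0 : ℝ) ≤ ((A - A).card : ℝ) := Nat.cast_nonneg _
    linarith
  set f : ZMod p × ZMod p → ZMod p × ZMod p := fun z => v • q z - u • z with hf
  set W : Finset (ZMod p × ZMod p) := P.image f with hWdef
  have hWc : (W.card : ℝ) ≤ E.card * C ^ (u + v + 1) := by
    have h1 := Finset.card_eq_sum_card_fiberwise (f := fun w : ZMod p × ZMod p => w.1) (s := W) (t := E)
      (fun w hw => by
        rw [Finset.mem_coe, hWdef, Finset.mem_image] at hw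
        obtain ⟨z, hz, rfl⟩ := hw
        exact hE z hz)
    rw [h1]
    push_cast
    calc ∑ e ∈ E, ((W.filter fun w => w.1 = e).card : ℝ) ≤ ∑ e ∈ E, C ^ (u + v + 1) := by
          refine Finset.sum_le_sum fun e _ => ?_
          apply few_vectors hA hgraph hC u v e
          intro w hw
          rw [Finset.mem_filter, hWdef, Finset.mem_image] at hw
          obtain ⟨⟨z, hz, rfl⟩, h2⟩ := hw
          exact ⟨h2, z, hPA hz, q z, hq z hz, rfl⟩
      _ = _ := by rw [Finset.sum_const, nsmul_eq_mul]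
  obtain ⟨w, -, hw⟩ := pigeon P f W (fun z hz => Finset.mem_image_of_mem f hz) hP
  set P' : Finset (ZMod p × ZMod p) := P.filter fun z => f z = w with hP'
  have hP'0 : P'.Nonempty := by
    rw [Finset.nonempty_iff_ne_empty]
    intro h0
    rw [h0, Finset.card_empty, Nat.cast_zero, mul_zero] at hw
    have : (0 : ℝ) < P.card := by exact_mod_cast hP.card_pos
    linarith
  -- second pigeonhole
  obtain ⟨e, -, he2⟩ := pigeon P' (fun z => (u : ℤ) * (q z).2.valMinAbs - v * z.2.valMinAbs)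
    (Finset.Icc (-(2 * u : ℤ)) (2 * u)) (fun z hz => by
      rw [hP', Finset.mem_filter] at hz
      rw [Finset.mem_Icc]
      exact abs_le.1 (he z hz.1)) hP'0
  set P'' : Finset (ZMod p × ZMod p) :=
    P'.filter fun z => (u : ℤ) * (q z).2.valMinAbs - v * z.2.valMinAbs = e with hP''
  have hP''0 : P''.Nonempty := by
    rw [Finset.nonempty_iff_ne_empty]
    intro h0
    rw [h0, Finset.card_empty, Nat.cast_zero, mul_zero] at he2
    have : (0 : ℝ) < P'.card := by exact_mod_cast hP'0.card_pos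
    linarith
  obtain ⟨z0, hz0⟩ := hP''0
  -- the value is constant
  have hval : ∀ z ∈ P', (v : ℤ) * (q z).2.valMinAbs - u * z.2.valMinAbs = w.2.valMinAbs := by
    intro z hz
    rw [hP', Finset.mem_filter] at hz
    have h1 := hb z hz.1
    symm
    rw [ZMod.valMinAbs_spec]
    constructor
    · rw [← hz.2]
      simp only [hf, Prod.snd_sub, Prod.smul_snd]
      push_cast
      rw [nsmul_eq_mul, nsmul_eq_mul]
    · have h2 := abs_lt.1 ((by rwa [abs_mul, abs_of_pos (by norm_num : (0 : ℤ) < 2)] :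
        |((v : ℤ) * (q z).2.valMinAbs - u * z.2.valMinAbs) * 2| < p))
      exact ⟨h2.1, h2.2.le⟩
  have hsame : ∀ z ∈ P'', z.2 = z0.2 := by
    intro z hz
    rw [hP'', Finset.mem_filter] at hz hz0
    have a1 := hval z hz.1
    have a2 := hval z0 hz0.1
    have a3 := hz.2
    have a4 := hz0.2
    have a5 : ((u : ℤ) ^ 2 - v ^ 2) * z.2.valMinAbs = ((u : ℤ) ^ 2 - v ^ 2) * z0.2.valMinAbs := by
      linear_combination (-(u : ℤ)) * a1 + u * a2 + v * a3 - v * a4
    have a6 : ((u : ℤ) ^ 2 - v ^ 2) ≠ 0 := by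
      have : (v : ℤ) < u := by exact_mod_cast huv
      have h0 : (0 : ℤ) ≤ v := by positivity
      nlinarith
    exact ZMod.injective_valMinAbs (mul_left_cancel₀ a6 a5)
  refine ⟨z0.2, ?_⟩
  have h8 : (P''.card : ℝ) ≤ ((A.filter fun z => z.2 = z0.2).card : ℝ) := by
    norm_cast
    apply Finset.card_le_card
    intro z hz
    rw [Finset.mem_filter]
    refine ⟨?_, hsame z hz⟩
    rw [hP'', Finset.mem_filter, hP', Finset.mem_filter] at hz
    exact hPA hz.1.1
  have h9 : (((Finset.Icc (-(2 * u : ℤ)) (2 * u)).card : ℕ) : ℝ) = 4 * u + 1 := by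
    rw [Int.card_Icc]
    have : (2 * (u : ℤ) + 1 - -(2 * u : ℤ)).toNat = 4 * u + 1 := by omega
    rw [this]; push_cast; ring
  rw [h9] at he2
  calc (P.card : ℝ) ≤ W.card * (P'.card : ℝ) := hw
    _ ≤ (E.card * C ^ (u + v + 1)) * ((4 * u + 1) * (P''.card : ℝ)) :=
        mul_le_mul hWc he2 (Nat.cast_nonneg _) (by positivity)
    _ ≤ (E.card * C ^ (u + v + 1)) * ((4 * u + 1) * ((A.filter fun z => z.2 = z0.2).card : ℝ)) := by
        gcongr
    _ = _ := by ring

end Pool.Agent.J4H80.QU
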