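import Pool.Agent.J4H80.QU.B
import Pool.Agent.J4H80.QU.C

set_option autoImplicit false

/-! Scaling of large correlations, the link between `ℤ` and `ZMod p`, small frequencies. -/

namespace Pool.Agent.J4H80.QU

open Finset

/-- **large correlations are carried to large correlations by `(h, θ) ↦ (u h / v, v θ / u)`** -/
theorem scale2 {f : ℤ → ℝ} (hf : ∀ x, |f x| ≤ 1) {N u v : ℕ} (hv : 1 ≤ v) (huv : v ≤ u) (h : ℤ)
    (θ : ℝ) {β : ℝ} (hβu : ((badset f (N / u) u).card : ℝ) ≤ β)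
    (hβv : ((badset f (N / v) v).card : ℝ) ≤ β) :
    ‖SZ f N h θ‖ - (u * (8 * β + 36) + 14 * |θ| * u * N + 2 * N * (((u : ℝ) - v) / v)) ≤
      ‖SZ f N ((u * h) / v) (v * θ / u)‖ := by
  have hu : 1 ≤ u := hv.trans huv
  have hvR : (0 : ℝ) < v := by exact_mod_cast hv
  have huR : (0 : ℝ) < u := by exact_mod_cast hu
  have huvR : (v : ℝ) ≤ u := by exact_mod_cast huv
  have hvZ : (0 : ℤ) < v := by exact_mod_cast hv
  have huZ : (0 : ℤ) < u := by exact_mod_cast hu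
  set g : ℤ := h / v with hg
  set l : ℤ := h % v with hl
  have hl0 : 0 ≤ l := Int.emod_nonneg _ hvZ.ne'
  have hl1 : l < v := Int.emod_lt_of_pos _ hvZ
  have hdec : h = v * g + l := (Int.mul_ediv_add_emod h v).symm
  set l' : ℤ := (u * l) / v with hl'
  have hl'0 : 0 ≤ l' := Int.ediv_nonneg (mul_nonneg huZ.le hl0) hvZ.le
  have hl'1 : l' < u := by
    rw [hl', Int.ediv_lt_iff_lt_mul hvZ]
    exact mul_lt_mul_of_pos_left hl1 huZ
  have hdec' : ((u : ℤ) * h) / v = u * g + l' := by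
    have : (u : ℤ) * h = u * l + v * (u * g) := by rw [hdec]; ring
    rw [this, Int.add_mul_ediv_left _ _ hvZ.ne', hl']
    ring
  have s1 := scale hf hv g l hl0 hl1 θ (N := N)
  have s2 := scale hf hu g l' hl'0 hl'1 (v * θ / u) (N := N)
  rw [← hdec] at s1
  rw [← hdec'] at s2
  have e1 : (u : ℝ) * (v * θ / u) = v * θ := by field_simp
  rw [e1] at s2
  have hMM : N / u ≤ N / v := Nat.div_le_div_left huv hv
  have s3 := len_compare hf hMM g (v * θ)
  have hfl : ((N / v : ℕ) : ℝ) - ((N / u : ℕ) : ℝ) ≤ N * ((u - v) / (u * v)) + 1 := by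
    have a1 : ((N / v : ℕ) : ℝ) ≤ N / v := Nat.cast_div_le
    have a2 : (N : ℝ) / u < ((N / u : ℕ) : ℝ) + 1 := by
      rw [div_lt_iff₀ huR]
      have : N < u * (N / u + 1) := Nat.lt_mul_div_succ N (by omega)
      have h2 : (N : ℝ) < ((u * (N / u + 1) : ℕ) : ℝ) := by exact_mod_cast this
      push_cast at h2
      linarith
    have a3 : (N : ℝ) / v - N / u = N * ((u - v) / (u * v)) := by field_simp
    linarith
  -- combine
  have n1 : ‖SZ f N h θ‖ - (v * (4 * ((badset f (N / v) v).card : ℝ) + 17) + 7 * |θ| * v * N) ≤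
      v * ‖SZ f (N / v) g (v * θ)‖ := by
    have := norm_sub_norm_le (SZ f N h θ) (v * SZ f (N / v) g (v * θ))
    rw [norm_mul, Complex.norm_natCast] at this
    linarith
  have n2 : (u : ℝ) * ‖SZ f (N / u) g (v * θ)‖ -
      (u * (4 * ((badset f (N / u) u).card : ℝ) + 17) + 7 * |v * θ / u| * u * N) ≤
      ‖SZ f N ((u * h) / v) (v * θ / u)‖ := by
    have := norm_sub_norm_le (u * SZ f (N / u) g (v * θ)) (SZ f N ((u * h) / v) (v * θ / u))
    rw [norm_mul, Complex.norm_natCast, norm_sub_rev] at this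
    linarith
  have n3 : ‖SZ f (N / v) g (v * θ)‖ - 2 * (N * ((u - v) / (u * v)) + 1) ≤ ‖SZ f (N / u) g (v * θ)‖ := by
    have := norm_sub_norm_le (SZ f (N / v) g (v * θ)) (SZ f (N / u) g (v * θ))
    linarith
  have n4 : (v : ℝ) * ‖SZ f (N / v) g (v * θ)‖ ≤ u * ‖SZ f (N / v) g (v * θ)‖ :=
    mul_le_mul_of_nonneg_right huvR (norm_nonneg _)
  have n5 := mul_le_mul_of_nonneg_left n3 huR.le
  have e2 : (u : ℝ) * (2 * (N * ((u - v) / (u * v)) + 1)) = 2 * N * (((u : ℝ) - v) / v) + 2 * u := by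
    field_simp
  have e3 : 7 * |v * θ / u| * u * N = 7 * |θ| * v * N := by
    rw [abs_div, abs_mul, abs_of_pos hvR, abs_of_pos huR]
    field_simp
  rw [e3] at n2
  have hN0 : (0 : ℝ) ≤ N := Nat.cast_nonneg _
  have hβ0 : 0 ≤ β := le_trans (Nat.cast_nonneg _) hβu
  have q1 : (v : ℝ) * (4 * ((badset f (N / v) v).card : ℝ) + 17) ≤ u * (4 * β + 17) :=
    mul_le_mul huvR (by linarith) (by
      have : (0 : ℝ) ≤ ((badset f (N / v) v).card : ℝ) := Nat.cast_nonneg _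
      linarith) huR.le
  have q2 : (u : ℝ) * (4 * ((badset f (N / u) u).card : ℝ) + 17) ≤ u * (4 * β + 17) :=
    mul_le_mul_of_nonneg_left (by linarith) huR.le
  have q3 : 7 * |θ| * v * N ≤ 7 * |θ| * u * N := by
    refine mul_le_mul_of_nonneg_right (mul_le_mul_of_nonneg_left huvR (by positivity)) hN0
  rw [mul_sub, e2] at n5
  linarith

/-- `|e(t) - 1| ≥ 4 |t|` -/
theorem four_le {t : ℝ} (ht : |t| ≤ 1 / 2) : 4 * |t| ≤ ‖e t - 1‖ := by
  have hpi := Real.pi_pos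
  have h1 : e t = Complex.exp (Complex.I * ((2 * Real.pi * t : ℝ) : ℂ)) := by
    unfold e; congr 1; push_cast; ring
  rw [h1, Complex.norm_exp_I_mul_ofReal_sub_one, norm_mul, Real.norm_eq_abs, Real.norm_eq_abs,
    abs_of_pos (by norm_num : (0 : ℝ) < 2)]
  have h2 : 2 * Real.pi * t / 2 = Real.pi * t := by ring
  rw [h2]
  have h3 : |Real.pi * t| ≤ Real.pi / 2 := by
    rw [abs_mul, abs_of_pos hpi]
    have := mul_le_mul_of_nonneg_left ht hpi.le
    linarith
  have h4 := Real.mul_abs_le_abs_sin h3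
  rw [abs_mul, abs_of_pos hpi] at h4
  have h5 : 2 / Real.pi * (Real.pi * |t|) = 2 * |t| := by field_simp
  rw [h5] at h4
  linarith

/-- large correlations occur at small frequencies only -/
theorem small_freq {f : ℤ → ℝ} (hf : ∀ x, |f x| ≤ 1) (N : ℕ) (h : ℤ) {θ : ℝ} (hθ : |θ| ≤ 1 / 2) :
    4 * |θ| * ‖SZ f N h θ‖ ≤ 4 * ((badset f N 1).card : ℝ) + 17 := by
  set G : ℤ → ℂ := fun n => ((cut f N n * cut f N (n + h) : ℝ) : ℂ) * e (-(θ * n)) with hG
  have e0 : SZ f N h θ = ∑ n ∈ Icc (1 : ℤ) N, G n := rfl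
  have hG1 : ‖G 1‖ ≤ 1 := by
    simp only [hG]
    rw [norm_mul, norm_e, mul_one, Complex.norm_real, Real.norm_eq_abs, abs_mul]
    exact mul_le_one₀ (cut_abs hf _ _) (abs_nonneg _) (cut_abs hf _ _)
  have hGN : G (N + 1) = 0 := by
    simp only [hG]
    have : cut f N ((N : ℤ) + 1) = 0 := by unfold cut; rw [if_neg (by omega)]
    rw [this]; simp
  have e1 : ∑ n ∈ Icc (1 : ℤ) N, G (n + 1) = ∑ n ∈ Icc (1 : ℤ) N, G n - G 1 := by
    have a1 : ∑ n ∈ Icc (1 : ℤ) N, G (n + 1) = ∑ n ∈ Icc (2 : ℤ) (N + 1), G n := by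
      refine Finset.sum_bij' (fun n _ => n + 1) (fun n _ => n - 1) ?_ ?_ ?_ ?_ ?_
      · intro n hn; rw [Finset.mem_Icc] at hn ⊢; omega
      · intro n hn; rw [Finset.mem_Icc] at hn ⊢; omega
      · intro n _; ring
      · intro n _; ring
      · intro n _; rfl
    have a2 : ∑ n ∈ Icc (1 : ℤ) (N + 1), G n = G 1 + ∑ n ∈ Icc (2 : ℤ) (N + 1), G n := by
      have : Icc (1 : ℤ) (N + 1) = insert 1 (Icc (2 : ℤ) (N + 1)) := by
        ext n; rw [Finset.mem_insert, Finset.mem_Icc, Finset.mem_Icc]; omega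
      rw [this, Finset.sum_insert (by rw [Finset.mem_Icc]; omega)]
    have a3 : ∑ n ∈ Icc (1 : ℤ) (N + 1), G n = ∑ n ∈ Icc (1 : ℤ) N, G n := by
      have : Icc (1 : ℤ) (N + 1) = insert ((N : ℤ) + 1) (Icc (1 : ℤ) N) := by
        ext n; rw [Finset.mem_insert, Finset.mem_Icc, Finset.mem_Icc]; omega
      rw [this, Finset.sum_insert (by rw [Finset.mem_Icc]; omega), hGN, zero_add]
    rw [a1]
    linear_combination a3 - a2
  have e2 : (1 - e (-θ)) * SZ f N h θ = ∑ n ∈ Icc (1 : ℤ) N,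
      ((cut f N (n + 1) * cut f N (n + 1 + h) - cut f N n * cut f N (n + h) : ℝ) : ℂ) * e (-(θ * (n + 1))) +
      G 1 := by
    have b1 : ∑ n ∈ Icc (1 : ℤ) N, ((cut f N (n + 1) * cut f N (n + 1 + h) -
        cut f N n * cut f N (n + h) : ℝ) : ℂ) * e (-(θ * (n + 1))) =
        ∑ n ∈ Icc (1 : ℤ) N, G (n + 1) - e (-θ) * ∑ n ∈ Icc (1 : ℤ) N, G n := by
      rw [Finset.mul_sum, ← Finset.sum_sub_distrib]
      refine Finset.sum_congr rfl fun n _ => ?_
      simp only [hG]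
      have b2 : e (-(θ * (n + 1))) = e (-θ) * e (-(θ * n)) := by
        rw [← e_add]; congr 1; ring
      have b3 : e (-(θ * ((n + 1 : ℤ) : ℝ))) = e (-θ) * e (-(θ * n)) := by
        rw [← e_add]; congr 1; push_cast; ring
      rw [b2, b3]
      push_cast
      ring
    rw [b1, e1, e0]
    ring
  have e3 : ‖(1 - e (-θ)) * SZ f N h θ‖ ≤ 4 * ((badset f N 1).card : ℝ) + 17 := by
    rw [e2]
    refine (norm_add_le _ _).trans ?_
    have c1 := cut_compare hf le_rfl 0 (N := N) (w := 1) (c := 1) (by norm_num) (by norm_num)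
    have c2 := cut_compare hf le_rfl h (N := N) (w := 1) (c := 1) (by norm_num) (by norm_num)
    rw [Nat.div_one] at c1 c2
    have c3 : ‖∑ n ∈ Icc (1 : ℤ) N, ((cut f N (n + 1) * cut f N (n + 1 + h) -
        cut f N n * cut f N (n + h) : ℝ) : ℂ) * e (-(θ * (n + 1)))‖ ≤
        ∑ n ∈ Icc (1 : ℤ) N, (|cut f N ((1 : ℕ) * (n + 0) + 1) - cut f N (n + 0)| +
          |cut f N ((1 : ℕ) * (n + h) + 1) - cut f N (n + h)|) := by
      refine (norm_sum_le _ _).trans (Finset.sum_le_sum fun n _ => ?_)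
      rw [norm_mul, norm_e, mul_one, Complex.norm_real, Real.norm_eq_abs]
      have d1 : ((1 : ℕ) : ℤ) * (n + 0) + 1 = n + 1 := by push_cast; ring
      have d2 : ((1 : ℕ) : ℤ) * (n + h) + 1 = n + 1 + h := by push_cast; ring
      rw [d1, d2, add_zero]
      have d3 : cut f N (n + 1) * cut f N (n + 1 + h) - cut f N n * cut f N (n + h) =
          (cut f N (n + 1) - cut f N n) * cut f N (n + 1 + h) +
          cut f N n * (cut f N (n + 1 + h) - cut f N (n + h)) := by ring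
      rw [d3]
      refine (abs_add_le _ _).trans ?_
      rw [abs_mul, abs_mul]
      exact add_le_add (mul_le_of_le_one_right (abs_nonneg _) (cut_abs hf _ _))
        (mul_le_of_le_one_left (abs_nonneg _) (cut_abs hf _ _))
    rw [Finset.sum_add_distrib] at c3
    linarith
  rw [norm_mul] at e3
  have h4 := four_le (t := -θ) (by rw [abs_neg]; exact hθ)
  rw [abs_neg, norm_sub_rev] at h4
  exact (mul_le_mul_of_nonneg_right h4 (norm_nonneg _)).trans e3

variable {p : ℕ} [NeZero p]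

/-- the restriction of `f` to `[1, N]` as a function on `ZMod p` -/
noncomputable def FF (f : ℤ → ℝ) (N : ℕ) (x : ZMod p) : ℝ := cut f N x.valMinAbs

theorem vma {a : ℤ} (ha : |a| * 2 < p) : ((a : ZMod p)).valMinAbs = a := by
  rw [ZMod.valMinAbs_spec]
  refine ⟨rfl, ?_, ?_⟩
  · have := neg_abs_le a; omega
  · have := le_abs_self a; omega

theorem FF_int (f : ℤ → ℝ) (N : ℕ) {a : ℤ} (ha : |a| * 2 < p) : FF f N (a : ZMod p) = cut f N a := by
  unfold FF
  rw [vma ha]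

omit [NeZero p] in
theorem FF_abs {f : ℤ → ℝ} (hf : ∀ x, |f x| ≤ 1) (N : ℕ) (x : ZMod p) : |FF f N x| ≤ 1 := cut_abs hf _ _

/-- sums over `ZMod p` of functions supported by `[1, N]` -/
theorem sum_FF {α : Type*} [AddCommMonoid α] {N : ℕ} (hp : 2 * N < p) (Φ : ZMod p → α)
    (hΦ : ∀ x : ZMod p, ¬ (1 ≤ x.valMinAbs ∧ x.valMinAbs ≤ N) → Φ x = 0) :
    ∑ x, Φ x = ∑ n ∈ Icc (1 : ℤ) N, Φ (n : ZMod p) := by
  classical
  rw [← Finset.sum_subset (Finset.subset_univ ((Icc (1 : ℤ) N).image (fun n : ℤ => (n : ZMod p))))]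
  · rw [Finset.sum_image]
    intro a ha b hb hab
    rw [Finset.mem_coe, Finset.mem_Icc] at ha hb
    have h1 := vma (p := p) (a := a) (by rw [abs_of_pos (by omega)]; omega)
    have h2 := vma (p := p) (a := b) (by rw [abs_of_pos (by omega)]; omega)
    simp only at hab
    rw [← h1, ← h2, hab]
  · intro x _ hx
    apply hΦ
    intro h
    apply hx
    rw [Finset.mem_image]
    exact ⟨x.valMinAbs, by rw [Finset.mem_Icc]; exact h, ZMod.coe_valMinAbs x⟩

omit [NeZero p] in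
theorem FF_zero (f : ℤ → ℝ) (N : ℕ) {x : ZMod p} (h : ¬ (1 ≤ x.valMinAbs ∧ x.valMinAbs ≤ N)) :
    FF f N x = 0 := by
  unfold FF cut
  rw [if_neg h]

theorem sum_FF_abs {f : ℤ → ℝ} (hf : ∀ x, |f x| ≤ 1) {N : ℕ} (hp : 2 * N < p) :
    ∑ x : ZMod p, |FF f N x| ≤ N := by
  rw [sum_FF hp _ (fun x hx => by rw [FF_zero f N hx, abs_zero])]
  calc ∑ n ∈ Icc (1 : ℤ) N, |FF f N (n : ZMod p)| ≤ ∑ n ∈ Icc (1 : ℤ) N, (1 : ℝ) :=
        Finset.sum_le_sum fun n _ => FF_abs hf _ _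
    _ = N := by
        rw [Finset.sum_const, nsmul_eq_mul, Int.card_Icc]
        have : ((N : ℤ) + 1 - 1).toNat = N := by omega
        rw [this]; ring

theorem chi_int (j n : ℤ) : chi (-((j : ZMod p) * (n : ZMod p))) = e (-((j / p : ℝ) * n)) := by
  have h1 : -((j : ZMod p) * (n : ZMod p)) = ((-(j * n) : ℤ) : ZMod p) := by push_cast; ring
  rw [h1]
  unfold chi e
  rw [ZMod.stdAddChar_coe]
  congr 1
  push_cast
  ring

theorem ft_dl (f : ℤ → ℝ) {N : ℕ} (hp : 8 * N + 8 < p) {h : ℤ} (hh : |h| ≤ 2 * N + 2) (j : ℤ) :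
    ft (dl (FF f N) (h : ZMod p)) (j : ZMod p) = SZ f N h (j / p) := by
  unfold ft SZ
  rw [sum_FF (N := N) (by omega)]
  · refine Finset.sum_congr rfl fun n hn => ?_
    rw [Finset.mem_Icc] at hn
    have h1 := abs_le.1 hh
    unfold dl
    have e1 : (n : ZMod p) + (h : ZMod p) = ((n + h : ℤ) : ZMod p) := by push_cast; ring
    rw [e1, FF_int f N (a := n), FF_int f N (a := n + h), chi_int]
    · have : |n + h| ≤ 3 * N + 2 := abs_le.2 ⟨by omega, by omega⟩
      omega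
    · rw [abs_of_pos (by omega)]; omega
  · intro x hx
    unfold dl
    rw [FF_zero f N hx]
    simp

theorem ft_FF (f : ℤ → ℝ) {N : ℕ} (hp : 2 * N < p) (j : ℤ) :
    ft (fun x => (FF f N x : ℂ)) (j : ZMod p) =
      ∑ n ∈ Icc (1 : ℤ) N, (f n : ℂ) * e (-((j / p : ℝ) * n)) := by
  unfold ft
  rw [sum_FF (N := N) hp]
  · refine Finset.sum_congr rfl fun n hn => ?_
    rw [Finset.mem_Icc] at hn
    show ((FF f N (n : ZMod p) : ℝ) : ℂ) * _ = _
    rw [FF_int f N (a := n) (by rw [abs_of_pos (by omega)]; omega), chi_int]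
    unfold cut
    rw [if_pos hn]
  · intro x hx
    show ((FF f N x : ℝ) : ℂ) * _ = _
    rw [FF_zero f N hx]
    simp

end Pool.Agent.J4H80.QU
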