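import Mathlib

set_option autoImplicit false

/-! Quotients of integers `2 ^ x 3 ^ y` near `1`; two of many large sets meet. -/

namespace Pool.Agent.J4H80.QU

open Finset

/-- there are integers `2 ^ x 3 ^ y` with quotient near one -/
theorem near_one {δ : ℝ} (hδ : 0 < δ) : ∃ x y x' y' : ℕ, 2 ^ x' * 3 ^ y' < 2 ^ x * 3 ^ y ∧
    ((2 ^ x * 3 ^ y : ℕ) : ℝ) ≤ (1 + δ) * ((2 ^ x' * 3 ^ y' : ℕ) : ℝ) := by
  have hl2 : 0 < Real.log 2 := Real.log_pos (by norm_num)
  have hl3 : 0 < Real.log 3 := Real.log_pos (by norm_num)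
  have hl23 : Real.log 2 < Real.log 3 := Real.log_lt_log (by norm_num) (by norm_num)
  have hlδ : 0 < Real.log (1 + δ) := Real.log_pos (by linarith)
  obtain ⟨n, hn⟩ := exists_nat_gt (1 / Real.log (1 + δ))
  have hn0 : 0 < n := by
    have h0 : (0 : ℝ) < 1 / Real.log (1 + δ) := by positivity
    exact_mod_cast h0.trans hn
  obtain ⟨j, k, hk, -, hjk⟩ := Real.exists_int_int_abs_mul_sub_le (Real.log 3 / Real.log 2) hn0
  have hkR : (1 : ℝ) ≤ k := by exact_mod_cast hk
  have h1 : |(k : ℝ) * Real.log 3 - j * Real.log 2| ≤ Real.log (1 + δ) := by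
    have e1 : (k : ℝ) * Real.log 3 - j * Real.log 2 = Real.log 2 * (k * (Real.log 3 / Real.log 2) - j) := by
      field_simp
    rw [e1, abs_mul, abs_of_pos hl2]
    have h2 : Real.log 2 ≤ 1 := by
      have := Real.log_two_lt_d9
      linarith
    have h3 : (1 : ℝ) / (n + 1) ≤ Real.log (1 + δ) := by
      rw [div_le_iff₀ (by positivity)]
      rw [div_lt_iff₀ hlδ] at hn
      nlinarith
    calc Real.log 2 * |(k : ℝ) * (Real.log 3 / Real.log 2) - j| ≤ 1 * (1 / (n + 1)) :=
          mul_le_mul h2 hjk (abs_nonneg _) zero_le_one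
      _ ≤ _ := by rw [one_mul]; exact h3
  have hj : 0 < j := by
    have h4 : (1 : ℝ) / (n + 1) < 1 := by
      rw [div_lt_one (by positivity)]
      have : (0 : ℝ) < n := by exact_mod_cast hn0
      linarith
    have h5 : 1 < Real.log 3 / Real.log 2 := (one_lt_div hl2).2 hl23
    have h6 := (abs_le.1 hjk).2
    have h7 : Real.log 3 / Real.log 2 ≤ k * (Real.log 3 / Real.log 2) :=
      le_mul_of_one_le_left (by positivity) hkR
    have h8 : (0 : ℝ) < j := by linarith
    exact_mod_cast h8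
  obtain ⟨j', rfl⟩ := Int.eq_ofNat_of_zero_le hj.le
  obtain ⟨k', rfl⟩ := Int.eq_ofNat_of_zero_le hk.le
  have hj' : 0 < j' := by exact_mod_cast hj
  have hk' : 0 < k' := by exact_mod_cast hk
  simp only [Int.cast_natCast] at h1
  have h9 : (k' : ℝ) * Real.log 3 = Real.log (3 ^ k') := (Real.log_pow _ _).symm
  have h10 : (j' : ℝ) * Real.log 2 = Real.log (2 ^ j') := (Real.log_pow _ _).symm
  rw [h9, h10] at h1
  have key : ∀ a b : ℝ, 0 < a → 0 < b → Real.log a - Real.log b ≤ Real.log (1 + δ) → a ≤ (1 + δ) * b := by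
    intro a b ha hb h
    rw [← Real.log_le_log_iff ha (by positivity), Real.log_mul (by positivity) (by positivity)]
    linarith
  have hne : (2 : ℕ) ^ j' ≠ 3 ^ k' := by
    intro h
    have h2 : 2 ∣ 3 ^ k' := by
      rw [← h]; exact dvd_pow_self 2 hj'.ne'
    have := Nat.Prime.dvd_of_dvd_pow Nat.prime_two h2
    omega
  rcases lt_or_gt_of_ne hne with h | h
  · refine ⟨0, k', j', 0, by simpa using h, ?_⟩
    push_cast
    rw [one_mul, mul_one]
    exact key _ _ (by positivity) (by positivity) ((le_abs_self _).trans h1)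
  · refine ⟨j', 0, 0, k', by simpa using h, ?_⟩
    push_cast
    rw [one_mul, mul_one]
    refine key _ _ (by positivity) (by positivity) ?_
    have := (abs_le.1 h1).1
    linarith

/-- two of many large subsets have a large intersection -/
theorem pairs {β : Type*} [DecidableEq β] {J : ℕ} (X : ℕ → Finset β) (Γ : Finset β) {m : ℕ}
    (hX : ∀ i < J, X i ⊆ Γ) (hXc : ∀ i < J, (X i).card = m) (hm : 0 < m) (hJ0 : 0 < J)
    (hJ : 4 * (Γ.card : ℝ) ≤ J * m) :
    ∃ i i' : ℕ, i < i' ∧ i' < J ∧ (m : ℝ) ^ 2 ≤ 2 * Γ.card * ((X i ∩ X i').card : ℝ) := by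
  by_contra hcon
  push Not at hcon
  have hΓ : 0 < Γ.card := by
    have h1 := Finset.card_le_card (hX 0 hJ0)
    rw [hXc 0 hJ0] at h1
    omega
  have hΓR : (0 : ℝ) < Γ.card := by exact_mod_cast hΓ
  have hmR : (0 : ℝ) < m := by exact_mod_cast hm
  have hJR : (0 : ℝ) < J := by exact_mod_cast hJ0
  set d : β → ℝ := fun w => ∑ i ∈ range J, if w ∈ X i then 1 else 0 with hd
  have s1 : ∑ w ∈ Γ, d w = J * m := by
    simp only [hd]
    rw [Finset.sum_comm]
    have : ∀ i ∈ range J, ∑ w ∈ Γ, (if w ∈ X i then (1 : ℝ) else 0) = m := by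
      intro i hi
      rw [Finset.mem_range] at hi
      rw [Finset.sum_ite_mem, Finset.inter_eq_right.2 (hX i hi), Finset.sum_const, nsmul_eq_mul,
        mul_one, hXc i hi]
    rw [Finset.sum_congr rfl this, Finset.sum_const, Finset.card_range, nsmul_eq_mul]
  have s2 : ∑ w ∈ Γ, d w ^ 2 = ∑ i ∈ range J, ∑ i' ∈ range J, ((X i ∩ X i').card : ℝ) := by
    simp only [hd, sq, Finset.sum_mul_sum]
    rw [Finset.sum_comm]
    refine Finset.sum_congr rfl fun i hi => ?_
    rw [Finset.sum_comm]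
    refine Finset.sum_congr rfl fun i' _ => ?_
    rw [Finset.mem_range] at hi
    have : ∀ w, (if w ∈ X i then (1 : ℝ) else 0) * (if w ∈ X i' then 1 else 0) =
        if w ∈ X i ∩ X i' then 1 else 0 := by
      intro w
      by_cases h1 : w ∈ X i <;> by_cases h2 : w ∈ X i' <;> simp [h1, h2]
    rw [Finset.sum_congr rfl fun w _ => this w, Finset.sum_ite_mem,
      Finset.inter_eq_right.2 (Finset.inter_subset_left.trans (hX i hi)), Finset.sum_const,
      nsmul_eq_mul, mul_one]
  have s3 : ∀ i < J, ∀ i' < J, ((X i ∩ X i').card : ℝ) ≤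
      (if i = i' then (m : ℝ) else 0) + (m : ℝ) ^ 2 / (2 * Γ.card) := by
    intro i hi i' hi'
    by_cases h : i = i'
    · subst h
      rw [if_pos rfl, Finset.inter_self, hXc i hi]
      have : 0 ≤ (m : ℝ) ^ 2 / (2 * Γ.card) := by positivity
      linarith
    · rw [if_neg h, zero_add, le_div_iff₀ (by positivity)]
      rcases lt_or_gt_of_ne h with h | h
      · have := hcon i i' h hi'
        linarith
      · have := hcon i' i h hi
        rw [Finset.inter_comm]
        linarith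
  have s4 : ∑ i ∈ range J, ∑ i' ∈ range J, ((X i ∩ X i').card : ℝ) ≤
      J * m + J * (J * ((m : ℝ) ^ 2 / (2 * Γ.card))) := by
    calc ∑ i ∈ range J, ∑ i' ∈ range J, ((X i ∩ X i').card : ℝ)
        ≤ ∑ i ∈ range J, ∑ i' ∈ range J, ((if i = i' then (m : ℝ) else 0) +
            (m : ℝ) ^ 2 / (2 * Γ.card)) := by
          refine Finset.sum_le_sum fun i hi => Finset.sum_le_sum fun i' hi' => ?_
          rw [Finset.mem_range] at hi hi'
          exact s3 i hi i' hi'
      _ = ∑ i ∈ range J, ((m : ℝ) + J * ((m : ℝ) ^ 2 / (2 * Γ.card))) := by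
          refine Finset.sum_congr rfl fun i hi => ?_
          rw [Finset.sum_add_distrib, Finset.sum_ite_eq, if_pos hi, Finset.sum_const,
            Finset.card_range, nsmul_eq_mul]
      _ = _ := by
          rw [Finset.sum_add_distrib, Finset.sum_const, Finset.sum_const, Finset.card_range,
            nsmul_eq_mul, nsmul_eq_mul]
  have s5 := Finset.sum_mul_sq_le_sq_mul_sq Γ (fun _ => (1 : ℝ)) d
  simp only [one_mul, one_pow, Finset.sum_const, nsmul_eq_mul, mul_one] at s5
  rw [s1, s2] at s5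
  have s6 : ((J : ℝ) * m) ^ 2 ≤ Γ.card * (J * m) + ((J : ℝ) * m) ^ 2 / 2 := by
    refine (s5.trans (mul_le_mul_of_nonneg_left s4 hΓR.le)).trans (le_of_eq ?_)
    field_simp
  have s7 : (J : ℝ) * m ≤ 2 * Γ.card := by
    have h1 : ((J : ℝ) * m) * ((J : ℝ) * m) ≤ ((J : ℝ) * m) * (2 * Γ.card) := by nlinarith
    exact le_of_mul_le_mul_left h1 (by positivity)
  linarith

end Pool.Agent.J4H80.QU
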