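import Pool.Agent.J4H80.QU.E
import Pool.Agent.J4H80.QU.D
import Pool.Agent.J4H80.QU.G
import Pool.Agent.H217R3.AK.Bsg

set_option autoImplicit false

/-! The Gowers norm of order three on `ZMod p` and on `[1, N]`. -/

namespace Pool.Agent.J4H80.QU

open Finset

variable {p : ℕ} [NeZero p]

/-- the eighth power of the (unnormalised) Gowers norm of order three -/
noncomputable def U3p (F : ZMod p → ℝ) : ℝ :=
  ∑ h, ∑ k, (∑ x, F x * F (x + h) * (F (x + k) * F (x + k + h))) ^ 2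

/-- the same for the restriction of `f` to `[1, N]` -/
noncomputable def U3Z (f : ℤ → ℝ) (N : ℕ) : ℝ :=
  ∑ h ∈ Icc (-(N : ℤ)) N, ∑ k ∈ Icc (-(N : ℤ)) N,
    (∑ n ∈ Icc (1 : ℤ) N, cut f N n * cut f N (n + h) * (cut f N (n + k) * cut f N (n + k + h))) ^ 2

/-- sums over the differences -/
theorem sum_diff {α : Type*} [AddCommMonoid α] {N : ℕ} (hp : 2 * N < p) (Φ : ZMod p → α)
    (hΦ : ∀ x : ZMod p, ¬ (|x.valMinAbs| ≤ N) → Φ x = 0) :
    ∑ x, Φ x = ∑ n ∈ Icc (-(N : ℤ)) N, Φ (n : ZMod p) := by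
  classical
  rw [← Finset.sum_subset (Finset.subset_univ ((Icc (-(N : ℤ)) N).image (fun n : ℤ => (n : ZMod p))))]
  · rw [Finset.sum_image]
    intro a ha b hb hab
    rw [Finset.mem_coe, Finset.mem_Icc] at ha hb
    have h1 := vma (p := p) (a := a) (by have := abs_le.2 ha; omega)
    have h2 := vma (p := p) (a := b) (by have := abs_le.2 hb; omega)
    simp only at hab
    rw [← h1, ← h2, hab]
  · intro x _ hx
    apply hΦ
    intro h
    apply hx
    rw [Finset.mem_image]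
    exact ⟨x.valMinAbs, by rw [Finset.mem_Icc]; exact abs_le.1 h, ZMod.coe_valMinAbs x⟩

/-- the support of the differences -/
theorem FF_diff (f : ℤ → ℝ) {N : ℕ} (hp : 2 * N < p) {h : ZMod p} (hh : ¬ (|h.valMinAbs| ≤ N))
    (x : ZMod p) : FF f N x * FF f N (x + h) = 0 := by
  by_contra hne
  have h1 : FF f N x ≠ 0 := fun h0 => hne (by rw [h0, zero_mul])
  have h2 : FF f N (x + h) ≠ 0 := fun h0 => hne (by rw [h0, mul_zero])
  have h3 : 1 ≤ x.valMinAbs ∧ x.valMinAbs ≤ N := by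
    by_contra h0; exact h1 (FF_zero f N h0)
  have h4 : 1 ≤ (x + h).valMinAbs ∧ (x + h).valMinAbs ≤ N := by
    by_contra h0; exact h2 (FF_zero f N h0)
  apply hh
  have h5 : h = (((x + h).valMinAbs - x.valMinAbs : ℤ) : ZMod p) := by
    push_cast
    ring
  have h6 : |(x + h).valMinAbs - x.valMinAbs| ≤ (N : ℤ) := abs_le.2 ⟨by omega, by omega⟩
  rw [h5, vma (by omega)]
  exact h6

theorem U3_link (f : ℤ → ℝ) {N : ℕ} (hp : 8 * N + 8 < p) : U3p (FF f N : ZMod p → ℝ) = U3Z f N := by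
  unfold U3p U3Z
  rw [sum_diff (N := N) (by omega)]
  · refine Finset.sum_congr rfl fun h hh => ?_
    rw [Finset.mem_Icc] at hh
    rw [sum_diff (N := N) (by omega)]
    · refine Finset.sum_congr rfl fun k hk => ?_
      rw [Finset.mem_Icc] at hk
      congr 1
      rw [sum_FF (N := N) (by omega)]
      · refine Finset.sum_congr rfl fun n hn => ?_
        rw [Finset.mem_Icc] at hn
        have e1 : (n : ZMod p) + (h : ZMod p) = ((n + h : ℤ) : ZMod p) := by push_cast; ring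
        have e2 : (n : ZMod p) + (k : ZMod p) = ((n + k : ℤ) : ZMod p) := by push_cast; ring
        have e3 : ((n + k : ℤ) : ZMod p) + (h : ZMod p) = ((n + k + h : ℤ) : ZMod p) := by push_cast; ring
        rw [e2, e3, e1]
        have b1 : |n| ≤ 3 * N := abs_le.2 ⟨by omega, by omega⟩
        have b2 : |n + h| ≤ 3 * N := abs_le.2 ⟨by omega, by omega⟩
        have b3 : |n + k| ≤ 3 * N := abs_le.2 ⟨by omega, by omega⟩
        have b4 : |n + k + h| ≤ 3 * N := abs_le.2 ⟨by omega, by omega⟩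
        rw [FF_int f N (by omega), FF_int f N (by omega), FF_int f N (by omega), FF_int f N (by omega)]
      · intro x hx
        rw [FF_zero f N hx]; ring
    · intro k hk
      have : ∀ x : ZMod p, FF f N x * FF f N (x + (h : ZMod p)) *
          (FF f N (x + k) * FF f N (x + k + (h : ZMod p))) = 0 := by
        intro x
        have h1 := FF_diff f (p := p) (by omega : 2 * N < p) hk x
        calc _ = (FF f N x * FF f N (x + k)) * (FF f N (x + (h : ZMod p)) * FF f N (x + k + (h : ZMod p))) := by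
              ring
          _ = 0 := by rw [h1, zero_mul]
      simp only [this, Finset.sum_const_zero]
      norm_num
  · intro h hh
    have : ∀ k x : ZMod p, FF f N x * FF f N (x + h) * (FF f N (x + k) * FF f N (x + k + h)) = 0 := by
      intro k x
      rw [FF_diff f (p := p) (by omega : 2 * N < p) hh x, zero_mul]
    simp only [this, Finset.sum_const_zero]
    norm_num

/-- the largest Fourier coefficients of the derivatives -/
theorem exists_jj (F : ZMod p → ℝ) : ∃ jj : ZMod p → ZMod p, ∀ h j, ‖ft (dl F h) j‖ ≤ ‖ft (dl F h) (jj h)‖ := by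
  have : ∀ h, ∃ j0, ∀ j, ‖ft (dl F h) j‖ ≤ ‖ft (dl F h) j0‖ := by
    intro h
    obtain ⟨j0, -, h0⟩ := Finset.exists_max_image (Finset.univ : Finset (ZMod p))
      (fun j => ‖ft (dl F h) j‖) Finset.univ_nonempty
    exact ⟨j0, fun j => h0 j (Finset.mem_univ j)⟩
  choose jj hjj using this
  exact ⟨jj, hjj⟩

theorem sum_dl_sq {F : ZMod p → ℝ} (hF : ∀ x, |F x| ≤ 1) {N : ℝ} (hN : ∑ x, |F x| ≤ N) (h : ZMod p) :
    ∑ x, ‖dl F h x‖ ^ 2 ≤ N := by
  refine (Finset.sum_le_sum fun x _ => ?_).trans hN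
  unfold dl
  rw [Complex.norm_real, Real.norm_eq_abs, abs_mul, mul_pow]
  have h1 := hF x
  have h2 := hF (x + h)
  calc |F x| ^ 2 * |F (x + h)| ^ 2 ≤ |F x| * 1 := by
        refine mul_le_mul ?_ ?_ (by positivity) (abs_nonneg _)
        · rw [sq]; exact mul_le_of_le_one_right (abs_nonneg _) h1
        · exact pow_le_one₀ (abs_nonneg _) h2
    _ = |F x| := mul_one _

/-- the Gowers norm and the largest Fourier coefficients -/
theorem U3_le {F : ZMod p → ℝ} (hF : ∀ x, |F x| ≤ 1) {N : ℝ} (hN : ∑ x, |F x| ≤ N)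
    {jj : ZMod p → ZMod p} (hjj : ∀ h j, ‖ft (dl F h) j‖ ≤ ‖ft (dl F h) (jj h)‖) :
    U3p F ≤ N * ∑ h, ‖ft (dl F h) (jj h)‖ ^ 2 := by
  unfold U3p
  rw [Finset.mul_sum]
  refine Finset.sum_le_sum fun h _ => ?_
  have h1 := corr_sq_le (dl F h) (dl F h) (hjj h)
  have h2 : ∀ k, (∑ x, F x * F (x + h) * (F (x + k) * F (x + k + h))) ^ 2 =
      ‖∑ x, dl F h x * dl F h (x + k)‖ ^ 2 := by
    intro k
    have e1 : ∑ x, dl F h x * dl F h (x + k) =
        ((∑ x, F x * F (x + h) * (F (x + k) * F (x + k + h)) : ℝ) : ℂ) := by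
      unfold dl
      push_cast
      rfl
    rw [e1, Complex.norm_real, Real.norm_eq_abs, sq_abs]
  rw [Finset.sum_congr rfl fun k _ => h2 k]
  refine h1.trans ?_
  rw [mul_comm]
  exact mul_le_mul_of_nonneg_right (sum_dl_sq hF hN h) (by positivity)

theorem norm_ft_le {F : ZMod p → ℝ} (hF : ∀ x, |F x| ≤ 1) {N : ℝ} (hN : ∑ x, |F x| ≤ N) (h j : ZMod p) :
    ‖ft (dl F h) j‖ ≤ N := by
  unfold ft
  refine (norm_sum_le _ _).trans ((Finset.sum_le_sum fun x _ => ?_).trans hN)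
  rw [norm_mul, norm_chi, mul_one]
  unfold dl
  rw [Complex.norm_real, Real.norm_eq_abs, abs_mul]
  exact mul_le_of_le_one_right (abs_nonneg _) (hF _)

/-- a fixed frequency cannot be popular if the Fourier coefficients of `F` are small -/
theorem popular {F : ZMod p → ℝ} (hF : ∀ x, |F x| ≤ 1) {N : ℝ} (hN : ∑ x, |F x| ≤ N) {M : ℝ}
    (hM : ∀ j, ‖ft (fun x => (F x : ℂ)) j‖ ≤ M) (j : ZMod p) (S : Finset (ZMod p)) {c : ℝ} (hc : 0 ≤ c)
    (hS : ∀ h ∈ S, c ≤ ‖ft (dl F h) j‖) : (S.card : ℝ) * c ^ 2 ≤ M ^ 2 * N := by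
  have h1 := corr_sq_le (fun x => (F x : ℂ) * chi (-(j * x))) (fun x => (F x : ℂ)) hM
  have h2 : ∀ h, ∑ x, (F x : ℂ) * chi (-(j * x)) * (F (x + h) : ℂ) = ft (dl F h) j := by
    intro h
    unfold ft dl
    refine Finset.sum_congr rfl fun x _ => ?_
    push_cast
    ring
  simp only [h2] at h1
  have h3 : ∑ x, ‖(F x : ℂ) * chi (-(j * x))‖ ^ 2 ≤ N := by
    refine (Finset.sum_le_sum fun x _ => ?_).trans hN
    rw [norm_mul, norm_chi, mul_one, Complex.norm_real, Real.norm_eq_abs, sq]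
    exact mul_le_of_le_one_right (abs_nonneg _) (hF _)
  calc (S.card : ℝ) * c ^ 2 = ∑ h ∈ S, c ^ 2 := by rw [Finset.sum_const, nsmul_eq_mul]
    _ ≤ ∑ h ∈ S, ‖ft (dl F h) j‖ ^ 2 := Finset.sum_le_sum fun h hh => pow_le_pow_left₀ hc (hS h hh) 2
    _ ≤ ∑ h, ‖ft (dl F h) j‖ ^ 2 := Finset.sum_le_sum_of_subset_of_nonneg (Finset.subset_univ _)
        fun _ _ _ => by positivity
    _ ≤ _ := h1
    _ ≤ M ^ 2 * N := mul_le_mul_of_nonneg_left h3 (by positivity)

theorem floor_inj {u v h1 h2 : ℤ} (hv : 1 ≤ v) (huv : v ≤ u) (h : (u * h1) / v = (u * h2) / v) :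
    h1 = h2 := by
  have key : ∀ a b : ℤ, a < b → (u * a) / v < (u * b) / v := by
    intro a b hab
    have e1 : (u * a) / v + 1 = (u * a + 1 * v) / v := by
      rw [Int.add_mul_ediv_right _ _ (by omega)]
    have e2 : (u * a + 1 * v) / v ≤ (u * b) / v := by
      apply Int.ediv_le_ediv (by omega)
      nlinarith
    omega
  rcases lt_trichotomy h1 h2 with h3 | h3 | h3
  · have := key _ _ h3; omega
  · exact h3
  · have := key _ _ h3; omega

/-- the two relations between points with the same image -/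
theorem floor_rel {u1 v1 u v h1 h2 : ℤ} (hv1 : 1 ≤ v1) (hu1 : v1 ≤ u1) (hv : 1 ≤ v)
    (h : (u1 * h1) / v1 = (u1 * u * h2) / (v1 * v)) : |v * h1 - u * h2| ≤ v := by
  set t := (u1 * h1) / v1 with ht
  have a1 : t * v1 ≤ u1 * h1 := Int.ediv_mul_le _ (by omega)
  have a2 : u1 * h1 < (t + 1) * v1 := Int.lt_ediv_add_one_mul_self _ (by omega)
  have hvv : 0 < v1 * v := by positivity
  have a3 : t * (v1 * v) ≤ u1 * u * h2 := by rw [h]; exact Int.ediv_mul_le _ hvv.ne'
  have a4 : u1 * u * h2 < (t + 1) * (v1 * v) := by rw [h]; exact Int.lt_ediv_add_one_mul_self _ hvv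
  have b1 : u1 * (v * h1 - u * h2) < v1 * v := by nlinarith
  have b2 : -(v1 * v) < u1 * (v * h1 - u * h2) := by nlinarith
  rw [abs_le]
  constructor
  · by_contra hc
    push Not at hc
    have : u1 * (v * h1 - u * h2) ≤ u1 * (-v) := mul_le_mul_of_nonneg_left (by omega) (by omega)
    nlinarith
  · by_contra hc
    push Not at hc
    have : u1 * v ≤ u1 * (v * h1 - u * h2) := mul_le_mul_of_nonneg_left (by omega) (by omega)
    nlinarith

theorem floor_rel2 {u1 v1 u v j1 j2 : ℤ} (hv1 : 1 ≤ v1) (hu1 : v1 ≤ u1) (hu2 : u1 ≤ 2 * v1)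
    (hv : 1 ≤ v) (hu : v ≤ u)
    (h : (v1 * j1) / u1 = (v1 * v * j2) / (u1 * u)) : |u * j1 - v * j2| ≤ 2 * u := by
  set s := (v1 * j1) / u1 with hs
  have a1 : s * u1 ≤ v1 * j1 := Int.ediv_mul_le _ (by omega)
  have a2 : v1 * j1 < (s + 1) * u1 := Int.lt_ediv_add_one_mul_self _ (by omega)
  have hu1' : 0 < u1 := by omega
  have hu' : 0 < u := by omega
  have huu : 0 < u1 * u := by positivity
  have a3 : s * (u1 * u) ≤ v1 * v * j2 := by rw [h]; exact Int.ediv_mul_le _ huu.ne'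
  have a4 : v1 * v * j2 < (s + 1) * (u1 * u) := by rw [h]; exact Int.lt_ediv_add_one_mul_self _ huu
  have b1 : v1 * (u * j1 - v * j2) < u1 * u := by nlinarith
  have b2 : -(u1 * u) < v1 * (u * j1 - v * j2) := by nlinarith
  rw [abs_le]
  constructor
  · by_contra hc
    push Not at hc
    have : v1 * (u * j1 - v * j2) ≤ v1 * (-(2 * u)) := mul_le_mul_of_nonneg_left (by omega) (by omega)
    nlinarith
  · by_contra hc
    push Not at hc
    have : v1 * (2 * u) ≤ v1 * (u * j1 - v * j2) := mul_le_mul_of_nonneg_left (by omega) (by omega)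
    nlinarith

end Pool.Agent.J4H80.QU
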