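import Pool.Agent.J4H80.QU.H1

set_option autoImplicit false

/-! The contradiction: a large Gowers norm of order three and small Fourier coefficients are not
compatible with the invariance under `n ↦ w n + b`. -/

namespace Pool.Agent.J4H80.QU

open Finset Pointwise

variable {p : ℕ} [NeZero p]

/-- the map `(h, j) ↦ (u h / v, v j / u)` -/
noncomputable def phi (u v : ℕ) (z : ZMod p × ZMod p) : ZMod p × ZMod p :=
  ((((u : ℤ) * z.1.valMinAbs / v : ℤ) : ZMod p), (((v : ℤ) * z.2.valMinAbs / u : ℤ) : ZMod p))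

/-- the pairs with a large correlation -/
noncomputable def Gam (F : ZMod p → ℝ) (N : ℕ) (c : ℝ) : Finset (ZMod p × ZMod p) := by
  classical
  exact Finset.univ.filter fun z => |z.1.valMinAbs| ≤ 2 * N + 2 ∧ c ≤ ‖ft (dl F z.1) z.2‖

theorem mem_Gam (F : ZMod p → ℝ) (N : ℕ) (c : ℝ) (z : ZMod p × ZMod p) :
    z ∈ Gam F N c ↔ |z.1.valMinAbs| ≤ 2 * N + 2 ∧ c ≤ ‖ft (dl F z.1) z.2‖ := by
  classical
  unfold Gam
  simp only [Finset.mem_filter, Finset.mem_univ, true_and]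

theorem card_Gam {F : ZMod p → ℝ} (hF : ∀ x, |F x| ≤ 1) {N : ℕ} (hN : ∑ x, |F x| ≤ (N : ℝ)) {c : ℝ}
    (hc : 0 < c) : ((Gam F N c).card : ℝ) ≤ (4 * N + 5) * (p * N / c ^ 2) := by
  classical
  set T : Finset (ZMod p) := Finset.univ.filter fun x => |x.valMinAbs| ≤ 2 * N + 2 with hT
  have hTc : (T.card : ℝ) ≤ 4 * N + 5 := by
    have h1 : T.card ≤ (Icc (-(2 * N + 2 : ℤ)) (2 * N + 2)).card := by
      apply Finset.card_le_card_of_injOn (fun x => x.valMinAbs)
      · intro x hx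
        rw [Finset.mem_coe, hT, Finset.mem_filter] at hx
        rw [Finset.mem_coe, Finset.mem_Icc]
        exact abs_le.1 hx.2
      · intro a _ b _ h
        exact ZMod.injective_valMinAbs h
    rw [Int.card_Icc] at h1
    have h2 : T.card ≤ 4 * N + 5 := by omega
    exact_mod_cast h2
  have h1 := Finset.card_eq_sum_card_fiberwise (f := fun z : ZMod p × ZMod p => z.1) (s := Gam F N c)
    (t := T) (fun z hz => by
      rw [Finset.mem_coe, mem_Gam] at hz
      rw [Finset.mem_coe, hT, Finset.mem_filter]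
      exact ⟨Finset.mem_univ _, hz.1⟩)
  rw [h1]
  push_cast
  calc ∑ h ∈ T, (((Gam F N c).filter fun z => z.1 = h).card : ℝ) ≤ ∑ h ∈ T, (p * N / c ^ 2 : ℝ) := by
        refine Finset.sum_le_sum fun h _ => ?_
        have h2 : ((Gam F N c).filter fun z => z.1 = h).card ≤
            ((Finset.univ.filter fun j => c ≤ ‖ft (dl F h) j‖) : Finset (ZMod p)).card := by
          apply Finset.card_le_card_of_injOn (fun z => z.2)
          · intro z hz
            rw [Finset.mem_coe, Finset.mem_filter, mem_Gam] at hz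
            rw [Finset.mem_coe, Finset.mem_filter]
            refine ⟨Finset.mem_univ _, ?_⟩
            rw [← hz.2]
            exact hz.1.2
          · intro z hz z' hz' h
            rw [Finset.mem_coe, Finset.mem_filter] at hz hz'
            exact Prod.ext (hz.2.trans hz'.2.symm) h
        have h3 := card_large (dl F h) hc (Finset.univ.filter fun j => c ≤ ‖ft (dl F h) j‖)
          (fun j hj => by rw [Finset.mem_filter] at hj; exact hj.2)
        have h4 := sum_dl_sq hF hN h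
        rw [le_div_iff₀ (by positivity)]
        calc (((Gam F N c).filter fun z => z.1 = h).card : ℝ) * c ^ 2
            ≤ (((Finset.univ.filter fun j => c ≤ ‖ft (dl F h) j‖) : Finset (ZMod p)).card : ℝ) * c ^ 2 :=
              mul_le_mul_of_nonneg_right (by exact_mod_cast h2) (by positivity)
          _ ≤ _ := h3
          _ ≤ p * N := mul_le_mul_of_nonneg_left h4 (Nat.cast_nonneg _)
    _ = T.card * (p * N / c ^ 2 : ℝ) := by rw [Finset.sum_const, nsmul_eq_mul]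
    _ ≤ _ := mul_le_mul_of_nonneg_right hTc (by positivity)

/-- `phi` maps large correlations to large correlations -/
theorem phi_Gam {f : ℤ → ℝ} (hf : ∀ x, |f x| ≤ 1) {N u v : ℕ} (hN : 1 ≤ N) (hv : 1 ≤ v) (huv : v ≤ u)
    (hu2 : u ≤ 2 * v) (hp : 8 * N + 8 < p) {β c τ : ℝ}
    (hβu : ((badset f (N / u) u).card : ℝ) ≤ β) (hβv : ((badset f (N / v) v).card : ℝ) ≤ β)
    {z : ZMod p × ZMod p} (hz1 : |z.1.valMinAbs| ≤ N) (hz2 : |(z.2.valMinAbs : ℝ)| ≤ τ * p)
    (hz : c * N ≤ ‖ft (dl (FF f N) z.1) z.2‖)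
    (herr : u * (8 * β + 36) + 14 * τ * u * N + 2 * N * (((u : ℝ) - v) / v) + 7 * N ^ 2 / p ≤ c / 2 * N) :
    phi u v z ∈ Gam (FF f N : ZMod p → ℝ) N (c / 2 * N) := by
  have hvR : (0 : ℝ) < v := by exact_mod_cast hv
  have huR : (0 : ℝ) < u := by exact_mod_cast (hv.trans huv)
  have hpR : (0 : ℝ) < p := by exact_mod_cast NeZero.pos p
  have hvZ : (0 : ℤ) < v := by exact_mod_cast hv
  have huZ : (0 : ℤ) < u := by exact_mod_cast (hv.trans huv)
  set h : ℤ := z.1.valMinAbs with hh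
  set j : ℤ := z.2.valMinAbs with hj
  have ez1 : z.1 = (h : ZMod p) := (ZMod.coe_valMinAbs _).symm
  have ez2 : z.2 = (j : ZMod p) := (ZMod.coe_valMinAbs _).symm
  have habs := abs_le.1 hz1
  rw [ez1, ez2, ft_dl f hp (by rw [abs_le]; omega)] at hz
  set θ : ℝ := (j : ℝ) / p with hθ
  have hθτ : |θ| ≤ τ := by
    rw [hθ, abs_div, abs_of_pos hpR, div_le_iff₀ hpR]
    exact hz2
  have s1 := scale2 hf hv huv h θ hβu hβv (N := N)
  set h' : ℤ := (u : ℤ) * h / v with hh'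
  set j' : ℤ := (v : ℤ) * j / u with hj'
  have hh'1 : |h'| ≤ 2 * N + 2 := by
    have a1 : (u : ℤ) * h ≤ u * N := mul_le_mul_of_nonneg_left habs.2 huZ.le
    have a2 : (u : ℤ) * (-N) ≤ u * h := mul_le_mul_of_nonneg_left habs.1 huZ.le
    have a3 : (u : ℤ) ≤ 2 * v := by exact_mod_cast hu2
    have hNZ : (0 : ℤ) ≤ N := by positivity
    rw [abs_le]
    constructor
    · rw [hh', Int.le_ediv_iff_mul_le hvZ]
      nlinarith
    · have : h' < 2 * N + 2 := by
        rw [hh', Int.ediv_lt_iff_lt_mul hvZ]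
        nlinarith
      omega
  have s2 : |(v : ℝ) * θ / u - (j' : ℝ) / p| ≤ 1 / p := by
    have b1 : (j' : ℝ) * u ≤ v * j := by
      have : j' * u ≤ (v : ℤ) * j := Int.ediv_mul_le _ huZ.ne'
      exact_mod_cast this
    have b2 : (v : ℝ) * j < (j' + 1) * u := by
      have : (v : ℤ) * j < (j' + 1) * u := Int.lt_ediv_add_one_mul_self _ huZ
      exact_mod_cast this
    have b3 : (v : ℝ) * θ / u - (j' : ℝ) / p = (v * j - j' * u) / (u * p) := by
      rw [hθ]; field_simp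
    rw [b3, abs_div, abs_of_nonneg (by linarith : (0 : ℝ) ≤ v * j - j' * u),
      abs_of_pos (by positivity : (0 : ℝ) < u * p), div_le_div_iff₀ (by positivity) hpR]
    nlinarith
  have s3 := freq_compare hf N h' ((v : ℝ) * θ / u) ((j' : ℝ) / p)
  rw [mem_Gam]
  have e1 : (phi u v z).1 = (h' : ZMod p) := rfl
  have e2 : (phi u v z).2 = (j' : ZMod p) := rfl
  rw [e1, e2, vma (by omega)]
  refine ⟨hh'1, ?_⟩
  rw [ft_dl f hp hh'1]
  have s4 := norm_sub_norm_le (SZ f N h' ((v : ℝ) * θ / u)) (SZ f N h' ((j' : ℝ) / p))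
  have s5 : 7 * |(v : ℝ) * θ / u - (j' : ℝ) / p| * (N : ℝ) ^ 2 ≤ 7 * N ^ 2 / p := by
    calc 7 * |(v : ℝ) * θ / u - (j' : ℝ) / p| * (N : ℝ) ^ 2 ≤ 7 * (1 / p) * (N : ℝ) ^ 2 := by
          gcongr
      _ = _ := by ring
  have s6 : 14 * |θ| * u * N ≤ 14 * τ * u * N := by gcongr
  linarith

/-- **the core**: data as in the proof by contradiction, and what one gets from them -/
theorem core_step {f : ℤ → ℝ} (hf : ∀ x, |f x| ≤ 1) {N : ℕ} (hN : 1 ≤ N) (hp : 8 * N + 8 < p)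
    {c τ β C : ℝ} (hc : 0 < c) (hC : 1 ≤ C)
    -- the graph
    {A : Finset (ZMod p × ZMod p)} (hgraph : ∀ a ∈ A, ∀ b ∈ A, a.1 = b.1 → a = b)
    (hAC : ((A - A : Finset (ZMod p × ZMod p)).card : ℝ) ≤ C * A.card)
    (hA1 : ∀ z ∈ A, |z.1.valMinAbs| ≤ N) (hA2 : ∀ z ∈ A, |(z.2.valMinAbs : ℝ)| ≤ τ * p)
    (hA : ∀ z ∈ A, c * N ≤ ‖ft (dl (FF f N) z.1) z.2‖) (hA0 : A.Nonempty)
    -- the fractions
    {a b J : ℕ} (hb : 1 ≤ b) (hab : b < a) (hJ0 : 0 < J) (hJ2 : a ^ J ≤ 2 * b ^ J)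
    (hbad : ∀ i ≤ J, ((badset f (N / a ^ i) (a ^ i)).card : ℝ) ≤ β ∧
      ((badset f (N / b ^ i) (b ^ i)).card : ℝ) ≤ β)
    (herr : ∀ i ≤ J, (a : ℝ) ^ i * (8 * β + 36) + 14 * τ * (a : ℝ) ^ i * N +
      2 * N * (((a : ℝ) ^ i - (b : ℝ) ^ i) / (b : ℝ) ^ i) + 7 * N ^ 2 / p ≤ c / 2 * N)
    (hτ : 4 * τ * (a : ℝ) ^ J < 1)
    (hJ : 4 * ((4 * N + 5 : ℝ) * (p * N / (c / 2 * N) ^ 2)) ≤ J * A.card) :
    ∃ j : ZMod p, (A.card : ℝ) ^ 2 ≤ 2 * ((4 * N + 5 : ℝ) * (p * N / (c / 2 * N) ^ 2)) *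
      (((2 * a ^ J + 1 : ℝ) * C ^ (2 * a ^ J + 1)) * (4 * a ^ J + 1) *
        ((A.filter fun z => z.2 = j).card : ℝ)) := by
  classical
  have hNR : (1 : ℝ) ≤ N := by exact_mod_cast hN
  have ha : 1 ≤ a := hb.trans hab.le
  have hpR : (0 : ℝ) < p := by exact_mod_cast NeZero.pos p
  set Γ : Finset (ZMod p × ZMod p) := Gam (FF f N : ZMod p → ℝ) N (c / 2 * N) with hΓ
  have hΓc : (Γ.card : ℝ) ≤ (4 * N + 5) * (p * N / (c / 2 * N) ^ 2) :=
    card_Gam (FF_abs hf N) (sum_FF_abs hf (by omega)) (by positivity)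
  have hpow : ∀ i, 1 ≤ b ^ i := fun i => Nat.one_le_pow _ _ hb
  have hpow2 : ∀ i, b ^ i ≤ a ^ i := fun i => Nat.pow_le_pow_left hab.le i
  have hpow3 : ∀ i ≤ J, a ^ i ≤ 2 * b ^ i := by
    intro i hi
    obtain ⟨k, rfl⟩ := Nat.exists_eq_add_of_le hi
    rw [pow_add, pow_add] at hJ2
    have h1 : a ^ i * b ^ k ≤ a ^ i * a ^ k := Nat.mul_le_mul_left _ (hpow2 k)
    have h2 : a ^ i * b ^ k ≤ 2 * b ^ i * b ^ k := by
      calc a ^ i * b ^ k ≤ a ^ i * a ^ k := h1
        _ ≤ 2 * (b ^ i * b ^ k) := hJ2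
        _ = _ := by ring
    exact Nat.le_of_mul_le_mul_right h2 (hpow k)
  -- the images
  set X : ℕ → Finset (ZMod p × ZMod p) := fun i => A.image (phi (a ^ (i + 1)) (b ^ (i + 1))) with hX
  have hXΓ : ∀ i < J, X i ⊆ Γ := by
    intro i hi w hw
    simp only [hX, Finset.mem_image] at hw
    obtain ⟨z, hz, rfl⟩ := hw
    have e := herr (i + 1) hi
    apply phi_Gam hf hN (hpow _) (hpow2 _) (hpow3 _ hi) hp (hbad (i + 1) hi).1 (hbad (i + 1) hi).2
      (hA1 z hz) (hA2 z hz) (hA z hz)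
    push_cast
    exact e
  have hsmall : ∀ z ∈ A, ∀ u v : ℕ, 1 ≤ v → u ≤ 2 * v → |(u : ℤ) * z.1.valMinAbs / v| ≤ 2 * N + 2 := by
    intro z hz u v hv huv
    have habs := abs_le.1 (hA1 z hz)
    have hvZ : (0 : ℤ) < v := by exact_mod_cast hv
    have huZ : (0 : ℤ) ≤ u := by positivity
    have a1 : (u : ℤ) * z.1.valMinAbs ≤ u * N := mul_le_mul_of_nonneg_left habs.2 huZ
    have a2 : (u : ℤ) * (-N) ≤ u * z.1.valMinAbs := mul_le_mul_of_nonneg_left habs.1 huZ
    have a3 : (u : ℤ) ≤ 2 * v := by exact_mod_cast huv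
    have hNZ : (0 : ℤ) ≤ N := by positivity
    rw [abs_le]
    constructor
    · rw [Int.le_ediv_iff_mul_le hvZ]
      nlinarith
    · have : (u : ℤ) * z.1.valMinAbs / v < 2 * N + 2 := by
        rw [Int.ediv_lt_iff_lt_mul hvZ]
        nlinarith
      omega
  have hphiinj : ∀ i < J, Set.InjOn (phi (p := p) (a ^ (i + 1)) (b ^ (i + 1))) A := by
    intro i hi z hz z' hz' heq
    apply hgraph z hz z' hz'
    have h1 : (phi (a ^ (i + 1)) (b ^ (i + 1)) z).1 = (phi (a ^ (i + 1)) (b ^ (i + 1)) z').1 := by rw [heq]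
    have h2 := congrArg ZMod.valMinAbs h1
    unfold phi at h2
    simp only at h2
    rw [vma (by have := hsmall z hz _ _ (hpow (i + 1)) (hpow3 _ hi); omega),
      vma (by have := hsmall z' hz' _ _ (hpow (i + 1)) (hpow3 _ hi); omega)] at h2
    exact ZMod.injective_valMinAbs (floor_inj (by exact_mod_cast hpow (i + 1))
      (by exact_mod_cast hpow2 (i + 1)) h2)
  have hXc : ∀ i < J, (X i).card = A.card := fun i hi => Finset.card_image_of_injOn (hphiinj i hi)
  obtain ⟨i, i', hii, hi'J, hpair⟩ := pairs X Γ hXΓ hXc hA0.card_pos hJ0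
    ((mul_le_mul_of_nonneg_left hΓc (by norm_num)).trans hJ)
  obtain ⟨k, rfl⟩ := Nat.exists_eq_add_of_lt hii
  -- now `i' = i + k + 1`
  set P : Finset (ZMod p × ZMod p) := A.filter fun z =>
    phi (a ^ (i + k + 1 + 1)) (b ^ (i + k + 1 + 1)) z ∈ X i ∩ X (i + k + 1) with hP
  have hPc : ((X i ∩ X (i + k + 1)).card : ℝ) ≤ P.card := by
    norm_cast
    refine (Finset.card_le_card (t := P.image (phi (a ^ (i + k + 1 + 1)) (b ^ (i + k + 1 + 1)))) ?_).trans
      Finset.card_image_le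
    intro w hw
    have hw2 := (Finset.mem_inter.1 hw).2
    simp only [hX, Finset.mem_image] at hw2
    obtain ⟨z, hz, hzw⟩ := hw2
    rw [Finset.mem_image]
    exact ⟨z, by rw [hP, Finset.mem_filter, hzw]; exact ⟨hz, hw⟩, hzw⟩
  have hAR : (0 : ℝ) < A.card := by exact_mod_cast hA0.card_pos
  have hP0 : P.Nonempty := by
    rw [← Finset.card_pos]
    have h0 : (0 : ℝ) < (A.card : ℝ) ^ 2 := by positivity
    have h1 : (0 : ℝ) < ((X i ∩ X (i + k + 1)).card : ℝ) := by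
      by_contra hcon
      have : ((X i ∩ X (i + k + 1)).card : ℝ) = 0 := le_antisymm (not_lt.1 hcon) (Nat.cast_nonneg _)
      rw [this, mul_zero] at hpair
      linarith
    exact_mod_cast lt_of_lt_of_le h1 hPc
  have hq : ∀ z : ZMod p × ZMod p, ∃ z' : ZMod p × ZMod p, z ∈ P →
      z' ∈ A ∧ phi (a ^ (i + 1)) (b ^ (i + 1)) z' = phi (a ^ (i + k + 1 + 1)) (b ^ (i + k + 1 + 1)) z := by
    intro z
    by_cases hz : z ∈ P
    · have hz2 := hz
      rw [hP, Finset.mem_filter] at hz2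
      have h1 := (Finset.mem_inter.1 hz2.2).1
      simp only [hX, Finset.mem_image] at h1
      obtain ⟨z', hz', h2⟩ := h1
      exact ⟨z', fun _ => ⟨hz', h2⟩⟩
    · exact ⟨z, fun h => absurd h hz⟩
  choose q hq using hq
  set u : ℕ := a ^ (k + 1) with hu
  set v : ℕ := b ^ (k + 1) with hv
  have hvu : v < u := Nat.pow_lt_pow_left hab (by omega)
  have hkJ : k + 1 ≤ J := by omega
  have huJ : u ≤ a ^ J := Nat.pow_le_pow_right ha hkJ
  have hPA : P ⊆ A := Finset.filter_subset _ _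
  -- integer relations
  have hrel : ∀ z ∈ P, |(v : ℤ) * (q z).1.valMinAbs - u * z.1.valMinAbs| ≤ v ∧
      |(u : ℤ) * (q z).2.valMinAbs - v * z.2.valMinAbs| ≤ 2 * u := by
    intro z hz
    obtain ⟨hqA, hqe⟩ := hq z hz
    have hzA := hPA hz
    have hui : (a ^ (i + k + 1 + 1) : ℕ) = a ^ (i + 1) * u := by rw [hu]; ring
    have hvi : (b ^ (i + k + 1 + 1) : ℕ) = b ^ (i + 1) * v := by rw [hv]; ring
    constructor
    · have h1 : (phi (a ^ (i + 1)) (b ^ (i + 1)) (q z)).1 =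
          (phi (a ^ (i + k + 1 + 1)) (b ^ (i + k + 1 + 1)) z).1 := by rw [hqe]
      have h2 := congrArg ZMod.valMinAbs h1
      unfold phi at h2
      simp only at h2
      rw [vma (by have := hsmall _ hqA _ _ (hpow (i + 1)) (hpow3 _ (by omega)); omega),
        vma (by have := hsmall _ hzA _ _ (hpow (i + k + 1 + 1)) (hpow3 _ (by omega)); omega), hui, hvi] at h2
      push_cast at h2
      have := floor_rel (u1 := (a : ℤ) ^ (i + 1)) (v1 := (b : ℤ) ^ (i + 1)) (u := u) (v := v)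
        (by exact_mod_cast hpow (i + 1)) (by exact_mod_cast hpow2 (i + 1)) (by exact_mod_cast hpow (k + 1)) h2
      exact this
    · have h1 : (phi (a ^ (i + 1)) (b ^ (i + 1)) (q z)).2 =
          (phi (a ^ (i + k + 1 + 1)) (b ^ (i + k + 1 + 1)) z).2 := by rw [hqe]
      have h2 := congrArg ZMod.valMinAbs h1
      unfold phi at h2
      simp only at h2
      have hsm : ∀ z ∈ A, ∀ u v : ℕ, 1 ≤ v → v ≤ u → |(v : ℤ) * z.2.valMinAbs / u| * 2 < p := by
        intro z hz u v hv huv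
        have e1 := hA2 z hz
        have hvZ : (0 : ℤ) < v := by exact_mod_cast hv
        have huZ : (0 : ℤ) < u := by exact_mod_cast (hv.trans huv)
        have e2 : |(v : ℤ) * z.2.valMinAbs / u| ≤ |z.2.valMinAbs| + 1 := by
          have e3 := le_abs_self z.2.valMinAbs
          have e4 := neg_abs_le z.2.valMinAbs
          have e5 : (v : ℤ) * |z.2.valMinAbs| ≤ u * |z.2.valMinAbs| :=
            mul_le_mul_of_nonneg_right (by exact_mod_cast huv) (abs_nonneg _)
          have e6 : (v : ℤ) * z.2.valMinAbs ≤ v * |z.2.valMinAbs| := mul_le_mul_of_nonneg_left e3 hvZ.le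
          have e7 : (v : ℤ) * (-|z.2.valMinAbs|) ≤ v * z.2.valMinAbs := mul_le_mul_of_nonneg_left e4 hvZ.le
          rw [abs_le]
          constructor
          · rw [Int.le_ediv_iff_mul_le huZ]
            nlinarith
          · have : (v : ℤ) * z.2.valMinAbs / u < |z.2.valMinAbs| + 1 := by
              rw [Int.ediv_lt_iff_lt_mul huZ]
              nlinarith
            omega
        have e8 : 4 * τ < 1 := by
          have h1 : (1 : ℝ) ≤ (a : ℝ) ^ J := by exact_mod_cast Nat.one_le_pow J a ha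
          by_contra h0
          push Not at h0
          nlinarith
        have e9 : 4 * |(z.2.valMinAbs : ℝ)| < p := by nlinarith
        have e10 : 4 * |z.2.valMinAbs| < p := by
          have : ((4 * |z.2.valMinAbs| : ℤ) : ℝ) < ((p : ℤ) : ℝ) := by push_cast; exact e9
          exact_mod_cast this
        omega
      rw [vma (hsm _ hqA _ _ (hpow (i + 1)) (hpow2 _)),
        vma (hsm _ hzA _ _ (hpow (i + k + 1 + 1)) (hpow2 _)), hui, hvi] at h2
      push_cast at h2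
      exact floor_rel2 (u1 := (a : ℤ) ^ (i + 1)) (v1 := (b : ℤ) ^ (i + 1)) (u := u) (v := v)
        (by exact_mod_cast hpow (i + 1)) (by exact_mod_cast hpow2 (i + 1))
        (by exact_mod_cast hpow3 (i + 1) (by omega)) (by exact_mod_cast hpow (k + 1))
        (by exact_mod_cast hpow2 (k + 1)) h2
  set E : Finset (ZMod p) := (Icc (-(v : ℤ)) v).image (fun n : ℤ => (n : ZMod p)) with hE
  have hEc : (E.card : ℝ) ≤ 2 * (a : ℝ) ^ J + 1 := by
    have h1 : E.card ≤ (Icc (-(v : ℤ)) v).card := Finset.card_image_le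
    rw [Int.card_Icc] at h1
    have h2 : E.card ≤ 2 * v + 1 := by omega
    have h3 : E.card ≤ 2 * a ^ J + 1 := by omega
    exact_mod_cast h3
  obtain ⟨j, hj⟩ := comb hgraph hAC hPA hP0 q (fun z hz => (hq z hz).1) hvu E
    (fun z hz => by
      have h1 := (hrel z hz).1
      rw [hE, Finset.mem_image]
      refine ⟨(v : ℤ) * (q z).1.valMinAbs - u * z.1.valMinAbs, ?_, ?_⟩
      · rw [Finset.mem_Icc]; exact abs_le.1 h1
      · simp only [Prod.fst_sub, Prod.smul_fst]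
        push_cast
        rw [nsmul_eq_mul, nsmul_eq_mul])
    (fun z hz => by
      have h1 := hA2 _ (hq z hz).1
      have h2 := hA2 _ (hPA hz)
      have hvR : (v : ℝ) ≤ (a : ℝ) ^ J := by exact_mod_cast hvu.le.trans huJ
      have huR : (u : ℝ) ≤ (a : ℝ) ^ J := by exact_mod_cast huJ
      have hτ0 : 0 ≤ τ * p := (abs_nonneg _).trans h1
      have h3 : |(v : ℝ) * (q z).2.valMinAbs - u * z.2.valMinAbs| * 2 < p := by
        have t1 : |(v : ℝ) * (q z).2.valMinAbs - u * z.2.valMinAbs| ≤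
            v * |((q z).2.valMinAbs : ℝ)| + u * |(z.2.valMinAbs : ℝ)| := by
          refine (abs_sub _ _).trans (le_of_eq ?_)
          rw [abs_mul, abs_mul, Nat.abs_cast, Nat.abs_cast]
        have t2 : (v : ℝ) * |((q z).2.valMinAbs : ℝ)| ≤ (a : ℝ) ^ J * (τ * p) :=
          mul_le_mul hvR h1 (abs_nonneg _) (by positivity)
        have t3 : (u : ℝ) * |(z.2.valMinAbs : ℝ)| ≤ (a : ℝ) ^ J * (τ * p) :=
          mul_le_mul huR h2 (abs_nonneg _) (by positivity)
        nlinarith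
      have h4 : ((|(v : ℤ) * (q z).2.valMinAbs - u * z.2.valMinAbs| * 2 : ℤ) : ℝ) < ((p : ℤ) : ℝ) := by
        push_cast; exact h3
      exact_mod_cast h4)
    (fun z hz => (hrel z hz).2)
  refine ⟨j, ?_⟩
  have hC0 : (0 : ℝ) ≤ C := by linarith
  have huR : (u : ℝ) ≤ (a : ℝ) ^ J := by exact_mod_cast huJ
  have f1 : C ^ (u + v + 1) ≤ C ^ (2 * a ^ J + 1) := pow_le_pow_right₀ hC (by omega)
  have f2 : (E.card : ℝ) * C ^ (u + v + 1) * (4 * u + 1) ≤
      ((2 * a ^ J + 1 : ℝ) * C ^ (2 * a ^ J + 1)) * (4 * a ^ J + 1) := by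
    refine mul_le_mul (mul_le_mul hEc f1 (by positivity) (by positivity)) (by linarith) (by positivity)
      (by positivity)
  have f3 : (P.card : ℝ) ≤ ((2 * a ^ J + 1 : ℝ) * C ^ (2 * a ^ J + 1)) * (4 * a ^ J + 1) *
      ((A.filter fun z => z.2 = j).card : ℝ) :=
    hj.trans (mul_le_mul_of_nonneg_right f2 (Nat.cast_nonneg _))
  calc (A.card : ℝ) ^ 2 ≤ 2 * Γ.card * ((X i ∩ X (i + k + 1)).card : ℝ) := hpair
    _ ≤ 2 * ((4 * N + 5 : ℝ) * (p * N / (c / 2 * N) ^ 2)) * P.card := by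
        refine mul_le_mul ?_ hPc (Nat.cast_nonneg _) (by positivity)
        linarith
    _ ≤ _ := mul_le_mul_of_nonneg_left f3 (by positivity)

end Pool.Agent.J4H80.QU
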