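import Pool.Agent.J4H80.QU.H2

set_option autoImplicit false

/-! Functions almost invariant under `n ↦ w n + b` with small Fourier coefficients have a small Gowers
norm of order three. -/

namespace Pool.Agent.J4H80.QU

open Finset Pointwise

/-- the graph of the large Fourier coefficients: from a large Gowers norm to a set with small doubling -/
theorem graph_step {f : ℤ → ℝ} (hf : ∀ x, |f x| ≤ 1) {N Λ : ℕ} (hN : 1 ≤ N) (hΛ : 17 ≤ Λ)
    {ε c : ℝ} (hε : 0 < ε) (hc : 0 < c) (hcε : c ^ 2 = ε / 6) (hU : ε * N ^ 4 < U3Z f N)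
    [NeZero (Λ * N)] :
    ∃ A : Finset (ZMod (Λ * N) × ZMod (Λ * N)), (∀ a ∈ A, ∀ b ∈ A, a.1 = b.1 → a = b) ∧
      ((A - A : Finset (ZMod (Λ * N) × ZMod (Λ * N))).card : ℝ) ≤
        2 ^ 22 * (432 * Λ ^ 2 / ε ^ 4) ^ 10 * A.card ∧
      (∀ z ∈ A, |z.1.valMinAbs| ≤ N) ∧ (∀ z ∈ A, c * N ≤ ‖ft (dl (FF f N) z.1) z.2‖) ∧
      ε / (16 * (432 * Λ ^ 2 / ε ^ 4)) * N ≤ A.card := by
  classical
  set p : ℕ := Λ * N with hp
  have hNR : (1 : ℝ) ≤ N := by exact_mod_cast hN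
  have hN0 : (0 : ℝ) < N := by linarith
  have hΛR : (17 : ℝ) ≤ Λ := by exact_mod_cast hΛ
  have hp8 : 8 * N + 8 < p := by rw [hp]; nlinarith
  have hpR : (p : ℝ) = Λ * N := by rw [hp]; push_cast; ring
  set F : ZMod p → ℝ := FF f N with hF
  have hF1 : ∀ x, |F x| ≤ 1 := FF_abs hf N
  have hF2 : ∑ x, |F x| ≤ (N : ℝ) := sum_FF_abs hf (by omega)
  obtain ⟨jj, hjj⟩ := exists_jj F
  have h1 : ε * N ^ 4 < N * ∑ h, ‖ft (dl F h) (jj h)‖ ^ 2 := by
    refine lt_of_lt_of_le hU ?_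
    rw [← U3_link f hp8]
    exact U3_le hF1 hF2 hjj
  have h2 : ε * N ^ 3 ≤ ∑ h, ‖ft (dl F h) (jj h)‖ ^ 2 := by
    have : (N : ℝ) * (ε * N ^ 3) ≤ N * ∑ h, ‖ft (dl F h) (jj h)‖ ^ 2 := by
      refine le_trans (le_of_eq ?_) h1.le; ring
    exact le_of_mul_le_mul_left this hN0
  set Hs : Finset (ZMod p) := Finset.univ.filter fun x => |x.valMinAbs| ≤ (N : ℤ) with hHs
  have hHc : (Hs.card : ℝ) ≤ 3 * N := by
    have h1 : Hs.card ≤ (Icc (-(N : ℤ)) N).card := by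
      apply Finset.card_le_card_of_injOn (fun x => x.valMinAbs)
      · intro x hx
        rw [Finset.mem_coe, hHs, Finset.mem_filter] at hx
        rw [Finset.mem_coe, Finset.mem_Icc]
        exact abs_le.1 hx.2
      · intro a _ b _ h
        exact ZMod.injective_valMinAbs h
    rw [Int.card_Icc] at h1
    have h2 : Hs.card ≤ 3 * N := by omega
    exact_mod_cast h2
  have h3 : ∑ h, ‖ft (dl F h) (jj h)‖ ^ 2 = ∑ h ∈ Hs, ‖ft (dl F h) (jj h)‖ ^ 2 := by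
    symm
    apply Finset.sum_subset (Finset.subset_univ _)
    intro h _ hh
    rw [hHs, Finset.mem_filter, not_and] at hh
    have h0 := hh (Finset.mem_univ _)
    have : ft (dl F h) (jj h) = 0 := by
      unfold ft dl
      apply Finset.sum_eq_zero
      intro x _
      have := FF_diff f (p := p) (by omega : 2 * N < p) h0 x
      rw [hF, this]; simp
    rw [this]; simp
  set B : Finset (ZMod p) := Hs.filter fun h => c * N ≤ ‖ft (dl F h) (jj h)‖ with hB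
  set X : ℝ := ∑ h ∈ B, ‖ft (dl F h) (jj h)‖ ^ 2 with hX
  have h4 : ε / 2 * N ^ 3 ≤ X := by
    have e1 := Finset.sum_filter_add_sum_filter_not Hs (fun h => c * N ≤ ‖ft (dl F h) (jj h)‖)
      (fun h => ‖ft (dl F h) (jj h)‖ ^ 2)
    have e2 : ∑ h ∈ Hs.filter (fun h => ¬ c * N ≤ ‖ft (dl F h) (jj h)‖), ‖ft (dl F h) (jj h)‖ ^ 2 ≤
        3 * N * (c * N) ^ 2 := by
      calc _ ≤ ∑ h ∈ Hs.filter (fun h => ¬ c * N ≤ ‖ft (dl F h) (jj h)‖), (c * N) ^ 2 := by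
            refine Finset.sum_le_sum fun h hh => ?_
            rw [Finset.mem_filter] at hh
            exact pow_le_pow_left₀ (norm_nonneg _) (not_le.1 hh.2).le 2
        _ = ((Hs.filter (fun h => ¬ c * N ≤ ‖ft (dl F h) (jj h)‖)).card : ℝ) * (c * N) ^ 2 := by
            rw [Finset.sum_const, nsmul_eq_mul]
        _ ≤ 3 * N * (c * N) ^ 2 := by
            refine mul_le_mul_of_nonneg_right (le_trans ?_ hHc) (by positivity)
            exact_mod_cast Finset.card_filter_le _ _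
    have e3 : 3 * (N : ℝ) * (c * N) ^ 2 = ε / 2 * N ^ 3 := by rw [mul_pow, hcε]; ring
    rw [← h3] at e1
    rw [e3] at e2
    have e4 : X + ∑ h ∈ Hs.filter (fun h => ¬ c * N ≤ ‖ft (dl F h) (jj h)‖), ‖ft (dl F h) (jj h)‖ ^ 2 =
      ∑ h, ‖ft (dl F h) (jj h)‖ ^ 2 := e1
    linarith
  have hX0 : 0 < X := lt_of_lt_of_le (by positivity) h4
  set A : Finset (ZMod p × ZMod p) := B.image fun h => (h, jj h) with hA
  have hinj : Function.Injective fun h : ZMod p => (h, jj h) := fun a b h => (Prod.mk.inj h).1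
  have hAc : A.card = B.card := Finset.card_image_of_injective _ hinj
  have hAgraph : ∀ a ∈ A, ∀ b ∈ A, a.1 = b.1 → a = b := by
    intro a ha b hb hab
    rw [hA, Finset.mem_image] at ha hb
    obtain ⟨h, -, rfl⟩ := ha
    obtain ⟨h', -, rfl⟩ := hb
    simp only at hab
    rw [hab]
  have hA0 : A.Nonempty := by
    rw [← Finset.card_pos, hAc, Finset.card_pos, Finset.nonempty_iff_ne_empty]
    intro h0
    rw [hX, h0, Finset.sum_empty] at hX0
    exact lt_irrefl _ hX0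
  -- energy
  set K : ℝ := 432 * Λ ^ 2 / ε ^ 4 with hK
  have hK0 : 0 < K := by positivity
  have hE : (A.card : ℝ) ^ 3 ≤ K * (A.addEnergy A : ℕ) := by
    have q1 := quad hF1 hN0.le hF2 B jj
    rw [← hA] at q1
    have q2 : (ε / 2 * N ^ 3) ^ 4 ≤ X ^ 4 := pow_le_pow_left₀ (by positivity) h4 4
    have q3 : (ε / 2 * N ^ 3) ^ 4 ≤ N ^ 7 * p ^ 2 * (A.addEnergy A : ℕ) := q2.trans q1
    rw [hpR] at q3
    have q4 : (N : ℝ) ^ 9 * (ε ^ 4 * N ^ 3) ≤ N ^ 9 * (16 * Λ ^ 2 * (A.addEnergy A : ℕ)) := by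
      nlinarith
    have q5 := le_of_mul_le_mul_left q4 (by positivity)
    have q6 : (A.card : ℝ) ≤ 3 * N := by
      rw [hAc]
      refine le_trans ?_ hHc
      exact_mod_cast Finset.card_filter_le _ _
    calc (A.card : ℝ) ^ 3 ≤ (3 * N) ^ 3 := pow_le_pow_left₀ (Nat.cast_nonneg _) q6 3
      _ = 27 / ε ^ 4 * (ε ^ 4 * N ^ 3) := by field_simp; ring
      _ ≤ 27 / ε ^ 4 * (16 * Λ ^ 2 * (A.addEnergy A : ℕ)) := mul_le_mul_of_nonneg_left q5 (by positivity)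
      _ = _ := by rw [hK]; ring
  obtain ⟨A', hA'A, hA'0, hA'1, hA'2⟩ := Pool.Agent.H217R3.AK.bsg A hA0 K hK0 hE
  refine ⟨A', fun a ha b hb => hAgraph a (hA'A ha) b (hA'A hb), hA'2, ?_, ?_, ?_⟩
  · intro z hz
    have h5 := hA'A hz
    rw [hA, Finset.mem_image] at h5
    obtain ⟨h, hh, rfl⟩ := h5
    rw [hB, Finset.mem_filter, hHs, Finset.mem_filter] at hh
    exact hh.1.2
  · intro z hz
    have h5 := hA'A hz
    rw [hA, Finset.mem_image] at h5
    obtain ⟨h, hh, rfl⟩ := h5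
    rw [hB, Finset.mem_filter] at hh
    exact hh.2
  · have h6 : X ≤ A.card * N ^ 2 := by
      rw [hX, hAc]
      calc ∑ h ∈ B, ‖ft (dl F h) (jj h)‖ ^ 2 ≤ ∑ h ∈ B, (N : ℝ) ^ 2 :=
            Finset.sum_le_sum fun h _ => pow_le_pow_left₀ (norm_nonneg _) (norm_ft_le hF1 hF2 _ _) 2
        _ = _ := by rw [Finset.sum_const, nsmul_eq_mul]
    have h7 : ε / 2 * N ≤ A.card := by
      have : (N : ℝ) ^ 2 * (ε / 2 * N) ≤ N ^ 2 * A.card := by nlinarith
      exact le_of_mul_le_mul_left this (by positivity)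
    have h8 : ε / (16 * K) * N = (ε / 2 * N) / (8 * K) := by field_simp; ring
    rw [h8, div_le_iff₀ (by positivity)]
    linarith

theorem err_num {c U Λ τ η N A R : ℝ} (hc : 0 < c) (hU : 1 ≤ U) (hΛ : 17 ≤ Λ) (hN0 : 0 < N) (hη0 : 0 < η)
    (hA : A ≤ U) (hR : R ≤ c / 64) (hτ : τ * U = c / 1000) (hτ0 : 0 < τ)
    (hηa : η ≤ c / (256 * U)) (hNa : 576 * U / c ≤ N) (hΛc : 64 / c ≤ Λ) :
    A * (8 * (η * N) + 36) + 14 * τ * A * N + 2 * N * R + 7 * N ^ 2 / (Λ * N) ≤ c / 2 * N := by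
  have t1 : A * (8 * (η * N) + 36) ≤ U * (8 * (η * N) + 36) :=
    mul_le_mul_of_nonneg_right hA (by positivity)
  have t2 : U * (8 * (η * N) + 36) ≤ c / 32 * N + c / 16 * N := by
    have u1 : U * η ≤ c / 256 := by
      calc U * η ≤ U * (c / (256 * U)) := mul_le_mul_of_nonneg_left hηa (by positivity)
        _ = c / 256 := by field_simp
    have u2 : 36 * U ≤ c / 16 * N := by
      rw [div_le_iff₀ hc] at hNa
      linarith
    have u3 : U * η * N ≤ c / 256 * N := mul_le_mul_of_nonneg_right u1 hN0.le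
    calc U * (8 * (η * N) + 36) = 8 * (U * η * N) + 36 * U := by ring
      _ ≤ 8 * (c / 256 * N) + c / 16 * N := by linarith
      _ = _ := by ring
  have t3 : 14 * τ * A * N ≤ c / 64 * N := by
    have u1 : τ * A ≤ c / 1000 := by
      rw [← hτ]
      exact mul_le_mul_of_nonneg_left hA hτ0.le
    have u2 : 14 * τ * A = 14 * (τ * A) := by ring
    rw [u2]
    refine mul_le_mul_of_nonneg_right ?_ hN0.le
    linarith
  have t4 : 2 * N * R ≤ c / 32 * N := by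
    calc 2 * N * R ≤ 2 * N * (c / 64) := mul_le_mul_of_nonneg_left hR (by positivity)
      _ = _ := by ring
  have t5 : 7 * N ^ 2 / (Λ * N) ≤ 7 * c / 64 * N := by
    have u1 : 7 * N ^ 2 / (Λ * N) = 7 / Λ * N := by field_simp
    rw [u1]
    refine mul_le_mul_of_nonneg_right ?_ hN0.le
    rw [div_le_div_iff₀ (by positivity) (by norm_num)]
    rw [div_le_iff₀ hc] at hΛc
    linarith
  have t6 : c / 32 * N + c / 16 * N + c / 64 * N + c / 32 * N + 7 * c / 64 * N = c / 4 * N := by ring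
  have t7 : c / 4 * N ≤ c / 2 * N := mul_le_mul_of_nonneg_right (by linarith) hN0.le
  linarith

theorem freq_num {c τ η N t S β : ℝ} (hc : 0 < c) (hτ0 : 0 < τ) (hN0 : 0 < N) (ht : 0 ≤ t)
    (hηb : η ≤ c * τ / 2) (hNb : 17 / (2 * c * τ) ≤ N) (h1 : c * N ≤ S) (hβ : β ≤ η * N)
    (h4 : 4 * t * S ≤ 4 * β + 17) : t ≤ τ := by
  have h6 : 4 * t * (c * N) ≤ 4 * (η * N) + 17 := by
    calc 4 * t * (c * N) ≤ 4 * t * S := mul_le_mul_of_nonneg_left h1 (by positivity)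
      _ ≤ _ := h4
      _ ≤ _ := by linarith
  have h8 : 17 ≤ N * (2 * c * τ) := by
    rw [div_le_iff₀ (by positivity)] at hNb
    exact hNb
  have h9 : η * N ≤ c * τ / 2 * N := mul_le_mul_of_nonneg_right hηb hN0.le
  have h10 : (4 * c * N) * t ≤ (4 * c * N) * τ := by linarith
  exact le_of_mul_le_mul_left h10 (by positivity)

theorem final_num {α c G D η η₃ N m Ac Gb : ℝ} (hα0 : 0 < α) (hc : 0 < c) (hG0 : 0 < G) (hD0 : 0 < D)
    (hη0 : 0 < η) (hN0 : 0 < N) (hm0 : 0 ≤ m) (hηc : η ≤ η₃)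
    (hη₃sq : η₃ ^ 2 = α ^ 2 * c ^ 2 / (4 * (G * D))) (hA3 : α * N ≤ Ac)
    (hGb : Gb ≤ G * N) (hj : Ac ^ 2 ≤ 2 * Gb * (D * m))
    (hpop : m * (c * N) ^ 2 ≤ (η * N) ^ 2 * N) : False := by
  have f1 : m * c ^ 2 ≤ η ^ 2 * N := by
    have : N ^ 2 * (m * c ^ 2) ≤ N ^ 2 * (η ^ 2 * N) := by
      calc N ^ 2 * (m * c ^ 2) = m * (c * N) ^ 2 := by ring
        _ ≤ (η * N) ^ 2 * N := hpop
        _ = _ := by ring
    exact le_of_mul_le_mul_left this (by positivity)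
  have f2 : (α * N) ^ 2 ≤ 2 * (G * N) * (D * m) := by
    calc (α * N) ^ 2 ≤ Ac ^ 2 := pow_le_pow_left₀ (by positivity) hA3 2
      _ ≤ 2 * Gb * (D * m) := hj
      _ ≤ 2 * (G * N) * (D * m) :=
          mul_le_mul_of_nonneg_right (mul_le_mul_of_nonneg_left hGb (by norm_num)) (by positivity)
  have f3 : η ^ 2 ≤ η₃ ^ 2 := pow_le_pow_left₀ hη0.le hηc 2
  rw [hη₃sq] at f3
  have f4 : (α * N) ^ 2 * c ^ 2 ≤ 2 * (G * N) * D * (η ^ 2 * N) := by
    calc (α * N) ^ 2 * c ^ 2 ≤ 2 * (G * N) * (D * m) * c ^ 2 := mul_le_mul_of_nonneg_right f2 (by positivity)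
      _ = 2 * (G * N) * D * (m * c ^ 2) := by ring
      _ ≤ _ := mul_le_mul_of_nonneg_left f1 (by positivity)
  have f5 : 2 * (G * N) * D * (η ^ 2 * N) ≤ 2 * (G * N) * D * (α ^ 2 * c ^ 2 / (4 * (G * D)) * N) :=
    mul_le_mul_of_nonneg_left (mul_le_mul_of_nonneg_right f3 hN0.le) (by positivity)
  have f6 : 2 * (G * N) * D * (α ^ 2 * c ^ 2 / (4 * (G * D)) * N) = (α * N) ^ 2 * c ^ 2 / 2 := by
    field_simp
    ring
  have f7 : 0 < (α * N) ^ 2 * c ^ 2 := by positivity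
  linarith

/-- **Quadratic uniformity.** A bounded function that is almost invariant under `n ↦ w n + b` for
the integers `w = 2 ^ x 3 ^ y` and has small Fourier coefficients has a small Gowers norm of order
three. -/
theorem core {ε : ℝ} (hε : 0 < ε) (hε1 : ε ≤ 1) : ∃ (U : ℕ) (η : ℝ) (N₀ : ℕ), 0 < η ∧
    ∀ N : ℕ, N₀ ≤ N → ∀ f : ℤ → ℝ, (∀ x, |f x| ≤ 1) →
      (∀ x y : ℕ, 2 ^ x * 3 ^ y ≤ U →
        ((badset f (N / (2 ^ x * 3 ^ y)) (2 ^ x * 3 ^ y)).card : ℝ) ≤ η * N) →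
      (∀ α : ℝ, ‖∑ n ∈ Icc (1 : ℤ) N, (f n : ℂ) * e (-(α * n))‖ ≤ η * N) →
      U3Z f N ≤ ε * N ^ 4 := by
  classical
  set c : ℝ := √(ε / 6) with hcdef
  have hc : 0 < c := Real.sqrt_pos.2 (by positivity)
  have hcε : c ^ 2 = ε / 6 := Real.sq_sqrt (by positivity)
  have hc1 : c ≤ 1 := by
    rw [hcdef]
    exact Real.sqrt_le_one.2 (by linarith)
  set Λ : ℕ := ⌈64 / c⌉₊ + 17 with hΛ
  have hΛc : 64 / c ≤ Λ := by
    rw [hΛ]; push_cast
    have := Nat.le_ceil (64 / c)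
    linarith
  have hΛ17 : 17 ≤ Λ := by omega
  have hΛR : (17 : ℝ) ≤ Λ := by exact_mod_cast hΛ17
  set K : ℝ := 432 * Λ ^ 2 / ε ^ 4 with hK
  have hK1 : 1 ≤ K := by
    rw [hK, le_div_iff₀ (by positivity), one_mul]
    have h1 : ε ^ 4 ≤ 1 := pow_le_one₀ hε.le hε1
    nlinarith
  have hK0 : 0 < K := by linarith
  set C : ℝ := 2 ^ 22 * K ^ 10 with hC
  have hC1 : 1 ≤ C := by
    have : 1 ≤ K ^ 10 := one_le_pow₀ hK1
    rw [hC]; linarith
  set α : ℝ := ε / (16 * K) with hα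
  have hα0 : 0 < α := by positivity
  set G : ℝ := 36 * Λ / c ^ 2 with hG
  have hG0 : 0 < G := by positivity
  set J : ℕ := ⌈4 * G / α⌉₊ + 1 with hJ
  have hJ0 : 0 < J := by omega
  have hJR : 4 * G / α ≤ J := by
    rw [hJ]; push_cast
    have := Nat.le_ceil (4 * G / α)
    linarith
  have hJR0 : (0 : ℝ) < J := by exact_mod_cast hJ0
  set κ : ℝ := c / 64 with hκ
  have hκ0 : 0 < κ := by positivity
  have hκ1 : κ ≤ 1 := by rw [hκ]; linarith
  set δ : ℝ := (1 + κ) ^ ((J : ℝ)⁻¹) - 1 with hδ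
  have hδJ : (1 + δ) ^ J = 1 + κ := by
    rw [hδ, add_sub_cancel, Real.rpow_inv_natCast_pow (by positivity) hJ0.ne']
  have hδ0 : 0 < δ := by
    rw [hδ, sub_pos]
    exact Real.one_lt_rpow (by linarith) (by positivity)
  obtain ⟨x, y, x', y', hba, hab⟩ := near_one hδ0
  set a : ℕ := 2 ^ x * 3 ^ y with ha
  set b : ℕ := 2 ^ x' * 3 ^ y' with hb
  have hb1 : 1 ≤ b := Nat.one_le_iff_ne_zero.2 (by rw [hb]; positivity)
  have ha1 : 1 ≤ a := hb1.trans hba.le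
  have hbR : (1 : ℝ) ≤ b := by exact_mod_cast hb1
  have haR : (1 : ℝ) ≤ a := by exact_mod_cast ha1
  set U : ℕ := a ^ J with hU
  have hU1 : 1 ≤ U := Nat.one_le_pow _ _ ha1
  have hUR : (1 : ℝ) ≤ U := by exact_mod_cast hU1
  have hUa : (U : ℝ) = (a : ℝ) ^ J := by rw [hU]; push_cast; ring
  have hpowU : ∀ i ≤ J, (a : ℝ) ^ i ≤ U := by
    intro i hi
    rw [hUa]
    exact pow_le_pow_right₀ haR hi
  have hratio : ∀ i ≤ J, ((a : ℝ) ^ i - (b : ℝ) ^ i) / (b : ℝ) ^ i ≤ κ := by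
    intro i hi
    rw [div_le_iff₀ (by positivity)]
    have h1 : (a : ℝ) ^ i ≤ ((1 + δ) * b) ^ i := pow_le_pow_left₀ (by positivity) hab i
    have h2 : (1 + δ) ^ i ≤ (1 + δ) ^ J := pow_le_pow_right₀ (by linarith) hi
    rw [mul_pow] at h1
    have h3 : (1 + δ) ^ i * (b : ℝ) ^ i ≤ (1 + κ) * (b : ℝ) ^ i := by
      refine mul_le_mul_of_nonneg_right ?_ (by positivity)
      rw [← hδJ]; exact h2
    linarith
  have hJ2 : a ^ J ≤ 2 * b ^ J := by
    have h1 := hratio J le_rfl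
    rw [div_le_iff₀ (by positivity)] at h1
    have h2 : (a : ℝ) ^ J ≤ 2 * (b : ℝ) ^ J := by
      have h3 : κ * (b : ℝ) ^ J ≤ 1 * (b : ℝ) ^ J := mul_le_mul_of_nonneg_right hκ1 (by positivity)
      linarith
    exact_mod_cast h2
  set τ : ℝ := c / (1000 * U) with hτ
  have hτ0 : 0 < τ := by positivity
  have hτU : τ * U = c / 1000 := by rw [hτ]; field_simp
  set D : ℝ := ((2 * a ^ J + 1 : ℝ) * C ^ (2 * a ^ J + 1)) * (4 * a ^ J + 1) with hD
  have hC0 : 0 < C := by linarith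
  have hD0 : 0 < D := by
    have : 0 < C ^ (2 * a ^ J + 1) := by positivity
    rw [hD]; positivity
  set η₃ : ℝ := α * c / (2 * √(G * D)) with hη₃
  have hη₃0 : 0 < η₃ := by positivity
  have hη₃sq : η₃ ^ 2 = α ^ 2 * c ^ 2 / (4 * (G * D)) := by
    have hsq : √(G * D) ^ 2 = G * D := Real.sq_sqrt (by positivity)
    rw [hη₃, div_pow, mul_pow, mul_pow, hsq]
    norm_num
  set η : ℝ := min (c / (256 * U)) (min (c * τ / 2) η₃) with hη
  have hη0 : 0 < η := by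
    rw [hη]
    exact lt_min (by positivity) (lt_min (by positivity) hη₃0)
  have hηa : η ≤ c / (256 * U) := min_le_left _ _
  have hηb : η ≤ c * τ / 2 := (min_le_right _ _).trans (min_le_left _ _)
  have hηc : η ≤ η₃ := (min_le_right _ _).trans (min_le_right _ _)
  refine ⟨U, η, ⌈576 * U / c⌉₊ + ⌈17 / (2 * c * τ)⌉₊ + 1, hη0, ?_⟩
  intro N hN f hf hinv hfour
  by_contra hcon
  push Not at hcon
  have hN1 : 1 ≤ N := by omega
  have hNR : (1 : ℝ) ≤ N := by exact_mod_cast hN1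
  have hN0 : (0 : ℝ) < N := by linarith
  have hNa : 576 * U / c ≤ N := by
    have h1 := Nat.le_ceil (576 * (U : ℝ) / c)
    have h2 : ⌈576 * (U : ℝ) / c⌉₊ ≤ N := by omega
    have h3 : ((⌈576 * (U : ℝ) / c⌉₊ : ℕ) : ℝ) ≤ N := Nat.cast_le.2 h2
    linarith
  have hNb : 17 / (2 * c * τ) ≤ N := by
    have h1 := Nat.le_ceil (17 / (2 * c * τ))
    have h2 : ⌈17 / (2 * c * τ)⌉₊ ≤ N := by omega
    have h3 : ((⌈17 / (2 * c * τ)⌉₊ : ℕ) : ℝ) ≤ N := Nat.cast_le.2 h2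
    linarith
  have hp0 : Λ * N ≠ 0 := Nat.mul_ne_zero (by omega) (by omega)
  have : NeZero (Λ * N) := ⟨hp0⟩
  obtain ⟨A, hgraph, hAA, hA1, hA2, hA3⟩ := graph_step hf hN1 hΛ17 hε hc hcε hcon
  have hp8 : 8 * N + 8 < Λ * N := by nlinarith
  have hpR : (((Λ * N : ℕ)) : ℝ) = Λ * N := by push_cast; ring
  have hpos : (0 : ℝ) < ((Λ * N : ℕ) : ℝ) := by rw [hpR]; positivity
  have hAR : (0 : ℝ) < A.card := lt_of_lt_of_le (by positivity) hA3
  have hA0 : A.Nonempty := by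
    rw [← Finset.card_pos]
    exact_mod_cast hAR
  -- the bound for the number of large correlations
  have hGb : (4 * N + 5 : ℝ) * (((Λ * N : ℕ) : ℝ) * N / (c / 2 * N) ^ 2) ≤ G * N := by
    rw [hpR, hG]
    have e1 : (Λ * N : ℝ) * N / (c / 2 * N) ^ 2 = 4 * Λ / c ^ 2 := by field_simp; ring
    rw [e1]
    have e2 : (4 * N + 5 : ℝ) ≤ 9 * N := by linarith
    calc (4 * N + 5 : ℝ) * (4 * Λ / c ^ 2) ≤ 9 * N * (4 * Λ / c ^ 2) :=
          mul_le_mul_of_nonneg_right e2 (by positivity)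
      _ = _ := by ring
  -- small frequencies
  have hfreq : ∀ z ∈ A, |(z.2.valMinAbs : ℝ)| ≤ τ * ((Λ * N : ℕ) : ℝ) := by
    intro z hz
    set h : ℤ := z.1.valMinAbs with hh
    set j : ℤ := z.2.valMinAbs with hj
    have ez1 : z.1 = (h : ZMod (Λ * N)) := (ZMod.coe_valMinAbs _).symm
    have ez2 : z.2 = (j : ZMod (Λ * N)) := (ZMod.coe_valMinAbs _).symm
    have h1 := hA2 z hz
    have h2 := hA1 z hz
    have h2' : |h| ≤ (N : ℤ) := h2
    rw [ez1, ez2, ft_dl f hp8 (by omega)] at h1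
    have h3 : |((j : ℝ) / ((Λ * N : ℕ) : ℝ))| ≤ 1 / 2 := by
      rw [abs_div, abs_of_pos hpos, div_le_div_iff₀ hpos (by norm_num)]
      have h4 := ZMod.valMinAbs_mem_Ioc z.2
      rw [Set.mem_Ioc] at h4
      have h5 : |j| * 2 ≤ ((Λ * N : ℕ) : ℤ) := by
        rw [← abs_of_pos (by norm_num : (0 : ℤ) < 2), ← abs_mul, abs_le]
        exact ⟨h4.1.le, h4.2⟩
      have h6 : ((|j| * 2 : ℤ) : ℝ) ≤ (((Λ * N : ℕ) : ℤ) : ℝ) := by exact_mod_cast h5
      push_cast at h6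
      rw [hpR]
      linarith
    have h4 := small_freq hf N h h3
    have h5 := hinv 0 0 (by simpa using hU1)
    rw [pow_zero, pow_zero, mul_one, Nat.div_one] at h5
    have h7 : |((j : ℝ) / ((Λ * N : ℕ) : ℝ))| ≤ τ :=
      freq_num hc hτ0 hN0 (abs_nonneg _) hηb hNb h1 h5 h4
    rw [abs_div, abs_of_pos hpos, div_le_iff₀ hpos] at h7
    exact h7
  -- the errors
  have herr : ∀ i ≤ J, (a : ℝ) ^ i * (8 * (η * N) + 36) + 14 * τ * (a : ℝ) ^ i * N +
      2 * N * (((a : ℝ) ^ i - (b : ℝ) ^ i) / (b : ℝ) ^ i) + 7 * (N : ℝ) ^ 2 / ((Λ * N : ℕ) : ℝ) ≤ c / 2 * N := by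
    intro i hi
    rw [hpR]
    exact err_num hc hUR hΛR hN0 hη0 (hpowU i hi) (hratio i hi) hτU hτ0 hηa hNa hΛc
  have hbad : ∀ i ≤ J, ((badset f (N / a ^ i) (a ^ i)).card : ℝ) ≤ η * N ∧
      ((badset f (N / b ^ i) (b ^ i)).card : ℝ) ≤ η * N := by
    intro i hi
    have e1 : a ^ i = 2 ^ (x * i) * 3 ^ (y * i) := by rw [ha, mul_pow, pow_mul, pow_mul]
    have e2 : b ^ i = 2 ^ (x' * i) * 3 ^ (y' * i) := by rw [hb, mul_pow, pow_mul, pow_mul]
    have h1 : a ^ i ≤ U := Nat.pow_le_pow_right ha1 hi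
    have h2 : b ^ i ≤ U := (Nat.pow_le_pow_left hba.le i).trans h1
    constructor
    · rw [e1]
      exact hinv _ _ (by rw [← e1]; exact h1)
    · rw [e2]
      exact hinv _ _ (by rw [← e2]; exact h2)
  have hτJ : 4 * τ * (a : ℝ) ^ J < 1 := by
    rw [← hUa]
    have : 4 * τ * (U : ℝ) = 4 * (τ * U) := by ring
    rw [this, hτU]
    linarith
  have hJA : 4 * ((4 * N + 5 : ℝ) * (((Λ * N : ℕ) : ℝ) * N / (c / 2 * N) ^ 2)) ≤ J * A.card := by
    calc 4 * ((4 * N + 5 : ℝ) * (((Λ * N : ℕ) : ℝ) * N / (c / 2 * N) ^ 2)) ≤ 4 * (G * N) :=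
          mul_le_mul_of_nonneg_left hGb (by norm_num)
      _ = (4 * G / α) * (α * N) := by field_simp
      _ ≤ J * A.card := mul_le_mul hJR hA3 (by positivity) (Nat.cast_nonneg _)
  obtain ⟨j, hj⟩ := core_step hf hN1 hp8 hc hC1 hgraph hAA hA1 hfreq hA2 hA0 hb1 hba hJ0 hJ2 hbad herr hτJ hJA
  -- the popular frequency
  have hpop : ((A.filter fun z => z.2 = j).card : ℝ) * (c * N) ^ 2 ≤ (η * N) ^ 2 * N := by
    have h1 : (((A.filter fun z => z.2 = j).image Prod.fst).card) = (A.filter fun z => z.2 = j).card := by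
      apply Finset.card_image_of_injOn
      intro z hz z' hz' h
      rw [Finset.mem_coe, Finset.mem_filter] at hz hz'
      exact hgraph z hz.1 z' hz'.1 h
    rw [← h1]
    apply popular (FF_abs hf N) (sum_FF_abs hf (by omega)) _ j _ (by positivity)
    · intro h hh
      rw [Finset.mem_image] at hh
      obtain ⟨z, hz, rfl⟩ := hh
      rw [Finset.mem_filter] at hz
      rw [← hz.2]
      exact hA2 z hz.1
    · intro k
      have ek : k = ((k.valMinAbs : ℤ) : ZMod (Λ * N)) := (ZMod.coe_valMinAbs _).symm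
      rw [ek, ft_FF f (by omega)]
      exact hfour _
  -- conclusion
  set m : ℝ := ((A.filter fun z => z.2 = j).card : ℝ) with hm
  have hm0 : 0 ≤ m := Nat.cast_nonneg _
  exact final_num hα0 hc hG0 hD0 hη0 hN0 hm0 hηc hη₃sq hA3 hGb hj hpop

end Pool.Agent.J4H80.QU
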