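import Pool.Agent.J4H80.QU.P1
import Pool.Agent.J4H80.QU.B

set_option autoImplicit false

/-!
# Project QU: all Gowers norms of Collatz-invariant sets (for MP_d02c56_nt, very famous)

Jobs are the statements `S_... : Prop` below.  Put the proofs in your own file
`Pool/Agent/J4H80/QU/<Name>.lean` (`theorem t_... : S_...`), importing this file.
`PD T h F x = ∏_{s ⊆ T} F (x + ∑_{i ∈ s} h i)`, `D1 d F x = F x * F (x + d)`,
`UG k F = ∑_{h : Fin k → G} ∑_x PD univ h F x` (see `P1.lean`; `UG_succ : UG (k+1) F = ∑_d UG k (D1 d F)`,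
`UG_nonneg : 0 ≤ UG (k+1) F`).  `ft`, `chi`, `parseval`, `card_large`: `A.lean`; `dl`, `sq_ft`, `quad`
(Gowers' quadruple lemma): `B.lean`.
-/

namespace Pool.Agent.J4H80.QU

open Finset Pointwise

/-- box norms -/
noncomputable def Box {α : Type*} [Fintype α] : (k : ℕ) → ((Fin k → α) → ℝ) → ℝ
  | 0, Φ => Φ Fin.elim0
  | k + 1, Φ => ∑ t : α, ∑ t' : α, Box k (fun h : Fin k → α =>
      Φ (Fin.cons t h : Fin (k + 1) → α) * Φ (Fin.cons t' h : Fin (k + 1) → α))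

/-- JOB A1 (box Cauchy-Schwarz).  Induction on `k`.  `k = 0`: `B 0` is constant and
`Box 1 Φ = (∑ Φ)^2`.  Step: write `h = cons t h'`; `B 0` does not depend on `t`; Cauchy-Schwarz over `h'`
(`n ^ (k+1)` terms), expand the square in `t, t'`, Jensen (`inner_mul_le_norm`/`inner_le_nnorm_mul_nnorm`
or `Finset.inner_mul_le...`, `inner_le_Lp_mul_Lq`, simplest `sq_sum_le_card_mul_sum_sq` iterated or
`Real.pow_arith_mean_le_arith_mean_pow` / `inner`: `(∑_{q ∈ S} x_q)^m ≤ |S|^(m-1) ∑ x_q^m`, which is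
`Finset.inner..`/`pow_sum_div_card_le_sum_pow`) over the `n^2` pairs `(t,t')`,
and the induction hypothesis for `Φ (cons t ·) * Φ (cons t' ·)` and
`B (j+1) (cons t ·) * conj (B (j+1) (cons t' ·))`. -/
def S_BOXCS : Prop := ∀ (α : Type) [Fintype α] (k : ℕ) (Φ : (Fin (k + 1) → α) → ℝ)
  (B : Fin (k + 1) → (Fin (k + 1) → α) → ℂ), (∀ j h, ‖B j h‖ ≤ 1) →
  (∀ j h t, B j (Function.update h j t) = B j h) →
  ‖∑ h, (Φ h : ℂ) * ∏ j, B j h‖ ^ (2 ^ (k + 1)) ≤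
    (Fintype.card α : ℝ) ^ ((k + 1) * 2 ^ (k + 1) - 2 * (k + 1)) * Box (k + 1) Φ

/-- JOB A2.  Induction on `k`, generalising `g`:
`∑_x Box (k+1) (..) = ∑_{t,t'} ∑_x Box k (h ↦ g (x+t+∑h) g (x+t'+∑h)) = ∑_{t,d} n^k UG k (D1 d g)`
(`t' = t + d`, shift `x` by `t`), then `UG_succ`. -/
def S_BOXSUM : Prop := ∀ (G : Type) [AddCommGroup G] [Fintype G] (k : ℕ) (g : G → ℝ),
  ∑ x, Box k (fun h : Fin k → G => g (x + ∑ i, h i)) = (Fintype.card G : ℝ) ^ k * UG k g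

/-- JOB A3 (split phases).
`‖ft (PD h F) ξ‖² = ∑_x ∑_d PD h (D1 d F) x χ (ξ d)` (`sq_ft` in B.lean and `PD_D1`), exchange: the
`2^(k+1)`-th power of `∑_{x,d} |∑_h PD h g x ∏_j χ (ψ_j(h) d)|`, `g = D1 d F`; Jensen over the `p^2` pairs
`(x, d)`; in `PD h g x` the factor with `s = univ` is `g (x + ∑ h)` and every other factor (`s ≠ univ`) does
not depend on some coordinate `j ∉ s`; so A1 applies with `Φ h = g (x + ∑ h)`; then A2 and `UG_succ`. -/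
def S_SPLIT : Prop := ∀ (p : ℕ) [NeZero p] (k : ℕ) (F : ZMod p → ℝ), (∀ x, |F x| ≤ 1) →
  ∀ ψ : Fin (k + 1) → (Fin (k + 1) → ZMod p) → ZMod p,
  (∀ j h t, ψ j (Function.update h j t) = ψ j h) →
  (∑ h : Fin (k + 1) → ZMod p, ‖ft (fun x => ((PD Finset.univ h F x : ℝ) : ℂ)) (∑ j, ψ j h)‖ ^ 2) ^ (2 ^ (k + 1)) ≤
    (p : ℝ) ^ ((k + 3) * 2 ^ (k + 1) - (k + 3)) * UG (k + 2) F

/-- JOB A4 (restricted boxes).  Let `X s m g = ∑_{t,t' : Fin s → α} UG m (PD univ (e i (t' i) - e i (t i)) g)`;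
`∑_x Box k (..) = X k 0 g`; `X s m ≥ 0` if `s + m ≥ 1` (it is a sum of squares), and
`X (s+1) m g ≤ |α| ∑_{u : G} X s m (D1 u g) = |α| X s (m+1) g` if `s + m ≥ 1` (each `u` is a difference
`e (t') - e t` for at most `|α|` pairs by injectivity). Any other formulation is fine. -/
def S_BOXRES : Prop := ∀ (G : Type) [AddCommGroup G] [Fintype G] (α : Type) [Fintype α] (k : ℕ) (g : G → ℝ)
  (ei : Fin (k + 2) → α → G), (∀ i, Function.Injective (ei i)) →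
  ∑ x, Box (k + 2) (fun h : Fin (k + 2) → α => g (x + ∑ i, ei i (h i))) ≤
    (Fintype.card α : ℝ) ^ (k + 2) * UG (k + 2) g

/-- paths in `M` that change one coordinate at each step -/
inductive Path {k J : ℕ} (M : Finset (Fin k → Fin J)) : ℕ → (Fin k → Fin J) → (Fin k → Fin J) → Prop
  | refl (m : Fin k → Fin J) : m ∈ M → Path M 0 m m
  | step {n : ℕ} {a b : Fin k → Fin J} (i : Fin k) (x : Fin J) : Path M n a b →
      Function.update b i x ∈ M → Path M (n + 1) a (Function.update b i x)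

/-- JOB B.  (1) Cleaning: `t = δ J / (2 k)`; choose `M' ⊆ M` maximising `|M'| - t * #(axis lines meeting M')`
(there are `k J^(k-1)` lines); `M'` is nonempty and each line meeting `M'` meets it in at least `t` points.
(2) From `P₀ ∈ M'` change coordinates `0, 1, ..., k-1` in this order inside `M'`: at least `t^k` end points
`E ⊆ M'` (the intermediate sets `E_j` have `t^j` points whose coordinates `≥ j` are those of `P₀`).
(3) `m ↦ (differences m i - m 0, Y m)`: at most `(2J)^(k-1) C` values on `E`, and `t^k` is larger for large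
`J`; so two different points `m', m''` of `E` agree; then `m' = m'' + s (1,..,1)`, wlog `s > 0`. (4) the path
`m'' → P₀ → m'` has length `2 k` (paths can be reversed). -/
def S_DIAG : Prop := ∀ (k : ℕ) (δ C : ℝ), 1 ≤ k → 0 < δ → ∃ J₀ : ℕ, ∀ J, J₀ ≤ J →
  ∀ (M : Finset (Fin k → Fin J)), δ * (J : ℝ) ^ k ≤ M.card →
  ∀ (β : Type) [DecidableEq β] (Y : (Fin k → Fin J) → β),
  (∀ m₀ ∈ M, (((M.filter (fun m => ∀ i j, ((m i : ℕ) : ℤ) - (m j : ℕ) = ((m₀ i : ℕ) : ℤ) - (m₀ j : ℕ))).image Y).card : ℝ) ≤ C) →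
  ∃ m' ∈ M, ∃ m'' ∈ M, ∃ s : ℕ, 0 < s ∧ (∀ i, (m' i : ℕ) = m'' i + s) ∧ Y m' = Y m'' ∧ Path M (2 * k) m'' m'

/-- `B` is structured in the direction `i` -/
def Struct {p k : ℕ} (i : Fin k) (C : ℝ) (B : Finset (Fin k → ZMod p)) (ξ : (Fin k → ZMod p) → ZMod p) : Prop :=
  ∃ A : (Fin k → ZMod p) → Finset (ZMod p × ZMod p), (∀ x t, A (Function.update x i t) = A x) ∧
    (∀ x ∈ B, (x i, ξ x) ∈ A x) ∧
    (∀ x, (A x).Nonempty → (∀ a ∈ A x, ∀ b ∈ A x, a.1 = b.1 → a = b) ∧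
      ((A x - A x).card : ℝ) ≤ C * (A x).card)

/-- JOB C.  One direction `i` at a time (`Struct` is inherited by subsets of `B`).  For a line in direction `i`
(fix the other coordinates of `x`), `PD univ x F y = F' y * F' (y + x i)` with `F' = PD (univ.erase i) x F`
(`PD_erase`), i.e. `fun y => (PD univ x F y : ℂ) = dl F' (x i)`; lines with at least `δ₁ N` points of `B`
contain half of `B` (at most `(2N+1)^(k-1)` lines meet `B`); for such a line `quad` (B.lean, with `F'`) gives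
additive energy `≥ c₁ N³` of the graph of `ξ` on the line, and Balog-Szemeredi-Gowers
`Pool.Agent.H217R3.AK.bsg A hA K hK (hE : |A|^3 ≤ K*addEnergy) : ∃ B⊆A, nonempty, |A| ≤ 8K|B|, |B-B| ≤ 2^22 K^10 |B|`
(module Pool.Agent.H217R3.AK.Bsg; see `graph_step` in `H3.lean` for the one dimensional case with all
computations) gives the structured set `A x`.  On the other lines `A x = ∅`. -/
def S_REFINE : Prop := ∀ (k : ℕ) (c δ Λ : ℝ), 1 ≤ k → 0 < c → 0 < δ → 0 < Λ →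
  ∃ δ' C : ℝ, 0 < δ' ∧ 1 ≤ C ∧ ∀ (p N : ℕ) [NeZero p], 1 ≤ N → (p : ℝ) ≤ Λ * N →
  ∀ F : ZMod p → ℝ, (∀ x, |F x| ≤ 1) → ∑ x, |F x| ≤ N →
  ∀ (ξ : (Fin k → ZMod p) → ZMod p) (B : Finset (Fin k → ZMod p)),
  (∀ x ∈ B, ∀ i, |(x i).valMinAbs| ≤ (N : ℤ)) →
  (∀ x ∈ B, c * N ≤ ‖ft (fun y => ((PD Finset.univ x F y : ℝ) : ℂ)) (ξ x)‖) →
  δ * (N : ℝ) ^ k ≤ B.card →
  ∃ B' ⊆ B, δ' * (N : ℝ) ^ k ≤ B'.card ∧ ∀ i, Struct i C B' ξ

/-- the map `x ↦ ⌊a x / b⌋` -/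
def TT (a b : ℕ) (x : ℤ) : ℤ := ((a : ℤ) * x) / b

/-- JOB D1 (easy; induction on `e`, `b * TT x = a x - r`, `0 ≤ r < b`) -/
def S_FLOOR : Prop := ∀ a b J : ℕ, 1 ≤ b → ∃ E : ℕ, ∀ (x : ℤ) (m e : ℕ), e ≤ J →
  |(b : ℤ) ^ e * (TT a b)^[m + e] x - (a : ℤ) ^ e * (TT a b)^[m] x| ≤ E

/-- JOB D2.  `TT a b` is injective (`floor_inj` in H1.lean) and `|TT^m x| ≤ (a/b)^m (|x| + m)`, so for each `m < J`
all but `2 κ N + 2 J + 2` of the `x ∈ [-N, N]` have `TT^m x ∈ [-N,N]`; for each `m : Fin k → Fin J` the number of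
`g ∈ [-N,N]^k` with `TT^m g ∈ B` is at least `|B| - k (2 κ N + 2 J + 2) (2N+1)^(k-1) ≥ |B| / 2`; then average
over `m` and `g`. -/
def S_GOODG : Prop := ∀ (k J : ℕ) (δ : ℝ), 1 ≤ k → 1 ≤ J → 0 < δ → ∃ κ : ℝ, 0 < κ ∧ κ ≤ 1 ∧
  ∀ (a b : ℕ), 1 ≤ b → b < a → (a : ℝ) ^ J ≤ (1 + κ) * (b : ℝ) ^ J → ∃ N₀ : ℕ, ∀ N, N₀ ≤ N →
  ∀ B : Finset (Fin k → ℤ), (∀ x ∈ B, ∀ i, |x i| ≤ (N : ℤ)) → δ * (N : ℝ) ^ k ≤ B.card →
  δ / 4 * (N : ℝ) ^ k ≤ (((Fintype.piFinset (fun _ : Fin k => Finset.Icc (-(N : ℤ)) N)).filter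
    (fun g => δ / (4 * 3 ^ k) * (J : ℝ) ^ k ≤ ((Finset.univ.filter (fun m : Fin k → Fin J =>
      (fun i => (TT a b)^[(m i : ℕ)] (g i)) ∈ B)).card : ℝ))).card : ℝ)

/-- JOB E (generalised von Neumann theorem).  `s = t + 1` directions `v_k ∈ ℤ^d`: for `k < t`, `k ≠ i₀`, `v_k`
kills `L k` but not `L i₀`; for `k = i₀` and `k = t` any `v_k` not killed by `L i₀`.  Replace `x` by
`x + ∑_k h_k v_k`, average over `h ∈ [0,H)^(t+1)`, `H = ⌊κ N⌋` (the box changes by `O(κ N^d)` points); for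
fixed `x` box Cauchy-Schwarz (A1, `α = Fin H`) bounds the sum over `h` by the box norm of
`h ↦ g (ψ(x) + ∑ c_k h_k)`, `c_k ≠ 0`, `g = f i₀` cut to `[-A N, A N]`; Jensen over `x`; at most `(2N+1)^(d-1)`
values of `x` give the same `ψ(x)` and box norms of order `≥ 1` are nonnegative; A4 with `G = ZMod (Q N + 1)`,
`ei k h = c_k h`. -/
def S_VN : Prop := ∀ (d t : ℕ) (L : Fin t → Fin d → ℤ) (c : Fin t → ℤ),
  (∀ i, ∃ v : Fin d → ℤ, ∑ l, L i l * v l ≠ 0) →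
  (∀ i j, i ≠ j → ∃ v : Fin d → ℤ, ∑ l, L j l * v l = 0 ∧ ∑ l, L i l * v l ≠ 0) →
  ∀ ε : ℝ, 0 < ε → ∃ (A Q N₀ : ℕ) (ε' : ℝ), 0 < ε' ∧ 8 * (A + 1) ≤ Q ∧ ∀ N : ℕ, N₀ ≤ N →
  ∀ a b : Fin d → ℤ, (∀ l, -(N : ℤ) ≤ a l ∧ b l ≤ N) → ∀ f : Fin t → ℤ → ℝ, (∀ i n, |f i n| ≤ 1) → ∀ i₀ : Fin t,
  UG (t + 1) (fun x : ZMod (Q * N + 1) => if |x.valMinAbs| ≤ (A : ℤ) * N then f i₀ x.valMinAbs else 0) ≤
    ε' * (N : ℝ) ^ (t + 2) →
  |∑ x ∈ Finset.Icc a b, ∏ i, f i (∑ l, L i l * x l + c i)| ≤ ε * (N : ℝ) ^ d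

end Pool.Agent.J4H80.QU
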