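import Mathlib

set_option autoImplicit false

/-! Multiplicative derivatives in several directions and the Gowers norms. -/

namespace Pool.Agent.J4H80.QU

open Finset

section basic

variable {ι G : Type*} [DecidableEq ι] [AddCommGroup G]

/-- the derivative in the directions `h i`, `i ∈ T` -/
def PD (T : Finset ι) (h : ι → G) (F : G → ℝ) (x : G) : ℝ :=
  ∏ s ∈ T.powerset, F (x + ∑ i ∈ s, h i)

/-- the derivative in one direction -/
def D1 (d : G) (F : G → ℝ) (x : G) : ℝ := F x * F (x + d)

omit [DecidableEq ι] in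
theorem PD_empty (h : ι → G) (F : G → ℝ) (x : G) : PD ∅ h F x = F x := by
  unfold PD; simp

theorem PD_insert {T : Finset ι} {i : ι} (hi : i ∉ T) (h : ι → G) (F : G → ℝ) (x : G) :
    PD (insert i T) h F x = PD T h F x * PD T h F (x + h i) := by
  unfold PD
  rw [Finset.prod_powerset_insert hi]
  congr 1
  refine Finset.prod_congr rfl fun s hs => ?_
  rw [Finset.sum_insert (fun h' => hi (Finset.mem_powerset.1 hs h')), ← add_assoc]

omit [DecidableEq ι] in
theorem PD_congr {T : Finset ι} {h h' : ι → G} (hh : ∀ i ∈ T, h i = h' i) (F : G → ℝ) (x : G) :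
    PD T h F x = PD T h' F x := by
  unfold PD
  refine Finset.prod_congr rfl fun s hs => ?_
  rw [Finset.sum_congr rfl fun i hi => hh i (Finset.mem_powerset.1 hs hi)]

omit [DecidableEq ι] in
theorem PD_D1 (T : Finset ι) (h : ι → G) (d : G) (F : G → ℝ) (x : G) :
    PD T h (D1 d F) x = PD T h F x * PD T h F (x + d) := by
  unfold PD D1
  rw [Finset.prod_mul_distrib]
  congr 1
  refine Finset.prod_congr rfl fun s _ => ?_
  congr 1
  abel

theorem PD_erase [Fintype ι] (i : ι) (h : ι → G) (F : G → ℝ) (x : G) :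
    PD Finset.univ h F x = PD (Finset.univ.erase i) h F x * PD (Finset.univ.erase i) h F (x + h i) := by
  rw [← PD_insert (Finset.notMem_erase i _), Finset.insert_erase (Finset.mem_univ i)]

omit [DecidableEq ι] in
theorem PD_abs_le {F : G → ℝ} (hF : ∀ x, |F x| ≤ 1) (T : Finset ι) (h : ι → G) (x : G) :
    |PD T h F x| ≤ 1 := by
  unfold PD
  rw [Finset.abs_prod]
  exact Finset.prod_le_one (fun _ _ => abs_nonneg _) fun _ _ => hF _

omit [DecidableEq ι] in
theorem PD_abs_le' {F : G → ℝ} (hF : ∀ x, |F x| ≤ 1) (T : Finset ι) (h : ι → G) {s : Finset ι} (hs : s ⊆ T)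
    (x : G) : |PD T h F x| ≤ |F (x + ∑ i ∈ s, h i)| := by
  classical
  unfold PD
  rw [Finset.abs_prod, ← Finset.mul_prod_erase _ _ (Finset.mem_powerset.2 hs)]
  refine mul_le_of_le_one_right (abs_nonneg _) ?_
  exact Finset.prod_le_one (fun _ _ => abs_nonneg _) fun _ _ => hF _

theorem PD_map {κ : Type*} [DecidableEq κ] (σ : κ ↪ ι) (T : Finset κ) (h : ι → G) (F : G → ℝ) :
    ∀ x, PD (T.map σ) h F x = PD T (fun i => h (σ i)) F x := by
  induction T using Finset.induction_on with
  | empty => intro x; rw [Finset.map_empty, PD_empty, PD_empty]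
  | insert i T hi ih =>
    intro x
    rw [Finset.map_insert, PD_insert (by simpa using hi), PD_insert hi, ih, ih]

theorem PD_cons {k : ℕ} (d : G) (h : Fin k → G) (F : G → ℝ) (x : G) :
    PD Finset.univ (Fin.cons d h : Fin (k + 1) → G) F x = PD Finset.univ h (D1 d F) x := by
  have e : (Finset.univ : Finset (Fin (k + 1))) = insert 0 (Finset.univ.map (Fin.succEmb k)) := by
    rw [Fin.univ_succ, Finset.cons_eq_insert]
    congr 1
  rw [e, PD_insert (by simp [Fin.succ_ne_zero]), PD_map, PD_map, PD_D1]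
  simp

end basic

section norms

variable {G : Type*} [AddCommGroup G] [Fintype G]

/-- the `2 ^ k`-th power of the (unnormalised) Gowers norm of order `k` -/
noncomputable def UG (k : ℕ) (F : G → ℝ) : ℝ := ∑ h : Fin k → G, ∑ x, PD Finset.univ h F x

theorem UG_zero (F : G → ℝ) : UG 0 F = ∑ x, F x := by
  unfold UG
  rw [Fintype.sum_unique]
  refine Finset.sum_congr rfl fun x _ => ?_
  unfold PD
  simp

omit [AddCommGroup G] in
theorem sum_cons {k : ℕ} {M : Type*} [AddCommMonoid M] (Φ : (Fin (k + 1) → G) → M) :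
    ∑ h, Φ h = ∑ d : G, ∑ h : Fin k → G, Φ (Fin.cons d h) := by
  rw [← Fintype.sum_prod_type']
  exact (Fintype.sum_equiv (Fin.consEquiv (fun _ => G)) _ _ fun q => rfl).symm

theorem UG_succ (k : ℕ) (F : G → ℝ) : UG (k + 1) F = ∑ d, UG k (D1 d F) := by
  unfold UG
  rw [sum_cons]
  refine Finset.sum_congr rfl fun d _ => Finset.sum_congr rfl fun h _ =>
    Finset.sum_congr rfl fun x _ => PD_cons d h F x

theorem corr_total (g : G → ℝ) : ∑ d, ∑ x, g x * g (x + d) = (∑ x, g x) ^ 2 := by
  rw [Finset.sum_comm, sq, Finset.sum_mul]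
  refine Finset.sum_congr rfl fun x _ => ?_
  rw [← Finset.mul_sum]
  congr 1
  exact Fintype.sum_equiv (Equiv.addLeft x) _ _ fun d => rfl

theorem UG_one (F : G → ℝ) : UG 1 F = (∑ x, F x) ^ 2 := by
  rw [UG_succ, ← corr_total]
  refine Finset.sum_congr rfl fun d _ => ?_
  rw [UG_zero]
  rfl

theorem UG_nonneg (k : ℕ) : ∀ F : G → ℝ, 0 ≤ UG (k + 1) F := by
  induction k with
  | zero => intro F; rw [UG_one]; positivity
  | succ k ih => intro F; rw [UG_succ]; exact Finset.sum_nonneg fun d _ => ih _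

theorem UG_two (F : G → ℝ) : UG 2 F = ∑ d, (∑ x, F x * F (x + d)) ^ 2 := by
  rw [UG_succ]
  exact Finset.sum_congr rfl fun d _ => UG_one _

theorem UG_add_two (k : ℕ) : ∀ F : G → ℝ, UG (k + 2) F = ∑ h : Fin k → G, UG 2 (PD Finset.univ h F) := by
  induction k with
  | zero =>
    intro F
    rw [Fintype.sum_unique]
    congr 1
    funext x
    unfold PD
    simp
  | succ k ih =>
    intro F
    rw [UG_succ (k + 2), sum_cons]
    refine Finset.sum_congr rfl fun d _ => ?_
    rw [ih]
    refine Finset.sum_congr rfl fun h _ => ?_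
    congr 1
    funext x
    exact (PD_cons d h F x).symm

end norms

end Pool.Agent.J4H80.QU
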