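import Pool.Agent.J4H80.QU.E
import Pool.Agent.J4H80.QU.P1

set_option autoImplicit false

/-! Scaling of correlations of multiplicative derivatives in several directions. -/

namespace Pool.Agent.J4H80.QU

open Finset

/-- the exceptional integers for `w`, offsets up to `B` -/
noncomputable def bad (f : ℤ → ℝ) (M w B : ℕ) : Finset ℤ := by
  classical
  exact (Icc (1 : ℤ) M).filter fun m => ∃ b ∈ Finset.range B, f (w * m + b) ≠ f m

theorem mem_bad (f : ℤ → ℝ) (M w B : ℕ) (m : ℤ) :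
    m ∈ bad f M w B ↔ (1 ≤ m ∧ m ≤ M) ∧ ∃ b ∈ Finset.range B, f (w * m + b) ≠ f m := by
  classical
  unfold bad
  simp only [Finset.mem_filter, Finset.mem_Icc]

theorem bad_mono (f : ℤ → ℝ) (M w : ℕ) {B B' : ℕ} (h : B ≤ B') : bad f M w B ⊆ bad f M w B' := by
  intro m hm
  rw [mem_bad] at hm ⊢
  obtain ⟨h1, b, hb, h2⟩ := hm
  rw [Finset.mem_range] at hb
  exact ⟨h1, b, Finset.mem_range.2 (hb.trans_le h), h2⟩

/-- the comparison of the cut functions on one residue class -/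
theorem cut_compareB {f : ℤ → ℝ} (hf : ∀ x, |f x| ≤ 1) {N w B : ℕ} (hw : 1 ≤ w) (g : ℤ) {c : ℤ}
    (hc0 : 0 ≤ c) (hc : c < B) :
    ∑ m ∈ Icc (1 : ℤ) ((N / w : ℕ) : ℤ), |cut f N (w * (m + g) + c) - cut f (N / w) (m + g)| ≤
      2 * ((bad f (N / w) w B).card + 2 * B : ℝ) := by
  classical
  set M : ℕ := N / w with hM
  have hMw : M * w ≤ N := Nat.div_mul_le_self N w
  have hMw' : N < (M + 1) * w := by
    calc N < w * (M + 1) := Nat.lt_mul_div_succ N (by omega)
      _ = _ := by ring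
  have hMwZ : (M : ℤ) * w ≤ N := by exact_mod_cast hMw
  have hMwZ' : (N : ℤ) < (M + 1) * w := by exact_mod_cast hMw'
  have hwZ : (1 : ℤ) ≤ w := by exact_mod_cast hw
  set X : Finset ℤ := bad f M w B ∪ (Ioc (-(B : ℤ)) 0 ∪ Ioc ((M : ℤ) - B) M) with hX
  have hXc : (X.card : ℝ) ≤ (bad f M w B).card + 2 * B := by
    have h1 : X.card ≤ (bad f M w B).card + (Ioc (-(B : ℤ)) 0 ∪ Ioc ((M : ℤ) - B) M).card :=
      Finset.card_union_le _ _
    have h2 : (Ioc (-(B : ℤ)) 0 ∪ Ioc ((M : ℤ) - B) M).card ≤ B + B := by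
      refine (Finset.card_union_le _ _).trans (le_of_eq ?_)
      rw [Int.card_Ioc, Int.card_Ioc]
      omega
    have h3 : X.card ≤ (bad f M w B).card + (B + B) := h1.trans (Nat.add_le_add_left h2 _)
    have h4 : (X.card : ℝ) ≤ (((bad f M w B).card + (B + B) : ℕ) : ℝ) := by exact_mod_cast h3
    push_cast at h4
    linarith
  have key : ∀ m : ℤ, m + g ∉ X → cut f N (w * (m + g) + c) = cut f M (m + g) := by
    intro m hm
    set m' : ℤ := m + g with hm'
    rw [hX, Finset.mem_union, Finset.mem_union, Finset.mem_Ioc, Finset.mem_Ioc] at hm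
    push Not at hm
    obtain ⟨hm1, hm2, hm3⟩ := hm
    unfold cut
    rcases lt_or_ge m' 1 with h1 | h1
    · have h2 : m' ≤ -B := by
        by_contra h
        push Not at h
        have := hm2 h
        omega
      have h3 : ¬ (1 ≤ (w : ℤ) * m' + c ∧ (w : ℤ) * m' + c ≤ N) := by
        intro h
        have : (w : ℤ) * m' ≤ 1 * m' := by nlinarith
        omega
      have h4 : ¬ (1 ≤ m' ∧ m' ≤ (M : ℤ)) := by omega
      rw [if_neg h3, if_neg h4]
    · rcases le_or_gt m' (M : ℤ) with h2 | h2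
      · have h2' : m' ≤ M - B := by
          by_contra h
          push Not at h
          have := hm3 h
          omega
        have h3 : (1 ≤ (w : ℤ) * m' + c ∧ (w : ℤ) * m' + c ≤ N) := by
          constructor
          · nlinarith
          · have h5 : (w : ℤ) * m' ≤ w * (M - B) := mul_le_mul_of_nonneg_left h2' (by omega)
            have hB0 : (0 : ℤ) ≤ B := by positivity
            have h6 : (B : ℤ) ≤ w * B := by nlinarith
            nlinarith
        rw [if_pos h3, if_pos ⟨h1, h2⟩]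
        by_contra hne
        apply hm1
        rw [mem_bad]
        refine ⟨⟨h1, h2⟩, c.toNat, ?_, ?_⟩
        · rw [Finset.mem_range]; omega
        · rw [Int.toNat_of_nonneg hc0]
          exact hne
      · have h3 : ¬ (1 ≤ (w : ℤ) * m' + c ∧ (w : ℤ) * m' + c ≤ N) := by
          intro h
          have : (w : ℤ) * (M + 1) ≤ w * m' := mul_le_mul_of_nonneg_left (by omega) (by omega)
          nlinarith
        have h4 : ¬ (1 ≤ m' ∧ m' ≤ (M : ℤ)) := by omega
        rw [if_neg h3, if_neg h4]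
  calc ∑ m ∈ Icc (1 : ℤ) (M : ℤ), |cut f N (w * (m + g) + c) - cut f M (m + g)|
      = ∑ m ∈ (Icc (1 : ℤ) (M : ℤ)).filter (fun m => m + g ∈ X),
          |cut f N (w * (m + g) + c) - cut f M (m + g)| := by
        symm
        apply Finset.sum_subset (Finset.filter_subset _ _)
        intro m hm hm'
        rw [Finset.mem_filter, not_and] at hm'
        rw [key m (hm' hm), sub_self, abs_zero]
    _ ≤ ∑ m ∈ (Icc (1 : ℤ) (M : ℤ)).filter (fun m => m + g ∈ X), (2 : ℝ) := by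
        refine Finset.sum_le_sum fun m _ => ?_
        have h1 := cut_abs hf N (w * (m + g) + c)
        have h2 := cut_abs hf M (m + g)
        have h3 := abs_sub (cut f N (w * (m + g) + c)) (cut f M (m + g))
        linarith
    _ = 2 * (((Icc (1 : ℤ) (M : ℤ)).filter (fun m => m + g ∈ X)).card : ℝ) := by
        rw [Finset.sum_const, nsmul_eq_mul, mul_comm]
    _ ≤ 2 * ((bad f M w B).card + 2 * B : ℝ) := by
        have h1 := card_shift (Icc (1 : ℤ) (M : ℤ)) X g
        have h2 : (((Icc (1 : ℤ) (M : ℤ)).filter (fun m => m + g ∈ X)).card : ℝ) ≤ X.card := by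
          exact_mod_cast h1
        linarith

/-- differences of products -/
theorem prod_sub_le {σ : Type*} (S : Finset σ) (a b : σ → ℝ) (ha : ∀ s, |a s| ≤ 1)
    (hb : ∀ s, |b s| ≤ 1) : |∏ s ∈ S, a s - ∏ s ∈ S, b s| ≤ ∑ s ∈ S, |a s - b s| := by
  classical
  induction S using Finset.induction_on with
  | empty => simp
  | insert i S hi ih =>
    rw [Finset.prod_insert hi, Finset.prod_insert hi, Finset.sum_insert hi]
    have e1 : a i * ∏ s ∈ S, a s - b i * ∏ s ∈ S, b s =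
        (a i - b i) * ∏ s ∈ S, a s + b i * (∏ s ∈ S, a s - ∏ s ∈ S, b s) := by ring
    rw [e1]
    refine (abs_add_le _ _).trans (add_le_add ?_ ?_)
    · rw [abs_mul]
      refine mul_le_of_le_one_right (abs_nonneg _) ?_
      rw [Finset.abs_prod]
      exact Finset.prod_le_one (fun _ _ => abs_nonneg _) fun s _ => ha s
    · rw [abs_mul]
      exact (mul_le_of_le_one_left (abs_nonneg _) (hb i)).trans ih

variable {k : ℕ}

/-- the correlation of the derivative of `f` in the directions `h` with `e(-θ n)` -/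
noncomputable def SK (f : ℤ → ℝ) (N : ℕ) (h : Fin k → ℤ) (θ : ℝ) : ℂ :=
  ∑ n ∈ Icc (1 : ℤ) N, ((PD Finset.univ h (cut f N) n : ℝ) : ℂ) * e (-(θ * n))

theorem PD_cut_zero (f : ℤ → ℝ) (N : ℕ) (h : Fin k → ℤ) {n : ℤ} (hn : ¬ (1 ≤ n ∧ n ≤ N)) :
    PD Finset.univ h (cut f N) n = 0 := by
  unfold PD
  apply Finset.prod_eq_zero (Finset.empty_mem_powerset _)
  rw [Finset.sum_empty, add_zero]
  unfold cut
  rw [if_neg hn]

theorem card_pw : ((Finset.univ : Finset (Fin k)).powerset.card : ℝ) = 2 ^ k := by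
  rw [Finset.card_powerset, Finset.card_univ, Fintype.card_fin]; push_cast; rfl

theorem card_IccN (N : ℕ) : ((Icc (1 : ℤ) N).card : ℝ) = N := by
  rw [Int.card_Icc]
  have : ((N : ℤ) + 1 - 1).toNat = N := by omega
  rw [this]

/-- **the scaling of the correlations** -/
theorem scaleK {f : ℤ → ℝ} (hf : ∀ x, |f x| ≤ 1) {N w B : ℕ} (hw : 1 ≤ w) (hB : (k + 1) * w ≤ B)
    (g l : Fin k → ℤ) (hl0 : ∀ i, 0 ≤ l i) (hl : ∀ i, l i < w) (θ : ℝ) :
    ‖SK f N (fun i => w * g i + l i) θ - w * SK f (N / w) g (w * θ)‖ ≤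
      w * (2 ^ (k + 1) * ((bad f (N / w) w B).card + 2 * B : ℝ) + 1) + 7 * |θ| * w * N := by
  classical
  set M : ℕ := N / w with hM
  have hMw : M * w ≤ N := Nat.div_mul_le_self N w
  set hh : Fin k → ℤ := fun i => w * g i + l i with hhh
  set G : ℤ → ℂ := fun n => ((PD Finset.univ hh (cut f N) n : ℝ) : ℂ) * e (-(θ * n)) with hG
  have hG1 : ∀ n, ‖G n‖ ≤ 1 := by
    intro n
    simp only [hG]
    rw [norm_mul, norm_e, mul_one, Complex.norm_real, Real.norm_eq_abs]
    exact PD_abs_le (cut_abs hf N) _ _ _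
  have hG0 : ∀ n : ℤ, (N : ℤ) < n → G n = 0 := by
    intro n hn
    simp only [hG]
    rw [PD_cut_zero f N hh (by omega)]; simp
  have s1 := block_sum hG1 hw hG0
  set H : ℤ → ℂ := fun m => ((PD Finset.univ g (cut f M) m : ℝ) : ℂ) * e (-(w * θ * m)) with hH
  have s2 : (w : ℂ) * SK f M g (w * θ) = ∑ i ∈ range w, ∑ m ∈ Icc (1 : ℤ) (M : ℤ), H m := by
    rw [Finset.sum_const, Finset.card_range, nsmul_eq_mul]
    rfl
  have s3 : ∀ i ∈ range w, ‖∑ m ∈ Icc (1 : ℤ) (M : ℤ), G (w * m + i) - ∑ m ∈ Icc (1 : ℤ) (M : ℤ), H m‖ ≤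
      2 ^ k * (2 * ((bad f M w B).card + 2 * B : ℝ)) + 7 * |θ| * w * M := by
    intro i hi
    rw [Finset.mem_range] at hi
    rw [← Finset.sum_sub_distrib]
    refine (norm_sum_le _ _).trans ?_
    have t : ∀ m ∈ Icc (1 : ℤ) (M : ℤ), ‖G (w * m + i) - H m‖ ≤
        ∑ s ∈ (Finset.univ : Finset (Fin k)).powerset,
          |cut f N (w * (m + ∑ j ∈ s, g j) + (i + ∑ j ∈ s, l j)) - cut f M (m + ∑ j ∈ s, g j)| +
          7 * |θ| * w := by
      intro m _
      simp only [hG, hH]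
      set a := PD Finset.univ hh (cut f N) (w * m + i) with ha
      set a' := PD Finset.univ g (cut f M) m with ha'
      set E := e (-(θ * ((w * m + i : ℤ) : ℝ)))
      set E' := e (-(w * θ * m))
      have hE : ‖E - E'‖ ≤ 7 * |θ| * w := by
        refine (e_sub_e _ _).trans ?_
        have : -(θ * ((w * m + i : ℤ) : ℝ)) - -(w * θ * m) = -(θ * i) := by push_cast; ring
        rw [this, abs_neg, abs_mul, mul_assoc]
        refine mul_le_mul_of_nonneg_left (mul_le_mul_of_nonneg_left ?_ (abs_nonneg _)) (by norm_num)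
        rw [abs_of_nonneg (Nat.cast_nonneg _)]
        exact_mod_cast hi.le
      have ha'1 : |a'| ≤ 1 := PD_abs_le (cut_abs hf M) _ _ _
      have hd : |a - a'| ≤ ∑ s ∈ (Finset.univ : Finset (Fin k)).powerset,
          |cut f N (w * (m + ∑ j ∈ s, g j) + (i + ∑ j ∈ s, l j)) - cut f M (m + ∑ j ∈ s, g j)| := by
        rw [ha, ha']
        unfold PD
        refine (prod_sub_le _ _ _ (fun s => cut_abs hf _ _) (fun s => cut_abs hf _ _)).trans
          (le_of_eq (Finset.sum_congr rfl fun s _ => ?_))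
        congr 3
        rw [hhh, Finset.sum_add_distrib, ← Finset.mul_sum]
        ring
      have e2 : ((a : ℝ) : ℂ) * E - ((a' : ℝ) : ℂ) * E' =
          (((a - a') : ℝ) : ℂ) * E + ((a' : ℝ) : ℂ) * (E - E') := by
        push_cast; ring
      rw [e2]
      refine (norm_add_le _ _).trans (add_le_add ?_ ?_)
      · rw [norm_mul, Complex.norm_real, Real.norm_eq_abs]
        have hE1 : ‖E‖ = 1 := norm_e _
        rw [hE1, mul_one]
        exact hd
      · rw [norm_mul, Complex.norm_real, Real.norm_eq_abs]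
        calc |a'| * ‖E - E'‖ ≤ 1 * ‖E - E'‖ := mul_le_mul_of_nonneg_right ha'1 (norm_nonneg _)
          _ = ‖E - E'‖ := one_mul _
          _ ≤ _ := hE
    refine (Finset.sum_le_sum t).trans ?_
    rw [Finset.sum_add_distrib]
    have u3 : ∑ m ∈ Icc (1 : ℤ) (M : ℤ), 7 * |θ| * (w : ℝ) = 7 * |θ| * w * M := by
      rw [Finset.sum_const, nsmul_eq_mul, card_IccN]
      ring
    rw [u3]
    refine add_le_add ?_ le_rfl
    rw [Finset.sum_comm]
    calc ∑ s ∈ (Finset.univ : Finset (Fin k)).powerset, ∑ m ∈ Icc (1 : ℤ) (M : ℤ),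
          |cut f N (w * (m + ∑ j ∈ s, g j) + (i + ∑ j ∈ s, l j)) - cut f M (m + ∑ j ∈ s, g j)|
        ≤ ∑ s ∈ (Finset.univ : Finset (Fin k)).powerset, 2 * ((bad f M w B).card + 2 * B : ℝ) := by
          refine Finset.sum_le_sum fun s _ => ?_
          apply cut_compareB hf hw
          · exact add_nonneg (by positivity) (Finset.sum_nonneg fun j _ => hl0 j)
          · have b1 : ∑ j ∈ s, l j ≤ ∑ j ∈ s, ((w : ℤ) - 1) :=
              Finset.sum_le_sum fun j _ => by have := hl j; omega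
            have b2 : ∑ j ∈ s, ((w : ℤ) - 1) ≤ ∑ j : Fin k, ((w : ℤ) - 1) :=
              Finset.sum_le_sum_of_subset_of_nonneg (Finset.subset_univ _) fun j _ _ => by omega
            have b4 : ∑ j : Fin k, ((w : ℤ) - 1) = k * ((w : ℤ) - 1) := by
              rw [Finset.sum_const, Finset.card_univ, Fintype.card_fin, nsmul_eq_mul]
            rw [b4] at b2
            have b3 : (((k + 1) * w : ℕ) : ℤ) ≤ B := by exact_mod_cast hB
            push_cast at b3
            nlinarith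
      _ = _ := by rw [Finset.sum_const, nsmul_eq_mul, card_pw]
  have s4 : ‖SK f N hh θ - w * SK f M g (w * θ)‖ ≤
      w + w * (2 ^ k * (2 * ((bad f M w B).card + 2 * B : ℝ)) + 7 * |θ| * w * M) := by
    have e3 : SK f N hh θ - w * SK f M g (w * θ) =
        (∑ n ∈ Icc (1 : ℤ) N, G n - ∑ i ∈ range w, ∑ m ∈ Icc (1 : ℤ) (M : ℤ), G (w * m + i)) +
        ∑ i ∈ range w, (∑ m ∈ Icc (1 : ℤ) (M : ℤ), G (w * m + i) - ∑ m ∈ Icc (1 : ℤ) (M : ℤ), H m) := by
      rw [s2, Finset.sum_sub_distrib]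
      have : SK f N hh θ = ∑ n ∈ Icc (1 : ℤ) N, G n := rfl
      rw [this]; ring
    rw [e3]
    refine (norm_add_le _ _).trans (add_le_add s1 ((norm_sum_le _ _).trans ?_))
    refine (Finset.sum_le_sum s3).trans (le_of_eq ?_)
    rw [Finset.sum_const, Finset.card_range, nsmul_eq_mul]
  refine s4.trans ?_
  have h5 : (w : ℝ) * M ≤ N := by
    have : ((M * w : ℕ) : ℝ) ≤ N := by exact_mod_cast hMw
    push_cast at this
    linarith
  have h6 : 7 * |θ| * w * ((w : ℝ) * M) ≤ 7 * |θ| * w * N :=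
    mul_le_mul_of_nonneg_left h5 (by positivity)
  have h7 : (w : ℝ) + w * (2 ^ k * (2 * ((bad f M w B).card + 2 * B : ℝ)) + 7 * |θ| * w * M) =
      w * (2 ^ (k + 1) * ((bad f M w B).card + 2 * B : ℝ) + 1) + 7 * |θ| * w * (w * M) := by ring
  rw [h7]
  linarith

/-- changing the length -/
theorem len_compareK {f : ℤ → ℝ} (hf : ∀ x, |f x| ≤ 1) {M' M : ℕ} (hM : M' ≤ M) (g : Fin k → ℤ) (θ : ℝ) :
    ‖SK f M g θ - SK f M' g θ‖ ≤ 2 ^ k * ((M : ℝ) - M') := by
  classical
  have e1 : SK f M' g θ = ∑ n ∈ Icc (1 : ℤ) M, ((PD Finset.univ g (cut f M') n : ℝ) : ℂ) * e (-(θ * n)) := by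
    unfold SK
    apply Finset.sum_subset
    · intro n hn
      rw [Finset.mem_Icc] at hn ⊢
      omega
    · intro n _ hn
      rw [Finset.mem_Icc] at hn
      rw [PD_cut_zero f M' g hn]; simp
  rw [e1]
  unfold SK
  rw [← Finset.sum_sub_distrib]
  refine (norm_sum_le _ _).trans ?_
  have hcut : ∀ x : ℤ, |cut f M x - cut f M' x| ≤ if (M' : ℤ) < x ∧ x ≤ M then 1 else 0 := by
    intro x
    unfold cut
    by_cases h1 : 1 ≤ x ∧ x ≤ (M : ℤ)
    · by_cases h2 : x ≤ (M' : ℤ)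
      · rw [if_pos h1, if_pos ⟨h1.1, h2⟩, sub_self, abs_zero]
        split_ifs <;> norm_num
      · rw [if_pos h1, if_neg (fun h => h2 h.2), sub_zero, if_pos ⟨by omega, h1.2⟩]
        exact hf x
    · rw [if_neg h1, if_neg (fun h => h1 ⟨h.1, by omega⟩), sub_self, abs_zero]
      split_ifs <;> norm_num
  calc ∑ n ∈ Icc (1 : ℤ) M, ‖((PD Finset.univ g (cut f M) n : ℝ) : ℂ) * e (-(θ * n)) -
        ((PD Finset.univ g (cut f M') n : ℝ) : ℂ) * e (-(θ * n))‖
      ≤ ∑ n ∈ Icc (1 : ℤ) M, ∑ s ∈ (Finset.univ : Finset (Fin k)).powerset,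
          (if (M' : ℤ) < n + ∑ j ∈ s, g j ∧ n + ∑ j ∈ s, g j ≤ M then (1 : ℝ) else 0) := by
        refine Finset.sum_le_sum fun n _ => ?_
        rw [← sub_mul, norm_mul, norm_e, mul_one, ← Complex.ofReal_sub, Complex.norm_real,
          Real.norm_eq_abs]
        unfold PD
        exact (prod_sub_le _ _ _ (fun s => cut_abs hf _ _) (fun s => cut_abs hf _ _)).trans
          (Finset.sum_le_sum fun s _ => hcut _)
    _ ≤ 2 ^ k * ((M : ℝ) - M') := by
        rw [Finset.sum_comm]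
        have key : ∀ g : ℤ, ∑ n ∈ Icc (1 : ℤ) M, (if (M' : ℤ) < n + g ∧ n + g ≤ M then (1 : ℝ) else 0) ≤
            (M : ℝ) - M' := by
          intro g
          have h1 : ((Icc (1 : ℤ) M).filter fun n => n + g ∈ Ioc (M' : ℤ) M).card ≤ M - M' := by
            refine (card_shift _ _ g).trans (le_of_eq ?_)
            rw [Int.card_Ioc]; omega
          have h2 : ∑ n ∈ Icc (1 : ℤ) M, (if (M' : ℤ) < n + g ∧ n + g ≤ M then (1 : ℝ) else 0) =
              (((Icc (1 : ℤ) M).filter fun n => n + g ∈ Ioc (M' : ℤ) M).card : ℝ) := by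
            rw [Finset.card_filter]
            push_cast
            refine Finset.sum_congr rfl fun n _ => ?_
            simp only [Finset.mem_Ioc]
          rw [h2]
          have h3 : (((M - M' : ℕ)) : ℝ) = (M : ℝ) - M' := by
            rw [Nat.cast_sub hM]
          rw [← h3]
          exact_mod_cast h1
        refine (Finset.sum_le_sum fun s _ => key _).trans (le_of_eq ?_)
        rw [Finset.sum_const, nsmul_eq_mul, card_pw]

/-- changing the frequency -/
theorem freq_compareK {f : ℤ → ℝ} (hf : ∀ x, |f x| ≤ 1) (N : ℕ) (h : Fin k → ℤ) (θ θ' : ℝ) :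
    ‖SK f N h θ - SK f N h θ'‖ ≤ 7 * |θ - θ'| * N ^ 2 := by
  unfold SK
  rw [← Finset.sum_sub_distrib]
  refine (norm_sum_le _ _).trans ?_
  calc ∑ n ∈ Icc (1 : ℤ) N, ‖((PD Finset.univ h (cut f N) n : ℝ) : ℂ) * e (-(θ * n)) -
        ((PD Finset.univ h (cut f N) n : ℝ) : ℂ) * e (-(θ' * n))‖
      ≤ ∑ n ∈ Icc (1 : ℤ) N, 7 * |θ - θ'| * N := by
        refine Finset.sum_le_sum fun n hn => ?_
        rw [Finset.mem_Icc] at hn
        rw [← mul_sub, norm_mul, Complex.norm_real, Real.norm_eq_abs]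
        have h1 : |PD Finset.univ h (cut f N) n| ≤ 1 := PD_abs_le (cut_abs hf N) _ _ _
        have h2 := e_sub_e (-(θ * n)) (-(θ' * n))
        have h3 : |(-(θ * n)) - (-(θ' * n))| ≤ |θ - θ'| * N := by
          have : (-(θ * n)) - (-(θ' * n)) = -((θ - θ') * n) := by ring
          rw [this, abs_neg, abs_mul]
          refine mul_le_mul_of_nonneg_left ?_ (abs_nonneg _)
          rw [abs_of_nonneg (by exact_mod_cast (by omega : (0 : ℤ) ≤ n))]
          exact_mod_cast hn.2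
        calc |PD Finset.univ h (cut f N) n| * ‖e (-(θ * n)) - e (-(θ' * n))‖
            ≤ 1 * ‖e (-(θ * n)) - e (-(θ' * n))‖ := mul_le_mul_of_nonneg_right h1 (norm_nonneg _)
          _ = ‖e (-(θ * n)) - e (-(θ' * n))‖ := one_mul _
          _ ≤ 7 * |(-(θ * n)) - (-(θ' * n))| := h2
          _ ≤ 7 * (|θ - θ'| * N) := mul_le_mul_of_nonneg_left h3 (by norm_num)
          _ = _ := by ring
    _ = 7 * |θ - θ'| * N ^ 2 := by
        rw [Finset.sum_const, nsmul_eq_mul, card_IccN]; ring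

theorem SK_norm_le {f : ℤ → ℝ} (hf : ∀ x, |f x| ≤ 1) (N : ℕ) (h : Fin k → ℤ) (θ : ℝ) :
    ‖SK f N h θ‖ ≤ N := by
  unfold SK
  refine (norm_sum_le _ _).trans ?_
  calc ∑ n ∈ Icc (1 : ℤ) N, ‖((PD Finset.univ h (cut f N) n : ℝ) : ℂ) * e (-(θ * n))‖
      ≤ ∑ n ∈ Icc (1 : ℤ) N, (1 : ℝ) := by
        refine Finset.sum_le_sum fun n _ => ?_
        rw [norm_mul, norm_e, mul_one, Complex.norm_real, Real.norm_eq_abs]
        exact PD_abs_le (cut_abs hf N) _ _ _
    _ = N := by rw [Finset.sum_const, nsmul_eq_mul, card_IccN, mul_one]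

/-- **one step**: large correlations are carried to large correlations by `(h, θ) ↦ (u h / v, v θ / u)` -/
theorem stepK {f : ℤ → ℝ} (hf : ∀ x, |f x| ≤ 1) {N u v B : ℕ} (hv : 1 ≤ v) (huv : v ≤ u)
    (hB : (k + 1) * u ≤ B) (h : Fin k → ℤ)
    (θ : ℝ) {β : ℝ} (hβu : ((bad f (N / u) u B).card : ℝ) ≤ β)
    (hβv : ((bad f (N / v) v B).card : ℝ) ≤ β) :
    ‖SK f N h θ‖ - (u * (2 ^ (k + 2) * (β + 2 * B) + 2 + 2 ^ k) + 14 * |θ| * u * N +
      2 ^ k * N * (((u : ℝ) - v) / v)) ≤ ‖SK f N (fun i => (u * h i) / v) (v * θ / u)‖ := by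
  have hu : 1 ≤ u := hv.trans huv
  have hvR : (0 : ℝ) < v := by exact_mod_cast hv
  have huR : (0 : ℝ) < u := by exact_mod_cast hu
  have huvR : (v : ℝ) ≤ u := by exact_mod_cast huv
  have hvZ : (0 : ℤ) < v := by exact_mod_cast hv
  have huZ : (0 : ℤ) < u := by exact_mod_cast hu
  set g : Fin k → ℤ := fun i => h i / v with hg
  set l : Fin k → ℤ := fun i => h i % v with hl
  have hl0 : ∀ i, 0 ≤ l i := fun i => Int.emod_nonneg _ hvZ.ne'
  have hl1 : ∀ i, l i < v := fun i => Int.emod_lt_of_pos _ hvZ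
  have hdec : ∀ i, h i = v * g i + l i := fun i => (Int.mul_ediv_add_emod (h i) v).symm
  set l' : Fin k → ℤ := fun i => (u * l i) / v with hl'
  have hl'0 : ∀ i, 0 ≤ l' i := fun i => Int.ediv_nonneg (mul_nonneg huZ.le (hl0 i)) hvZ.le
  have hl'1 : ∀ i, l' i < u := by
    intro i
    rw [hl']
    simp only
    rw [Int.ediv_lt_iff_lt_mul hvZ]
    exact mul_lt_mul_of_pos_left (hl1 i) huZ
  have hdec' : ∀ i, ((u : ℤ) * h i) / v = u * g i + l' i := by
    intro i
    have : (u : ℤ) * h i = u * l i + v * (u * g i) := by rw [hdec i]; ring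
    rw [this, Int.add_mul_ediv_left _ _ hvZ.ne', hl']
    ring
  have hBv : (k + 1) * v ≤ B := (Nat.mul_le_mul_left _ huv).trans hB
  have s1 := scaleK hf hv hBv g l hl0 hl1 θ (N := N)
  have s2 := scaleK hf hu hB g l' hl'0 hl'1 (v * θ / u) (N := N)
  have f1 : (fun i => (v : ℤ) * g i + l i) = h := funext fun i => (hdec i).symm
  have f2 : (fun i => (u : ℤ) * g i + l' i) = fun i => ((u : ℤ) * h i) / v := funext fun i => (hdec' i).symm
  rw [f1] at s1
  rw [f2] at s2
  have e1 : (u : ℝ) * (v * θ / u) = v * θ := by field_simp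
  rw [e1] at s2
  have hMM : N / u ≤ N / v := Nat.div_le_div_left huv hv
  have s3 := len_compareK hf hMM g (v * θ)
  have hfl : ((N / v : ℕ) : ℝ) - ((N / u : ℕ) : ℝ) ≤ N * ((u - v) / (u * v)) + 1 := by
    have a1 : ((N / v : ℕ) : ℝ) ≤ N / v := Nat.cast_div_le
    have a2 : (N : ℝ) / u < ((N / u : ℕ) : ℝ) + 1 := by
      rw [div_lt_iff₀ huR]
      have : N < u * (N / u + 1) := Nat.lt_mul_div_succ N (by omega)
      have h2 : (N : ℝ) < ((u * (N / u + 1) : ℕ) : ℝ) := by exact_mod_cast this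
      push_cast at h2
      linarith
    have a3 : (N : ℝ) / v - N / u = N * ((u - v) / (u * v)) := by field_simp
    linarith
  have hk2 : (0 : ℝ) < 2 ^ k := by positivity
  -- combine
  have n1 : ‖SK f N h θ‖ - (v * (2 ^ (k + 1) * ((bad f (N / v) v B).card + 2 * B : ℝ) + 1) + 7 * |θ| * v * N) ≤
      v * ‖SK f (N / v) g (v * θ)‖ := by
    have := norm_sub_norm_le (SK f N h θ) (v * SK f (N / v) g (v * θ))
    rw [norm_mul, Complex.norm_natCast] at this
    linarith
  have n2 : (u : ℝ) * ‖SK f (N / u) g (v * θ)‖ -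
      (u * (2 ^ (k + 1) * ((bad f (N / u) u B).card + 2 * B : ℝ) + 1) + 7 * |v * θ / u| * u * N) ≤
      ‖SK f N (fun i => (u * h i) / v) (v * θ / u)‖ := by
    have := norm_sub_norm_le (u * SK f (N / u) g (v * θ)) (SK f N (fun i => (u * h i) / v) (v * θ / u))
    rw [norm_mul, Complex.norm_natCast, norm_sub_rev] at this
    linarith
  have n3 : ‖SK f (N / v) g (v * θ)‖ - 2 ^ k * (N * ((u - v) / (u * v)) + 1) ≤ ‖SK f (N / u) g (v * θ)‖ := by
    have := norm_sub_norm_le (SK f (N / v) g (v * θ)) (SK f (N / u) g (v * θ))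
    have h9 := mul_le_mul_of_nonneg_left hfl hk2.le
    linarith
  have n4 : (v : ℝ) * ‖SK f (N / v) g (v * θ)‖ ≤ u * ‖SK f (N / v) g (v * θ)‖ :=
    mul_le_mul_of_nonneg_right huvR (norm_nonneg _)
  have n5 := mul_le_mul_of_nonneg_left n3 huR.le
  have e2 : (u : ℝ) * (2 ^ k * (N * ((u - v) / (u * v)) + 1)) = 2 ^ k * N * (((u : ℝ) - v) / v) + 2 ^ k * u := by
    field_simp
  have e3 : 7 * |v * θ / u| * u * N = 7 * |θ| * v * N := by
    rw [abs_div, abs_mul, abs_of_pos hvR, abs_of_pos huR]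
    field_simp
  rw [e3] at n2
  have hN0 : (0 : ℝ) ≤ N := Nat.cast_nonneg _
  have hB0 : (0 : ℝ) ≤ B := Nat.cast_nonneg _
  have hβ0 : 0 ≤ β := le_trans (Nat.cast_nonneg _) hβu
  have hk3 : (0 : ℝ) < 2 ^ (k + 1) := by positivity
  have q1 : (v : ℝ) * (2 ^ (k + 1) * ((bad f (N / v) v B).card + 2 * B : ℝ) + 1) ≤
      u * (2 ^ (k + 1) * (β + 2 * B) + 1) := by
    have h0 : (0 : ℝ) ≤ ((bad f (N / v) v B).card : ℝ) := Nat.cast_nonneg _
    have h1 : (0 : ℝ) ≤ 2 ^ (k + 1) * ((bad f (N / v) v B).card + 2 * B : ℝ) :=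
      mul_nonneg hk3.le (by linarith)
    have h2 : 2 ^ (k + 1) * ((bad f (N / v) v B).card + 2 * B : ℝ) ≤ 2 ^ (k + 1) * (β + 2 * B) :=
      mul_le_mul_of_nonneg_left (by linarith) hk3.le
    exact mul_le_mul huvR (by linarith) (by linarith) huR.le
  have q2 : (u : ℝ) * (2 ^ (k + 1) * ((bad f (N / u) u B).card + 2 * B : ℝ) + 1) ≤
      u * (2 ^ (k + 1) * (β + 2 * B) + 1) := by
    have h2 : 2 ^ (k + 1) * ((bad f (N / u) u B).card + 2 * B : ℝ) ≤ 2 ^ (k + 1) * (β + 2 * B) :=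
      mul_le_mul_of_nonneg_left (by linarith) hk3.le
    exact mul_le_mul_of_nonneg_left (by linarith) huR.le
  have q3 : 7 * |θ| * v * N ≤ 7 * |θ| * u * N := by
    refine mul_le_mul_of_nonneg_right (mul_le_mul_of_nonneg_left huvR (by positivity)) hN0
  rw [mul_sub, e2] at n5
  have e4 : (u : ℝ) * (2 ^ (k + 2) * (β + 2 * B) + 2 + 2 ^ k) =
      2 * (u * (2 ^ (k + 1) * (β + 2 * B) + 1)) + 2 ^ k * u := by ring
  rw [e4]
  linarith

/-- large correlations occur at small frequencies only -/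
theorem small_freqK {f : ℤ → ℝ} (hf : ∀ x, |f x| ≤ 1) (N : ℕ) {B : ℕ} (hB : 2 ≤ B) (h : Fin k → ℤ) {θ : ℝ}
    (hθ : |θ| ≤ 1 / 2) :
    4 * |θ| * ‖SK f N h θ‖ ≤ 2 ^ (k + 1) * ((bad f N 1 B).card + 2 * B : ℝ) + 1 := by
  set G : ℤ → ℂ := fun n => ((PD Finset.univ h (cut f N) n : ℝ) : ℂ) * e (-(θ * n)) with hG
  have e0 : SK f N h θ = ∑ n ∈ Icc (1 : ℤ) N, G n := rfl
  have hG1 : ‖G 1‖ ≤ 1 := by
    simp only [hG]
    rw [norm_mul, norm_e, mul_one, Complex.norm_real, Real.norm_eq_abs]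
    exact PD_abs_le (cut_abs hf N) _ _ _
  have hGN : G (N + 1) = 0 := by
    simp only [hG]
    rw [PD_cut_zero f N h (by omega)]; simp
  have e1 : ∑ n ∈ Icc (1 : ℤ) N, G (n + 1) = ∑ n ∈ Icc (1 : ℤ) N, G n - G 1 := by
    have a1 : ∑ n ∈ Icc (1 : ℤ) N, G (n + 1) = ∑ n ∈ Icc (2 : ℤ) (N + 1), G n := by
      refine Finset.sum_bij' (fun n _ => n + 1) (fun n _ => n - 1) ?_ ?_ ?_ ?_ ?_
      · intro n hn; rw [Finset.mem_Icc] at hn ⊢; omega
      · intro n hn; rw [Finset.mem_Icc] at hn ⊢; omega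
      · intro n _; ring
      · intro n _; ring
      · intro n _; rfl
    have a2 : ∑ n ∈ Icc (1 : ℤ) (N + 1), G n = G 1 + ∑ n ∈ Icc (2 : ℤ) (N + 1), G n := by
      have : Icc (1 : ℤ) (N + 1) = insert 1 (Icc (2 : ℤ) (N + 1)) := by
        ext n; rw [Finset.mem_insert, Finset.mem_Icc, Finset.mem_Icc]; omega
      rw [this, Finset.sum_insert (by rw [Finset.mem_Icc]; omega)]
    have a3 : ∑ n ∈ Icc (1 : ℤ) (N + 1), G n = ∑ n ∈ Icc (1 : ℤ) N, G n := by
      have : Icc (1 : ℤ) (N + 1) = insert ((N : ℤ) + 1) (Icc (1 : ℤ) N) := by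
        ext n; rw [Finset.mem_insert, Finset.mem_Icc, Finset.mem_Icc]; omega
      rw [this, Finset.sum_insert (by rw [Finset.mem_Icc]; omega), hGN, zero_add]
    rw [a1]
    linear_combination a3 - a2
  have e2 : (1 - e (-θ)) * SK f N h θ = ∑ n ∈ Icc (1 : ℤ) N,
      ((PD Finset.univ h (cut f N) (n + 1) - PD Finset.univ h (cut f N) n : ℝ) : ℂ) * e (-(θ * (n + 1))) +
      G 1 := by
    have b1 : ∑ n ∈ Icc (1 : ℤ) N, ((PD Finset.univ h (cut f N) (n + 1) -
        PD Finset.univ h (cut f N) n : ℝ) : ℂ) * e (-(θ * (n + 1))) =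
        ∑ n ∈ Icc (1 : ℤ) N, G (n + 1) - e (-θ) * ∑ n ∈ Icc (1 : ℤ) N, G n := by
      rw [Finset.mul_sum, ← Finset.sum_sub_distrib]
      refine Finset.sum_congr rfl fun n _ => ?_
      simp only [hG]
      have b2 : e (-(θ * (n + 1))) = e (-θ) * e (-(θ * n)) := by
        rw [← e_add]; congr 1; ring
      have b3 : e (-(θ * ((n + 1 : ℤ) : ℝ))) = e (-θ) * e (-(θ * n)) := by
        rw [← e_add]; congr 1; push_cast; ring
      rw [b2, b3]
      push_cast
      ring
    rw [b1, e1, e0]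
    ring
  have e3 : ‖(1 - e (-θ)) * SK f N h θ‖ ≤ 2 ^ (k + 1) * ((bad f N 1 B).card + 2 * B : ℝ) + 1 := by
    rw [e2]
    refine (norm_add_le _ _).trans (add_le_add ?_ hG1)
    refine (norm_sum_le _ _).trans ?_
    calc ∑ n ∈ Icc (1 : ℤ) N, ‖((PD Finset.univ h (cut f N) (n + 1) -
          PD Finset.univ h (cut f N) n : ℝ) : ℂ) * e (-(θ * (n + 1)))‖
        ≤ ∑ n ∈ Icc (1 : ℤ) N, ∑ s ∈ (Finset.univ : Finset (Fin k)).powerset,
            |cut f N (((1 : ℕ) : ℤ) * (n + ∑ j ∈ s, h j) + 1) - cut f N (n + ∑ j ∈ s, h j)| := by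
          refine Finset.sum_le_sum fun n _ => ?_
          rw [norm_mul, norm_e, mul_one, Complex.norm_real, Real.norm_eq_abs]
          unfold PD
          refine (prod_sub_le _ _ _ (fun s => cut_abs hf _ _) (fun s => cut_abs hf _ _)).trans
            (le_of_eq (Finset.sum_congr rfl fun s _ => ?_))
          congr 3
          push_cast
          ring
      _ = ∑ s ∈ (Finset.univ : Finset (Fin k)).powerset, ∑ n ∈ Icc (1 : ℤ) N,
            |cut f N (((1 : ℕ) : ℤ) * (n + ∑ j ∈ s, h j) + 1) - cut f N (n + ∑ j ∈ s, h j)| := Finset.sum_comm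
      _ ≤ ∑ s ∈ (Finset.univ : Finset (Fin k)).powerset, 2 * ((bad f N 1 B).card + 2 * B : ℝ) := by
          refine Finset.sum_le_sum fun s _ => ?_
          have hB1 : (1 : ℤ) < (B : ℤ) := by omega
          have c1 := cut_compareB hf le_rfl (∑ j ∈ s, h j) (N := N) (w := 1) (B := B) (c := 1) (by norm_num) hB1
          rw [Nat.div_one] at c1
          exact c1
      _ = _ := by rw [Finset.sum_const, nsmul_eq_mul, card_pw]; ring
  rw [norm_mul] at e3
  have h4 := four_le (t := -θ) (by rw [abs_neg]; exact hθ)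
  rw [abs_neg, norm_sub_rev] at h4
  exact (mul_le_mul_of_nonneg_right h4 (norm_nonneg _)).trans e3

end Pool.Agent.J4H80.QU
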