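import Pool.Agent.J4H80.QU.K1
import Pool.Agent.J4H80.QU.H1

set_option autoImplicit false

/-! The link between `ℤ` and `ZMod p` for the Gowers norms, and the extraction of large Fourier
coefficients of derivatives. -/

namespace Pool.Agent.J4H80.QU

open Finset

/-! ### Gowers norms of functions on `ℤ` with support in `[-R, R]` -/

/-- a function on `ℤ` as a function on `ZMod p` -/
def emb (p : ℕ) (g : ℤ → ℝ) (x : ZMod p) : ℝ := g x.valMinAbs

/-- the Gowers norms on `ℤ` -/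
noncomputable def UGZ (R : ℕ) : ℕ → (ℤ → ℝ) → ℝ
  | 0, g => ∑ n ∈ Icc (-(R : ℤ)) R, g n
  | k + 1, g => ∑ d ∈ Icc (-(2 * R : ℤ)) (2 * R), UGZ R k (D1 d g)

theorem D1_supp {R : ℕ} {g : ℤ → ℝ} (hg : ∀ n : ℤ, (R : ℤ) < |n| → g n = 0) (d : ℤ) :
    ∀ n : ℤ, (R : ℤ) < |n| → D1 d g n = 0 := by
  intro n hn
  unfold D1
  rw [hg n hn, zero_mul]

theorem UG_zero_fun {G : Type*} [AddCommGroup G] [Fintype G] (k : ℕ) : UG k (fun _ : G => (0 : ℝ)) = 0 := by
  induction k with
  | zero => rw [UG_zero]; simp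
  | succ k ih =>
    rw [UG_succ]
    apply Finset.sum_eq_zero
    intro d _
    have : D1 d (fun _ : G => (0 : ℝ)) = fun _ => 0 := by funext x; unfold D1; ring
    rw [this, ih]

theorem UG_link {p : ℕ} [NeZero p] {R : ℕ} (hp : 6 * R < p) (k : ℕ) : ∀ g : ℤ → ℝ,
    (∀ n : ℤ, (R : ℤ) < |n| → g n = 0) → UG k (emb p g) = UGZ R k g := by
  classical
  have sumR : ∀ (R' : ℕ), 2 * R' < p → ∀ Φ : ZMod p → ℝ, (∀ x : ZMod p, ¬ (|x.valMinAbs| ≤ R') → Φ x = 0) →
      ∑ x, Φ x = ∑ n ∈ Icc (-(R' : ℤ)) R', Φ (n : ZMod p) := fun R' h Φ hΦ => sum_diff h Φ hΦ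
  induction k with
  | zero =>
    intro g hg
    rw [UG_zero]
    unfold UGZ
    rw [sumR R (by omega)]
    · refine Finset.sum_congr rfl fun n hn => ?_
      rw [Finset.mem_Icc] at hn
      unfold emb
      have hn' := abs_le.2 hn
      rw [vma (by omega)]
    · intro x hx
      exact hg _ (by omega)
  | succ k ih =>
    intro g hg
    rw [UG_succ]
    unfold UGZ
    rw [sumR (2 * R) (by omega)]
    · push_cast
      refine Finset.sum_congr rfl fun d hd => ?_
      rw [Finset.mem_Icc] at hd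
      rw [← ih _ (D1_supp hg d)]
      congr 1
      funext x
      unfold D1 emb
      by_cases hx : |x.valMinAbs| ≤ (R : ℤ)
      · congr 2
        have h1 := abs_le.1 hx
        have e1 : x + (d : ZMod p) = ((x.valMinAbs + d : ℤ) : ZMod p) := by simp
        rw [e1]
        apply vma
        have : |x.valMinAbs + d| ≤ 3 * R := abs_le.2 ⟨by omega, by omega⟩
        omega
      · have h0 := hg x.valMinAbs (by omega)
        simp [h0]
    · intro d hd
      have : D1 d (emb p g) = fun _ => 0 := by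
        funext x
        unfold D1
        by_contra hne
        have h1 : emb p g x ≠ 0 := fun h0 => hne (by rw [h0, zero_mul])
        have h2 : emb p g (x + d) ≠ 0 := fun h0 => hne (by rw [h0, mul_zero])
        have h3 : |x.valMinAbs| ≤ (R : ℤ) := by
          by_contra h0; exact h1 (hg _ (by omega))
        have h4 : |(x + d).valMinAbs| ≤ (R : ℤ) := by
          by_contra h0; exact h2 (hg _ (by omega))
        apply hd
        have h5 : d = (((x + d).valMinAbs - x.valMinAbs : ℤ) : ZMod p) := by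
          push_cast
          ring
        have a3 := abs_le.1 h3
        have a4 := abs_le.1 h4
        have h6 : |(x + d).valMinAbs - x.valMinAbs| ≤ ((2 * R : ℕ) : ℤ) := by
          push_cast
          exact abs_le.2 ⟨by omega, by omega⟩
        rw [h5, vma (by push_cast at h6; omega)]
        exact h6
      rw [this, UG_zero_fun]

theorem UGZ_neg {R : ℕ} (k : ℕ) : ∀ g : ℤ → ℝ, UGZ R k (fun n => g (-n)) = UGZ R k g := by
  induction k with
  | zero =>
    intro g
    unfold UGZ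
    refine Finset.sum_bij' (fun n _ => -n) (fun n _ => -n) ?_ ?_ ?_ ?_ ?_
    · intro n hn; rw [Finset.mem_Icc] at hn ⊢; omega
    · intro n hn; rw [Finset.mem_Icc] at hn ⊢; omega
    · intro n _; ring
    · intro n _; ring
    · intro n _; rfl
  | succ k ih =>
    intro g
    unfold UGZ
    refine Finset.sum_bij' (fun n _ => -n) (fun n _ => -n) ?_ ?_ ?_ ?_ ?_
    · intro n hn; rw [Finset.mem_Icc] at hn ⊢; omega
    · intro n hn; rw [Finset.mem_Icc] at hn ⊢; omega
    · intro n _; ring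
    · intro n _; ring
    · intro d _
      rw [← ih]
      congr 1
      funext n
      unfold D1
      simp only [neg_neg, neg_add]

theorem UGZ_indep {R R' : ℕ} (k : ℕ) (hR : R ≤ R') (g : ℤ → ℝ) (hg : ∀ n : ℤ, (R : ℤ) < |n| → g n = 0) :
    UGZ R' k g = UGZ R k g := by
  have : NeZero (6 * R' + 1) := ⟨by omega⟩
  rw [← UG_link (p := 6 * R' + 1) (by omega) k g hg,
    ← UG_link (p := 6 * R' + 1) (R := R') (by omega) k g (fun n hn => hg n (by omega))]

theorem emb_cut (p : ℕ) (f : ℤ → ℝ) (N : ℕ) : emb p (cut f N) = FF f N := rfl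

theorem cut_supp (f : ℤ → ℝ) (N : ℕ) : ∀ n : ℤ, (N : ℤ) < |n| → cut f N n = 0 := by
  intro n hn
  unfold cut
  rw [if_neg]
  intro h
  rw [abs_of_pos (by omega)] at hn
  omega

variable {p : ℕ} [NeZero p] {k : ℕ}

/-! ### Fourier coefficients of derivatives -/

omit [NeZero p] in
theorem PD_FF_zero (f : ℤ → ℝ) (N : ℕ) (h : Fin k → ZMod p) {x : ZMod p}
    (hx : ¬ (1 ≤ x.valMinAbs ∧ x.valMinAbs ≤ N)) : PD Finset.univ h (FF f N) x = 0 := by
  unfold PD
  apply Finset.prod_eq_zero (Finset.empty_mem_powerset _)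
  rw [Finset.sum_empty, add_zero]
  exact FF_zero f N hx

theorem PD_FF_int (f : ℤ → ℝ) {N : ℕ} (hp : 2 * ((3 * k + 1) * N) < p) {h : Fin k → ℤ}
    (hh : ∀ i, |h i| ≤ 3 * N) {n : ℤ} (hn : 1 ≤ n ∧ n ≤ N) :
    PD Finset.univ (fun i => (h i : ZMod p)) (FF f N) (n : ZMod p) = PD Finset.univ h (cut f N) n := by
  unfold PD
  refine Finset.prod_congr rfl fun s _ => ?_
  have e1 : (n : ZMod p) + ∑ i ∈ s, (h i : ZMod p) = ((n + ∑ i ∈ s, h i : ℤ) : ZMod p) := by push_cast; ring
  rw [e1, FF_int]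
  have b1 : |∑ i ∈ s, h i| ≤ k * (3 * N) := by
    refine (Finset.abs_sum_le_sum_abs _ _).trans ?_
    refine (Finset.sum_le_sum_of_subset_of_nonneg (Finset.subset_univ s) fun j _ _ => abs_nonneg _).trans ?_
    refine (Finset.sum_le_sum fun j _ => hh j).trans ?_
    rw [Finset.sum_const, Finset.card_univ, Fintype.card_fin, nsmul_eq_mul]
  have b2 : |n| ≤ N := abs_le.2 ⟨by omega, by omega⟩
  have b3 := abs_add_le n (∑ i ∈ s, h i)
  have b4 : ((2 * ((3 * k + 1) * N) : ℕ) : ℤ) < p := by exact_mod_cast hp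
  push_cast at b4
  nlinarith

theorem ft_PD (f : ℤ → ℝ) {N : ℕ} (hp : 2 * ((3 * k + 1) * N) < p) {h : Fin k → ℤ}
    (hh : ∀ i, |h i| ≤ 3 * N) (j : ℤ) :
    ft (fun x => ((PD Finset.univ (fun i => (h i : ZMod p)) (FF f N) x : ℝ) : ℂ)) (j : ZMod p) =
      SK f N h (j / p) := by
  unfold ft SK
  rw [sum_FF (N := N) (by nlinarith)]
  · refine Finset.sum_congr rfl fun n hn => ?_
    rw [Finset.mem_Icc] at hn
    show ((PD Finset.univ (fun i => (h i : ZMod p)) (FF f N) (n : ZMod p) : ℝ) : ℂ) * _ = _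
    rw [PD_FF_int f hp hh hn, chi_int]
  · intro x hx
    show ((PD Finset.univ (fun i => (h i : ZMod p)) (FF f N) x : ℝ) : ℂ) * _ = _
    rw [PD_FF_zero f N _ hx]
    simp

/-- the derivative vanishes unless all directions are at most `N` -/
theorem PD_FF_dir (f : ℤ → ℝ) {N : ℕ} (hp : 2 * N < p) {h : Fin k → ZMod p} {i : Fin k}
    (hi : ¬ |(h i).valMinAbs| ≤ (N : ℤ)) (x : ZMod p) : PD Finset.univ h (FF f N) x = 0 := by
  have h1 := FF_diff f hp hi x
  unfold PD
  rw [mul_eq_zero] at h1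
  rcases h1 with h1 | h1
  · apply Finset.prod_eq_zero (Finset.empty_mem_powerset _)
    rw [Finset.sum_empty, add_zero]
    exact h1
  · apply Finset.prod_eq_zero (Finset.mem_powerset.2 (Finset.subset_univ {i}))
    rw [Finset.sum_singleton]
    exact h1

theorem sum_abs_PD {F : ZMod p → ℝ} (hF : ∀ x, |F x| ≤ 1) {N : ℝ} (hN : ∑ x, |F x| ≤ N)
    (T : Finset (Fin k)) (h : Fin k → ZMod p) : ∑ x, |PD T h F x| ≤ N := by
  refine (Finset.sum_le_sum fun x _ => ?_).trans hN
  have := PD_abs_le' hF T h (Finset.empty_subset T) x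
  rwa [Finset.sum_empty, add_zero] at this

theorem UG_two_le {g : ZMod p → ℝ} (hg : ∀ x, |g x| ≤ 1) {N : ℝ} (hN : ∑ x, |g x| ≤ N) {M : ℝ}
    (hM : ∀ j, ‖ft (fun x => (g x : ℂ)) j‖ ≤ M) : UG 2 g ≤ M ^ 2 * N := by
  rw [UG_two]
  have h1 := corr_sq_le (fun x => (g x : ℂ)) (fun x => (g x : ℂ)) hM
  have h2 : ∀ d, (∑ x, g x * g (x + d)) ^ 2 = ‖∑ x, (g x : ℂ) * (g (x + d) : ℂ)‖ ^ 2 := by
    intro d
    have e1 : ∑ x, (g x : ℂ) * (g (x + d) : ℂ) = ((∑ x, g x * g (x + d) : ℝ) : ℂ) := by push_cast; rfl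
    rw [e1, Complex.norm_real, Real.norm_eq_abs, sq_abs]
  rw [Finset.sum_congr rfl fun d _ => h2 d]
  refine h1.trans (mul_le_mul_of_nonneg_left ?_ (by positivity))
  refine (Finset.sum_le_sum fun x _ => ?_).trans hN
  rw [Complex.norm_real, Real.norm_eq_abs, sq]
  exact mul_le_of_le_one_right (abs_nonneg _) (hg _)

theorem norm_ft_le' {g : ZMod p → ℝ} {N : ℝ} (hN : ∑ x, |g x| ≤ N) (j : ZMod p) :
    ‖ft (fun x => (g x : ℂ)) j‖ ≤ N := by
  unfold ft
  refine (norm_sum_le _ _).trans ((Finset.sum_le_sum fun x _ => ?_).trans hN)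
  rw [norm_mul, norm_chi, mul_one, Complex.norm_real, Real.norm_eq_abs]

/-- the box `|h i| ≤ N` -/
noncomputable def boxp (p k N : ℕ) [NeZero p] : Finset (Fin k → ZMod p) := by
  classical
  exact Finset.univ.filter fun h => ∀ i, |(h i).valMinAbs| ≤ (N : ℤ)

theorem mem_boxp (N : ℕ) (h : Fin k → ZMod p) : h ∈ boxp p k N ↔ ∀ i, |(h i).valMinAbs| ≤ (N : ℤ) := by
  classical
  unfold boxp
  simp only [Finset.mem_filter, Finset.mem_univ, true_and]

theorem card_boxp (N : ℕ) : (boxp p k N).card ≤ (2 * N + 1) ^ k := by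
  classical
  calc (boxp p k N).card ≤ (Fintype.piFinset (fun _ : Fin k => Icc (-(N : ℤ)) N)).card := by
        apply Finset.card_le_card_of_injOn (fun h i => (h i).valMinAbs)
        · intro h hh
          rw [Finset.mem_coe, mem_boxp] at hh
          rw [Finset.mem_coe, Fintype.mem_piFinset]
          intro i
          rw [Finset.mem_Icc]
          exact abs_le.1 (hh i)
        · intro a _ b _ hab
          funext i
          exact ZMod.injective_valMinAbs (congrFun hab i)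
    _ = _ := by
        rw [Fintype.card_piFinset, Finset.prod_const, Finset.card_univ, Fintype.card_fin, Int.card_Icc]
        congr 1
        omega

/-- the extraction of large Fourier coefficients of the derivatives -/
theorem extract {f : ℤ → ℝ} (hf : ∀ x, |f x| ≤ 1) {N : ℕ} (hN1 : 1 ≤ N) (hp : 2 * N < p) {ε c : ℝ} (hε : 0 < ε)
    (hc : 0 < c) (hcε : c ^ 2 * (2 * 3 ^ k) = ε) (hU : ε * (N : ℝ) ^ (k + 3) ≤ UG (k + 2) (FF f N : ZMod p → ℝ)) :
    ∃ (B : Finset (Fin k → ZMod p)) (ξ : (Fin k → ZMod p) → ZMod p),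
      (∀ x ∈ B, ∀ i, |(x i).valMinAbs| ≤ (N : ℤ)) ∧
      (∀ x ∈ B, c * N ≤ ‖ft (fun y => ((PD Finset.univ x (FF f N) y : ℝ) : ℂ)) (ξ x)‖) ∧
      ε / 2 * (N : ℝ) ^ k ≤ B.card := by
  classical
  set F : ZMod p → ℝ := FF f N with hF
  have hF1 : ∀ x, |F x| ≤ 1 := FF_abs hf N
  have hF2 : ∑ x, |F x| ≤ (N : ℝ) := sum_FF_abs hf hp
  have hNR : (1 : ℝ) ≤ N := by exact_mod_cast hN1
  have hN0 : (0 : ℝ) < N := by linarith
  have hex : ∀ h : Fin k → ZMod p, ∃ j0, ∀ j, ‖ft (fun y => ((PD Finset.univ h F y : ℝ) : ℂ)) j‖ ≤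
      ‖ft (fun y => ((PD Finset.univ h F y : ℝ) : ℂ)) j0‖ := by
    intro h
    obtain ⟨j0, -, h0⟩ := Finset.exists_max_image (Finset.univ : Finset (ZMod p))
      (fun j => ‖ft (fun y => ((PD Finset.univ h F y : ℝ) : ℂ)) j‖) Finset.univ_nonempty
    exact ⟨j0, fun j => h0 j (Finset.mem_univ j)⟩
  choose ξ hξ using hex
  set m : (Fin k → ZMod p) → ℝ := fun h => ‖ft (fun y => ((PD Finset.univ h F y : ℝ) : ℂ)) (ξ h)‖ with hm
  have hm0 : ∀ h, 0 ≤ m h := fun h => norm_nonneg _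
  have hm1 : ∀ h, m h ≤ N := fun h => norm_ft_le' (sum_abs_PD hF1 hF2 Finset.univ h) _
  -- outside the box nothing happens
  have hbox : ∀ h, h ∉ boxp p k N → UG 2 (PD Finset.univ h F) = 0 := by
    intro h hh
    rw [mem_boxp] at hh
    push Not at hh
    obtain ⟨i, hi⟩ := hh
    have : PD Finset.univ h F = fun _ => 0 := by
      funext x
      exact PD_FF_dir f hp (i := i) (by omega) x
    rw [this, UG_zero_fun]
  have s1 : UG (k + 2) F ≤ ∑ h ∈ boxp p k N, m h ^ 2 * N := by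
    rw [UG_add_two]
    have : ∑ h : Fin k → ZMod p, UG 2 (PD Finset.univ h F) = ∑ h ∈ boxp p k N, UG 2 (PD Finset.univ h F) := by
      symm
      apply Finset.sum_subset (Finset.subset_univ _)
      intro h _ hh
      exact hbox h hh
    rw [this]
    refine Finset.sum_le_sum fun h _ => ?_
    exact UG_two_le (PD_abs_le hF1 _ h) (sum_abs_PD hF1 hF2 _ h) (hξ h)
  set B : Finset (Fin k → ZMod p) := (boxp p k N).filter fun h => c * N ≤ m h with hB
  refine ⟨B, ξ, ?_, ?_, ?_⟩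
  · intro x hx
    rw [hB, Finset.mem_filter, mem_boxp] at hx
    exact hx.1
  · intro x hx
    rw [hB, Finset.mem_filter] at hx
    exact hx.2
  · have s2 : ∑ h ∈ boxp p k N, m h ^ 2 ≤ B.card * (N : ℝ) ^ 2 + (3 * N) ^ k * (c * N) ^ 2 := by
      rw [← Finset.sum_filter_add_sum_filter_not (boxp p k N) (fun h => c * N ≤ m h)]
      refine add_le_add ?_ ?_
      · calc ∑ h ∈ (boxp p k N).filter (fun h => c * N ≤ m h), m h ^ 2 ≤ ∑ h ∈ B, (N : ℝ) ^ 2 :=
              Finset.sum_le_sum fun h _ => pow_le_pow_left₀ (hm0 h) (hm1 h) 2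
          _ = _ := by rw [Finset.sum_const, nsmul_eq_mul]
      · calc ∑ h ∈ (boxp p k N).filter (fun h => ¬ c * N ≤ m h), m h ^ 2
            ≤ ∑ h ∈ (boxp p k N).filter (fun h => ¬ c * N ≤ m h), (c * N) ^ 2 := by
              refine Finset.sum_le_sum fun h hh => ?_
              rw [Finset.mem_filter] at hh
              exact pow_le_pow_left₀ (hm0 h) (le_of_lt (not_le.1 hh.2)) 2
          _ = (((boxp p k N).filter (fun h => ¬ c * N ≤ m h)).card : ℝ) * (c * N) ^ 2 := by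
              rw [Finset.sum_const, nsmul_eq_mul]
          _ ≤ (3 * N) ^ k * (c * N) ^ 2 := by
              refine mul_le_mul_of_nonneg_right ?_ (by positivity)
              have h1 : ((boxp p k N).filter (fun h => ¬ c * N ≤ m h)).card ≤ (2 * N + 1) ^ k :=
                (Finset.card_filter_le _ _).trans (card_boxp N)
              have h2 : (((boxp p k N).filter (fun h => ¬ c * N ≤ m h)).card : ℝ) ≤ (((2 * N + 1) ^ k : ℕ) : ℝ) := by
                exact_mod_cast h1
              refine h2.trans ?_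
              push_cast
              exact pow_le_pow_left₀ (by positivity) (by linarith) k
    have s3 : ε * (N : ℝ) ^ (k + 3) ≤ (B.card * (N : ℝ) ^ 2 + (3 * N) ^ k * (c * N) ^ 2) * N := by
      refine hU.trans (s1.trans ?_)
      rw [← Finset.sum_mul]
      exact mul_le_mul_of_nonneg_right s2 hN0.le
    have s4 : (3 * (N : ℝ)) ^ k * (c * N) ^ 2 * N = ε / 2 * (N : ℝ) ^ (k + 3) := by
      rw [← hcε, mul_pow]
      ring
    have s5 : ε / 2 * (N : ℝ) ^ k * (N : ℝ) ^ 3 ≤ B.card * (N : ℝ) ^ 3 := by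
      have e1 : ε / 2 * (N : ℝ) ^ k * (N : ℝ) ^ 3 = ε / 2 * (N : ℝ) ^ (k + 3) := by ring
      rw [e1]
      nlinarith
    exact le_of_mul_le_mul_right s5 (by positivity)

end Pool.Agent.J4H80.QU
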