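import Pool.Agent.J4H80.QU.K2
import Pool.Agent.J4H80.QU.Jobs

set_option autoImplicit false

/-! Iterated scaling of large correlations by `(h, θ) ↦ (a h / b, b θ / a)`. -/

namespace Pool.Agent.J4H80.QU

open Finset

variable {k : ℕ}

theorem TT_abs {a b : ℕ} (hb : 1 ≤ b) (hab : b ≤ a) (x : ℤ) :
    |((TT a b x : ℤ) : ℝ)| ≤ (a / b : ℝ) * (|(x : ℝ)| + 1) := by
  have hbZ : (0 : ℤ) < b := by exact_mod_cast hb
  have hbR : (0 : ℝ) < b := by exact_mod_cast hb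
  have habR : (b : ℝ) ≤ a := by exact_mod_cast hab
  have h1 : (TT a b x) * b ≤ a * x := Int.ediv_mul_le _ hbZ.ne'
  have h2 : (a : ℤ) * x < (TT a b x + 1) * b := Int.lt_ediv_add_one_mul_self _ hbZ
  have h1R : ((TT a b x : ℤ) : ℝ) * b ≤ a * x := by exact_mod_cast h1
  have h2R : (a : ℝ) * x < (((TT a b x : ℤ) : ℝ) + 1) * b := by exact_mod_cast h2
  have h3 : |(a : ℝ) * x| = a * |(x : ℝ)| := by rw [abs_mul, abs_of_nonneg (Nat.cast_nonneg _)]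
  have h4 := le_abs_self ((a : ℝ) * x)
  have h5 := neg_abs_le ((a : ℝ) * x)
  have h6 : |((TT a b x : ℤ) : ℝ)| * b = |((TT a b x : ℤ) : ℝ) * b| := by
    rw [abs_mul, abs_of_pos hbR]
  rw [div_mul_eq_mul_div, le_div_iff₀ hbR, h6, abs_le]
  constructor <;> nlinarith [abs_nonneg (x : ℝ)]

theorem iter_abs {a b : ℕ} (hb : 1 ≤ b) (hab : b ≤ a) (x : ℤ) (e : ℕ) :
    |(((TT a b)^[e] x : ℤ) : ℝ)| ≤ (a / b : ℝ) ^ e * (|(x : ℝ)| + e) := by
  have hbR : (0 : ℝ) < b := by exact_mod_cast hb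
  have habR : (b : ℝ) ≤ a := by exact_mod_cast hab
  have hr : (1 : ℝ) ≤ a / b := (one_le_div hbR).2 habR
  induction e with
  | zero => simp
  | succ e ih =>
    rw [Function.iterate_succ_apply']
    refine (TT_abs hb hab _).trans ?_
    have h1 : (1 : ℝ) ≤ (a / b : ℝ) ^ e := one_le_pow₀ hr
    calc (a / b : ℝ) * (|(((TT a b)^[e] x : ℤ) : ℝ)| + 1)
        ≤ (a / b : ℝ) * ((a / b : ℝ) ^ e * (|(x : ℝ)| + e) + (a / b : ℝ) ^ e) :=
          mul_le_mul_of_nonneg_left (by linarith) (by positivity)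
      _ = (a / b : ℝ) ^ (e + 1) * (|(x : ℝ)| + (e + 1 : ℕ)) := by push_cast; ring

theorem iter_abs3 {a b J N : ℕ} (hb : 1 ≤ b) (hab : b ≤ a) (hJ2 : (a : ℝ) ^ J ≤ 2 * (b : ℝ) ^ J) (hJN : 2 * J ≤ N)
    {x : ℤ} (hx : |x| ≤ N) {e : ℕ} (he : e ≤ J) : |(TT a b)^[e] x| ≤ 3 * N := by
  have hbR : (0 : ℝ) < b := by exact_mod_cast hb
  have habR : (b : ℝ) ≤ a := by exact_mod_cast hab
  have hr : (1 : ℝ) ≤ a / b := (one_le_div hbR).2 habR
  have h1 := iter_abs hb hab x e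
  have h2 : (a / b : ℝ) ^ e ≤ 2 := by
    calc (a / b : ℝ) ^ e ≤ (a / b : ℝ) ^ J := pow_le_pow_right₀ hr he
      _ = (a : ℝ) ^ J / (b : ℝ) ^ J := div_pow _ _ _
      _ ≤ 2 := by rw [div_le_iff₀ (by positivity)]; exact hJ2
  have h3 : |(x : ℝ)| ≤ N := by exact_mod_cast hx
  have h4 : (e : ℝ) ≤ J := by exact_mod_cast he
  have h5 : 2 * (J : ℝ) ≤ N := by exact_mod_cast hJN
  have h6 : |(((TT a b)^[e] x : ℤ) : ℝ)| ≤ 3 * N := by
    refine h1.trans ?_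
    calc (a / b : ℝ) ^ e * (|(x : ℝ)| + e) ≤ 2 * (N + J) :=
          mul_le_mul h2 (by linarith) (by positivity) (by norm_num)
      _ ≤ 3 * N := by linarith
  exact_mod_cast h6

/-- the error of one scaling step -/
noncomputable def E1 (k a b B N : ℕ) (β τ : ℝ) : ℝ :=
  a * (2 ^ (k + 2) * (β + 2 * B) + 2 + 2 ^ k) + 14 * τ * a * N + 2 ^ k * N * (((a : ℝ) - b) / b)

theorem iterK {f : ℤ → ℝ} (hf : ∀ x, |f x| ≤ 1) {N a b B : ℕ} (hb : 1 ≤ b) (hab : b ≤ a)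
    (hB : (k + 1) * a ≤ B) {β τ : ℝ} (hβa : ((bad f (N / a) a B).card : ℝ) ≤ β)
    (hβb : ((bad f (N / b) b B).card : ℝ) ≤ β) (h : Fin k → ℤ) {θ : ℝ} (hθ : |θ| ≤ τ) (e : ℕ) :
    ‖SK f N h θ‖ - e * E1 k a b B N β τ ≤ ‖SK f N (fun i => (TT a b)^[e] (h i)) ((b / a : ℝ) ^ e * θ)‖ := by
  have hbR : (0 : ℝ) < b := by exact_mod_cast hb
  have habR : (b : ℝ) ≤ a := by exact_mod_cast hab
  have haR : (0 : ℝ) < a := by linarith
  have hr : (b / a : ℝ) ≤ 1 := (div_le_one haR).2 habR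
  induction e with
  | zero => simp
  | succ e ih =>
    have hθe : |(b / a : ℝ) ^ e * θ| ≤ τ := by
      rw [abs_mul, abs_of_nonneg (by positivity)]
      exact (mul_le_of_le_one_left (abs_nonneg _) (pow_le_one₀ (by positivity) hr)).trans hθ
    have h1 := stepK hf hb hab hB (fun i => (TT a b)^[e] (h i)) ((b / a : ℝ) ^ e * θ) hβa hβb (N := N)
    have e1 : (fun i => ((a : ℤ) * (TT a b)^[e] (h i)) / (b : ℤ)) = fun i => (TT a b)^[e + 1] (h i) := by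
      funext i
      rw [Function.iterate_succ_apply']
      rfl
    have e2 : (b : ℝ) * ((b / a : ℝ) ^ e * θ) / a = (b / a : ℝ) ^ (e + 1) * θ := by
      rw [pow_succ]; field_simp
    rw [e1, e2] at h1
    have h2 : a * (2 ^ (k + 2) * (β + 2 * B) + 2 + 2 ^ k) + 14 * |(b / a : ℝ) ^ e * θ| * a * N +
        2 ^ k * N * (((a : ℝ) - b) / b) ≤ E1 k a b B N β τ := by
      unfold E1
      have : 14 * |(b / a : ℝ) ^ e * θ| * a * N ≤ 14 * τ * a * N := by gcongr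
      linarith
    push_cast
    linarith

variable {p : ℕ} [NeZero p]

/-- **the diagonal move** -/
theorem dscale {f : ℤ → ℝ} (hf : ∀ x, |f x| ≤ 1) {N a b B J : ℕ} (hb : 1 ≤ b) (hab : b ≤ a)
    (hB : (k + 1) * a ≤ B) {β τ c : ℝ} (hβa : ((bad f (N / a) a B).card : ℝ) ≤ β)
    (hβb : ((bad f (N / b) b B).card : ℝ) ≤ β)
    (hp : 2 * ((3 * k + 1) * N) < p) (hJ2 : (a : ℝ) ^ J ≤ 2 * (b : ℝ) ^ J) (hJN : 2 * J ≤ N)
    (herr : J * E1 k a b B N β τ + 7 * N ^ 2 / p ≤ c / 2 * N)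
    {x : Fin k → ℤ} (hx : ∀ i, |x i| ≤ N) {j : ℤ} (hj : |(j : ℝ)| ≤ τ * p)
    (hlarge : c * N ≤ ‖ft (fun y => ((PD Finset.univ (fun i => (x i : ZMod p)) (FF f N) y : ℝ) : ℂ)) (j : ZMod p)‖)
    {e : ℕ} (he : e ≤ J) :
    c / 2 * N ≤ ‖ft (fun y => ((PD Finset.univ (fun i => (((TT a b)^[e] (x i) : ℤ) : ZMod p)) (FF f N) y : ℝ) : ℂ))
      (((b : ℤ) ^ e * j / (a : ℤ) ^ e : ℤ) : ZMod p)‖ := by
  have hbR : (0 : ℝ) < b := by exact_mod_cast hb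
  have habR : (b : ℝ) ≤ a := by exact_mod_cast hab
  have haR : (0 : ℝ) < a := by linarith
  have hpR : (0 : ℝ) < p := by exact_mod_cast NeZero.pos p
  rw [ft_PD f hp (fun i => (hx i).trans (by omega))] at hlarge
  rw [ft_PD f hp (fun i => iter_abs3 hb hab hJ2 hJN (hx i) he)]
  have hθ : |((j : ℝ) / p)| ≤ τ := by
    rw [abs_div, abs_of_pos hpR, div_le_iff₀ hpR]; exact hj
  have h1 := iterK hf hb hab hB hβa hβb x hθ e (N := N)
  set θ' : ℝ := (b / a : ℝ) ^ e * (j / p) with hθ'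
  set j' : ℤ := (b : ℤ) ^ e * j / (a : ℤ) ^ e with hj'
  have h2 := freq_compareK hf N (fun i => (TT a b)^[e] (x i)) θ' ((j' : ℝ) / p)
  have haZ : (0 : ℤ) < (a : ℤ) ^ e := by
    have : (0 : ℤ) < a := by exact_mod_cast (lt_of_lt_of_le hb hab)
    positivity
  have c1 : j' * (a : ℤ) ^ e ≤ (b : ℤ) ^ e * j := Int.ediv_mul_le _ haZ.ne'
  have c2 : (b : ℤ) ^ e * j < (j' + 1) * (a : ℤ) ^ e := Int.lt_ediv_add_one_mul_self _ haZ
  have c1R : (j' : ℝ) * (a : ℝ) ^ e ≤ (b : ℝ) ^ e * j := by exact_mod_cast c1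
  have c2R : (b : ℝ) ^ e * (j : ℝ) < ((j' : ℝ) + 1) * (a : ℝ) ^ e := by exact_mod_cast c2
  have h3 : |θ' - (j' : ℝ) / p| ≤ 1 / p := by
    have e1 : θ' - (j' : ℝ) / p = ((b : ℝ) ^ e * j / (a : ℝ) ^ e - j') / p := by
      rw [hθ', div_pow]; field_simp
    rw [e1, abs_div, abs_of_pos hpR]
    refine div_le_div_of_nonneg_right ?_ hpR.le
    have haE : (0 : ℝ) < (a : ℝ) ^ e := by positivity
    rw [abs_le]
    constructor
    · rw [le_sub_iff_add_le, le_div_iff₀ haE]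
      nlinarith
    · rw [sub_le_iff_le_add, div_le_iff₀ haE]
      nlinarith
  have h4 : 7 * |θ' - (j' : ℝ) / p| * (N : ℝ) ^ 2 ≤ 7 * N ^ 2 / p := by
    calc 7 * |θ' - (j' : ℝ) / p| * (N : ℝ) ^ 2 ≤ 7 * (1 / p) * (N : ℝ) ^ 2 := by gcongr
      _ = _ := by ring
  have h5 := norm_sub_norm_le (SK f N (fun i => (TT a b)^[e] (x i)) θ')
    (SK f N (fun i => (TT a b)^[e] (x i)) ((j' : ℝ) / p))
  have h6 : (e : ℝ) * E1 k a b B N β τ ≤ J * E1 k a b B N β τ := by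
    have h7 : 0 ≤ E1 k a b B N β τ := by
      have hβ0 : 0 ≤ β := le_trans (Nat.cast_nonneg _) hβa
      have hτ0 : 0 ≤ τ := le_trans (abs_nonneg _) hθ
      have : 0 ≤ ((a : ℝ) - b) / b := div_nonneg (by linarith) hbR.le
      unfold E1
      positivity
    exact mul_le_mul_of_nonneg_right (by exact_mod_cast he) h7
  linarith

/-- large correlations occur at small frequencies only -/
theorem small_j {f : ℤ → ℝ} (hf : ∀ x, |f x| ≤ 1) {N B : ℕ} (hB : 2 ≤ B) {β τ c : ℝ} (hc : 0 < c) (hN : 1 ≤ N)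
    (hβ1 : ((bad f N 1 B).card : ℝ) ≤ β) (hp : 2 * ((3 * k + 1) * N) < p)
    (hτ : 2 ^ (k + 1) * (β + 2 * B) + 1 ≤ 4 * τ * (c * N))
    {x : Fin k → ℤ} (hx : ∀ i, |x i| ≤ N) (j : ZMod p)
    (hlarge : c * N ≤ ‖ft (fun y => ((PD Finset.univ (fun i => (x i : ZMod p)) (FF f N) y : ℝ) : ℂ)) j‖) :
    |(j.valMinAbs : ℝ)| ≤ τ * p := by
  have hpR : (0 : ℝ) < p := by exact_mod_cast NeZero.pos p
  have hNR : (0 : ℝ) < N := by exact_mod_cast hN
  have ej : j = ((j.valMinAbs : ℤ) : ZMod p) := (ZMod.coe_valMinAbs _).symm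
  rw [ej, ft_PD f hp (fun i => (hx i).trans (by omega))] at hlarge
  set i : ℤ := j.valMinAbs with hi
  have h3 : |((i : ℝ) / p)| ≤ 1 / 2 := by
    rw [abs_div, abs_of_pos hpR, div_le_div_iff₀ hpR (by norm_num)]
    have h4 := ZMod.valMinAbs_mem_Ioc j
    rw [Set.mem_Ioc] at h4
    have h5 : |i| * 2 ≤ (p : ℤ) := by
      rw [← abs_of_pos (by norm_num : (0 : ℤ) < 2), ← abs_mul, abs_le]
      exact ⟨h4.1.le, h4.2⟩
    have h6 : ((|i| * 2 : ℤ) : ℝ) ≤ ((p : ℤ) : ℝ) := by exact_mod_cast h5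
    push_cast at h6
    linarith
  have h4 := small_freqK hf N hB x h3
  have h5 : (2 : ℝ) ^ (k + 1) * ((bad f N 1 B).card + 2 * B : ℝ) ≤ 2 ^ (k + 1) * (β + 2 * B) :=
    mul_le_mul_of_nonneg_left (by linarith) (by positivity)
  have h6 : 4 * |((i : ℝ) / p)| * (c * N) ≤ 4 * τ * (c * N) := by
    calc 4 * |((i : ℝ) / p)| * (c * N) ≤ 4 * |((i : ℝ) / p)| * ‖SK f N x (i / p)‖ :=
          mul_le_mul_of_nonneg_left hlarge (by positivity)
      _ ≤ _ := h4.trans (by linarith)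
  have h7 : |((i : ℝ) / p)| ≤ τ := by
    have h8 : (4 * (c * N)) * |((i : ℝ) / p)| ≤ (4 * (c * N)) * τ := by linarith
    exact le_of_mul_le_mul_left h8 (by positivity)
  rw [abs_div, abs_of_pos hpR, div_le_iff₀ hpR] at h7
  exact h7

/-- the number of large Fourier coefficients of a derivative -/
theorem card_Gx {F : ZMod p → ℝ} (hF : ∀ x, |F x| ≤ 1) {N : ℝ} (hN : ∑ x, |F x| ≤ N)
    (x : Fin k → ZMod p) {c : ℝ} (hc : 0 < c) (S : Finset (ZMod p))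
    (hS : ∀ j ∈ S, c ≤ ‖ft (fun y => ((PD Finset.univ x F y : ℝ) : ℂ)) j‖) :
    (S.card : ℝ) ≤ p * N / c ^ 2 := by
  have h1 := card_large (fun y => ((PD Finset.univ x F y : ℝ) : ℂ)) hc S hS
  rw [le_div_iff₀ (by positivity)]
  refine h1.trans (mul_le_mul_of_nonneg_left ?_ (Nat.cast_nonneg _))
  refine (Finset.sum_le_sum fun y _ => ?_).trans (sum_abs_PD hF hN Finset.univ x)
  rw [Complex.norm_real, Real.norm_eq_abs, sq]
  exact mul_le_of_le_one_right (abs_nonneg _) (PD_abs_le hF _ _ _)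

end Pool.Agent.J4H80.QU
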