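import Pool.Agent.J4H80.QU.K3

set_option autoImplicit false

/-! Paths in the grid of exponents: the frequencies split along closed loops. -/

namespace Pool.Agent.J4H80.QU

open Finset Pointwise

variable {k J : ℕ}

theorem path_mem {M : Finset (Fin k → Fin J)} {n : ℕ} {a b : Fin k → Fin J} (h : Path M n a b) :
    a ∈ M ∧ b ∈ M := by
  induction h with
  | refl m hm => exact ⟨hm, hm⟩
  | step i x _ hb ih => exact ⟨ih.1, hb⟩

theorem path_sum {G : Type*} [AddCommGroup G] [DecidableEq G] {M : Finset (Fin k → Fin J)}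
    (ζ : (Fin k → Fin J) → G) (Lam : Fin k → Finset G) (h0 : ∀ i, (0 : G) ∈ Lam i)
    (hmove : ∀ m ∈ M, ∀ i x, Function.update m i x ∈ M → ζ (Function.update m i x) - ζ m ∈ Lam i)
    {n : ℕ} {m₁ m₂ : Fin k → Fin J} (h : Path M n m₁ m₂) :
    ∃ l : Fin k → G, (∀ i, l i ∈ n • Lam i) ∧ ζ m₂ = ζ m₁ + ∑ i, l i := by
  classical
  induction h with
  | refl m hm =>
    refine ⟨fun _ => 0, fun i => ?_, by simp⟩
    rw [zero_nsmul]
    exact Finset.mem_zero.2 rfl
  | @step n a b i x hp hb ih =>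
    obtain ⟨l, hl, hl2⟩ := ih
    set d : G := ζ (Function.update b i x) - ζ b with hd
    refine ⟨fun j => l j + (if j = i then d else 0), fun j => ?_, ?_⟩
    · rw [succ_nsmul]
      refine Finset.add_mem_add (hl j) ?_
      split_ifs with hj
      · rw [hj]
        exact hmove b (path_mem hp).2 i x hb
      · exact h0 j
    · rw [Finset.sum_add_distrib, Finset.sum_ite_eq' Finset.univ i, if_pos (Finset.mem_univ i),
        ← add_assoc, ← hl2, hd]
      abel

/-- the points of an orbit -/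
def Tm (a b : ℕ) (m : Fin k → Fin J) (g : Fin k → ℤ) : Fin k → ℤ := fun i => (TT a b)^[(m i : ℕ)] (g i)

theorem Tm_update_m (a b : ℕ) (m : Fin k → Fin J) (i : Fin k) (x : Fin J) (g : Fin k → ℤ) :
    Tm a b (Function.update m i x) g = Function.update (Tm a b m g) i ((TT a b)^[(x : ℕ)] (g i)) := by
  funext j
  unfold Tm
  by_cases h : j = i
  · subst h; simp
  · simp [Function.update_of_ne h]

theorem Tm_update_g (a b : ℕ) (m : Fin k → Fin J) (i : Fin k) (t : ℤ) (g : Fin k → ℤ) :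
    Tm a b m (Function.update g i t) = Function.update (Tm a b m g) i ((TT a b)^[(m i : ℕ)] t) := by
  funext j
  unfold Tm
  by_cases h : j = i
  · subst h; simp
  · simp [Function.update_of_ne h]

/-- the size of an exponent -/
def sz (m : Fin k → Fin J) : ℕ := ∑ i, (m i : ℕ)

theorem sz_update (m : Fin k → Fin J) (i : Fin k) (x : Fin J) {e : ℕ} (he : (x : ℕ) = m i + e) :
    sz (Function.update m i x) = sz m + e := by
  unfold sz
  rw [← Finset.add_sum_erase _ _ (Finset.mem_univ i), ← Finset.add_sum_erase _ (fun j => (m j : ℕ)) (Finset.mem_univ i)]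
  have : ∑ j ∈ Finset.univ.erase i, ((Function.update m i x j : Fin J) : ℕ) = ∑ j ∈ Finset.univ.erase i, (m j : ℕ) := by
    refine Finset.sum_congr rfl fun j hj => ?_
    rw [Function.update_of_ne (Finset.ne_of_mem_erase hj)]
  rw [this, Function.update_self, he]
  ring

variable {p : ℕ}

/-- reduction modulo `p` -/
def red (p : ℕ) (x : Fin k → ℤ) : Fin k → ZMod p := fun i => (x i : ZMod p)

theorem red_update (x : Fin k → ℤ) (i : Fin k) (t : ℤ) :
    red p (Function.update x i t) = Function.update (red p x) i (t : ZMod p) := by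
  funext j
  unfold red
  by_cases h : j = i
  · subst h; simp
  · simp [Function.update_of_ne h]

/-- the second coordinates of the vectors `v z' - u z` with first coordinate in `E` -/
def WW (A : Finset (ZMod p × ZMod p)) (u v : ℕ) (E : Finset (ZMod p)) : Finset (ZMod p) :=
  E.biUnion fun e => (((A ×ˢ A).image (fun q => v • q.2 - u • q.1)).filter (fun w => w.1 = e)).image Prod.snd

theorem mem_WW {A : Finset (ZMod p × ZMod p)} {u v : ℕ} {E : Finset (ZMod p)} {z z' : ZMod p × ZMod p}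
    (hz : z ∈ A) (hz' : z' ∈ A) (hE : (v • z' - u • z).1 ∈ E) : (v • z' - u • z).2 ∈ WW A u v E := by
  unfold WW
  rw [Finset.mem_biUnion]
  refine ⟨_, hE, ?_⟩
  rw [Finset.mem_image]
  refine ⟨v • z' - u • z, ?_, rfl⟩
  rw [Finset.mem_filter, Finset.mem_image]
  exact ⟨⟨(z, z'), Finset.mem_product.2 ⟨hz, hz'⟩, rfl⟩, rfl⟩

theorem card_WW [NeZero p] {A : Finset (ZMod p × ZMod p)} {C : ℝ} (hC1 : 1 ≤ C)
    (hA : A.Nonempty → (∀ a ∈ A, ∀ b ∈ A, a.1 = b.1 → a = b) ∧ ((A - A).card : ℝ) ≤ C * A.card)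
    (u v : ℕ) (E : Finset (ZMod p)) : ((WW A u v E).card : ℝ) ≤ E.card * C ^ (u + v + 1) := by
  unfold WW
  have h1 : ((E.biUnion fun e => (((A ×ˢ A).image (fun q => v • q.2 - u • q.1)).filter
      (fun w => w.1 = e)).image Prod.snd).card : ℝ) ≤
      ∑ e ∈ E, (((((A ×ˢ A).image (fun q => v • q.2 - u • q.1)).filter (fun w => w.1 = e)).image Prod.snd).card : ℝ) := by
    exact_mod_cast Finset.card_biUnion_le
  refine h1.trans ?_
  rw [← nsmul_eq_mul, ← Finset.sum_const]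
  refine Finset.sum_le_sum fun e _ => ?_
  have h2 : (((((A ×ˢ A).image (fun q => v • q.2 - u • q.1)).filter (fun w => w.1 = e)).image Prod.snd).card : ℝ) ≤
      ((((A ×ˢ A).image (fun q => v • q.2 - u • q.1)).filter (fun w => w.1 = e)).card : ℝ) := by
    exact_mod_cast Finset.card_image_le
  refine h2.trans ?_
  rcases A.eq_empty_or_nonempty with h | h
  · subst h
    simp only [Finset.empty_product, Finset.image_empty, Finset.filter_empty, Finset.card_empty, Nat.cast_zero]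
    positivity
  · obtain ⟨hg, hc⟩ := hA h
    apply few_vectors h hg hc u v e
    intro w hw
    rw [Finset.mem_filter, Finset.mem_image] at hw
    obtain ⟨⟨q, hq, rfl⟩, h3⟩ := hw
    rw [Finset.mem_product] at hq
    exact ⟨h3, q.1, hq.1, q.2, hq.2, rfl⟩

/-- the increments in one direction -/
noncomputable def LL (a b J : ℕ) (A : (Fin k → ZMod p) → Finset (ZMod p × ZMod p)) (E : Finset (ZMod p))
    (g : Fin k → ℤ) : Finset (ZMod p) := by
  classical
  exact insert 0 ((Finset.univ : Finset (Fin k → Fin J)).biUnion fun m => (range (J + 1)).biUnion fun e =>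
    ((WW (A (red p (Tm a b m g))) (a ^ e) (b ^ e) E).image
      (fun w => ((b : ZMod p) * (a : ZMod p)⁻¹) ^ (sz m + e) * ((b : ZMod p)⁻¹ ^ e * w))) ∪
    ((WW (A (red p (Tm a b m g))) (a ^ e) (b ^ e) E).image
      (fun w => -(((b : ZMod p) * (a : ZMod p)⁻¹) ^ (sz m + e) * ((b : ZMod p)⁻¹ ^ e * w)))))

theorem zero_mem_LL (a b J : ℕ) (A : (Fin k → ZMod p) → Finset (ZMod p × ZMod p)) (E : Finset (ZMod p))
    (g : Fin k → ℤ) : (0 : ZMod p) ∈ LL a b J A E g := by
  classical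
  unfold LL
  exact Finset.mem_insert_self _ _

theorem card_LL [NeZero p] {a b J : ℕ} (hba : b ≤ a) (ha : 1 ≤ a) {A : (Fin k → ZMod p) → Finset (ZMod p × ZMod p)} {C : ℝ}
    (hC1 : 1 ≤ C) (hA : ∀ x, (A x).Nonempty → (∀ a ∈ A x, ∀ b ∈ A x, a.1 = b.1 → a = b) ∧
      ((A x - A x).card : ℝ) ≤ C * (A x).card) (E : Finset (ZMod p)) (g : Fin k → ℤ) :
    ((LL a b J A E g).card : ℝ) ≤ 1 + J ^ k * ((J + 1) * (2 * (E.card * C ^ (2 * a ^ J + 1)))) := by
  classical
  have hW : ∀ x, ∀ e ∈ range (J + 1), ((WW (A x) (a ^ e) (b ^ e) E).card : ℝ) ≤ E.card * C ^ (2 * a ^ J + 1) := by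
    intro x e he
    rw [Finset.mem_range] at he
    refine (card_WW hC1 (hA x) _ _ E).trans ?_
    refine mul_le_mul_of_nonneg_left (pow_le_pow_right₀ hC1 ?_) (Nat.cast_nonneg _)
    have h1 : a ^ e ≤ a ^ J := Nat.pow_le_pow_right ha (by omega)
    have h2 : b ^ e ≤ a ^ e := Nat.pow_le_pow_left hba e
    omega
  unfold LL
  have h1 := Finset.card_insert_le (0 : ZMod p) ((Finset.univ : Finset (Fin k → Fin J)).biUnion fun m => (range (J + 1)).biUnion fun e =>
    ((WW (A (red p (Tm a b m g))) (a ^ e) (b ^ e) E).image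
      (fun w => ((b : ZMod p) * (a : ZMod p)⁻¹) ^ (sz m + e) * ((b : ZMod p)⁻¹ ^ e * w))) ∪
    ((WW (A (red p (Tm a b m g))) (a ^ e) (b ^ e) E).image
      (fun w => -(((b : ZMod p) * (a : ZMod p)⁻¹) ^ (sz m + e) * ((b : ZMod p)⁻¹ ^ e * w)))))
  have h2 : ((insert (0 : ZMod p) ((Finset.univ : Finset (Fin k → Fin J)).biUnion fun m => (range (J + 1)).biUnion fun e =>
    ((WW (A (red p (Tm a b m g))) (a ^ e) (b ^ e) E).image
      (fun w => ((b : ZMod p) * (a : ZMod p)⁻¹) ^ (sz m + e) * ((b : ZMod p)⁻¹ ^ e * w))) ∪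
    ((WW (A (red p (Tm a b m g))) (a ^ e) (b ^ e) E).image
      (fun w => -(((b : ZMod p) * (a : ZMod p)⁻¹) ^ (sz m + e) * ((b : ZMod p)⁻¹ ^ e * w))))) : Finset (ZMod p)).card : ℝ) ≤
      (((Finset.univ : Finset (Fin k → Fin J)).biUnion fun m => (range (J + 1)).biUnion fun e =>
    ((WW (A (red p (Tm a b m g))) (a ^ e) (b ^ e) E).image
      (fun w => ((b : ZMod p) * (a : ZMod p)⁻¹) ^ (sz m + e) * ((b : ZMod p)⁻¹ ^ e * w))) ∪
    ((WW (A (red p (Tm a b m g))) (a ^ e) (b ^ e) E).image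
      (fun w => -(((b : ZMod p) * (a : ZMod p)⁻¹) ^ (sz m + e) * ((b : ZMod p)⁻¹ ^ e * w))))).card : ℝ) + 1 := by
    exact_mod_cast h1
  refine h2.trans ?_
  rw [add_comm]
  refine add_le_add le_rfl ?_
  have h3 : (((Finset.univ : Finset (Fin k → Fin J)).biUnion fun m => (range (J + 1)).biUnion fun e =>
    ((WW (A (red p (Tm a b m g))) (a ^ e) (b ^ e) E).image
      (fun w => ((b : ZMod p) * (a : ZMod p)⁻¹) ^ (sz m + e) * ((b : ZMod p)⁻¹ ^ e * w))) ∪
    ((WW (A (red p (Tm a b m g))) (a ^ e) (b ^ e) E).image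
      (fun w => -(((b : ZMod p) * (a : ZMod p)⁻¹) ^ (sz m + e) * ((b : ZMod p)⁻¹ ^ e * w))))).card : ℝ) ≤
      ∑ m : Fin k → Fin J, ∑ e ∈ range (J + 1), ((((WW (A (red p (Tm a b m g))) (a ^ e) (b ^ e) E).image
      (fun w => ((b : ZMod p) * (a : ZMod p)⁻¹) ^ (sz m + e) * ((b : ZMod p)⁻¹ ^ e * w))) ∪
    ((WW (A (red p (Tm a b m g))) (a ^ e) (b ^ e) E).image
      (fun w => -(((b : ZMod p) * (a : ZMod p)⁻¹) ^ (sz m + e) * ((b : ZMod p)⁻¹ ^ e * w))))).card : ℝ) := by
    exact_mod_cast Finset.card_biUnion_le.trans (Finset.sum_le_sum fun m _ => Finset.card_biUnion_le)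
  refine h3.trans ?_
  calc _ ≤ ∑ m : Fin k → Fin J, ∑ e ∈ range (J + 1), (2 * (E.card * C ^ (2 * a ^ J + 1)) : ℝ) := by
        refine Finset.sum_le_sum fun m _ => Finset.sum_le_sum fun e he => ?_
        have q1 := hW (red p (Tm a b m g)) e he
        have q2 : ((((WW (A (red p (Tm a b m g))) (a ^ e) (b ^ e) E).image
            (fun w => ((b : ZMod p) * (a : ZMod p)⁻¹) ^ (sz m + e) * ((b : ZMod p)⁻¹ ^ e * w))) ∪
            ((WW (A (red p (Tm a b m g))) (a ^ e) (b ^ e) E).image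
            (fun w => -(((b : ZMod p) * (a : ZMod p)⁻¹) ^ (sz m + e) * ((b : ZMod p)⁻¹ ^ e * w))))).card : ℝ) ≤
            ((WW (A (red p (Tm a b m g))) (a ^ e) (b ^ e) E).card : ℝ) + (WW (A (red p (Tm a b m g))) (a ^ e) (b ^ e) E).card := by
          exact_mod_cast (Finset.card_union_le _ _).trans (add_le_add Finset.card_image_le Finset.card_image_le)
        linarith
    _ = _ := by
        rw [Finset.sum_const, Finset.sum_const, Finset.card_range, Finset.card_univ, Fintype.card_fun,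
          Fintype.card_fin, Fintype.card_fin, nsmul_eq_mul, nsmul_eq_mul]
        push_cast
        ring

theorem LL_update {a b J : ℕ} {A : (Fin k → ZMod p) → Finset (ZMod p × ZMod p)} {i : Fin k}
    (hA : ∀ x t, A (Function.update x i t) = A x) (E : Finset (ZMod p)) (g : Fin k → ℤ) (t : ℤ) :
    LL a b J A E (Function.update g i t) = LL a b J A E g := by
  unfold LL
  have : ∀ m : Fin k → Fin J, A (red p (Tm a b m (Function.update g i t))) = A (red p (Tm a b m g)) := by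
    intro m
    rw [Tm_update_g, red_update, hA]
  simp only [this]

/-- the increments along one move -/
theorem move_mem [Fact p.Prime] {a b J : ℕ} (ha : (a : ZMod p) ≠ 0) (hb : (b : ZMod p) ≠ 0) {i : Fin k}
    {A : (Fin k → ZMod p) → Finset (ZMod p × ZMod p)} {ξ : (Fin k → ZMod p) → ZMod p}
    (hAi : ∀ x t, A (Function.update x i t) = A x) {E0 : ℕ}
    (hfloor : ∀ (x : ℤ) (m e : ℕ), e ≤ J →
      |(b : ℤ) ^ e * (TT a b)^[m + e] x - (a : ℤ) ^ e * (TT a b)^[m] x| ≤ E0)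
    {g : Fin k → ℤ} {m : Fin k → Fin J} {x : Fin J}
    (hm : ((red p (Tm a b m g)) i, ξ (red p (Tm a b m g))) ∈ A (red p (Tm a b m g)))
    (hm' : ((red p (Tm a b (Function.update m i x) g)) i, ξ (red p (Tm a b (Function.update m i x) g))) ∈
      A (red p (Tm a b (Function.update m i x) g))) :
    ((b : ZMod p) * (a : ZMod p)⁻¹) ^ (sz (Function.update m i x)) * ξ (red p (Tm a b (Function.update m i x) g)) -
      ((b : ZMod p) * (a : ZMod p)⁻¹) ^ (sz m) * ξ (red p (Tm a b m g)) ∈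
      LL a b J A ((Icc (-(E0 : ℤ)) E0).image (fun t : ℤ => (t : ZMod p))) g := by
  classical
  set E : Finset (ZMod p) := (Icc (-(E0 : ℤ)) E0).image (fun t : ℤ => (t : ZMod p)) with hE
  -- moves up
  have up : ∀ (n : Fin k → Fin J) (y : Fin J) (e : ℕ), (y : ℕ) = n i + e → 
      ((red p (Tm a b n g)) i, ξ (red p (Tm a b n g))) ∈ A (red p (Tm a b n g)) →
      ((red p (Tm a b (Function.update n i y) g)) i, ξ (red p (Tm a b (Function.update n i y) g))) ∈
        A (red p (Tm a b n g)) →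
      ∃ w ∈ WW (A (red p (Tm a b n g))) (a ^ e) (b ^ e) E,
        ((b : ZMod p) * (a : ZMod p)⁻¹) ^ (sz (Function.update n i y)) * ξ (red p (Tm a b (Function.update n i y) g)) -
        ((b : ZMod p) * (a : ZMod p)⁻¹) ^ (sz n) * ξ (red p (Tm a b n g)) =
        ((b : ZMod p) * (a : ZMod p)⁻¹) ^ (sz n + e) * ((b : ZMod p)⁻¹ ^ e * w) := by
    intro n y e hye h1 h2
    have he : e ≤ J := by
      have := y.2
      omega
    refine ⟨_, mem_WW h1 h2 ?_, ?_⟩
    · rw [hE, Finset.mem_image]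
      refine ⟨(b : ℤ) ^ e * (TT a b)^[(n i : ℕ) + e] (g i) - (a : ℤ) ^ e * (TT a b)^[(n i : ℕ)] (g i), ?_, ?_⟩
      · rw [Finset.mem_Icc]
        exact abs_le.1 (hfloor (g i) (n i) e he)
      · simp only [Prod.fst_sub, Prod.smul_fst]
        simp only [nsmul_eq_mul]
        unfold red Tm
        rw [Function.update_self, hye]
        push_cast
        ring
    · simp only [Prod.snd_sub, Prod.smul_snd]
      simp only [nsmul_eq_mul]
      rw [sz_update n i y hye]
      push_cast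
      have e1 : (b : ZMod p)⁻¹ ^ e * (b : ZMod p) ^ e = 1 := by
        rw [← mul_pow, inv_mul_cancel₀ hb, one_pow]
      have e2 : ((b : ZMod p) * (a : ZMod p)⁻¹) ^ e * ((b : ZMod p)⁻¹ ^ e * (a : ZMod p) ^ e) = 1 := by
        rw [← mul_pow, ← mul_pow]
        have : (b : ZMod p) * (a : ZMod p)⁻¹ * ((b : ZMod p)⁻¹ * (a : ZMod p)) = 1 := by field_simp
        rw [this, one_pow]
      rw [pow_add]
      set R := ((b : ZMod p) * (a : ZMod p)⁻¹) ^ sz n
      set R' := ((b : ZMod p) * (a : ZMod p)⁻¹) ^ e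
      set X := ξ (red p (Tm a b (Function.update n i y) g))
      set Z := ξ (red p (Tm a b n g))
      linear_combination (-(R * R' * X)) * e1 + (R * Z) * e2
  unfold LL
  rw [Finset.mem_insert]
  right
  rw [Finset.mem_biUnion]
  have hAu : A (red p (Tm a b (Function.update m i x) g)) = A (red p (Tm a b m g)) := by
    rw [Tm_update_m, red_update, hAi]
  rcases le_total (m i : ℕ) (x : ℕ) with h | h
  · obtain ⟨w, hw, hw2⟩ := up m x (x - m i) (by omega) hm (by rw [← hAu]; exact hm')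
    refine ⟨m, Finset.mem_univ _, ?_⟩
    rw [Finset.mem_biUnion]
    refine ⟨(x : ℕ) - m i, ?_, ?_⟩
    · rw [Finset.mem_range]; have := x.2; omega
    · rw [Finset.mem_union]
      left
      rw [hw2]
      exact Finset.mem_image_of_mem _ hw
  · have hup : Function.update (Function.update m i x) i (m i) = m := by
      rw [Function.update_idem, Function.update_eq_self]
    obtain ⟨w, hw, hw2⟩ := up (Function.update m i x) (m i) ((m i : ℕ) - x)
      (by rw [Function.update_self]; omega) hm' (by rw [hup, hAu]; exact hm)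
    rw [hup] at hw2
    refine ⟨Function.update m i x, Finset.mem_univ _, ?_⟩
    rw [Finset.mem_biUnion]
    refine ⟨(m i : ℕ) - x, ?_, ?_⟩
    · rw [Finset.mem_range]; have := (m i).2; omega
    · rw [Finset.mem_union]
      right
      rw [Finset.mem_image]
      refine ⟨w, hw, ?_⟩
      rw [← hw2]
      ring

/-- **the splitting of the frequency**: one orbit -/
theorem one_orbit [Fact p.Prime] {a b J : ℕ} (ha : (a : ZMod p) ≠ 0) (hb : (b : ZMod p) ≠ 0)
    {B : Finset (Fin k → ZMod p)} {ξ : (Fin k → ZMod p) → ZMod p}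
    (A : Fin k → (Fin k → ZMod p) → Finset (ZMod p × ZMod p))
    (hAi : ∀ i x t, A i (Function.update x i t) = A i x)
    (hAB : ∀ i, ∀ x ∈ B, (x i, ξ x) ∈ A i x) {E0 : ℕ}
    (hfloor : ∀ (x : ℤ) (m e : ℕ), e ≤ J →
      |(b : ℤ) ^ e * (TT a b)^[m + e] x - (a : ℤ) ^ e * (TT a b)^[m] x| ≤ E0)
    {g : Fin k → ℤ} {M : Finset (Fin k → Fin J)} (hM : ∀ m ∈ M, red p (Tm a b m g) ∈ B)
    {m' m'' : Fin k → Fin J} {s : ℕ} (hs : ∀ i, (m' i : ℕ) = m'' i + s) {ω : ℤ}
    (hω : (a : ZMod p) ^ s * ξ (red p (Tm a b m' g)) - (b : ZMod p) ^ s * ξ (red p (Tm a b m'' g)) = (ω : ZMod p))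
    {n : ℕ} (hpath : Path M n m'' m')
    (hne : (a : ZMod p) ^ ((k + 1) * s) ≠ (b : ZMod p) ^ ((k + 1) * s)) :
    ∃ l : Fin k → ZMod p,
      (∀ i, l i ∈ n • LL a b J (A i) ((Icc (-(E0 : ℤ)) E0).image (fun t : ℤ => (t : ZMod p))) g) ∧
      ξ (red p (Tm a b m' g)) =
        ∑ i, ((a : ZMod p) * (b : ZMod p)⁻¹) ^ sz m' *
          (1 - ((a : ZMod p) * (b : ZMod p)⁻¹) ^ ((k + 1) * s))⁻¹ * l i -
        ((a : ZMod p) * (b : ZMod p)⁻¹) ^ sz m' * (1 - ((a : ZMod p) * (b : ZMod p)⁻¹) ^ ((k + 1) * s))⁻¹ *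
          (((b : ZMod p) * (a : ZMod p)⁻¹) ^ sz m'' * ((b : ZMod p)⁻¹ ^ s * (ω : ZMod p))) := by
  classical
  obtain ⟨l, hl, hl2⟩ := path_sum (M := M)
    (fun m => ((b : ZMod p) * (a : ZMod p)⁻¹) ^ (sz m) * ξ (red p (Tm a b m g)))
    (fun i => LL a b J (A i) ((Icc (-(E0 : ℤ)) E0).image (fun t : ℤ => (t : ZMod p))) g)
    (fun i => zero_mem_LL _ _ _ _ _ _)
    (fun m hm i x hx => move_mem ha hb (hAi i) hfloor (hAB i _ (hM m hm)) (hAB i _ (hM _ hx))) hpath
  refine ⟨l, hl, ?_⟩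
  set r : ZMod p := (a : ZMod p) * (b : ZMod p)⁻¹ with hr
  set ρ : ZMod p := (b : ZMod p) * (a : ZMod p)⁻¹ with hρ
  have hrρ : r * ρ = 1 := by rw [hr, hρ]; field_simp
  have hsz : sz m' = sz m'' + k * s := by
    unfold sz
    rw [Finset.sum_congr rfl fun i _ => hs i, Finset.sum_add_distrib, Finset.sum_const,
      Finset.card_univ, Fintype.card_fin, nsmul_eq_mul]
    rfl
  set X' := ξ (red p (Tm a b m' g)) with hX'
  set X'' := ξ (red p (Tm a b m'' g)) with hX''
  have hrn : r ^ ((k + 1) * s) ≠ 1 := by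
    intro h
    apply hne
    have hb' : (b : ZMod p) ^ ((k + 1) * s) ≠ 0 := pow_ne_zero _ hb
    rw [hr, mul_pow] at h
    have h2 : (b : ZMod p)⁻¹ ^ ((k + 1) * s) * (b : ZMod p) ^ ((k + 1) * s) = 1 := by
      rw [← mul_pow, inv_mul_cancel₀ hb, one_pow]
    calc (a : ZMod p) ^ ((k + 1) * s) = (a : ZMod p) ^ ((k + 1) * s) *
          ((b : ZMod p)⁻¹ ^ ((k + 1) * s) * (b : ZMod p) ^ ((k + 1) * s)) := by rw [h2, mul_one]
      _ = ((a : ZMod p) ^ ((k + 1) * s) * (b : ZMod p)⁻¹ ^ ((k + 1) * s)) * (b : ZMod p) ^ ((k + 1) * s) := by ring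
      _ = _ := by rw [h, one_mul]
  have hX2 : X'' = r ^ s * X' - (b : ZMod p)⁻¹ ^ s * (ω : ZMod p) := by
    rw [← hω]
    have h2 : (b : ZMod p)⁻¹ ^ s * (b : ZMod p) ^ s = 1 := by
      rw [← mul_pow, inv_mul_cancel₀ hb, one_pow]
    rw [hr, mul_pow]
    linear_combination (-X'') * h2
  have hpow : ρ ^ sz m'' * r ^ s = r ^ ((k + 1) * s) * ρ ^ sz m' := by
    rw [hsz, pow_add]
    have h3 : r ^ (k * s) * ρ ^ (k * s) = 1 := by rw [← mul_pow, hrρ, one_pow]
    have h4 : r ^ ((k + 1) * s) = r ^ (k * s) * r ^ s := by rw [← pow_add]; congr 1; ring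
    rw [h4]
    linear_combination (-(ρ ^ sz m'' * r ^ s)) * h3
  have key : (1 - r ^ ((k + 1) * s)) * (ρ ^ sz m' * X') =
      ∑ i, l i - ρ ^ sz m'' * ((b : ZMod p)⁻¹ ^ s * (ω : ZMod p)) := by
    rw [hX2] at hl2
    linear_combination hl2 + X' * hpow
  have h5 : (1 - r ^ ((k + 1) * s)) ≠ 0 := sub_ne_zero.2 (Ne.symm hrn)
  have h6 : r ^ sz m' * ρ ^ sz m' = 1 := by rw [← mul_pow, hrρ, one_pow]
  have h7 : (1 - r ^ ((k + 1) * s))⁻¹ * (1 - r ^ ((k + 1) * s)) = 1 := inv_mul_cancel₀ h5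
  have h8 : X' = r ^ sz m' * (1 - r ^ ((k + 1) * s))⁻¹ * ((1 - r ^ ((k + 1) * s)) * (ρ ^ sz m' * X')) := by
    calc X' = (r ^ sz m' * ρ ^ sz m') * ((1 - r ^ ((k + 1) * s))⁻¹ * (1 - r ^ ((k + 1) * s))) * X' := by
          rw [h6, h7]; ring
      _ = _ := by ring
  rw [h8, key, mul_sub, Finset.mul_sum]

end Pool.Agent.J4H80.QU
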