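import Pool.Agent.J4H80.QU.K4

set_option autoImplicit false

/-! One good orbit. -/

namespace Pool.Agent.J4H80.QU

open Finset Pointwise

theorem floorY {a b e s : ℕ} {j j' : ℤ} (hb : 1 ≤ b) (ha : 1 ≤ a)
    (h : (b : ℤ) ^ e * j / (a : ℤ) ^ e = (b : ℤ) ^ (e + s) * j' / (a : ℤ) ^ (e + s)) :
    |(a : ℤ) ^ s * j - (b : ℤ) ^ s * j'| ≤ (a : ℤ) ^ (e + s) := by
  have haZ : (0 : ℤ) < a := by exact_mod_cast ha
  have hbZ : (0 : ℤ) < b := by exact_mod_cast hb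
  have h1 : (0 : ℤ) < (a : ℤ) ^ e := by positivity
  have h2 : (0 : ℤ) < (a : ℤ) ^ (e + s) := by positivity
  have h3 : (0 : ℤ) < (a : ℤ) ^ s := by positivity
  set t := (b : ℤ) ^ e * j / (a : ℤ) ^ e with ht
  have a1 : t * (a : ℤ) ^ e ≤ (b : ℤ) ^ e * j := Int.ediv_mul_le _ h1.ne'
  have a2 : (b : ℤ) ^ e * j < (t + 1) * (a : ℤ) ^ e := Int.lt_ediv_add_one_mul_self _ h1
  have a3 : t * (a : ℤ) ^ (e + s) ≤ (b : ℤ) ^ (e + s) * j' := by rw [h]; exact Int.ediv_mul_le _ h2.ne'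
  have a4 : (b : ℤ) ^ (e + s) * j' < (t + 1) * (a : ℤ) ^ (e + s) := by
    rw [h]; exact Int.lt_ediv_add_one_mul_self _ h2
  have i1 : (b : ℤ) ^ e * ((a : ℤ) ^ s * j - (b : ℤ) ^ s * j') =
      (a : ℤ) ^ s * ((b : ℤ) ^ e * j) - (b : ℤ) ^ (e + s) * j' := by rw [pow_add]; ring
  have i2 : (a : ℤ) ^ (e + s) = (a : ℤ) ^ s * (a : ℤ) ^ e := by rw [pow_add]; ring
  have b1 : (b : ℤ) ^ e * ((a : ℤ) ^ s * j - (b : ℤ) ^ s * j') < (a : ℤ) ^ (e + s) := by
    have := mul_lt_mul_of_pos_left a2 h3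
    rw [i1]
    rw [i2] at a3 ⊢
    linarith
  have b2 : -(a : ℤ) ^ (e + s) < (b : ℤ) ^ e * ((a : ℤ) ^ s * j - (b : ℤ) ^ s * j') := by
    have := mul_le_mul_of_nonneg_left a1 h3.le
    rw [i1]
    rw [i2] at a4 ⊢
    linarith
  have hbe : (1 : ℤ) ≤ (b : ℤ) ^ e := one_le_pow₀ (by omega)
  set X := (a : ℤ) ^ s * j - (b : ℤ) ^ s * j' with hX
  rw [abs_le]
  constructor
  · by_contra hc
    push Not at hc
    have h0 : X < 0 := by linarith
    nlinarith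
  · by_contra hc
    push Not at hc
    nlinarith

variable {k p : ℕ}

/-- the coefficient -/
noncomputable def kap (p k a b : ℕ) {J : ℕ} (m' : Fin (k + 1) → Fin J) (s : ℕ) : ZMod p :=
  ((a : ZMod p) * (b : ZMod p)⁻¹) ^ sz m' * (1 - ((a : ZMod p) * (b : ZMod p)⁻¹) ^ ((k + 1 + 1) * s))⁻¹

/-- the constant -/
noncomputable def cst (p k a b : ℕ) {J : ℕ} (m' m'' : Fin (k + 1) → Fin J) (s : ℕ) (ω : ℤ) : ZMod p :=
  kap p k a b m' s * (((b : ZMod p) * (a : ZMod p)⁻¹) ^ sz m'' * ((b : ZMod p)⁻¹ ^ s * (ω : ZMod p)))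

theorem good_orbit [Fact p.Prime] {f : ℤ → ℝ} (hf : ∀ x, |f x| ≤ 1) {N a b Bo J : ℕ} (hN1 : 1 ≤ N) (hb : 1 ≤ b)
    (hab : b < a) (hBo : (k + 1 + 1) * a ≤ Bo) {β τ c CΓ δ₁ : ℝ} (hc : 0 < c) (hτ1 : 4 * τ < 1)
    (hβa : ((bad f (N / a) a Bo).card : ℝ) ≤ β) (hβb : ((bad f (N / b) b Bo).card : ℝ) ≤ β)
    (hβ1 : ((bad f N 1 Bo).card : ℝ) ≤ β)
    (hτ : 2 ^ (k + 1 + 1) * (β + 2 * Bo) + 1 ≤ 4 * τ * (c * N))
    (hp : 2 * ((3 * (k + 1) + 1) * N) < p) (hJ2 : (a : ℝ) ^ J ≤ 2 * (b : ℝ) ^ J) (hJN : 2 * J ≤ N)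
    (herr : J * E1 (k + 1) a b Bo N β τ + 7 * N ^ 2 / p ≤ c / 2 * N)
    (hCΓ : (p : ℝ) * N / (c / 2 * N) ^ 2 ≤ CΓ) (hpa : a ^ ((k + 1 + 1) * J) < p)
    {B : Finset (Fin (k + 1) → ZMod p)} {ξ : (Fin (k + 1) → ZMod p) → ZMod p}
    (hB : ∀ x ∈ B, c * N ≤ ‖ft (fun y => ((PD Finset.univ x (FF f N) y : ℝ) : ℂ)) (ξ x)‖)
    (A : Fin (k + 1) → (Fin (k + 1) → ZMod p) → Finset (ZMod p × ZMod p))
    (hAi : ∀ i x t, A i (Function.update x i t) = A i x)
    (hAB : ∀ i, ∀ x ∈ B, (x i, ξ x) ∈ A i x) {E0 : ℕ}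
    (hfloor : ∀ (x : ℤ) (m e : ℕ), e ≤ J →
      |(b : ℤ) ^ e * (TT a b)^[m + e] x - (a : ℤ) ^ e * (TT a b)^[m] x| ≤ E0)
    {BZ : Finset (Fin (k + 1) → ℤ)} (hBZ : ∀ x ∈ BZ, (∀ i, |x i| ≤ (N : ℤ)) ∧ red p x ∈ B)
    (hdiag : ∀ (M : Finset (Fin (k + 1) → Fin J)), δ₁ * (J : ℝ) ^ (k + 1) ≤ M.card →
      ∀ (γ : Type) [DecidableEq γ] (Y : (Fin (k + 1) → Fin J) → γ),
      (∀ m₀ ∈ M, (((M.filter (fun m => ∀ i j, ((m i : ℕ) : ℤ) - (m j : ℕ) = ((m₀ i : ℕ) : ℤ) - (m₀ j : ℕ))).image Y).card : ℝ) ≤ CΓ) →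
      ∃ m' ∈ M, ∃ m'' ∈ M, ∃ s : ℕ, 0 < s ∧ (∀ i, (m' i : ℕ) = m'' i + s) ∧ Y m' = Y m'' ∧
        Path M (2 * (k + 1)) m'' m')
    {g : Fin (k + 1) → ℤ}
    (hg : δ₁ * (J : ℝ) ^ (k + 1) ≤ ((Finset.univ.filter (fun m : Fin (k + 1) → Fin J => Tm a b m g ∈ BZ)).card : ℝ)) :
    ∃ (m' m'' : Fin (k + 1) → Fin J) (s : ℕ) (ω : ℤ) (l : Fin (k + 1) → ZMod p),
      s < J ∧ |ω| ≤ (a : ℤ) ^ J ∧ Tm a b m' g ∈ BZ ∧
      (∀ i, l i ∈ (2 * (k + 1)) • LL a b J (A i) ((Icc (-(E0 : ℤ)) E0).image (fun t : ℤ => (t : ZMod p))) g) ∧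
      ξ (red p (Tm a b m' g)) = ∑ i, kap p k a b m' s * l i - cst p k a b m' m'' s ω := by
  classical
  have hpR : (0 : ℝ) < p := by exact_mod_cast (Fact.out : p.Prime).pos
  have hNR : (0 : ℝ) < N := by exact_mod_cast hN1
  have ha1 : 1 ≤ a := by omega
  set M : Finset (Fin (k + 1) → Fin J) := Finset.univ.filter (fun m => Tm a b m g ∈ BZ) with hM
  have hMmem : ∀ m ∈ M, Tm a b m g ∈ BZ := fun m hm => by
    rw [hM, Finset.mem_filter] at hm; exact hm.2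
  have hF1 : ∀ x, |(FF f N : ZMod p → ℝ) x| ≤ 1 := FF_abs hf N
  have hF2 : ∑ x, |(FF f N : ZMod p → ℝ) x| ≤ (N : ℝ) := sum_FF_abs hf (by nlinarith)
  have hBo2 : 2 ≤ Bo := by nlinarith
  -- the frequencies are small
  have hsm : ∀ m ∈ M, |(((ξ (red p (Tm a b m g))).valMinAbs : ℤ) : ℝ)| ≤ τ * p := by
    intro m hm
    obtain ⟨h1, h2⟩ := hBZ _ (hMmem m hm)
    exact small_j hf hBo2 hc hN1 hβ1 hp hτ h1 _ (hB _ h2)
  set Y : (Fin (k + 1) → Fin J) → ℤ := fun m =>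
    (b : ℤ) ^ (J - (m 0 : ℕ)) * (ξ (red p (Tm a b m g))).valMinAbs / (a : ℤ) ^ (J - (m 0 : ℕ)) with hY
  obtain ⟨m', hm', m'', hm'', s, hs0, hs, hYY, hpath⟩ := hdiag M hg ℤ Y (by
    intro m₀ hm₀
    set cls := M.filter (fun m => ∀ i j, ((m i : ℕ) : ℤ) - (m j : ℕ) = ((m₀ i : ℕ) : ℤ) - (m₀ j : ℕ)) with hcls
    set xp : Fin (k + 1) → ℤ := fun i => (TT a b)^[J - (m₀ 0 : ℕ)] (Tm a b m₀ g i) with hxp
    have hxpm : ∀ m ∈ cls, (fun i => (TT a b)^[J - (m 0 : ℕ)] (Tm a b m g i)) = xp := by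
      intro m hm
      rw [hcls, Finset.mem_filter] at hm
      funext i
      rw [hxp]
      simp only [Tm]
      rw [← Function.iterate_add_apply, ← Function.iterate_add_apply]
      congr 1
      have h1 := hm.2 i 0
      have h2 := (m 0).2
      have h3 := (m₀ 0).2
      have h4 : J - (m 0 : ℕ) + (m i : ℕ) = J - (m₀ 0 : ℕ) + (m₀ i : ℕ) := by omega
      rw [h4]
    set Γ : Finset (ZMod p) := Finset.univ.filter (fun j => c / 2 * N ≤
      ‖ft (fun y => ((PD Finset.univ (red p xp) (FF f N) y : ℝ) : ℂ)) j‖) with hΓ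
    have hΓc : (Γ.card : ℝ) ≤ CΓ := (card_Gx hF1 hF2 (red p xp) (by positivity) Γ
      (fun j hj => by rw [hΓ, Finset.mem_filter] at hj; exact hj.2)).trans hCΓ
    refine le_trans ?_ hΓc
    have h5 : (cls.image Y).card ≤ Γ.card := by
      apply Finset.card_le_card_of_injOn (fun y : ℤ => (y : ZMod p))
      · intro y hy
        rw [Finset.mem_coe, Finset.mem_image] at hy
        obtain ⟨m, hm, rfl⟩ := hy
        have hmM : m ∈ M := (Finset.mem_filter.1 (hcls ▸ hm)).1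
        obtain ⟨h1, h2⟩ := hBZ _ (hMmem m hmM)
        rw [Finset.mem_coe, hΓ, Finset.mem_filter]
        refine ⟨Finset.mem_univ _, ?_⟩
        have h6 := hB _ h2
        have ej : ξ (red p (Tm a b m g)) = (((ξ (red p (Tm a b m g))).valMinAbs : ℤ) : ZMod p) :=
          (ZMod.coe_valMinAbs _).symm
        rw [ej] at h6
        have h7 := dscale hf hb hab.le hBo hβa hβb hp hJ2 hJN herr h1 (hsm m hmM) h6
          (e := J - (m 0 : ℕ)) (Nat.sub_le _ _)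
        have h8 := hxpm m hm
        have h9 : (fun i => (((TT a b)^[J - (m 0 : ℕ)] (Tm a b m g i) : ℤ) : ZMod p)) = red p xp := by
          rw [← h8]; rfl
        rw [h9] at h7
        exact h7
      · -- injectivity
        have hsmY : ∀ y ∈ cls.image Y, |y| * 2 < (p : ℤ) := by
          intro y hy
          rw [Finset.mem_image] at hy
          obtain ⟨m, hm, rfl⟩ := hy
          have hmM : m ∈ M := (Finset.mem_filter.1 (hcls ▸ hm)).1
          have h6 := hsm m hmM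
          set j : ℤ := (ξ (red p (Tm a b m g))).valMinAbs with hj
          set e := J - (m 0 : ℕ)
          have haZ : (0 : ℤ) < (a : ℤ) ^ e := by
            have : (0 : ℤ) < a := by exact_mod_cast ha1
            positivity
          have hbe : (b : ℤ) ^ e ≤ (a : ℤ) ^ e := by
            have : (b : ℤ) ≤ a := by exact_mod_cast hab.le
            exact pow_le_pow_left₀ (by positivity) this e
          have hbe0 : (0 : ℤ) ≤ (b : ℤ) ^ e := by positivity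
          have h10 : |Y m| ≤ |j| := by
            simp only [hY]
            rw [abs_le]
            constructor
            · rw [Int.le_ediv_iff_mul_le haZ]
              have := neg_abs_le j
              nlinarith [abs_nonneg j]
            · have h11 : (b : ℤ) ^ e * j ≤ (a : ℤ) ^ e * |j| := by
                have := le_abs_self j
                nlinarith [abs_nonneg j]
              calc (b : ℤ) ^ e * j / (a : ℤ) ^ e ≤ (a : ℤ) ^ e * |j| / (a : ℤ) ^ e :=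
                    Int.ediv_le_ediv haZ h11
                _ = |j| := Int.mul_ediv_cancel_left _ haZ.ne'
          have h12 : (|j| : ℝ) * 4 < p := by
            have : τ * p * 4 < p := by nlinarith
            linarith
          have h13 : |j| * 4 < (p : ℤ) := by exact_mod_cast h12
          have := abs_nonneg j
          omega
        intro y hy y' hy' hyy
        have h1 := vma (p := p) (hsmY y hy)
        have h2 := vma (p := p) (hsmY y' hy')
        simp only at hyy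
        rw [← h1, ← h2, hyy]
    exact_mod_cast h5)
  have hsJ : s < J := by
    have h1 := hs 0
    have h2 := (m' 0).2
    omega
  set j' : ℤ := (ξ (red p (Tm a b m' g))).valMinAbs with hj'
  set j'' : ℤ := (ξ (red p (Tm a b m'' g))).valMinAbs with hj''
  have hfl : |(a : ℤ) ^ s * j' - (b : ℤ) ^ s * j''| ≤ (a : ℤ) ^ (J - (m' 0 : ℕ) + s) := by
    apply floorY hb ha1
    have h1 : J - (m' 0 : ℕ) + s = J - (m'' 0 : ℕ) := by
      have h1 := hs 0
      have h2 := (m' 0).2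
      omega
    rw [h1]
    exact hYY
  obtain ⟨l, hl, hl2⟩ := one_orbit (M := M) (by
      intro h0
      have h1 : ((a : ℕ) : ZMod p) = 0 := h0
      rw [ZMod.natCast_eq_zero_iff] at h1
      have h2 := Nat.le_of_dvd (by omega) h1
      have h3 : a ≤ a ^ ((k + 1 + 1) * J) := Nat.le_self_pow (by
        have : 0 < (k + 1 + 1) * J := Nat.mul_pos (by omega) (by omega)
        omega) a
      omega) (by
      intro h0
      have h1 : ((b : ℕ) : ZMod p) = 0 := h0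
      rw [ZMod.natCast_eq_zero_iff] at h1
      have h2 := Nat.le_of_dvd (by omega) h1
      have h3 : a ≤ a ^ ((k + 1 + 1) * J) := Nat.le_self_pow (by
        have : 0 < (k + 1 + 1) * J := Nat.mul_pos (by omega) (by omega)
        omega) a
      omega) A hAi hAB hfloor (fun m hm => (hBZ _ (hMmem m hm)).2) hs
    (ω := (a : ℤ) ^ s * j' - (b : ℤ) ^ s * j'') (by
      push_cast
      rw [hj', hj'', ZMod.coe_valMinAbs, ZMod.coe_valMinAbs]) hpath (by
      intro h0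
      have h1 : ((a ^ ((k + 1 + 1) * s) : ℕ) : ZMod p) = ((b ^ ((k + 1 + 1) * s) : ℕ) : ZMod p) := by
        push_cast; exact h0
      rw [ZMod.natCast_eq_natCast_iff'] at h1
      have h2 : a ^ ((k + 1 + 1) * s) < p := lt_of_le_of_lt
        (Nat.pow_le_pow_right ha1 (Nat.mul_le_mul_left _ hsJ.le)) hpa
      have h3 : b ^ ((k + 1 + 1) * s) < a ^ ((k + 1 + 1) * s) :=
        Nat.pow_lt_pow_left hab (Nat.mul_ne_zero (by omega) (by omega))
      rw [Nat.mod_eq_of_lt h2, Nat.mod_eq_of_lt (h3.trans h2)] at h1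
      omega)
  refine ⟨m', m'', s, (a : ℤ) ^ s * j' - (b : ℤ) ^ s * j'', l, hsJ, ?_, hMmem m' hm', hl, ?_⟩
  · refine hfl.trans ?_
    have : (1 : ℤ) ≤ a := by exact_mod_cast ha1
    refine pow_le_pow_right₀ this ?_
    have h1 := hs 0
    omega
  · rw [hl2]
    rfl

end Pool.Agent.J4H80.QU
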