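import Pool.Agent.J4H80.QU.K5

set_option autoImplicit false

/-! Pigeonhole over the orbits: the frequency is a sum of functions which do not depend on one
of the coordinates, on a dense set. -/

namespace Pool.Agent.J4H80.QU

open Finset Pointwise

variable {k p : ℕ}

/-- an enumeration of a finite set -/
noncomputable def en (S : Finset (ZMod p)) (t : ℕ) : ZMod p := S.toList.getD t 0

theorem exists_en {S : Finset (ZMod p)} {s : ZMod p} (hs : s ∈ S) {R : ℕ} (hR : S.card ≤ R) :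
    ∃ t < R, en S t = s := by
  have h1 : s ∈ S.toList := Finset.mem_toList.2 hs
  obtain ⟨t, ht, hts⟩ := List.getElem_of_mem h1
  refine ⟨t, ?_, ?_⟩
  · rw [Finset.length_toList] at ht
    omega
  · unfold en
    rw [List.getD_eq_getElem _ _ ht, hts]

theorem TT_inj {a b : ℕ} (hb : 1 ≤ b) (hab : b ≤ a) : Function.Injective (TT a b) := by
  intro x y h
  unfold TT at h
  exact floor_inj (u := (a : ℤ)) (v := (b : ℤ)) (by exact_mod_cast hb) (by exact_mod_cast hab) h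

theorem split_set [Fact p.Prime] {N a b J R : ℕ} (hb : 1 ≤ b) (hab : b ≤ a)
    (hJ2 : (a : ℝ) ^ J ≤ 2 * (b : ℝ) ^ J) (hJN : 2 * J ≤ N) (hp : 6 * N < p)
    (A : Fin (k + 1) → (Fin (k + 1) → ZMod p) → Finset (ZMod p × ZMod p))
    (hAi : ∀ i x t, A i (Function.update x i t) = A i x) (ξ : (Fin (k + 1) → ZMod p) → ZMod p)
    (E : Finset (ZMod p)) {BZ : Finset (Fin (k + 1) → ℤ)} {B : Finset (Fin (k + 1) → ZMod p)}
    (hBZ : ∀ x ∈ BZ, red p x ∈ B) {GG : Finset (Fin (k + 1) → ℤ)}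
    (hGN : ∀ g ∈ GG, ∀ i, |g i| ≤ (N : ℤ)) (hne : GG.Nonempty)
    (hG : ∀ g ∈ GG, ∃ (m' m'' : Fin (k + 1) → Fin J) (s : ℕ) (ω : ℤ) (l : Fin (k + 1) → ZMod p),
      s < J ∧ |ω| ≤ (a : ℤ) ^ J ∧ Tm a b m' g ∈ BZ ∧
      (∀ i, l i ∈ (2 * (k + 1)) • LL a b J (A i) E g) ∧
      ξ (red p (Tm a b m' g)) = ∑ i, kap p k a b m' s * l i - cst p k a b m' m'' s ω)
    (hR : ∀ i g, ((2 * (k + 1)) • LL a b J (A i) E g).card ≤ R) :
    ∃ (S : Finset (Fin (k + 1) → ZMod p)) (ψ : Fin (k + 1) → (Fin (k + 1) → ZMod p) → ZMod p),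
      (∀ j h t, ψ j (Function.update h j t) = ψ j h) ∧ S ⊆ B ∧ (∀ x ∈ S, ξ x = ∑ j, ψ j x) ∧
      (GG.card : ℝ) ≤ ((J : ℝ) ^ (k + 1) * (J ^ (k + 1) * (J * ((2 * a ^ J + 1) * R ^ (k + 1))))) * S.card := by
  classical
  obtain ⟨g0, hg0⟩ := hne
  obtain ⟨m0, -⟩ := hG g0 hg0
  have : Nonempty (Fin (k + 1) → Fin J) := ⟨m0⟩
  choose! m' m'' s ω l hG1 using hG
  have ht : ∀ g ∈ GG, ∀ i, ∃ t < R, en ((2 * (k + 1)) • LL a b J (A i) E g) t = l g i := fun g hg i =>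
    exists_en ((hG1 g hg).2.2.2.1 i) (hR i g)
  choose! t ht1 using ht
  set W : Finset ((Fin (k + 1) → Fin J) × (Fin (k + 1) → Fin J) × ℕ × ℤ × (Fin (k + 1) → ℕ)) :=
    Finset.univ ×ˢ (Finset.univ ×ˢ (range J ×ˢ (Icc (-(a : ℤ) ^ J) ((a : ℤ) ^ J) ×ˢ
      Fintype.piFinset (fun _ : Fin (k + 1) => range R)))) with hW
  have hWc : (W.card : ℝ) = (J : ℝ) ^ (k + 1) * (J ^ (k + 1) * (J * ((2 * a ^ J + 1) * R ^ (k + 1)))) := by
    rw [hW, Finset.card_product, Finset.card_product, Finset.card_product, Finset.card_product,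
      Fintype.card_piFinset, Finset.card_univ, Fintype.card_fun, Fintype.card_fin, Fintype.card_fin,
      Finset.card_range, Int.card_Icc]
    have h1 : ((a : ℤ) ^ J + 1 - -(a : ℤ) ^ J).toNat = 2 * a ^ J + 1 := by
      have : (a : ℤ) ^ J + 1 - -(a : ℤ) ^ J = ((2 * a ^ J + 1 : ℕ) : ℤ) := by push_cast; ring
      rw [this, Int.toNat_natCast]
    rw [h1]
    simp only [Finset.card_range, Finset.prod_const, Finset.card_univ, Fintype.card_fin]
    push_cast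
    ring
  obtain ⟨w, -, hw⟩ := pigeon GG (fun g => (m' g, m'' g, s g, ω g, t g)) W (by
    intro g hg
    rw [hW]
    simp only [Finset.mem_product, Finset.mem_univ, true_and, Finset.mem_range, Finset.mem_Icc,
      Fintype.mem_piFinset]
    refine ⟨(hG1 g hg).1, ?_, fun i => (ht1 g hg i).1⟩
    exact abs_le.1 (hG1 g hg).2.1) ⟨g0, hg0⟩
  obtain ⟨M', M'', S0, Ω, T⟩ := w
  set G' : Finset (Fin (k + 1) → ℤ) := GG.filter (fun g => (m' g, m'' g, s g, ω g, t g) = (M', M'', S0, Ω, T)) with hG'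
  have hG'mem : ∀ g ∈ G', g ∈ GG ∧ m' g = M' ∧ m'' g = M'' ∧ s g = S0 ∧ ω g = Ω ∧ t g = T := by
    intro g hg
    rw [hG', Finset.mem_filter] at hg
    simp only [Prod.mk.injEq] at hg
    exact hg
  -- injectivity
  have hinj1 : ∀ (n : ℕ), n ≤ J → ∀ x y : ℤ, |x| ≤ (N : ℤ) → |y| ≤ (N : ℤ) →
      (((TT a b)^[n] x : ℤ) : ZMod p) = (((TT a b)^[n] y : ℤ) : ZMod p) → x = y := by
    intro n hn x y hx hy h
    have h1 := iter_abs3 hb hab hJ2 hJN hx hn
    have h2 := iter_abs3 hb hab hJ2 hJN hy hn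
    have h3 := vma (p := p) (a := (TT a b)^[n] x) (by omega)
    have h4 := vma (p := p) (a := (TT a b)^[n] y) (by omega)
    have h5 : (TT a b)^[n] x = (TT a b)^[n] y := by rw [← h3, ← h4, h]
    exact (TT_inj hb hab).iterate n h5
  set gi : Fin (k + 1) → ZMod p → ℤ := fun i z =>
    if h : ∃ x : ℤ, |x| ≤ (N : ℤ) ∧ (((TT a b)^[(M' i : ℕ)] x : ℤ) : ZMod p) = z then h.choose else 0 with hgi
  have hgi1 : ∀ g ∈ GG, ∀ i, gi i (red p (Tm a b M' g) i) = g i := by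
    intro g hg i
    have hex : ∃ x : ℤ, |x| ≤ (N : ℤ) ∧ (((TT a b)^[(M' i : ℕ)] x : ℤ) : ZMod p) = red p (Tm a b M' g) i :=
      ⟨g i, hGN g hg i, rfl⟩
    simp only [hgi]
    rw [dif_pos hex]
    have h1 := hex.choose_spec
    exact hinj1 _ (M' i).2.le _ _ h1.1 (hGN g hg i) h1.2
  refine ⟨G'.image (fun g => red p (Tm a b M' g)),
    fun j x => kap p k a b M' S0 * en ((2 * (k + 1)) • LL a b J (A j) E (fun i => gi i (x i))) (T j) -
      (if j = 0 then cst p k a b M' M'' S0 Ω else 0), ?_, ?_, ?_, ?_⟩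
  · intro j x z
    have h1 : (fun i => gi i (Function.update x j z i)) = Function.update (fun i => gi i (x i)) j (gi j z) := by
      funext i
      by_cases h : i = j
      · subst h; simp
      · simp [Function.update_of_ne h]
    simp only [h1]
    rw [LL_update (hAi j)]
  · intro x hx
    rw [Finset.mem_image] at hx
    obtain ⟨g, hg, rfl⟩ := hx
    obtain ⟨h1, h2, -⟩ := hG'mem g hg
    apply hBZ
    rw [← h2]
    exact (hG1 g h1).2.2.1
  · intro x hx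
    rw [Finset.mem_image] at hx
    obtain ⟨g, hg, rfl⟩ := hx
    obtain ⟨h1, h2, h3, h4, h5, h6⟩ := hG'mem g hg
    have h7 := (hG1 g h1).2.2.2.2
    rw [h2, h3, h4, h5] at h7
    rw [h7, Finset.sum_sub_distrib, Finset.sum_ite_eq' Finset.univ (0 : Fin (k + 1)), if_pos (Finset.mem_univ _)]
    congr 1
    refine Finset.sum_congr rfl fun j _ => ?_
    have h8 : (fun i => gi i (red p (Tm a b M' g) i)) = g := funext fun i => hgi1 g h1 i
    rw [h8, ← h6, (ht1 g h1 j).2]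
  · rw [hWc] at hw
    have h9 : (G'.image (fun g => red p (Tm a b M' g))).card = G'.card := by
      apply Finset.card_image_of_injOn
      intro g hg g' hg' h
      have h1 := (hG'mem g hg).1
      have h2 := (hG'mem g' hg').1
      funext i
      rw [← hgi1 g h1 i, ← hgi1 g' h2 i]
      simp only at h
      rw [h]
    rw [h9]
    exact hw

/-- the lower bound for the Gowers norm of lower order -/
theorem split_lower (hsplit : S_SPLIT) [Fact p.Prime] {F : ZMod p → ℝ} (hF : ∀ x, |F x| ≤ 1) {L : ℝ} (hL : 0 ≤ L)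
    {B S : Finset (Fin (k + 1) → ZMod p)} {ξ : (Fin (k + 1) → ZMod p) → ZMod p}
    (hB : ∀ x ∈ B, L ≤ ‖ft (fun y => ((PD Finset.univ x F y : ℝ) : ℂ)) (ξ x)‖)
    {ψ : Fin (k + 1) → (Fin (k + 1) → ZMod p) → ZMod p} (hψ : ∀ j h t, ψ j (Function.update h j t) = ψ j h)
    (hSB : S ⊆ B) (hS : ∀ x ∈ S, ξ x = ∑ j, ψ j x) :
    (S.card * L ^ 2) ^ (2 ^ (k + 1)) ≤ (p : ℝ) ^ ((k + 3) * 2 ^ (k + 1) - (k + 3)) * UG (k + 2) F := by
  refine le_trans ?_ (hsplit p k F hF ψ hψ)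
  refine pow_le_pow_left₀ (by positivity) ?_ _
  calc (S.card : ℝ) * L ^ 2 = ∑ x ∈ S, L ^ 2 := by rw [Finset.sum_const, nsmul_eq_mul]
    _ ≤ ∑ x ∈ S, ‖ft (fun y => ((PD Finset.univ x F y : ℝ) : ℂ)) (∑ j, ψ j x)‖ ^ 2 := by
        refine Finset.sum_le_sum fun x hx => ?_
        rw [← hS x hx]
        exact pow_le_pow_left₀ hL (hB x (hSB hx)) 2
    _ ≤ _ := Finset.sum_le_sum_of_subset_of_nonneg (Finset.subset_univ _) fun _ _ _ => by positivity

end Pool.Agent.J4H80.QU
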