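import Pool.Agent.J4H80.QU.K6

set_option autoImplicit false

/-! The induction step: from the Gowers norm of order `k + 2` to the order `k + 3`. -/

namespace Pool.Agent.J4H80.QU

open Finset Pointwise

theorem ratio_le {a b κ : ℝ} {J : ℕ} (hb : 0 < b) (hab : b ≤ a) (h : a ^ J ≤ (1 + κ) * b ^ J) :
    J * ((a - b) / b) ≤ κ := by
  have h1 : (1 : ℝ) + J * ((a - b) / b) ≤ (1 + (a - b) / b) ^ J :=
    one_add_mul_le_pow (by
      have : 0 ≤ (a - b) / b := div_nonneg (by linarith) hb.le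
      linarith) J
  have h2 : 1 + (a - b) / b = a / b := by field_simp; ring
  rw [h2, div_pow] at h1
  have h3 : a ^ J / b ^ J ≤ 1 + κ := by
    rw [div_le_iff₀ (by positivity)]
    exact h
  linarith

theorem num_err {k a b Bo N J : ℕ} {η τ c p κ : ℝ} (hp : 0 < p) (hc : 0 < c) (hN : 0 < (N : ℝ))
    (h1 : η * (32 * J * a * 2 ^ (k + 1 + 2)) ≤ c)
    (h1' : 32 * J * a * (2 ^ (k + 1 + 2) * (2 * Bo) + 2 + 2 ^ (k + 1)) ≤ c * N)
    (h2 : 16 * (J * (14 * τ * a)) ≤ c) (h3 : J * (((a : ℝ) - b) / b) ≤ κ) (h3' : 16 * (2 ^ (k + 1) * κ) ≤ c)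
    (h4 : 28 * N ≤ c * p) :
    J * E1 (k + 1) a b Bo N (η * N) τ + 7 * N ^ 2 / p ≤ c / 2 * N := by
  unfold E1
  have g1 : J * (a * (2 ^ (k + 1 + 2) * (η * N + 2 * Bo) + 2 + 2 ^ (k + 1))) ≤ c / 32 * N + c / 32 * N := by
    have e1 : (J : ℝ) * (a * (2 ^ (k + 1 + 2) * (η * N + 2 * Bo) + 2 + 2 ^ (k + 1))) =
        (η * (32 * J * a * 2 ^ (k + 1 + 2))) * (N / 32) +
        (32 * J * a * (2 ^ (k + 1 + 2) * (2 * Bo) + 2 + 2 ^ (k + 1))) / 32 := by ring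
    rw [e1]
    have := mul_le_mul_of_nonneg_right h1 (by positivity : 0 ≤ (N : ℝ) / 32)
    linarith
  have g2 : J * (14 * τ * a * N) ≤ c / 16 * N := by
    have := mul_le_mul_of_nonneg_right h2 (by positivity : 0 ≤ (N : ℝ) / 16)
    linarith
  have g3 : J * (2 ^ (k + 1) * N * (((a : ℝ) - b) / b)) ≤ c / 16 * N := by
    have e1 : (J : ℝ) * (2 ^ (k + 1) * N * (((a : ℝ) - b) / b)) =
        (J * (((a : ℝ) - b) / b)) * (2 ^ (k + 1) * N) := by ring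
    rw [e1]
    have h5 := mul_le_mul_of_nonneg_right h3 (by positivity : (0 : ℝ) ≤ 2 ^ (k + 1) * N)
    have h6 := mul_le_mul_of_nonneg_right h3' (by positivity : 0 ≤ (N : ℝ) / 16)
    linarith
  have g4 : 7 * (N : ℝ) ^ 2 / p ≤ c / 4 * N := by
    rw [div_le_iff₀ hp]
    have := mul_le_mul_of_nonneg_right h4 (by positivity : 0 ≤ (N : ℝ) / 4)
    nlinarith
  have e2 : (J : ℝ) * (a * (2 ^ (k + 1 + 2) * (η * N + 2 * Bo) + 2 + 2 ^ (k + 1)) + 14 * τ * a * N +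
      2 ^ (k + 1) * N * (((a : ℝ) - b) / b)) = J * (a * (2 ^ (k + 1 + 2) * (η * N + 2 * Bo) + 2 + 2 ^ (k + 1))) +
      J * (14 * τ * a * N) + J * (2 ^ (k + 1) * N * (((a : ℝ) - b) / b)) := by ring
  rw [e2]
  have : c / 32 * N + c / 32 * N + c / 16 * N + c / 16 * N + c / 4 * N ≤ c / 2 * N := by
    have : 0 < c * N := by positivity
    nlinarith
  linarith

theorem num_final {k : ℕ} {Λ N q P Ug ε' S c : ℝ} (hΛ : 0 < Λ) (hN : 0 < N) (hq : 0 < q) (hc : 0 < c)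
    (hP : P ≤ 2 * Λ * N) (hP0 : 0 ≤ P)
    (hS : q * N ^ (k + 1) ≤ S)
    (h : (S * (c * N) ^ 2) ^ (2 ^ (k + 1)) ≤ P ^ ((k + 3) * 2 ^ (k + 1) - (k + 3)) * Ug)
    (hU : Ug ≤ ε' * N ^ (k + 3)) (hU0 : 0 ≤ Ug)
    (hε' : ε' * (2 * (2 * Λ) ^ ((k + 3) * 2 ^ (k + 1) - (k + 3))) = (q * c ^ 2) ^ (2 ^ (k + 1))) : False := by
  set e := (k + 3) * 2 ^ (k + 1) - (k + 3) with he
  have hle : k + 3 ≤ (k + 3) * 2 ^ (k + 1) := Nat.le_mul_of_pos_right _ (by positivity)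
  have h1 : (q * c ^ 2) ^ (2 ^ (k + 1)) * N ^ ((k + 3) * 2 ^ (k + 1)) ≤ (S * (c * N) ^ 2) ^ (2 ^ (k + 1)) := by
    have e1 : (q * c ^ 2) ^ (2 ^ (k + 1)) * N ^ ((k + 3) * 2 ^ (k + 1)) =
        ((q * N ^ (k + 1)) * (c * N) ^ 2) ^ (2 ^ (k + 1)) := by
      rw [pow_mul, ← mul_pow]
      congr 1
      ring
    rw [e1]
    refine pow_le_pow_left₀ (by positivity) ?_ _
    exact mul_le_mul_of_nonneg_right hS (by positivity)
  have h2 : P ^ e * Ug ≤ (2 * Λ * N) ^ e * (ε' * N ^ (k + 3)) :=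
    mul_le_mul (pow_le_pow_left₀ hP0 hP e) hU hU0 (by positivity)
  have h3 : (2 * Λ * N) ^ e * (ε' * N ^ (k + 3)) =
      (q * c ^ 2) ^ (2 ^ (k + 1)) * N ^ ((k + 3) * 2 ^ (k + 1)) / 2 := by
    rw [← hε', mul_pow]
    have e2 : (k + 3) * 2 ^ (k + 1) = e + (k + 3) := by omega
    rw [e2, pow_add]
    ring
  have h4 : 0 < (q * c ^ 2) ^ (2 ^ (k + 1)) * N ^ ((k + 3) * 2 ^ (k + 1)) := by positivity
  linarith

/-- **the induction step** -/
theorem step (hsplit : S_SPLIT) (hdiag : S_DIAG) (href : S_REFINE) (hfloor : S_FLOOR) (hgood : S_GOODG)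
    (k : ℕ) {ε : ℝ} (hε : 0 < ε) : ∃ (U Bo N₀ : ℕ) (η ε' : ℝ), 0 < η ∧ 0 < ε' ∧
    ∀ N : ℕ, N₀ ≤ N → ∀ f : ℤ → ℝ, (∀ x, |f x| ≤ 1) →
      (∀ x y : ℕ, 2 ^ x * 3 ^ y ≤ U →
        ((bad f (N / (2 ^ x * 3 ^ y)) (2 ^ x * 3 ^ y) Bo).card : ℝ) ≤ η * N) →
      UGZ N (k + 2) (cut f N) ≤ ε' * N ^ (k + 3) → UGZ N (k + 3) (cut f N) ≤ ε * N ^ (k + 4) := by
  classical
  set c : ℝ := √(ε / (2 * 3 ^ (k + 1))) with hcdef
  have hc : 0 < c := Real.sqrt_pos.2 (by positivity)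
  have hcε : c ^ 2 * (2 * 3 ^ (k + 1)) = ε := by
    rw [hcdef, Real.sq_sqrt (by positivity)]; field_simp
  set Λ : ℕ := ⌈28 / c⌉₊ + (2 * (3 * (k + 1) + 1) + 6) with hΛ
  have hΛc : 28 / c ≤ Λ := by
    rw [hΛ]; push_cast
    have := Nat.le_ceil (28 / c)
    have : (0 : ℝ) ≤ 2 * (3 * (k + 1) + 1) + 6 := by positivity
    linarith
  have hΛ1 : 2 * (3 * (k + 1) + 1) + 6 ≤ Λ := by omega
  have hΛ0 : (0 : ℝ) < Λ := by
    have : 0 < Λ := by omega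
    exact_mod_cast this
  obtain ⟨δ', C, hδ', hC1, href'⟩ := href (k + 1) c (ε / 2) (2 * Λ) (by omega) hc (by positivity) (by positivity)
  set CΓ : ℝ := 8 * Λ / c ^ 2 with hCΓ
  set δ₁ : ℝ := δ' / (4 * 3 ^ (k + 1)) with hδ₁
  have hδ₁0 : 0 < δ₁ := by positivity
  obtain ⟨J₀, hJ₀⟩ := hdiag (k + 1) δ₁ CΓ (by omega) hδ₁0
  set J : ℕ := J₀ + 1 with hJ
  have hJ1 : 1 ≤ J := by omega
  have hJR : (1 : ℝ) ≤ J := by exact_mod_cast hJ1
  have hdiagJ := hJ₀ J (by omega)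
  obtain ⟨κ₁, hκ₁0, hκ₁1, hgood'⟩ := hgood (k + 1) J δ' (by omega) hJ1 hδ'
  set κ : ℝ := min κ₁ (c / (16 * 2 ^ (k + 1))) with hκ
  have hκ0 : 0 < κ := lt_min hκ₁0 (by positivity)
  have hκκ₁ : κ ≤ κ₁ := min_le_left _ _
  have hκc : 16 * (2 ^ (k + 1) * κ) ≤ c := by
    have : κ ≤ c / (16 * 2 ^ (k + 1)) := min_le_right _ _
    rw [le_div_iff₀ (by positivity)] at this
    linarith
  set δn : ℝ := (1 + κ) ^ ((J : ℝ)⁻¹) - 1 with hδn
  have hδnJ : (1 + δn) ^ J = 1 + κ := by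
    rw [hδn, add_sub_cancel, Real.rpow_inv_natCast_pow (by positivity) (by omega)]
  have hδn0 : 0 < δn := by
    rw [hδn, sub_pos]
    exact Real.one_lt_rpow (by linarith) (by positivity)
  obtain ⟨x, y, x', y', hba, hab⟩ := near_one hδn0
  set a : ℕ := 2 ^ x * 3 ^ y with ha
  set b : ℕ := 2 ^ x' * 3 ^ y' with hb
  have hb1 : 1 ≤ b := Nat.one_le_iff_ne_zero.2 (by rw [hb]; positivity)
  have ha1 : 1 ≤ a := hb1.trans hba.le
  have hbR : (1 : ℝ) ≤ b := by exact_mod_cast hb1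
  have haR : (1 : ℝ) ≤ a := by exact_mod_cast ha1
  have habR : (b : ℝ) ≤ a := by exact_mod_cast hba.le
  have habJ : (a : ℝ) ^ J ≤ (1 + κ) * (b : ℝ) ^ J := by
    have h1 : (a : ℝ) ^ J ≤ ((1 + δn) * b) ^ J := pow_le_pow_left₀ (by positivity) hab J
    rwa [mul_pow, hδnJ] at h1
  have habJ1 : (a : ℝ) ^ J ≤ (1 + κ₁) * (b : ℝ) ^ J := by
    refine habJ.trans (mul_le_mul_of_nonneg_right (by linarith) (by positivity))
  have hJ2 : (a : ℝ) ^ J ≤ 2 * (b : ℝ) ^ J := by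
    refine habJ1.trans (mul_le_mul_of_nonneg_right (by linarith) (by positivity))
  obtain ⟨N₁, hN₁⟩ := hgood' a b hb1 hba habJ1
  obtain ⟨E0, hE0⟩ := hfloor a b J hb1
  set R₁ : ℝ := 1 + (J : ℝ) ^ (k + 1) * ((J + 1) * (2 * ((2 * E0 + 1) * C ^ (2 * a ^ J + 1)))) with hR₁
  set R : ℕ := ⌈R₁⌉₊ ^ (2 * (k + 1)) with hR
  have hR₁0 : 0 < R₁ := by positivity
  have hR0 : (0 : ℝ) < R := by
    rw [hR]
    have : 0 < ⌈R₁⌉₊ := Nat.ceil_pos.2 hR₁0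
    positivity
  set Q : ℝ := (J : ℝ) ^ (k + 1) * (J ^ (k + 1) * (J * ((2 * a ^ J + 1) * R ^ (k + 1)))) with hQ
  have hQ0 : 0 < Q := by positivity
  set Bo : ℕ := (k + 1 + 1) * a + 2 with hBo
  set τ : ℝ := min (c / (16 * (J * (14 * a)))) (1 / 8) with hτ
  have hτ0 : 0 < τ := lt_min (by positivity) (by norm_num)
  have hτ8 : τ ≤ 1 / 8 := min_le_right _ _
  have hτc : 16 * (J * (14 * τ * a)) ≤ c := by
    have : τ ≤ c / (16 * (J * (14 * a))) := min_le_left _ _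
    rw [le_div_iff₀ (by positivity)] at this
    linarith
  set η : ℝ := min (c / (32 * J * a * 2 ^ (k + 1 + 2))) (2 * τ * c / 2 ^ (k + 1 + 1)) with hη
  have hη0 : 0 < η := lt_min (by positivity) (by positivity)
  have hη1 : η * (32 * J * a * 2 ^ (k + 1 + 2)) ≤ c := by
    have : η ≤ c / (32 * J * a * 2 ^ (k + 1 + 2)) := min_le_left _ _
    rwa [le_div_iff₀ (by positivity)] at this
  have hη2 : η * 2 ^ (k + 1 + 1) ≤ 2 * τ * c := by
    have : η ≤ 2 * τ * c / 2 ^ (k + 1 + 1) := min_le_right _ _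
    rwa [le_div_iff₀ (by positivity)] at this
  set q : ℝ := δ' / (4 * Q) with hq
  have hq0 : 0 < q := by positivity
  set ε' : ℝ := (q * c ^ 2) ^ (2 ^ (k + 1)) / (2 * (2 * Λ) ^ ((k + 3) * 2 ^ (k + 1) - (k + 3))) with hε'
  have hε'0 : 0 < ε' := by positivity
  have hε'1 : ε' * (2 * (2 * (Λ : ℝ)) ^ ((k + 3) * 2 ^ (k + 1) - (k + 3))) = (q * c ^ 2) ^ (2 ^ (k + 1)) := by
    rw [hε']; field_simp
  refine ⟨a, Bo, N₁ + 2 * J + a ^ ((k + 1 + 1) * J) + 1 +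
    ⌈32 * J * a * (2 ^ (k + 1 + 2) * (2 * Bo) + 2 + 2 ^ (k + 1)) / c⌉₊ +
    ⌈(2 ^ (k + 1 + 1) * (2 * Bo) + 1) / (2 * τ * c)⌉₊, η, ε', hη0, hε'0, ?_⟩
  intro N hN f hf hinv hU
  by_contra hcon
  push Not at hcon
  have hN1 : 1 ≤ N := by omega
  have hNR : (1 : ℝ) ≤ N := by exact_mod_cast hN1
  have hN0 : (0 : ℝ) < N := by linarith
  have hNa : 32 * J * a * (2 ^ (k + 1 + 2) * (2 * Bo) + 2 + 2 ^ (k + 1)) ≤ c * N := by
    have h1 := Nat.le_ceil (32 * (J : ℝ) * a * (2 ^ (k + 1 + 2) * (2 * Bo) + 2 + 2 ^ (k + 1)) / c)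
    have h2 : ⌈32 * (J : ℝ) * a * (2 ^ (k + 1 + 2) * (2 * Bo) + 2 + 2 ^ (k + 1)) / c⌉₊ ≤ N := by omega
    have h3 : ((⌈32 * (J : ℝ) * a * (2 ^ (k + 1 + 2) * (2 * Bo) + 2 + 2 ^ (k + 1)) / c⌉₊ : ℕ) : ℝ) ≤ N :=
      Nat.cast_le.2 h2
    have h4 := h1.trans h3
    rw [div_le_iff₀ hc] at h4
    linarith
  have hNb : (2 : ℝ) ^ (k + 1 + 1) * (2 * Bo) + 1 ≤ 2 * τ * c * N := by
    have h1 := Nat.le_ceil (((2 : ℝ) ^ (k + 1 + 1) * (2 * Bo) + 1) / (2 * τ * c))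
    have h2 : ⌈((2 : ℝ) ^ (k + 1 + 1) * (2 * Bo) + 1) / (2 * τ * c)⌉₊ ≤ N := by omega
    have h3 : ((⌈((2 : ℝ) ^ (k + 1 + 1) * (2 * Bo) + 1) / (2 * τ * c)⌉₊ : ℕ) : ℝ) ≤ N := Nat.cast_le.2 h2
    have h4 := h1.trans h3
    rw [div_le_iff₀ (by positivity)] at h4
    linarith
  -- the prime
  obtain ⟨p, hpp, hp1, hp2⟩ := Nat.exists_prime_lt_and_le_two_mul (Λ * N) (Nat.mul_ne_zero (by omega) (by omega))
  have : Fact p.Prime := ⟨hpp⟩
  have hpR : (0 : ℝ) < p := by exact_mod_cast hpp.pos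
  have hp1R : (Λ : ℝ) * N < p := by exact_mod_cast hp1
  have hp2R : (p : ℝ) ≤ 2 * Λ * N := by
    have : (p : ℝ) ≤ ((2 * (Λ * N) : ℕ) : ℝ) := by exact_mod_cast hp2
    push_cast at this
    linarith
  have hpk : 2 * ((3 * (k + 1) + 1) * N) < p := by
    refine lt_of_le_of_lt ?_ hp1
    calc 2 * ((3 * (k + 1) + 1) * N) = (2 * (3 * (k + 1) + 1)) * N := by ring
      _ ≤ Λ * N := Nat.mul_le_mul_right _ (by omega)
  have hp6 : 6 * N < p := lt_of_le_of_lt (Nat.mul_le_mul_right N (by omega)) hp1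
  have h28 : 28 * (N : ℝ) ≤ c * p := by
    have h1 : 28 ≤ c * Λ := by rw [div_le_iff₀ hc] at hΛc; linarith
    calc 28 * (N : ℝ) ≤ (c * Λ) * N := mul_le_mul_of_nonneg_right h1 hN0.le
      _ = c * (Λ * N) := by ring
      _ ≤ c * p := mul_le_mul_of_nonneg_left hp1R.le hc.le
  set F : ZMod p → ℝ := FF f N with hF
  have hF1 : ∀ x, |F x| ≤ 1 := FF_abs hf N
  have hF2 : ∑ x, |F x| ≤ (N : ℝ) := sum_FF_abs hf (by omega)
  have hlink : ∀ j, UG j F = UGZ N j (cut f N) := fun j => by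
    rw [hF, ← emb_cut]
    exact UG_link hp6 j _ (cut_supp f N)
  -- extraction
  obtain ⟨B, ξ, hBN, hBc, hBcard⟩ := extract (k := k + 1) (p := p) hf hN1 (by omega) hε hc hcε
    (by rw [← hF, hlink]; exact hcon.le)
  -- refinement
  obtain ⟨B', hB'B, hB'card, hstruct⟩ := href' p N hN1 hp2R F hF1 hF2 ξ B hBN hBc hBcard
  choose A hAi hAB hAC using hstruct
  -- the integer points
  set BZ : Finset (Fin (k + 1) → ℤ) := B'.image (fun x i => (x i).valMinAbs) with hBZ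
  have hBZ1 : ∀ z ∈ BZ, (∀ i, |z i| ≤ (N : ℤ)) ∧ red p z ∈ B' := by
    intro z hz
    rw [hBZ, Finset.mem_image] at hz
    obtain ⟨x, hx, rfl⟩ := hz
    refine ⟨fun i => hBN x (hB'B hx) i, ?_⟩
    have : red p (fun i => (x i).valMinAbs) = x := by
      funext i
      unfold red
      exact ZMod.coe_valMinAbs _
    rw [this]
    exact hx
  have hBZcard : BZ.card = B'.card := by
    apply Finset.card_image_of_injective
    intro x x' h
    funext i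
    exact ZMod.injective_valMinAbs (congrFun h i)
  have hgN := hN₁ N (by omega) BZ (fun z hz => (hBZ1 z hz).1) (by rw [hBZcard]; exact hB'card)
  set GG : Finset (Fin (k + 1) → ℤ) := ((Fintype.piFinset (fun _ : Fin (k + 1) => Finset.Icc (-(N : ℤ)) N)).filter
    (fun g => δ' / (4 * 3 ^ (k + 1)) * (J : ℝ) ^ (k + 1) ≤ ((Finset.univ.filter (fun m : Fin (k + 1) → Fin J =>
      (fun i => (TT a b)^[(m i : ℕ)] (g i)) ∈ BZ)).card : ℝ))) with hGG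
  have hGGR : (0 : ℝ) < GG.card := lt_of_lt_of_le (by positivity) hgN
  have hGG0 : GG.Nonempty := by
    rw [← Finset.card_pos]
    exact_mod_cast hGGR
  -- the scaling errors
  have hinv1 := hinv 0 0 (by simpa using ha1)
  rw [pow_zero, pow_zero, mul_one, Nat.div_one] at hinv1
  have hinva := hinv x y le_rfl
  have hinvb := hinv x' y' hba.le
  rw [← ha] at hinva
  rw [← hb] at hinvb
  have herr := num_err (k := k) (a := a) (b := b) (Bo := Bo) (N := N) (J := J) (η := η) (τ := τ) (c := c)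
    (p := p) (κ := κ) hpR hc hN0 hη1 hNa hτc (ratio_le (by linarith) habR habJ) hκc h28
  have hsmall : (2 : ℝ) ^ (k + 1 + 1) * (η * N + 2 * Bo) + 1 ≤ 4 * τ * (c * N) := by
    have h1 := mul_le_mul_of_nonneg_right hη2 hN0.le
    linarith
  have hΓ : (p : ℝ) * N / (c / 2 * N) ^ 2 ≤ CΓ := by
    rw [hCΓ, div_le_div_iff₀ (by positivity) (by positivity)]
    calc (p : ℝ) * N * c ^ 2 ≤ (2 * Λ * N) * N * c ^ 2 := by gcongr
      _ = 8 * Λ * (c / 2 * N) ^ 2 := by ring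
  have hpa : a ^ ((k + 1 + 1) * J) < p := by
    have h1 : a ^ ((k + 1 + 1) * J) < N := by omega
    omega
  -- the orbits
  have horb : ∀ g ∈ GG, ∃ (m' m'' : Fin (k + 1) → Fin J) (s : ℕ) (ω : ℤ) (l : Fin (k + 1) → ZMod p),
      s < J ∧ |ω| ≤ (a : ℤ) ^ J ∧ Tm a b m' g ∈ BZ ∧
      (∀ i, l i ∈ (2 * (k + 1)) • LL a b J (A i) ((Icc (-(E0 : ℤ)) E0).image (fun t : ℤ => (t : ZMod p))) g) ∧
      ξ (red p (Tm a b m' g)) = ∑ i, kap p k a b m' s * l i - cst p k a b m' m'' s ω := by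
    intro g hg
    rw [hGG, Finset.mem_filter] at hg
    exact good_orbit hf hN1 hb1 hba (by omega) hc (by linarith) hinva hinvb hinv1 hsmall hpk hJ2 (by omega)
      herr hΓ hpa (fun x hx => hBc x (hB'B hx)) A hAi hAB hE0 hBZ1 hdiagJ hg.2
  have hLLR : ∀ i g, ((2 * (k + 1)) • LL a b J (A i) ((Icc (-(E0 : ℤ)) E0).image (fun t : ℤ => (t : ZMod p))) g).card ≤ R := by
    intro i g
    refine Finset.card_nsmul_le.trans ?_
    rw [hR]
    refine Nat.pow_le_pow_left ?_ _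
    have h1 := card_LL (p := p) (k := k + 1) (J := J) hba.le ha1 hC1 (hAC i)
      ((Icc (-(E0 : ℤ)) E0).image (fun t : ℤ => (t : ZMod p))) g
    have h2 : (((Icc (-(E0 : ℤ)) E0).image (fun t : ℤ => (t : ZMod p))).card : ℝ) ≤ 2 * E0 + 1 := by
      have h3 : ((Icc (-(E0 : ℤ)) E0).image (fun t : ℤ => (t : ZMod p))).card ≤ 2 * E0 + 1 := by
        refine Finset.card_image_le.trans ?_
        rw [Int.card_Icc]
        omega
      exact_mod_cast h3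
    have h4 : ((LL a b J (A i) ((Icc (-(E0 : ℤ)) E0).image (fun t : ℤ => (t : ZMod p))) g).card : ℝ) ≤ R₁ := by
      refine h1.trans ?_
      rw [hR₁]
      gcongr
    have h5 := h4.trans (Nat.le_ceil R₁)
    exact_mod_cast h5
  obtain ⟨S, ψ, hψ, hSB, hSψ, hScard⟩ := split_set (p := p) (N := N) (R := R) hb1 hba.le hJ2 (by omega) hp6 A hAi ξ
    ((Icc (-(E0 : ℤ)) E0).image (fun t : ℤ => (t : ZMod p))) (fun z hz => (hBZ1 z hz).2) (GG := GG)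
    (fun g hg i => by
      rw [hGG, Finset.mem_filter, Fintype.mem_piFinset] at hg
      have := hg.1 i
      rw [Finset.mem_Icc] at this
      exact abs_le.2 this) hGG0 horb hLLR
  have hfin := split_lower hsplit (p := p) hF1 (L := c * N) (by positivity) (fun x hx => hBc x (hB'B hx)) hψ hSB hSψ
  refine num_final (k := k) (Λ := Λ) (N := N) (q := q) (P := p) (Ug := UG (k + 2) F) (ε' := ε') (S := S.card) (c := c)
    hΛ0 hN0 hq0 hc hp2R hpR.le ?_ hfin ?_ (UG_nonneg (k + 1) F) hε'1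
  · have h1 : δ' / 4 * (N : ℝ) ^ (k + 1) ≤ Q * S.card := hgN.trans hScard
    rw [hq, div_mul_eq_mul_div, div_le_iff₀ (by positivity)]
    linarith
  · rw [hlink]
    exact hU

end Pool.Agent.J4H80.QU
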