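import Pool.Agent.J4H80.QU.K7
import Pool.Agent.J4H8.QU.Box
import Pool.Agent.J4H79.QU.Diag
import Pool.Agent.J4H79.QU.Goodg
import Pool.Agent.J4H79.QU.Refine

set_option autoImplicit false

/-! All Gowers norms. -/

namespace Pool.Agent.J4H80.QU

open Finset Pool.Agent.J4H8.QU

/-- the norm of order two -/
theorem U2_le {f : ℤ → ℝ} (hf : ∀ x, |f x| ≤ 1) {N : ℕ} {η : ℝ} 
    (h : ∀ α : ℝ, ‖∑ n ∈ Icc (1 : ℤ) N, (f n : ℂ) * e (-(α * n))‖ ≤ η * N) :
    UGZ N 2 (cut f N) ≤ (η * N) ^ 2 * N := by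
  have : NeZero (6 * N + 1) := ⟨by omega⟩
  rw [← UG_link (p := 6 * N + 1) (by omega) 2 _ (cut_supp f N), emb_cut]
  refine UG_two_le (FF_abs hf N) (sum_FF_abs hf (by omega)) fun j => ?_
  have ej : j = ((j.valMinAbs : ℤ) : ZMod (6 * N + 1)) := (ZMod.coe_valMinAbs _).symm
  rw [ej, ft_FF f (by omega)]
  exact h _

/-- **All Gowers norms are small** if the Fourier coefficients are small and the function is almost
invariant under `n ↦ w n + b` for the integers `w = 2 ^ x 3 ^ y`. -/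
theorem allU (k : ℕ) : ∀ {ε : ℝ}, 0 < ε → ∃ (U Bo N₀ : ℕ) (η : ℝ), 0 < η ∧
    ∀ N : ℕ, N₀ ≤ N → ∀ f : ℤ → ℝ, (∀ x, |f x| ≤ 1) →
      (∀ x y : ℕ, 2 ^ x * 3 ^ y ≤ U →
        ((bad f (N / (2 ^ x * 3 ^ y)) (2 ^ x * 3 ^ y) Bo).card : ℝ) ≤ η * N) →
      (∀ α : ℝ, ‖∑ n ∈ Icc (1 : ℤ) N, (f n : ℂ) * e (-(α * n))‖ ≤ η * N) →
      UGZ N (k + 2) (cut f N) ≤ ε * N ^ (k + 3) := by
  induction k with
  | zero =>
    intro ε hε
    refine ⟨0, 0, 0, min ε 1, lt_min hε one_pos, ?_⟩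
    intro N _ f hf _ h
    refine (U2_le hf h).trans ?_
    have h1 : (min ε 1) ^ 2 ≤ ε := by
      rw [sq]
      calc min ε 1 * min ε 1 ≤ ε * 1 := mul_le_mul (min_le_left _ _) (min_le_right _ _)
            (le_min hε.le zero_le_one) hε.le
        _ = ε := mul_one _
    calc (min ε 1 * (N : ℝ)) ^ 2 * N = (min ε 1) ^ 2 * N ^ 3 := by ring
      _ ≤ ε * N ^ 3 := mul_le_mul_of_nonneg_right h1 (by positivity)
      _ = _ := by norm_num
  | succ k ih =>
    intro ε hε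
    obtain ⟨U1, B1, N1, η1, ε', hη1, hε', H1⟩ := step t_SPLIT t_DIAG t_REFINE t_FLOOR t_GOODG k hε
    obtain ⟨U2, B2, N2, η2, hη2, H2⟩ := ih hε'
    refine ⟨max U1 U2, max B1 B2, max N1 N2, min η1 η2, lt_min hη1 hη2, ?_⟩
    intro N hN f hf hinv hfour
    have hN0 : (0 : ℝ) ≤ N := Nat.cast_nonneg _
    have m1 : min η1 η2 * (N : ℝ) ≤ η1 * N := mul_le_mul_of_nonneg_right (min_le_left _ _) hN0
    have m2 : min η1 η2 * (N : ℝ) ≤ η2 * N := mul_le_mul_of_nonneg_right (min_le_right _ _) hN0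
    refine H1 N ((le_max_left _ _).trans hN) f hf (fun x y hxy => ?_) ?_
    · refine le_trans ?_ ((hinv x y (hxy.trans (le_max_left _ _))).trans m1)
      exact_mod_cast Finset.card_le_card (bad_mono f _ _ (le_max_left _ _))
    · refine H2 N ((le_max_right _ _).trans hN) f hf (fun x y hxy => ?_) (fun α => (hfour α).trans m2)
      refine le_trans ?_ ((hinv x y (hxy.trans (le_max_right _ _))).trans m2)
      exact_mod_cast Finset.card_le_card (bad_mono f _ _ (le_max_right _ _))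

end Pool.Agent.J4H80.QU
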