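import Pool.Agent.J4H80.QU.K8
import Pool.Agent.Results.MP_d02c56_nt.SparseCoalescence
import Pool.Agent.Results.MP_d02c56_nt.FourierUniformity

set_option autoImplicit false

/-! Application to the functions that are invariant under the Collatz map. -/

namespace Pool.Agent.J4H80.QU

open Filter Topology

/-- The Collatz map on the integers. -/
def C (x : ℤ) : ℤ := if x % 2 = 0 then x / 2 else 3 * x + 1

/-- a bounded function that is invariant under the Collatz map -/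
def InvF (F : ℤ → ℝ) : Prop := (∀ x, |F x| ≤ 1) ∧ ∀ x, F (C x) = F x

/-- the mean value of `F` over the integers of sign `s` -/
def MeanF (s : ℤ) (F : ℤ → ℝ) (μ : ℝ) : Prop :=
  Tendsto (fun N : ℕ => (∑ n ∈ Finset.Icc 1 N, F (s * n)) / N) atTop (𝓝 μ)

section SC

open Pool.Agent.Results.MP_d02c56_nt.SparseCoalescence

theorem spread_s {s : ℤ} (hs : s = 1 ∨ s = -1) : Spread (fun n => s * (n : ℤ)) := by
  have hid := result.1.1
  rcases hs with rfl | rfl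
  · simpa using hid
  · have h := result.1.2.2.1 _ hid (-Polynomial.X) (by rw [Polynomial.natDegree_neg, Polynomial.natDegree_X])
    have e : (fun n : ℕ => (-Polynomial.X : Polynomial ℤ).eval (n : ℤ)) = fun n : ℕ => -1 * (n : ℤ) := by
      funext n
      simp
    rw [e] at h
    exact h

theorem W_tendsto : Tendsto W atTop atTop := by
  have h1 : Tendsto (fun x : ℝ => Real.exp x / x ^ 17) atTop atTop :=
    Real.tendsto_exp_div_pow_atTop 17
  have h2 : Tendsto (fun n : ℕ => Real.log (Real.log n) / 2) atTop atTop :=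
    ((Real.tendsto_log_atTop.comp Real.tendsto_log_atTop).comp tendsto_natCast_atTop_atTop).atTop_div_const (by norm_num)
  have h3 := h1.comp h2
  have h4 : Tendsto (fun n : ℕ => (1 / 2 ^ 17 : ℝ) * (Real.exp (Real.log (Real.log n) / 2) /
      (Real.log (Real.log n) / 2) ^ 17)) atTop atTop :=
    Tendsto.const_mul_atTop (by positivity) h3
  refine h4.congr' ?_
  have h5 : Tendsto (fun n : ℕ => Real.log (n : ℝ)) atTop atTop :=
    Real.tendsto_log_atTop.comp tendsto_natCast_atTop_atTop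
  filter_upwards [h5.eventually (eventually_gt_atTop 1)] with n hn
  have h6 : Real.exp (Real.log (Real.log n) / 2) = √ (Real.log n) := by
    rw [Real.sqrt_eq_rpow, Real.rpow_def_of_pos (by linarith)]
    congr 1
    ring
  have h7 : Real.log (Real.log n) ≠ 0 := (Real.log_pos hn).ne'
  unfold W
  rw [h6]
  field_simp

theorem C_eq : C = Pool.Agent.Results.MP_d02c56_nt.SparseCoalescence.C := rfl

/-- almost all `n` are good for the affine maps `n ↦ 2 ^ x 3 ^ y n + b` -/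
theorem almost_good {s : ℤ} (hs : s = 1 ∨ s = -1) (x y B : ℕ) {η : ℝ} (hη : 0 < η) : ∃ N₀ : ℕ, ∀ N : ℕ, N₀ ≤ N →
    (({n : ℕ | 1 ≤ n ∧ n ≤ N ∧ ¬ ∀ S : Set ℤ, (∀ y, y ∈ S ↔ C y ∈ S) → ∀ b : ℕ, b < B →
      (s * ((2 ^ x * 3 ^ y : ℕ) * (n : ℤ) + b) ∈ S ↔ s * (n : ℤ) ∈ S)} : Set ℕ).ncard : ℝ) ≤ η * N := by
  have h1 := (result.2.1 _ (spread_s hs) 1 one_pos).2.2
  -- bounds for the iterates
  obtain ⟨K, hK⟩ : ∃ K : ℝ, ∀ b : ℕ, b < B → |((T^[x] (s * b) : ℤ) : ℝ)| ≤ K := by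
    refine ⟨∑ b ∈ Finset.range B, |((T^[x] (s * b) : ℤ) : ℝ)|, fun b hb => ?_⟩
    exact Finset.single_le_sum (f := fun b : ℕ => |((T^[x] (s * b) : ℤ) : ℝ)|) (fun _ _ => abs_nonneg _)
      (Finset.mem_range.2 hb)
  obtain ⟨N1, hN1⟩ := Filter.eventually_atTop.1 (W_tendsto.eventually (eventually_ge_atTop (max K ((y : ℝ) + x))))
  unfold AlmostAll at h1
  have h2 := h1.eventually (gt_mem_nhds (show (0 : ℝ) < η / 2 by positivity))
  obtain ⟨N2, hN2⟩ := Filter.eventually_atTop.1 h2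
  refine ⟨N2 + ⌈2 * (N1 : ℝ) / η⌉₊ + 1, fun N hN => ?_⟩
  have hN0 : (0 : ℝ) < N := by exact_mod_cast (by omega : 0 < N)
  have h3 := hN2 N (by omega)
  rw [div_lt_iff₀ hN0] at h3
  have hsub : ({n : ℕ | 1 ≤ n ∧ n ≤ N ∧ ¬ ∀ S : Set ℤ, (∀ y, y ∈ S ↔ C y ∈ S) → ∀ b : ℕ, b < B →
      (s * ((2 ^ x * 3 ^ y : ℕ) * (n : ℤ) + b) ∈ S ↔ s * (n : ℤ) ∈ S)} : Set ℕ) ⊆
      ({n : ℕ | 1 ≤ n ∧ n ≤ N ∧ ¬ ∀ S : Set ℤ, (∀ y, y ∈ S ↔ Pool.Agent.Results.MP_d02c56_nt.SparseCoalescence.C y ∈ S) →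
        ∀ (k i : ℕ) (b : ℤ), (i : ℝ) + odds b k ≤ W n → |((T^[k] b : ℤ) : ℝ)| ≤ Real.exp (W n) →
        (2 ^ k * 3 ^ i * (s * (n : ℤ)) + b ∈ S ↔ s * (n : ℤ) ∈ S)} : Set ℕ) ∪ (Finset.range N1 : Set ℕ) := by
    rintro n ⟨hn1, hn2, hn3⟩
    rw [Set.mem_union]
    rcases lt_or_ge n N1 with h | h
    · right
      rw [Finset.mem_coe, Finset.mem_range]
      exact h
    · left
      refine ⟨hn1, hn2, fun hall => hn3 ?_⟩
      intro S hS b hb
      have hW := hN1 n h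
      have h4 := hall S hS x y (s * b) (by
        have h5 : (odds (s * b) x : ℝ) ≤ x := by
          have : odds (s * b) x ≤ x := by
            unfold odds
            exact (Finset.card_filter_le _ _).trans (by rw [Finset.card_range])
          exact_mod_cast this
        have := (le_max_right K ((y : ℝ) + x)).trans hW
        linarith) (by
        refine (hK b hb).trans (((le_max_left K ((y : ℝ) + x)).trans hW).trans ?_)
        have := Real.add_one_le_exp (W n)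
        linarith)
      have e : s * ((2 ^ x * 3 ^ y : ℕ) * (n : ℤ) + b) = 2 ^ x * 3 ^ y * (s * (n : ℤ)) + s * b := by
        push_cast; ring
      rw [e]
      exact h4
  have hfin : ({n : ℕ | 1 ≤ n ∧ n ≤ N ∧ ¬ ∀ S : Set ℤ, (∀ y, y ∈ S ↔ Pool.Agent.Results.MP_d02c56_nt.SparseCoalescence.C y ∈ S) →
        ∀ (k i : ℕ) (b : ℤ), (i : ℝ) + odds b k ≤ W n → |((T^[k] b : ℤ) : ℝ)| ≤ Real.exp (W n) →
        (2 ^ k * 3 ^ i * (s * (n : ℤ)) + b ∈ S ↔ s * (n : ℤ) ∈ S)} : Set ℕ).Finite :=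
    (Set.finite_Icc 1 N).subset fun n hn => ⟨hn.1, hn.2.1⟩
  have h6 := (Set.ncard_le_ncard hsub (hfin.union (Finset.finite_toSet _))).trans (Set.ncard_union_le _ _)
  rw [Set.ncard_coe_finset, Finset.card_range] at h6
  have h7 : (N1 : ℝ) ≤ η / 2 * N := by
    have a1 := Nat.le_ceil (2 * (N1 : ℝ) / η)
    have a2 : ⌈2 * (N1 : ℝ) / η⌉₊ ≤ N := by omega
    have a3 : ((⌈2 * (N1 : ℝ) / η⌉₊ : ℕ) : ℝ) ≤ N := Nat.cast_le.2 a2
    have a4 := a1.trans a3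
    rw [div_le_iff₀ hη] at a4
    linarith
  have h8 : (({n : ℕ | 1 ≤ n ∧ n ≤ N ∧ ¬ ∀ S : Set ℤ, (∀ y, y ∈ S ↔ C y ∈ S) → ∀ b : ℕ, b < B →
      (s * ((2 ^ x * 3 ^ y : ℕ) * (n : ℤ) + b) ∈ S ↔ s * (n : ℤ) ∈ S)} : Set ℕ).ncard : ℝ) ≤
      (({n : ℕ | 1 ≤ n ∧ n ≤ N ∧ ¬ ∀ S : Set ℤ, (∀ y, y ∈ S ↔ Pool.Agent.Results.MP_d02c56_nt.SparseCoalescence.C y ∈ S) →
        ∀ (k i : ℕ) (b : ℤ), (i : ℝ) + odds b k ≤ W n → |((T^[k] b : ℤ) : ℝ)| ≤ Real.exp (W n) →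
        (2 ^ k * 3 ^ i * (s * (n : ℤ)) + b ∈ S ↔ s * (n : ℤ) ∈ S)} : Set ℕ).ncard : ℝ) + N1 := by
    exact_mod_cast h6
  linarith

/-- the exceptional sets are small, for all invariant functions -/
theorem bad_small {s : ℤ} (hs : s = 1 ∨ s = -1) (x y B : ℕ) {η : ℝ} (hη : 0 < η) : ∃ N₀ : ℕ, ∀ N : ℕ, N₀ ≤ N →
    ∀ F : ℤ → ℝ, InvF F → ∀ μ c : ℝ, ((bad (fun n => c * (F (s * n) - μ)) (N / (2 ^ x * 3 ^ y)) (2 ^ x * 3 ^ y) B).card : ℝ) ≤ η * N := by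
  obtain ⟨N₀, h⟩ := almost_good hs x y B hη
  refine ⟨N₀, fun N hN F hF μ c => ?_⟩
  refine le_trans ?_ (h N hN)
  have hfin : ({n : ℕ | 1 ≤ n ∧ n ≤ N ∧ ¬ ∀ S : Set ℤ, (∀ y, y ∈ S ↔ C y ∈ S) → ∀ b : ℕ, b < B →
      (s * ((2 ^ x * 3 ^ y : ℕ) * (n : ℤ) + b) ∈ S ↔ s * (n : ℤ) ∈ S)} : Set ℕ).Finite :=
    (Set.finite_Icc 1 N).subset fun n hn => ⟨hn.1, hn.2.1⟩
  rw [← Set.ncard_coe_finset]
  have h1 := Set.ncard_le_ncard_of_injOn (s := (bad (fun n => c * (F (s * n) - μ)) (N / (2 ^ x * 3 ^ y)) (2 ^ x * 3 ^ y) B : Set ℤ))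
    (fun m : ℤ => m.toNat) (fun m hm => by
      rw [Finset.mem_coe, mem_bad] at hm
      obtain ⟨⟨h1, h2⟩, b, hb, hne⟩ := hm
      rw [Finset.mem_range] at hb
      have h3 : ((m.toNat : ℕ) : ℤ) = m := Int.toNat_of_nonneg (by omega)
      refine ⟨by omega, ?_, ?_⟩
      · have h4 : N / (2 ^ x * 3 ^ y) ≤ N := Nat.div_le_self _ _
        omega
      · intro hall
        apply hne
        have h5 := hall {z | F z = F (s * m)} (fun z => by
          simp only [Set.mem_ofPred_eq]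
          rw [hF.2]) b hb
        rw [h3] at h5
        have h6 := h5.2 rfl
        simp only [Set.mem_ofPred_eq] at h6
        rw [h6]) (fun m hm m' hm' hmm => by
      rw [Finset.mem_coe, mem_bad] at hm hm'
      have h3 : ((m.toNat : ℕ) : ℤ) = m := Int.toNat_of_nonneg (by omega)
      have h4 : ((m'.toNat : ℕ) : ℤ) = m' := Int.toNat_of_nonneg (by omega)
      simp only at hmm
      rw [← h3, ← h4, hmm]) hfin
  exact_mod_cast h1

end SC

end Pool.Agent.J4H80.QU
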