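import Pool.Agent.J4H80.QU.L1

set_option autoImplicit false

/-! Fourier uniformity of invariant functions. -/

namespace Pool.Agent.J4H80.QU

open Filter Topology

section FU

open Pool.Agent.Results.MP_d02c56_nt.FourierUniformity (Invariant HasDensity)

theorem e_eq (x : ℝ) : Pool.Agent.Results.MP_d02c56_nt.FourierUniformity.e x = e x := rfl

theorem sum_cast {M : Type*} [AddCommMonoid M] (N : ℕ) (Φ : ℤ → M) :
    ∑ n ∈ Finset.Icc (1 : ℤ) N, Φ n = ∑ n ∈ Finset.Icc 1 N, Φ ((n : ℕ) : ℤ) := by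
  have h : Finset.Icc (1 : ℤ) N = (Finset.Icc 1 N).image (fun n : ℕ => (n : ℤ)) := by
    ext z
    rw [Finset.mem_Icc, Finset.mem_image]
    constructor
    · rintro ⟨h1, h2⟩
      exact ⟨z.toNat, by rw [Finset.mem_Icc]; omega, by omega⟩
    · rintro ⟨n, hn, rfl⟩
      rw [Finset.mem_Icc] at hn
      omega
  rw [h, Finset.sum_image]
  intro a _ b _ hab
  simp only at hab
  exact_mod_cast hab

theorem dens_ex {s : ℤ} (hs : s = 1 ∨ s = -1) {S : Set ℤ} (hS : Invariant S) : ∃ δ : ℝ, HasDensity s S δ := by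
  obtain ⟨N₀, h⟩ := (Pool.Agent.Results.MP_d02c56_nt.FourierUniformity.result.1 s hs).2.1 1 one_pos
  obtain ⟨δ, h1, -⟩ := h S hS
  exact ⟨δ, h1⟩

theorem set_fourier {s : ℤ} (hs : s = 1 ∨ s = -1) {ε : ℝ} (hε : 0 < ε) : ∃ N₀ : ℕ, ∀ S : Set ℤ, Invariant S →
    ∀ δ : ℝ, HasDensity s S δ → ∀ N : ℕ, N₀ ≤ N → ∀ α : ℝ,
      ‖∑ n ∈ Finset.Icc (1 : ℤ) N, ((S.indicator (fun _ => (1 : ℝ)) (s * n) - δ : ℝ) : ℂ) * e (-(α * n))‖ ≤ ε * N := by
  obtain ⟨N₀, h⟩ := (Pool.Agent.Results.MP_d02c56_nt.FourierUniformity.result.1 s hs).2.1 ε hε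
  refine ⟨N₀, fun S hS δ hδ N hN α => ?_⟩
  obtain ⟨δ', h1, h2⟩ := h S hS
  have h3 : δ' = δ := tendsto_nhds_unique h1 hδ
  subst h3
  have h4 := h2 N hN (-α)
  rw [sum_cast]
  refine le_trans (le_of_eq ?_) h4
  congr 1
  refine Finset.sum_congr rfl fun n _ => ?_
  rw [e_eq]
  congr 2
  push_cast
  ring

/-- the level sets -/
def lay (m : ℕ) (F : ℤ → ℝ) (j : ℕ) : Set ℤ := {x | -1 + 2 * (j : ℝ) / m < F x}

theorem lay_inv {F : ℤ → ℝ} (hF : InvF F) (m j : ℕ) : Invariant (lay m F j) := by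
  intro x
  show -1 + 2 * (j : ℝ) / m < F x ↔ -1 + 2 * (j : ℝ) / m < F (C x)
  rw [hF.2]

theorem lay_approx {F : ℤ → ℝ} (hF : ∀ x, |F x| ≤ 1) {m : ℕ} (hm : 0 < m) (x : ℤ) :
    |F x - (2 / m * ∑ j ∈ Finset.range m, (lay m F j).indicator (fun _ => (1 : ℝ)) x - 1)| ≤ 2 / m := by
  classical
  have hmR : (0 : ℝ) < m := by exact_mod_cast hm
  have h1 := abs_le.1 (hF x)
  set y : ℝ := m * (F x + 1) / 2 with hy
  have hy0 : 0 ≤ y := by
    rw [hy]; exact div_nonneg (mul_nonneg hmR.le (by linarith)) (by norm_num)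
  have hym : y ≤ m := by
    rw [hy, div_le_iff₀ (by norm_num)]
    nlinarith
  have h2 : ∑ j ∈ Finset.range m, (lay m F j).indicator (fun _ => (1 : ℝ)) x = ⌈y⌉₊ := by
    have e1 : ∀ j ∈ Finset.range m, (lay m F j).indicator (fun _ => (1 : ℝ)) x = if j ∈ Finset.range ⌈y⌉₊ then 1 else 0 := by
      intro j _
      rw [Set.indicator_apply]
      have : x ∈ lay m F j ↔ j ∈ Finset.range ⌈y⌉₊ := by
        rw [Finset.mem_range, Nat.lt_ceil, hy]
        show -1 + 2 * (j : ℝ) / m < F x ↔ _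
        rw [lt_div_iff₀ (by norm_num), ← lt_sub_iff_add_lt', div_lt_iff₀ hmR]
        constructor <;> intro h <;> nlinarith
      by_cases h : x ∈ lay m F j
      · rw [if_pos h, if_pos (this.1 h)]
      · rw [if_neg h, if_neg (fun h' => h (this.2 h'))]
    rw [Finset.sum_congr rfl e1, Finset.sum_ite_mem, Finset.sum_const, nsmul_eq_mul, mul_one]
    congr 1
    have h3 : ⌈y⌉₊ ≤ m := Nat.ceil_le.2 hym
    rw [Finset.inter_eq_right.2 (Finset.range_subset_range.2 h3), Finset.card_range]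
  rw [h2]
  have h3 := Nat.le_ceil y
  have h4 := Nat.ceil_lt_add_one hy0
  have h5 : F x = 2 / m * y - 1 := by rw [hy]; field_simp; ring
  rw [h5]
  have h6 : (2 : ℝ) / m * y - 1 - (2 / m * ⌈y⌉₊ - 1) = -(2 / m * (⌈y⌉₊ - y)) := by ring
  rw [h6, abs_neg, abs_mul, abs_of_pos (by positivity : (0 : ℝ) < 2 / m), abs_of_nonneg (by linarith)]
  exact mul_le_of_le_one_right (by positivity) (by linarith)

theorem dens_mean {s : ℤ} (hs : s = 1 ∨ s = -1) {S : Set ℤ} (hS : Invariant S) {δ : ℝ} (hδ : HasDensity s S δ) :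
    MeanF s (S.indicator (fun _ => (1 : ℝ))) δ := by
  unfold MeanF
  rw [Metric.tendsto_atTop]
  intro ε hε
  obtain ⟨N₀, h⟩ := set_fourier hs (ε := ε / 2) (by positivity)
  refine ⟨N₀ + 1, fun N hN => ?_⟩
  have hN0 : (0 : ℝ) < N := by exact_mod_cast (by omega : 0 < N)
  have h1 := h S hS δ hδ N (by omega) 0
  have h2 : ∑ n ∈ Finset.Icc (1 : ℤ) N, ((S.indicator (fun _ => (1 : ℝ)) (s * n) - δ : ℝ) : ℂ) * e (-(0 * n)) =
      ((∑ n ∈ Finset.Icc 1 N, S.indicator (fun _ => (1 : ℝ)) (s * (n : ℕ)) - δ * N : ℝ) : ℂ) := by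
    rw [sum_cast]
    have e0 : e (-(0 * (0 : ℝ))) = 1 := by unfold e; simp
    have e1 : ∀ n : ℕ, e (-(0 * (((n : ℕ) : ℤ) : ℝ))) = 1 := by intro n; unfold e; simp
    simp only [e1, mul_one]
    rw [← Complex.ofReal_sum, Finset.sum_sub_distrib, Finset.sum_const, Nat.card_Icc, nsmul_eq_mul]
    congr 2
    rw [Nat.add_sub_cancel]
    ring
  rw [h2, Complex.norm_real, Real.norm_eq_abs] at h1
  rw [Real.dist_eq]
  have e3 : (∑ n ∈ Finset.Icc 1 N, S.indicator (fun _ => (1 : ℝ)) (s * (n : ℕ))) / (N : ℝ) - δ =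
      (∑ n ∈ Finset.Icc 1 N, S.indicator (fun _ => (1 : ℝ)) (s * (n : ℕ)) - δ * N) / N := by
    field_simp
  rw [e3, abs_div, abs_of_pos hN0, div_lt_iff₀ hN0]
  nlinarith

/-- approximations of the mean value -/
theorem mean_approx {s : ℤ} (hs : s = 1 ∨ s = -1) {F : ℤ → ℝ} (hF : InvF F) {m : ℕ} (hm : 0 < m) :
    ∃ δ : ℕ → ℝ, (∀ j, HasDensity s (lay m F j) (δ j)) ∧
      ∀ᶠ N : ℕ in atTop, |(∑ n ∈ Finset.Icc 1 N, F (s * n)) / N - (2 / m * ∑ j ∈ Finset.range m, δ j - 1)| ≤ 3 / m := by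
  have hmR : (0 : ℝ) < m := by exact_mod_cast hm
  choose δ hδ using fun j => dens_ex hs (lay_inv hF m j)
  refine ⟨δ, hδ, ?_⟩
  have h1 : Tendsto (fun N : ℕ => 2 / m * ∑ j ∈ Finset.range m,
      (∑ n ∈ Finset.Icc 1 N, (lay m F j).indicator (fun _ => (1 : ℝ)) (s * n)) / N - 1) atTop
      (𝓝 (2 / m * ∑ j ∈ Finset.range m, δ j - 1)) := by
    refine Tendsto.sub_const (Tendsto.const_mul _ (tendsto_finsetSum _ fun j _ => ?_)) 1
    exact dens_mean hs (lay_inv hF m j) (hδ j)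
  have h2 := h1.eventually (Metric.ball_mem_nhds _ (show (0 : ℝ) < 1 / m by positivity))
  filter_upwards [h2, eventually_gt_atTop 0] with N hN hN0
  have hNR : (0 : ℝ) < N := by exact_mod_cast hN0
  rw [Real.dist_eq] at hN
  set X : ℝ := 2 / m * ∑ j ∈ Finset.range m,
      (∑ n ∈ Finset.Icc 1 N, (lay m F j).indicator (fun _ => (1 : ℝ)) (s * n)) / N - 1 with hX
  have h3 : |(∑ n ∈ Finset.Icc 1 N, F (s * n)) / N - X| ≤ 2 / m := by
    have e1 : (∑ n ∈ Finset.Icc 1 N, F (s * n)) / N - X = (∑ n ∈ Finset.Icc 1 N, (F (s * n) -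
        (2 / m * ∑ j ∈ Finset.range m, (lay m F j).indicator (fun _ => (1 : ℝ)) (s * n) - 1))) / N := by
      rw [hX, Finset.sum_sub_distrib, Finset.sum_sub_distrib, Finset.sum_const, Nat.card_Icc, nsmul_eq_mul,
        mul_one, Nat.add_sub_cancel, ← Finset.mul_sum, Finset.sum_comm, ← Finset.sum_div]
      field_simp
    rw [e1, abs_div, abs_of_pos hNR, div_le_iff₀ hNR]
    refine (Finset.abs_sum_le_sum_abs _ _).trans ((Finset.sum_le_sum fun (n : ℕ) _ => lay_approx hF.1 hm (s * (n : ℤ))).trans ?_)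
    rw [Finset.sum_const, Nat.card_Icc, nsmul_eq_mul, Nat.add_sub_cancel]
    exact le_of_eq (mul_comm _ _)
  have h4 : (3 : ℝ) / m = 2 / m + 1 / m := by ring
  rw [h4]
  calc |(∑ n ∈ Finset.Icc 1 N, F (s * n)) / N - (2 / m * ∑ j ∈ Finset.range m, δ j - 1)|
      = |((∑ n ∈ Finset.Icc 1 N, F (s * n)) / N - X) + (X - (2 / m * ∑ j ∈ Finset.range m, δ j - 1))| := by
        congr 1; ring
    _ ≤ _ := (abs_add_le _ _).trans (add_le_add h3 hN.le)

theorem mean_ex {s : ℤ} (hs : s = 1 ∨ s = -1) {F : ℤ → ℝ} (hF : InvF F) : ∃ μ : ℝ, MeanF s F μ := by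
  apply cauchySeq_tendsto_of_complete
  rw [Metric.cauchySeq_iff]
  intro ε hε
  obtain ⟨m, hm⟩ := exists_nat_gt (6 / ε)
  have hmR : (0 : ℝ) < m := lt_trans (by positivity) hm
  have hm0 : 0 < m := by exact_mod_cast hmR
  obtain ⟨δ, -, h⟩ := mean_approx hs hF hm0
  obtain ⟨N₀, hN₀⟩ := eventually_atTop.1 h
  refine ⟨N₀, fun N hN N' hN' => ?_⟩
  have h1 := hN₀ N hN
  have h2 := hN₀ N' hN'
  have h3 : (3 : ℝ) / m < ε / 2 := by
    rw [div_lt_iff₀ hmR]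
    rw [div_lt_iff₀ hε] at hm
    linarith
  rw [Real.dist_eq]
  have h4 := abs_le.1 h1
  have h5 := abs_le.1 h2
  rw [abs_lt]
  constructor <;> linarith

theorem mean_abs {s : ℤ} {F : ℤ → ℝ} (hF : ∀ x, |F x| ≤ 1) {μ : ℝ} (h : MeanF s F μ) : |μ| ≤ 1 := by
  refine le_of_tendsto h.abs ?_
  filter_upwards [eventually_gt_atTop 0] with N hN
  have hNR : (0 : ℝ) < N := by exact_mod_cast hN
  rw [abs_div, abs_of_pos hNR, div_le_iff₀ hNR, one_mul]
  refine (Finset.abs_sum_le_sum_abs _ _).trans ((Finset.sum_le_sum fun n _ => hF _).trans ?_)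
  rw [Finset.sum_const, Nat.card_Icc, nsmul_eq_mul, mul_one, Nat.add_sub_cancel]

/-- **Fourier uniformity of invariant functions** -/
theorem fourier_F {s : ℤ} (hs : s = 1 ∨ s = -1) {ε : ℝ} (hε : 0 < ε) : ∃ N₀ : ℕ, ∀ F : ℤ → ℝ, InvF F →
    ∀ μ : ℝ, MeanF s F μ → ∀ N : ℕ, N₀ ≤ N → ∀ α : ℝ,
      ‖∑ n ∈ Finset.Icc (1 : ℤ) N, ((F (s * n) - μ : ℝ) : ℂ) * e (-(α * n))‖ ≤ ε * N := by
  obtain ⟨m, hm⟩ := exists_nat_gt (12 / ε)
  have hmR : (0 : ℝ) < m := lt_trans (by positivity) hm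
  have hm0 : 0 < m := by exact_mod_cast hmR
  have hm1 : 5 / (m : ℝ) ≤ ε / 2 := by
    rw [div_le_iff₀ hmR]
    rw [div_lt_iff₀ hε] at hm
    linarith
  obtain ⟨N₀, h⟩ := set_fourier hs (ε := ε / 4) (by positivity)
  refine ⟨N₀, fun F hF μ hμ N hN α => ?_⟩
  obtain ⟨δ, hδ, hap⟩ := mean_approx hs hF hm0
  have hN0 : (0 : ℝ) ≤ N := Nat.cast_nonneg _
  -- the mean value
  have h1 : |μ - (2 / m * ∑ j ∈ Finset.range m, δ j - 1)| ≤ 3 / m :=
    le_of_tendsto (hμ.sub_const _).abs hap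
  set ν : ℝ := 2 / m * ∑ j ∈ Finset.range m, δ j - 1 with hν
  have e1 : ∑ n ∈ Finset.Icc (1 : ℤ) N, ((F (s * n) - μ : ℝ) : ℂ) * e (-(α * n)) =
      ∑ n ∈ Finset.Icc (1 : ℤ) N, ((F (s * n) - (2 / m * ∑ j ∈ Finset.range m,
        (lay m F j).indicator (fun _ => (1 : ℝ)) (s * n) - 1) : ℝ) : ℂ) * e (-(α * n)) +
      (2 / m : ℂ) * ∑ j ∈ Finset.range m, ∑ n ∈ Finset.Icc (1 : ℤ) N,
        (((lay m F j).indicator (fun _ => (1 : ℝ)) (s * n) - δ j : ℝ) : ℂ) * e (-(α * n)) +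
      ∑ n ∈ Finset.Icc (1 : ℤ) N, ((ν - μ : ℝ) : ℂ) * e (-(α * n)) := by
    rw [Finset.sum_comm, Finset.mul_sum, ← Finset.sum_add_distrib, ← Finset.sum_add_distrib]
    refine Finset.sum_congr rfl fun n _ => ?_
    rw [← Finset.sum_mul, ← mul_assoc, ← add_mul, ← add_mul]
    congr 1
    rw [hν]
    push_cast
    rw [Finset.sum_sub_distrib]
    ring
  rw [e1]
  refine (norm_add₃_le).trans ?_
  have b1 : ‖∑ n ∈ Finset.Icc (1 : ℤ) N, ((F (s * n) - (2 / m * ∑ j ∈ Finset.range m,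
        (lay m F j).indicator (fun _ => (1 : ℝ)) (s * n) - 1) : ℝ) : ℂ) * e (-(α * n))‖ ≤ 2 / m * N := by
    refine (norm_sum_le _ _).trans ?_
    calc _ ≤ ∑ n ∈ Finset.Icc (1 : ℤ) N, (2 / m : ℝ) := by
          refine Finset.sum_le_sum fun n _ => ?_
          rw [norm_mul, norm_e, mul_one, Complex.norm_real, Real.norm_eq_abs]
          exact lay_approx hF.1 hm0 (s * n)
      _ = _ := by rw [Finset.sum_const, nsmul_eq_mul, card_IccN]; ring
  have b2 : ‖(2 / m : ℂ) * ∑ j ∈ Finset.range m, ∑ n ∈ Finset.Icc (1 : ℤ) N,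
        (((lay m F j).indicator (fun _ => (1 : ℝ)) (s * n) - δ j : ℝ) : ℂ) * e (-(α * n))‖ ≤ ε / 2 * N := by
    rw [norm_mul]
    have e2 : ‖(2 / m : ℂ)‖ = 2 / m := by
      rw [norm_div, Complex.norm_natCast]; norm_num
    rw [e2]
    have e3 : ‖∑ j ∈ Finset.range m, ∑ n ∈ Finset.Icc (1 : ℤ) N,
        (((lay m F j).indicator (fun _ => (1 : ℝ)) (s * n) - δ j : ℝ) : ℂ) * e (-(α * n))‖ ≤ m * (ε / 4 * N) := by
      refine (norm_sum_le _ _).trans ((Finset.sum_le_sum fun j _ => h _ (lay_inv hF m j) (δ j) (hδ j) N hN α).trans ?_)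
      rw [Finset.sum_const, Finset.card_range, nsmul_eq_mul]
    calc (2 / m : ℝ) * ‖_‖ ≤ 2 / m * (m * (ε / 4 * N)) := mul_le_mul_of_nonneg_left e3 (by positivity)
      _ = _ := by field_simp; ring
  have b3 : ‖∑ n ∈ Finset.Icc (1 : ℤ) N, ((ν - μ : ℝ) : ℂ) * e (-(α * n))‖ ≤ 3 / m * N := by
    refine (norm_sum_le _ _).trans ?_
    calc _ ≤ ∑ n ∈ Finset.Icc (1 : ℤ) N, (3 / m : ℝ) := by
          refine Finset.sum_le_sum fun n _ => ?_
          rw [norm_mul, norm_e, mul_one, Complex.norm_real, Real.norm_eq_abs, abs_sub_comm]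
          exact h1
      _ = _ := by rw [Finset.sum_const, nsmul_eq_mul, card_IccN]; ring
  have b4 : 2 / (m : ℝ) * N + 3 / m * N ≤ ε / 2 * N := by
    have : 2 / (m : ℝ) * N + 3 / m * N = 5 / m * N := by ring
    rw [this]
    exact mul_le_mul_of_nonneg_right hm1 hN0
  linarith

end FU

end Pool.Agent.J4H80.QU
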