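import Pool.Agent.J4H80.QU.L3

set_option autoImplicit false

/-! Linear patterns: counting statements for sets, progressions, lower bounds. -/

namespace Pool.Agent.J4H80.QU

open Filter Topology Finset

/-- the rows `i` and `j` are not proportional -/
def Nonprop {d t : ℕ} (L : Fin t → Fin d → ℤ) : Prop :=
  (∀ i, ∃ l, L i l ≠ 0) ∧ ∀ i j, i ≠ j → ∀ u v : ℤ, (∀ l, u * L i l = v * L j l) → u = 0 ∧ v = 0

theorem nonprop_one {d t : ℕ} {L : Fin t → Fin d → ℤ} (h : Nonprop L) (i : Fin t) :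
    ∃ v : Fin d → ℤ, ∑ l, L i l * v l ≠ 0 := by
  classical
  obtain ⟨l, hl⟩ := h.1 i
  refine ⟨Pi.single l 1, ?_⟩
  rw [Finset.sum_eq_single l]
  · rw [Pi.single_eq_same, mul_one]; exact hl
  · intro j _ hj; rw [Pi.single_eq_of_ne hj, mul_zero]
  · intro h; exact absurd (Finset.mem_univ l) h

theorem nonprop_two {d t : ℕ} {L : Fin t → Fin d → ℤ} (h : Nonprop L) (i j : Fin t) (hij : i ≠ j) :
    ∃ v : Fin d → ℤ, ∑ l, L j l * v l = 0 ∧ ∑ l, L i l * v l ≠ 0 := by
  classical
  obtain ⟨b, hb⟩ := h.1 j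
  have h1 : ∃ a, L j b * L i a ≠ L i b * L j a := by
    by_contra hcon
    push Not at hcon
    exact hb (h.2 i j hij (L j b) (L i b) hcon).1
  obtain ⟨a, ha⟩ := h1
  have hs : ∀ m : Fin t, ∑ l, L m l * (Pi.single a (L j b) - Pi.single b (L j a) : Fin d → ℤ) l =
      L m a * L j b - L m b * L j a := by
    intro m
    simp only [Pi.sub_apply, mul_sub, Finset.sum_sub_distrib]
    congr 1
    · rw [Finset.sum_eq_single a]
      · rw [Pi.single_eq_same]
      · intro l _ hl; rw [Pi.single_eq_of_ne hl, mul_zero]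
      · intro h; exact absurd (Finset.mem_univ a) h
    · rw [Finset.sum_eq_single b]
      · rw [Pi.single_eq_same]
      · intro l _ hl; rw [Pi.single_eq_of_ne hl, mul_zero]
      · intro h; exact absurd (Finset.mem_univ b) h
  refine ⟨Pi.single a (L j b) - Pi.single b (L j a), ?_, ?_⟩
  · rw [hs]; ring
  · rw [hs]
    intro h0
    apply ha
    linarith

/-- the number of the points of the cone with all values positive is at least `κ N ^ d` -/
theorem many_points {d t : ℕ} (L : Fin t → Fin d → ℤ) (c : Fin t → ℤ) (s : Fin t → ℤ)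
    (hpos : ∃ y : Fin d → ℤ, ∀ i, 0 < s i * ∑ l, L i l * y l) : ∃ κ : ℝ, 0 < κ ∧ ∃ N₀ : ℕ, ∀ N : ℕ, N₀ ≤ N →
    κ * (N : ℝ) ^ d ≤ (((Finset.Icc (fun _ : Fin d => -(N : ℤ)) (fun _ => (N : ℤ))).filter
      (fun x => ∀ i, 0 < s i * (∑ l, L i l * x l + c i))).card : ℝ) := by
  classical
  obtain ⟨y, hy⟩ := hpos
  set Y : ℕ := ∑ l, (y l).natAbs with hY
  set Z : ℕ := ∑ i, ∑ l, (s i * L i l).natAbs with hZ
  set W : ℕ := ∑ i, (s i * c i).natAbs with hW
  -- `x = m y + z` with `|z| ≤ ρ`, `m = (Z + 1) (ρ + W + 1)`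
  set D : ℕ := (Z + 1) * (Y + 1) + 1 with hD
  refine ⟨(1 / (2 * D) : ℝ) ^ d, by positivity, 2 * (D * (W + 1)) + 2 * D, fun N hN => ?_⟩
  set ρ : ℕ := (N - D * (W + 1)) / D with hρ
  have hD0 : 0 < D := by omega
  have hρ1 : D * ρ + D * (W + 1) ≤ N := by
    have h1 : D * ρ ≤ N - D * (W + 1) := Nat.mul_div_le _ _
    omega
  have hρ2 : (N : ℝ) ≤ 2 * D * (2 * ρ + 1) := by
    have h1 : N - D * (W + 1) < D * (ρ + 1) := Nat.lt_mul_div_succ _ hD0
    have h2 : N < 2 * (D * (ρ + 1)) := by omega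
    have h3 : 2 * (D * (ρ + 1)) ≤ 2 * D * (2 * ρ + 1) := by nlinarith
    exact_mod_cast (h2.le.trans h3)
  set m : ℕ := (Z + 1) * (ρ + W + 1) with hm
  have hmem : ∀ z ∈ Finset.Icc (fun _ : Fin d => -(ρ : ℤ)) (fun _ => (ρ : ℤ)), (fun l => (m : ℤ) * y l + z l) ∈
      (Finset.Icc (fun _ : Fin d => -(N : ℤ)) (fun _ => (N : ℤ))).filter
      (fun x => ∀ i, 0 < s i * (∑ l, L i l * x l + c i)) := by
    intro z hz
    rw [Finset.mem_Icc] at hz
    have hz1 : ∀ l, |z l| ≤ (ρ : ℤ) := fun l => abs_le.2 ⟨hz.1 l, hz.2 l⟩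
    have hyl : ∀ l, |y l| ≤ (Y : ℤ) := by
      intro l
      have : (y l).natAbs ≤ Y := Finset.single_le_sum (f := fun l => (y l).natAbs) (fun _ _ => Nat.zero_le _) (Finset.mem_univ l)
      rw [← Int.natCast_natAbs]
      exact_mod_cast this
    rw [Finset.mem_filter, Finset.mem_Icc]
    have hbd : ∀ l, |(m : ℤ) * y l + z l| ≤ (N : ℤ) := by
      intro l
      have h1 : |(m : ℤ) * y l + z l| ≤ (m : ℤ) * Y + ρ := by
        refine (abs_add_le _ _).trans (add_le_add ?_ (hz1 l))
        rw [abs_mul, abs_of_nonneg (by positivity : (0 : ℤ) ≤ m)]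
        exact mul_le_mul_of_nonneg_left (hyl l) (by positivity)
      have h2 : m * Y + ρ ≤ N := by
        have h3 : m * Y + ρ ≤ D * ρ + D * (W + 1) := by
          rw [hm, hD]
          nlinarith
        omega
      exact h1.trans (by exact_mod_cast h2)
    refine ⟨⟨fun l => (abs_le.1 (hbd l)).1, fun l => (abs_le.1 (hbd l)).2⟩, fun i => ?_⟩
    have e1 : s i * (∑ l, L i l * ((m : ℤ) * y l + z l) + c i) =
        m * (s i * ∑ l, L i l * y l) + ∑ l, (s i * L i l) * z l + s i * c i := by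
      rw [mul_add, Finset.mul_sum, Finset.mul_sum, Finset.mul_sum, ← Finset.sum_add_distrib]
      congr 1
      refine Finset.sum_congr rfl fun l _ => ?_
      ring
    rw [e1]
    have h4 : |∑ l, (s i * L i l) * z l| ≤ Z * ρ := by
      refine (Finset.abs_sum_le_sum_abs _ _).trans ?_
      have h5 : ∀ l, |(s i * L i l) * z l| ≤ ((s i * L i l).natAbs : ℤ) * ρ := by
        intro l
        rw [abs_mul, Int.natCast_natAbs]
        exact mul_le_mul_of_nonneg_left (hz1 l) (abs_nonneg _)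
      refine (Finset.sum_le_sum fun l _ => h5 l).trans ?_
      rw [← Finset.sum_mul]
      refine mul_le_mul_of_nonneg_right ?_ (by positivity)
      have : ∑ l, (s i * L i l).natAbs ≤ Z :=
        Finset.single_le_sum (f := fun i => ∑ l, (s i * L i l).natAbs) (fun _ _ => Nat.zero_le _) (Finset.mem_univ i)
      exact_mod_cast this
    have h6 : |s i * c i| ≤ (W : ℤ) := by
      have : (s i * c i).natAbs ≤ W :=
        Finset.single_le_sum (f := fun i => (s i * c i).natAbs) (fun _ _ => Nat.zero_le _) (Finset.mem_univ i)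
      rw [← Int.natCast_natAbs]
      exact_mod_cast this
    have h7 : (m : ℤ) ≤ m * (s i * ∑ l, L i l * y l) := by
      have := hy i
      have hm0 : (0 : ℤ) ≤ m := by positivity
      nlinarith
    have h8 : (Z : ℤ) * ρ + W < m := by
      have : Z * ρ + W < m := by rw [hm]; nlinarith
      exact_mod_cast this
    have h9 := (abs_le.1 h4).1
    have h10 := (abs_le.1 h6).1
    linarith
  have hcard : (2 * ρ + 1) ^ d ≤ ((Finset.Icc (fun _ : Fin d => -(N : ℤ)) (fun _ => (N : ℤ))).filter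
      (fun x => ∀ i, 0 < s i * (∑ l, L i l * x l + c i))).card := by
    have h1 : (Finset.Icc (fun _ : Fin d => -(ρ : ℤ)) (fun _ => (ρ : ℤ))).card = (2 * ρ + 1) ^ d := by
      rw [Pi.card_Icc, Finset.prod_const, Finset.card_univ, Fintype.card_fin, Int.card_Icc]
      congr 1
      omega
    rw [← h1]
    apply Finset.card_le_card_of_injOn (fun z l => (m : ℤ) * y l + z l)
    · intro z hz
      exact hmem z hz
    · intro z _ z' _ h
      funext l
      have := congrFun h l
      simp only at this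
      linarith
  calc (1 / (2 * D) : ℝ) ^ d * (N : ℝ) ^ d = (N / (2 * D)) ^ d := by rw [← mul_pow]; congr 1; ring
    _ ≤ (2 * ρ + 1 : ℝ) ^ d := by
        refine pow_le_pow_left₀ (by positivity) ?_ d
        rw [div_le_iff₀ (by positivity)]
        linarith
    _ ≤ _ := by exact_mod_cast hcard

/-- the number of all progressions -/
theorem count_progs {q : ℕ} (hq : 1 ≤ q) (N : ℕ) :
    |(((Finset.Icc 1 N ×ˢ Finset.Icc 1 N).filter (fun p : ℕ × ℕ => p.1 + q * p.2 ≤ N)).card : ℝ) - (N : ℝ) ^ 2 / (2 * q)| ≤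
      (N : ℝ) + q := by
  classical
  set H : ℕ := N / q with hH
  have hqR : (0 : ℝ) < q := by exact_mod_cast hq
  have h1 : ((Finset.Icc 1 N ×ˢ Finset.Icc 1 N).filter (fun p : ℕ × ℕ => p.1 + q * p.2 ≤ N)).card =
      ∑ h ∈ Finset.Icc 1 H, (N - q * h) := by
    rw [Finset.card_filter, Finset.sum_product_right]
    have e1 : ∀ h ∈ Finset.Icc 1 N, ∑ x ∈ Finset.Icc 1 N, (if x + q * h ≤ N then 1 else 0) =
        if h ∈ Finset.Icc 1 H then N - q * h else 0 := by
      intro h hh
      rw [Finset.mem_Icc] at hh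
      rw [← Finset.card_filter]
      have e2 : (Finset.Icc 1 N).filter (fun x => x + q * h ≤ N) = Finset.Icc 1 (N - q * h) := by
        ext x
        rw [Finset.mem_filter, Finset.mem_Icc, Finset.mem_Icc]
        omega
      rw [e2, Nat.card_Icc, Nat.add_sub_cancel]
      split_ifs with h3
      · rfl
      · rw [Finset.mem_Icc] at h3
        have h4 : H < h := by omega
        have h5 : N < q * h := by
          have := Nat.lt_mul_div_succ N (by omega : 0 < q)
          calc N < q * (N / q + 1) := this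
            _ ≤ q * h := Nat.mul_le_mul_left _ (by omega)
        omega
    rw [Finset.sum_congr rfl e1, Finset.sum_ite_mem]
    congr 1
    have : H ≤ N := Nat.div_le_self _ _
    ext x
    rw [Finset.mem_inter, Finset.mem_Icc, Finset.mem_Icc]
    omega
  have h2 : ((∑ h ∈ Finset.Icc 1 H, (N - q * h) : ℕ) : ℝ) = N * H - q * (H * (H + 1) / 2) := by
    have e1 : ((∑ h ∈ Finset.Icc 1 H, (N - q * h) : ℕ) : ℝ) = ∑ h ∈ Finset.Icc 1 H, ((N : ℝ) - q * h) := by
      push_cast
      refine Finset.sum_congr rfl fun h hh => ?_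
      rw [Finset.mem_Icc] at hh
      have h3 : q * h ≤ N := by
        calc q * h ≤ q * H := Nat.mul_le_mul_left _ hh.2
          _ ≤ N := Nat.mul_div_le _ _
      rw [Nat.cast_sub h3]
      push_cast
      ring
    rw [e1, Finset.sum_sub_distrib, Finset.sum_const, Nat.card_Icc, nsmul_eq_mul, Nat.add_sub_cancel, ← Finset.mul_sum]
    have e2 : ∀ n : ℕ, ∑ h ∈ Finset.Icc 1 n, (h : ℝ) = n * (n + 1) / 2 := by
      intro n
      induction n with
      | zero => simp
      | succ n ih =>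
        rw [Finset.sum_Icc_succ_top (by omega), ih]
        push_cast
        ring
    rw [e2]
    ring
  rw [h1, h2]
  have h3 : (q : ℝ) * H ≤ N := by exact_mod_cast Nat.mul_div_le N q
  have h4 : (N : ℝ) < q * (H + 1) := by exact_mod_cast Nat.lt_mul_div_succ N (by omega : 0 < q)
  set θ : ℝ := N - q * H with hθ
  have hθ0 : 0 ≤ θ := by linarith
  have hθ1 : θ < q := by linarith
  have e1 : (N : ℝ) * H - q * (H * (H + 1) / 2) - (N : ℝ) ^ 2 / (2 * q) = -(θ ^ 2 / (2 * q)) - q * H / 2 := by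
    rw [hθ]; field_simp; ring
  rw [e1]
  have h5 : 0 ≤ θ ^ 2 / (2 * q) := by positivity
  have h6 : θ ^ 2 / (2 * q) ≤ q := by
    rw [div_le_iff₀ (by positivity)]
    nlinarith
  have h7 : (0 : ℝ) ≤ q * H := by positivity
  rw [abs_le]
  constructor <;> linarith

end Pool.Agent.J4H80.QU
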