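import Pool.Agent.J4H80.QU.L4

set_option autoImplicit false

/-! Linear patterns in invariant sets: final counting statements, from the uniform version of the
count of patterns. -/

namespace Pool.Agent.J4H80.QU

open Filter Topology Finset

/-- the uniform version of the count of patterns -/
def S_COUNT : Prop := ∀ (d t K : ℕ) (s : Fin t → ℤ), (∀ i, s i = 1 ∨ s i = -1) → ∀ ε : ℝ, 0 < ε → ∃ N₀ : ℕ,
    ∀ F : Fin t → ℤ → ℝ, (∀ i, InvF (F i)) → ∀ μ : Fin t → ℝ, (∀ i, MeanF (s i) (F i) (μ i)) →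
    ∀ N : ℕ, N₀ ≤ N → ∀ L : Fin t → Fin d → ℤ, (∀ i l, |L i l| ≤ (K : ℤ)) → Nonprop L →
    ∀ c : Fin t → ℤ, (∀ i, |c i| ≤ (K : ℤ) * N) →
    ∀ a b : Fin d → ℤ, (∀ l, -(N : ℤ) ≤ a l ∧ b l ≤ N) → ∀ M M' : Fin t → ℕ,
    |∑ x ∈ Finset.Icc a b, ∏ i, fcut (s i) (F i) (M i) (M' i) (∑ l, L i l * x l + c i) -
      (∏ i, μ i) * ∑ x ∈ Finset.Icc a b, ∏ i, fcut (s i) (fun _ => 1) (M i) (M' i) (∑ l, L i l * x l + c i)| ≤
      ε * (N : ℝ) ^ d

/-- the values of the affine forms -/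
def Val {d t : ℕ} (L : Fin t → Fin d → ℤ) (c : Fin t → ℤ) (x : Fin d → ℤ) (i : Fin t) : ℤ := ∑ l, L i l * x l + c i

/-- the points of a box at which the values are in given intervals -/
noncomputable def Region {d t : ℕ} (s : Fin t → ℤ) (L : Fin t → Fin d → ℤ) (c : Fin t → ℤ) (a b : Fin d → ℤ)
    (M M' : Fin t → ℕ) : Finset (Fin d → ℤ) :=
  (Finset.Icc a b).filter fun x => ∀ i, (M i : ℤ) < s i * Val L c x i ∧ s i * Val L c x i ≤ M' i

theorem sum_region {d t : ℕ} (s : Fin t → ℤ) (L : Fin t → Fin d → ℤ) (c : Fin t → ℤ) (a b : Fin d → ℤ)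
    (M M' : Fin t → ℕ) (F : Fin t → ℤ → ℝ) :
    ∑ x ∈ Finset.Icc a b, ∏ i, fcut (s i) (F i) (M i) (M' i) (∑ l, L i l * x l + c i) =
      ∑ x ∈ Region s L c a b M M', ∏ i, F i (Val L c x i) := by
  classical
  unfold Region
  rw [Finset.sum_filter]
  refine Finset.sum_congr rfl fun x _ => ?_
  split_ifs with h
  · refine Finset.prod_congr rfl fun i _ => ?_
    unfold fcut
    exact if_pos (h i)
  · push Not at h
    obtain ⟨i, hi⟩ := h
    apply Finset.prod_eq_zero (Finset.mem_univ i)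
    unfold fcut
    rw [if_neg]
    intro h2
    have := hi h2.1
    have h3 := h2.2
    unfold Val at this
    omega

/-- patterns in invariant functions -/
theorem patterns (H : S_COUNT) (d t K : ℕ) (s : Fin t → ℤ) (hs : ∀ i, s i = 1 ∨ s i = -1) {ε : ℝ} (hε : 0 < ε) :
    ∃ N₀ : ℕ, ∀ F : Fin t → ℤ → ℝ, (∀ i, InvF (F i)) → ∀ μ : Fin t → ℝ, (∀ i, MeanF (s i) (F i) (μ i)) →
    ∀ N : ℕ, N₀ ≤ N → ∀ L : Fin t → Fin d → ℤ, (∀ i l, |L i l| ≤ (K : ℤ)) → Nonprop L →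
    ∀ c : Fin t → ℤ, (∀ i, |c i| ≤ (K : ℤ) * N) →
    ∀ a b : Fin d → ℤ, (∀ l, -(N : ℤ) ≤ a l ∧ b l ≤ N) → ∀ M M' : Fin t → ℕ,
    |∑ x ∈ Region s L c a b M M', ∏ i, F i (Val L c x i) - (∏ i, μ i) * (Region s L c a b M M').card| ≤
      ε * (N : ℝ) ^ d := by
  obtain ⟨N₀, h⟩ := H d t K s hs ε hε
  refine ⟨N₀, fun F hF μ hμ N hN L hL hLn c hc a b hab M M' => ?_⟩
  have h1 := h F hF μ hμ N hN L hL hLn c hc a b hab M M'
  rw [sum_region, sum_region] at h1
  simp only [Finset.prod_const_one, Finset.sum_const, nsmul_eq_mul, mul_one] at h1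
  exact h1

/-- an invariant set -/
def InvS (S : Set ℤ) : Prop := ∀ x : ℤ, x ∈ S ↔ C x ∈ S

theorem inv_ind {S : Set ℤ} (hS : InvS S) : InvF (S.indicator fun _ => (1 : ℝ)) := by
  classical
  constructor
  · intro x
    rw [Set.indicator_apply]
    split_ifs <;> simp
  · intro x
    rw [Set.indicator_apply, Set.indicator_apply]
    by_cases h : x ∈ S
    · rw [if_pos ((hS x).1 h), if_pos h]
    · rw [if_neg (fun h2 => h ((hS x).2 h2)), if_neg h]

open Classical in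
/-- the number of the points of the region at which the values are in given sets -/
noncomputable def Hits {d t : ℕ} (s : Fin t → ℤ) (L : Fin t → Fin d → ℤ) (c : Fin t → ℤ) (a b : Fin d → ℤ)
    (M M' : Fin t → ℕ) (S : Fin t → Set ℤ) : ℕ :=
  ((Region s L c a b M M').filter fun x => ∀ i, Val L c x i ∈ S i).card

theorem sum_hits {d t : ℕ} (s : Fin t → ℤ) (L : Fin t → Fin d → ℤ) (c : Fin t → ℤ) (a b : Fin d → ℤ)
    (M M' : Fin t → ℕ) (S : Fin t → Set ℤ) :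
    ∑ x ∈ Region s L c a b M M', ∏ i, (S i).indicator (fun _ => (1 : ℝ)) (Val L c x i) =
      Hits s L c a b M M' S := by
  classical
  unfold Hits
  rw [Finset.card_filter]
  push_cast
  refine Finset.sum_congr rfl fun x _ => ?_
  split_ifs with h
  · apply Finset.prod_eq_one
    intro i _
    rw [Set.indicator_of_mem (h i)]
  · push Not at h
    obtain ⟨i, hi⟩ := h
    apply Finset.prod_eq_zero (Finset.mem_univ i)
    rw [Set.indicator_of_notMem hi]

/-- patterns in invariant sets -/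
theorem patterns_set (H : S_COUNT) (d t K : ℕ) (s : Fin t → ℤ) (hs : ∀ i, s i = 1 ∨ s i = -1) {ε : ℝ} (hε : 0 < ε) :
    ∃ N₀ : ℕ, ∀ S : Fin t → Set ℤ, (∀ i, InvS (S i)) → ∀ δ : Fin t → ℝ,
    (∀ i, MeanF (s i) ((S i).indicator fun _ => (1 : ℝ)) (δ i)) →
    ∀ N : ℕ, N₀ ≤ N → ∀ L : Fin t → Fin d → ℤ, (∀ i l, |L i l| ≤ (K : ℤ)) → Nonprop L →
    ∀ c : Fin t → ℤ, (∀ i, |c i| ≤ (K : ℤ) * N) →
    ∀ a b : Fin d → ℤ, (∀ l, -(N : ℤ) ≤ a l ∧ b l ≤ N) → ∀ M M' : Fin t → ℕ,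
    |(Hits s L c a b M M' S : ℝ) - (∏ i, δ i) * (Region s L c a b M M').card| ≤
      ε * (N : ℝ) ^ d := by
  obtain ⟨N₀, h⟩ := patterns H d t K s hs hε
  refine ⟨N₀, fun S hS δ hδ N hN L hL hLn c hc a b hab M M' => ?_⟩
  have h1 := h (fun i => (S i).indicator fun _ => (1 : ℝ)) (fun i => inv_ind (hS i)) δ hδ N hN L hL hLn c hc a b hab M M'
  rw [sum_hits] at h1
  exact h1

/-- the number of progressions of length `k` in `[1, N]`, the `i`-th member (with sign `s`) in `S i` -/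
noncomputable def Prog (s : ℤ) (N : ℕ) {k : ℕ} (S : Fin k → Set ℤ) : ℕ :=
  {p : ℕ × ℕ | 1 ≤ p.1 ∧ 1 ≤ p.2 ∧ p.1 + (k - 1) * p.2 ≤ N ∧ ∀ i : Fin k, s * (p.1 + i * p.2 : ℤ) ∈ S i}.ncard

/-- progressions -/
theorem progs (H : S_COUNT) {s : ℤ} (hs : s = 1 ∨ s = -1) {k : ℕ} (hk : 2 ≤ k) {ε : ℝ} (hε : 0 < ε) :
    ∃ N₀ : ℕ, ∀ S : Fin k → Set ℤ, (∀ i, InvS (S i)) → ∀ δ : Fin k → ℝ,
    (∀ i, MeanF s ((S i).indicator fun _ => (1 : ℝ)) (δ i)) → ∀ N : ℕ, N₀ ≤ N →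
    |(Prog s N S : ℝ) - (∏ i, δ i) * ((N : ℝ) ^ 2 / (2 * (k - 1)))| ≤ ε * (N : ℝ) ^ 2 := by
  classical
  have hkR : (0 : ℝ) < k - 1 := by
    have : (2 : ℝ) ≤ k := by exact_mod_cast hk
    linarith
  obtain ⟨N₀, h⟩ := patterns_set H 2 k k (fun _ => s) (fun _ => hs) (show (0 : ℝ) < ε / 2 by positivity)
  refine ⟨N₀ + ⌈2 * (k : ℝ) / ε⌉₊ + 1, fun S hS δ hδ N hN => ?_⟩
  have hN0 : (0 : ℝ) < N := by exact_mod_cast (by omega : 0 < N)
  have hN1 : (1 : ℝ) ≤ N := by exact_mod_cast (by omega : 1 ≤ N)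
  set L : Fin k → Fin 2 → ℤ := fun i => ![s, s * i] with hL
  have hss : s * s = 1 := by rcases hs with rfl | rfl <;> norm_num
  have hs0 : s ≠ 0 := by rcases hs with rfl | rfl <;> norm_num
  have hLb : ∀ i l, |L i l| ≤ (k : ℤ) := by
    intro i l
    have hsa : |s| = 1 := by rcases hs with rfl | rfl <;> norm_num
    fin_cases l
    · simp only [hL]
      show |s| ≤ (k : ℤ)
      rw [hsa]
      exact_mod_cast (by omega : 1 ≤ k)
    · simp only [hL]
      show |s * (i : ℤ)| ≤ (k : ℤ)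
      rw [abs_mul, hsa, one_mul, abs_of_nonneg (by positivity)]
      exact_mod_cast i.2.le
  have hLn : Nonprop L := by
    refine ⟨fun i => ⟨0, ?_⟩, fun i j hij u v huv => ?_⟩
    · show s ≠ 0
      exact hs0
    · have h0 := huv 0
      have h1 := huv 1
      have h0' : u * s = v * s := h0
      have h1' : u * (s * (i : ℤ)) = v * (s * (j : ℤ)) := h1
      have h2 : u = v := mul_right_cancel₀ hs0 h0'
      subst h2
      have h3 : (i : ℤ) ≠ j := by
        intro h4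
        apply hij
        apply Fin.ext
        exact_mod_cast h4
      have h5 : u * (s * ((i : ℤ) - j)) = 0 := by linear_combination h1'
      have h6 : s * ((i : ℤ) - j) ≠ 0 := mul_ne_zero hs0 (sub_ne_zero.2 h3)
      have h7 : u = 0 := (mul_eq_zero.1 h5).resolve_right h6
      exact ⟨h7, h7⟩
  have h1 := h S hS δ hδ N (by omega) L hLb hLn (fun _ => 0) (fun i => by
    rw [abs_zero]; positivity) (fun _ => 1) (fun _ => (N : ℤ)) (fun l => ⟨by omega, le_rfl⟩) (fun _ => 0) (fun _ => N)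
  have hval : ∀ (x : Fin 2 → ℤ) (i : Fin k), s * Val L (fun _ => 0) x i = x 0 + i * x 1 := by
    intro x i
    unfold Val
    rw [Fin.sum_univ_two]
    show s * (s * x 0 + s * (i : ℤ) * x 1 + 0) = _
    linear_combination (x 0 + i * x 1) * hss
  -- the correspondence
  set g : ℕ × ℕ → Fin 2 → ℤ := fun p => ![(p.1 : ℤ), (p.2 : ℤ)] with hg
  have hginj : Function.Injective g := by
    rintro ⟨x, h⟩ ⟨x', h'⟩ hxx
    have e0 : (x : ℤ) = x' := congrFun hxx 0
    have e1 : (h : ℤ) = h' := congrFun hxx 1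
    simp only [Prod.mk.injEq]
    exact ⟨by exact_mod_cast e0, by exact_mod_cast e1⟩
  have hreg : Region (fun _ : Fin k => s) L (fun _ => 0) (fun _ => 1) (fun _ => (N : ℤ)) (fun _ => 0) (fun _ => N) =
      ((Finset.Icc 1 N ×ˢ Finset.Icc 1 N).filter (fun p : ℕ × ℕ => p.1 + (k - 1) * p.2 ≤ N)).image g := by
    ext x
    unfold Region
    rw [Finset.mem_filter, Finset.mem_Icc, Finset.mem_image]
    constructor
    · rintro ⟨⟨h2, h3⟩, h4⟩
      refine ⟨((x 0).toNat, (x 1).toNat), ?_, ?_⟩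
      · have a0 : 1 ≤ x 0 := h2 0
        have a1 : 1 ≤ x 1 := h2 1
        have b0 : x 0 ≤ N := h3 0
        have b1 : x 1 ≤ N := h3 1
        rw [Finset.mem_filter, Finset.mem_product, Finset.mem_Icc, Finset.mem_Icc]
        refine ⟨⟨by simp only; omega, by simp only; omega⟩, ?_⟩
        have h5 := (h4 ⟨k - 1, by omega⟩).2
        rw [hval] at h5
        simp only at h5 ⊢
        have h6 : (((x 0).toNat : ℕ) : ℤ) = x 0 := Int.toNat_of_nonneg (by omega)
        have h7 : (((x 1).toNat : ℕ) : ℤ) = x 1 := Int.toNat_of_nonneg (by omega)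
        rw [← h6, ← h7] at h5
        exact_mod_cast h5
      · have a0 : 1 ≤ x 0 := h2 0
        have a1 : 1 ≤ x 1 := h2 1
        funext l
        fin_cases l
        · show (((x 0).toNat : ℕ) : ℤ) = x 0
          exact Int.toNat_of_nonneg (by omega)
        · show (((x 1).toNat : ℕ) : ℤ) = x 1
          exact Int.toNat_of_nonneg (by omega)
    · rintro ⟨⟨y, h⟩, hp, rfl⟩
      rw [Finset.mem_filter, Finset.mem_product, Finset.mem_Icc, Finset.mem_Icc] at hp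
      simp only at hp
      refine ⟨⟨fun l => ?_, fun l => ?_⟩, fun i => ?_⟩
      · fin_cases l
        · show (1 : ℤ) ≤ (y : ℤ); omega
        · show (1 : ℤ) ≤ (h : ℤ); omega
      · fin_cases l
        · show (y : ℤ) ≤ N; omega
        · show (h : ℤ) ≤ N; omega
      · rw [hval]
        show ((0 : ℕ) : ℤ) < (y : ℤ) + i * (h : ℤ) ∧ (y : ℤ) + i * (h : ℤ) ≤ N
        have h8 : (i : ℕ) * h ≤ (k - 1) * h := Nat.mul_le_mul_right _ (by have := i.2; omega)
        constructor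
        · have : 0 < y + i * h := by omega
          exact_mod_cast this
        · have : y + i * h ≤ N := by omega
          exact_mod_cast this
  have hregc : (Region (fun _ : Fin k => s) L (fun _ => 0) (fun _ => 1) (fun _ => (N : ℤ)) (fun _ => 0) (fun _ => N)).card =
      ((Finset.Icc 1 N ×ˢ Finset.Icc 1 N).filter (fun p : ℕ × ℕ => p.1 + (k - 1) * p.2 ≤ N)).card := by
    rw [hreg, Finset.card_image_of_injective _ hginj]
  have hhits : Hits (fun _ : Fin k => s) L (fun _ => 0) (fun _ => 1) (fun _ => (N : ℤ)) (fun _ => 0) (fun _ => N) S =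
      Prog s N S := by
    unfold Hits Prog
    rw [hreg, Finset.filter_image, Finset.card_image_of_injective _ hginj, ← Set.ncard_coe_finset]
    congr 1
    ext ⟨y, h⟩
    rw [Finset.mem_coe, Finset.mem_filter, Finset.mem_filter, Finset.mem_product, Finset.mem_Icc, Finset.mem_Icc,
      Set.mem_ofPred_eq]
    simp only
    have hv : ∀ i : Fin k, Val L (fun _ => 0) (g (y, h)) i = s * ((y : ℤ) + i * h) := by
      intro i
      have h9 := hval (g (y, h)) i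
      have h10 : s * Val L (fun _ => 0) (g (y, h)) i = (y : ℤ) + i * (h : ℤ) := h9
      rw [← h10, ← mul_assoc, hss, one_mul]
    simp only [hv]
    constructor
    · rintro ⟨⟨⟨⟨h2, -⟩, h3, -⟩, h4⟩, h5⟩
      exact ⟨h2, h3, h4, h5⟩
    · rintro ⟨h2, h3, h4, h5⟩
      have h6 : h ≤ (k - 1) * h := Nat.le_mul_of_pos_left _ (by omega)
      exact ⟨⟨⟨⟨h2, by omega⟩, h3, by omega⟩, h4⟩, h5⟩
  rw [hhits, hregc] at h1
  have h2 := count_progs (q := k - 1) (by omega) N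
  have hq : ((k - 1 : ℕ) : ℝ) = (k : ℝ) - 1 := by rw [Nat.cast_sub (by omega)]; norm_num
  rw [hq] at h2
  set X : ℝ := (((Finset.Icc 1 N ×ˢ Finset.Icc 1 N).filter (fun p : ℕ × ℕ => p.1 + (k - 1) * p.2 ≤ N)).card : ℝ) with hX
  have hδ1 : |∏ i, δ i| ≤ 1 := by
    rw [Finset.abs_prod]
    exact Finset.prod_le_one (fun _ _ => abs_nonneg _) fun i _ => mean_abs (inv_ind (hS i)).1 (hδ i)
  have h3 : |(∏ i, δ i) * X - (∏ i, δ i) * ((N : ℝ) ^ 2 / (2 * (k - 1)))| ≤ (N : ℝ) + ((k : ℝ) - 1) := by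
    rw [← mul_sub, abs_mul]
    exact (mul_le_of_le_one_left (abs_nonneg _) hδ1).trans h2
  have h4 : (N : ℝ) + ((k : ℝ) - 1) ≤ ε / 2 * N ^ 2 := by
    have a1 := Nat.le_ceil (2 * (k : ℝ) / ε)
    have a2 : ⌈2 * (k : ℝ) / ε⌉₊ ≤ N := by omega
    have a3 : ((⌈2 * (k : ℝ) / ε⌉₊ : ℕ) : ℝ) ≤ N := Nat.cast_le.2 a2
    have a4 := a1.trans a3
    rw [div_le_iff₀ hε] at a4
    nlinarith
  have h5 : (Prog s N S : ℝ) - (∏ i, δ i) * ((N : ℝ) ^ 2 / (2 * (k - 1))) =
      ((Prog s N S : ℝ) - (∏ i, δ i) * X) + ((∏ i, δ i) * X - (∏ i, δ i) * ((N : ℝ) ^ 2 / (2 * (k - 1)))) := by ring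
  rw [h5]
  refine (abs_add_le _ _).trans ?_
  linarith

end Pool.Agent.J4H80.QU
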