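import Pool.Agent.J4H80.QU.L5

set_option autoImplicit false

/-! The count of patterns, uniformly in the constants and the coefficients. -/

namespace Pool.Agent.J4H80.QU

open Filter Topology Finset

/-- the generalised von Neumann theorem, uniformly in the constants -/
def S_VN2 : Prop := ∀ (d t : ℕ) (L : Fin t → Fin d → ℤ),
  (∀ i, ∃ v : Fin d → ℤ, ∑ l, L i l * v l ≠ 0) →
  (∀ i j, i ≠ j → ∃ v : Fin d → ℤ, ∑ l, L j l * v l = 0 ∧ ∑ l, L i l * v l ≠ 0) →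
  ∀ K : ℕ, ∀ ε : ℝ, 0 < ε → ∃ (A Q N₀ : ℕ) (ε' : ℝ), 0 < ε' ∧ 8 * (A + 1) ≤ Q ∧ ∀ N : ℕ, N₀ ≤ N →
  ∀ c : Fin t → ℤ, (∀ i, |c i| ≤ (K : ℤ) * N) →
  ∀ a b : Fin d → ℤ, (∀ l, -(N : ℤ) ≤ a l ∧ b l ≤ N) → ∀ f : Fin t → ℤ → ℝ, (∀ i n, |f i n| ≤ 1) → ∀ i₀ : Fin t,
  UG (t + 1) (fun x : ZMod (Q * N + 1) => if |x.valMinAbs| ≤ (A : ℤ) * N then f i₀ x.valMinAbs else 0) ≤
    ε' * (N : ℝ) ^ (t + 2) →
  |∑ x ∈ Finset.Icc a b, ∏ i, f i (∑ l, L i l * x l + c i)| ≤ ε * (N : ℝ) ^ d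

/-- one factor -/
theorem slot2 (HVN : S_VN2) {d t : ℕ} (L : Fin (t + 1) → Fin d → ℤ) (K : ℕ)
    (h1 : ∀ i, ∃ v : Fin d → ℤ, ∑ l, L i l * v l ≠ 0)
    (h2 : ∀ i j, i ≠ j → ∃ v : Fin d → ℤ, ∑ l, L j l * v l = 0 ∧ ∑ l, L i l * v l ≠ 0)
    {s : ℤ} (hs : s = 1 ∨ s = -1) {ε : ℝ} (hε : 0 < ε) : ∃ N₀ : ℕ, ∀ F : ℤ → ℝ, InvF F → ∀ μ : ℝ, MeanF s F μ →
    ∀ N : ℕ, N₀ ≤ N → ∀ c : Fin (t + 1) → ℤ, (∀ i, |c i| ≤ (K : ℤ) * N) →
    ∀ a b : Fin d → ℤ, (∀ l, -(N : ℤ) ≤ a l ∧ b l ≤ N) →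
    ∀ f : Fin (t + 1) → ℤ → ℝ, (∀ i n, |f i n| ≤ 1) → ∀ (i₀ : Fin (t + 1)) (M : ℕ), (f i₀ = gcut s F μ M) →
    |∑ x ∈ Finset.Icc a b, ∏ i, f i (∑ l, L i l * x l + c i)| ≤ ε * (N : ℝ) ^ d := by
  obtain ⟨A, Q, N₀, ε', hε', hQ, H⟩ := HVN d (t + 1) L h1 h2 K ε hε
  set ε'' : ℝ := ε' / (A + 1) ^ (t + 3) with hε''
  have hε''0 : 0 < ε'' := by positivity
  obtain ⟨N₁, H1⟩ := unifF hs t hε''0
  refine ⟨N₀ + ⌈(4 * (N₁ : ℝ) + 1) ^ (t + 3) / ε'⌉₊ + 1, fun F hF μ hμ N hN c hc a b hab f hf i₀ M hfi => ?_⟩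
  refine H N (by omega) c hc a b hab f hf i₀ ?_
  have hμ1 := mean_abs hF.1 hμ
  have hN1 : (1 : ℝ) ≤ N := by exact_mod_cast (by omega : 1 ≤ N)
  set L' : ℕ := min M (A * N) with hL'
  set f0 : ℤ → ℝ := fun n => 1 / 2 * (F (s * n) - μ) with hf0
  have e1 : (fun x : ZMod (Q * N + 1) => if |x.valMinAbs| ≤ (A : ℤ) * N then f i₀ x.valMinAbs else 0) =
      emb (Q * N + 1) (fun n => cut f0 L' (s * n)) := by
    funext x
    have key := gcut_eq hs F μ M (A * N) x.valMinAbs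
    push_cast at key
    rw [hfi]
    exact key
  rw [e1]
  have hsupp : ∀ n : ℤ, ((A * N : ℕ) : ℤ) < |n| → cut f0 L' (s * n) = 0 := by
    intro n hn
    apply cut_supp
    have habs : |n| = |s * n| := by
      rcases hs with rfl | rfl
      · rw [one_mul]
      · rw [neg_one_mul, abs_neg]
    rw [← habs]
    have : (L' : ℤ) ≤ ((A * N : ℕ) : ℤ) := by exact_mod_cast min_le_right _ _
    omega
  rw [UG_link (p := Q * N + 1) (R := A * N) (by nlinarith) (t + 1 + 1) _ hsupp]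
  have e2 : UGZ (A * N) (t + 1 + 1) (fun n => cut f0 L' (s * n)) = UGZ (A * N) (t + 1 + 1) (cut f0 L') := by
    rcases hs with h | h
    · rw [h]; simp only [one_mul]
    · rw [← UGZ_neg (t + 1 + 1) (cut f0 L')]
      congr 1
      funext n
      rw [h, neg_one_mul]
  rw [e2, UGZ_indep (t + 1 + 1) (min_le_right _ _ : L' ≤ A * N) (cut f0 L') (cut_supp f0 L')]
  have hf01 : ∀ x, |f0 x| ≤ 1 := by
    intro x
    have h1 := abs_le.1 (hF.1 (s * x))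
    have h2 := abs_le.1 hμ1
    rw [hf0, abs_le]
    constructor <;> linarith
  rcases le_or_gt N₁ L' with h | h
  · refine (H1 F hF μ hμ L' h).trans ?_
    have h3 : (L' : ℝ) ≤ (A + 1) * N := by
      have h4 : L' ≤ A * N := min_le_right _ _
      have h5 : (L' : ℝ) ≤ ((A * N : ℕ) : ℝ) := by exact_mod_cast h4
      push_cast at h5
      nlinarith
    calc ε'' * (L' : ℝ) ^ (t + 3) ≤ ε'' * ((A + 1) * N) ^ (t + 3) := by gcongr
      _ = ε' * (N : ℝ) ^ (t + 1 + 2) := by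
          rw [hε'', mul_pow, ← mul_assoc]
          field_simp
  · refine (le_abs_self _).trans ((UGZ_abs (t + 1 + 1) _ (cut_abs hf01 L')).trans ?_)
    have h3 : (4 * (L' : ℝ) + 1) ^ (t + 1 + 1 + 1) ≤ (4 * (N₁ : ℝ) + 1) ^ (t + 3) := by
      have : (L' : ℝ) ≤ N₁ := by exact_mod_cast h.le
      gcongr
    refine h3.trans ?_
    have a1 := Nat.le_ceil ((4 * (N₁ : ℝ) + 1) ^ (t + 3) / ε')
    have a2 : ⌈(4 * (N₁ : ℝ) + 1) ^ (t + 3) / ε'⌉₊ ≤ N := by omega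
    have a3 : ((⌈(4 * (N₁ : ℝ) + 1) ^ (t + 3) / ε'⌉₊ : ℕ) : ℝ) ≤ N := Nat.cast_le.2 a2
    have a4 := a1.trans a3
    rw [div_le_iff₀ hε'] at a4
    have a5 : (N : ℝ) ≤ (N : ℝ) ^ (t + 1 + 2) := le_self_pow₀ hN1 (by omega)
    calc (4 * (N₁ : ℝ) + 1) ^ (t + 3) ≤ N * ε' := a4
      _ ≤ (N : ℝ) ^ (t + 1 + 2) * ε' := mul_le_mul_of_nonneg_right a5 hε'.le
      _ = _ := mul_comm _ _

/-- **linear patterns in invariant functions** -/
theorem countF2 (HVN : S_VN2) {d t : ℕ} (L : Fin t → Fin d → ℤ) (K : ℕ)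
    (h1 : ∀ i, ∃ v : Fin d → ℤ, ∑ l, L i l * v l ≠ 0)
    (h2 : ∀ i j, i ≠ j → ∃ v : Fin d → ℤ, ∑ l, L j l * v l = 0 ∧ ∑ l, L i l * v l ≠ 0)
    (s : Fin t → ℤ) (hs : ∀ i, s i = 1 ∨ s i = -1) {ε : ℝ} (hε : 0 < ε) : ∃ N₀ : ℕ,
    ∀ F : Fin t → ℤ → ℝ, (∀ i, InvF (F i)) → ∀ μ : Fin t → ℝ, (∀ i, MeanF (s i) (F i) (μ i)) →
    ∀ N : ℕ, N₀ ≤ N → ∀ c : Fin t → ℤ, (∀ i, |c i| ≤ (K : ℤ) * N) →
    ∀ a b : Fin d → ℤ, (∀ l, -(N : ℤ) ≤ a l ∧ b l ≤ N) → ∀ M M' : Fin t → ℕ,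
    |∑ x ∈ Finset.Icc a b, ∏ i, fcut (s i) (F i) (M i) (M' i) (∑ l, L i l * x l + c i) -
      (∏ i, μ i) * ∑ x ∈ Finset.Icc a b, ∏ i, fcut (s i) (fun _ => 1) (M i) (M' i) (∑ l, L i l * x l + c i)| ≤
      ε * (N : ℝ) ^ d := by
  classical
  rcases t with _ | t
  · refine ⟨0, fun F _ μ _ N _ c _ a b _ M M' => ?_⟩
    simp
    positivity
  choose N₀ H using fun j : Fin (t + 1) => slot2 HVN L K h1 h2 (hs j) (ε := ε / (4 * (t + 1))) (by positivity)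
  refine ⟨∑ j, N₀ j, fun F hF μ hμ N hN c hc a b hab M M' => ?_⟩
  have hμ1 : ∀ i, |μ i| ≤ 1 := fun i => mean_abs (hF i).1 (hμ i)
  set P : Fin (t + 1) → (Fin d → ℤ) → ℤ := fun i x => ∑ l, L i l * x l + c i with hP
  set Aa : Fin (t + 1) → ℤ → ℝ := fun i => fcut (s i) (F i) (M i) (M' i) with hAa
  set Bb : Fin (t + 1) → ℤ → ℝ := fun i => fcut (s i) (fun _ => μ i) (M i) (M' i) with hBb
  have hA1 : ∀ i n, |Aa i n| ≤ 1 := fun i n => fcut_abs (hF i).1 _ _ _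
  have hB1 : ∀ i n, |Bb i n| ≤ 1 := fun i n => fcut_abs (fun _ => hμ1 i) _ _ _
  set q : ℕ → ℝ := fun j => ∑ x ∈ Finset.Icc a b, ∏ i : Fin (t + 1), (if (i : ℕ) < j then Bb i (P i x) else Aa i (P i x)) with hq
  have hq0 : q 0 = ∑ x ∈ Finset.Icc a b, ∏ i, Aa i (P i x) := by
    simp only [hq, Nat.not_lt_zero, if_false]
  have hqt : q (t + 1) = (∏ i, μ i) * ∑ x ∈ Finset.Icc a b, ∏ i, fcut (s i) (fun _ => 1) (M i) (M' i) (P i x) := by
    simp only [hq]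
    rw [Finset.mul_sum]
    refine Finset.sum_congr rfl fun x _ => ?_
    rw [← Finset.prod_mul_distrib]
    refine Finset.prod_congr rfl fun i _ => ?_
    rw [if_pos i.2, hBb]
    simp only [fcut]
    split_ifs <;> ring
  have hstep : ∀ j : Fin (t + 1), |q j - q (j + 1)| ≤ ε / (t + 1) * (N : ℝ) ^ d := by
    intro j
    set h : ℕ → Fin (t + 1) → ℤ → ℝ := fun K i => if i = j then gcut (s j) (F j) (μ j) K else
      if (i : ℕ) < j then Bb i else Aa i with hh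
    have hh1 : ∀ K i n, |h K i n| ≤ 1 := by
      intro K i n
      simp only [hh]
      split_ifs
      · exact gcut_abs (hF j).1 (hμ1 j) _ _
      · exact hB1 i n
      · exact hA1 i n
    have hsum : q j - q (j + 1) = 2 * ∑ x ∈ Finset.Icc a b, ∏ i, h (max (M j) (M' j)) i (P i x) -
        2 * ∑ x ∈ Finset.Icc a b, ∏ i, h (M j) i (P i x) := by
      simp only [hq]
      rw [← Finset.sum_sub_distrib, Finset.mul_sum, Finset.mul_sum, ← Finset.sum_sub_distrib]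
      refine Finset.sum_congr rfl fun x _ => ?_
      rw [← Finset.mul_prod_erase _ _ (Finset.mem_univ j), ← Finset.mul_prod_erase Finset.univ
        (fun i : Fin (t + 1) => if (i : ℕ) < (j : ℕ) + 1 then Bb i (P i x) else Aa i (P i x)) (Finset.mem_univ j),
        ← Finset.mul_prod_erase Finset.univ (fun i => h (max (M j) (M' j)) i (P i x)) (Finset.mem_univ j),
        ← Finset.mul_prod_erase Finset.univ (fun i => h (M j) i (P i x)) (Finset.mem_univ j)]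
      set R := ∏ i ∈ Finset.univ.erase j, (if (i : ℕ) < (j : ℕ) then Bb i (P i x) else Aa i (P i x)) with hR
      have r1 : ∏ i ∈ Finset.univ.erase j, (if (i : ℕ) < (j : ℕ) + 1 then Bb i (P i x) else Aa i (P i x)) = R := by
        refine Finset.prod_congr rfl fun i hi => ?_
        have hne : (i : ℕ) ≠ j := fun h => Finset.ne_of_mem_erase hi (Fin.ext h)
        by_cases h : (i : ℕ) < j
        · rw [if_pos h, if_pos (by omega)]
        · rw [if_neg h, if_neg (by omega)]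
      have r2 : ∀ K, ∏ i ∈ Finset.univ.erase j, h K i (P i x) = R := by
        intro K
        refine Finset.prod_congr rfl fun i hi => ?_
        simp only [hh]
        rw [if_neg (Finset.ne_of_mem_erase hi)]
        by_cases h : (i : ℕ) < j
        · rw [if_pos h, if_pos h]
        · rw [if_neg h, if_neg h]
      rw [r1, r2, r2]
      simp only [hh, if_true, lt_irrefl, if_false]
      rw [if_pos (by omega)]
      have r3 := fcut_diff (s := s j) (F j) (μ j) (M j) (M' j) (P j x)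
      have r4 : Aa j (P j x) - Bb j (P j x) = fcut (s j) (F j) (M j) (M' j) (P j x) -
        fcut (s j) (fun _ => μ j) (M j) (M' j) (P j x) := rfl
      rw [← r4] at r3
      linear_combination R * r3
    have hNj : N₀ j ≤ N := (Finset.single_le_sum (f := N₀) (fun _ _ => Nat.zero_le _) (Finset.mem_univ j)).trans hN
    have b1 := H j (F j) (hF j) (μ j) (hμ j) N hNj c hc a b hab (h (max (M j) (M' j))) (hh1 _) j (max (M j) (M' j))
      (by simp only [hh, if_true])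
    have b2 := H j (F j) (hF j) (μ j) (hμ j) N hNj c hc a b hab (h (M j)) (hh1 _) j (M j)
      (by simp only [hh, if_true])
    rw [hsum]
    have b3 := abs_le.1 b1
    have b4 := abs_le.1 b2
    have b5 : ε / (t + 1) * (N : ℝ) ^ d = 4 * (ε / (4 * (t + 1)) * (N : ℝ) ^ d) := by field_simp
    rw [b5, abs_le]
    constructor <;> linarith
  rw [← hq0, ← hqt]
  have htel : q 0 - q (t + 1) = ∑ j : Fin (t + 1), (q j - q (j + 1)) := by
    rw [Fin.sum_univ_eq_sum_range (fun j => q j - q (j + 1)) (t + 1), Finset.sum_range_sub']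
  rw [htel]
  refine (Finset.abs_sum_le_sum_abs _ _).trans ((Finset.sum_le_sum fun j _ => hstep j).trans ?_)
  rw [Finset.sum_const, Finset.card_univ, Fintype.card_fin, nsmul_eq_mul]
  apply le_of_eq
  push_cast
  field_simp

/-- uniformity in the coefficients -/
theorem t_COUNT (HVN : S_VN2) : S_COUNT := by
  classical
  intro d t K s hs ε hε
  have key : ∀ L : Fin t → Fin d → ℤ, ∃ N₀ : ℕ, Nonprop L →
      ∀ F : Fin t → ℤ → ℝ, (∀ i, InvF (F i)) → ∀ μ : Fin t → ℝ, (∀ i, MeanF (s i) (F i) (μ i)) →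
      ∀ N : ℕ, N₀ ≤ N → ∀ c : Fin t → ℤ, (∀ i, |c i| ≤ (K : ℤ) * N) →
      ∀ a b : Fin d → ℤ, (∀ l, -(N : ℤ) ≤ a l ∧ b l ≤ N) → ∀ M M' : Fin t → ℕ,
      |∑ x ∈ Finset.Icc a b, ∏ i, fcut (s i) (F i) (M i) (M' i) (∑ l, L i l * x l + c i) -
        (∏ i, μ i) * ∑ x ∈ Finset.Icc a b, ∏ i, fcut (s i) (fun _ => 1) (M i) (M' i) (∑ l, L i l * x l + c i)| ≤
        ε * (N : ℝ) ^ d := by
    intro L
    by_cases h : Nonprop L
    · obtain ⟨N₀, h0⟩ := countF2 HVN L K (nonprop_one h) (nonprop_two h) s hs hε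
      exact ⟨N₀, fun _ => h0⟩
    · exact ⟨0, fun h' => absurd h' h⟩
  choose N₀ H using key
  set P : Finset (Fin t → Fin d → ℤ) := Fintype.piFinset fun _ => Fintype.piFinset fun _ => Finset.Icc (-(K : ℤ)) K with hP
  refine ⟨∑ L ∈ P, N₀ L, fun F hF μ hμ N hN L hL hLn c hc a b hab M M' => ?_⟩
  have hLP : L ∈ P := by
    rw [hP, Fintype.mem_piFinset]
    intro i
    rw [Fintype.mem_piFinset]
    intro l
    rw [Finset.mem_Icc]
    exact abs_le.1 (hL i l)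
  have h1 : N₀ L ≤ ∑ L ∈ P, N₀ L := Finset.single_le_sum (f := N₀) (fun _ _ => Nat.zero_le _) hLP
  exact H L hLn F hF μ hμ N (h1.trans hN) c hc a b hab M M'

end Pool.Agent.J4H80.QU
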