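import Pool.Agent.J4H26.VN.D
import Pool.Agent.J4H80.QU.L6

set_option autoImplicit false

/-! The generalised von Neumann theorem, uniformly in the constants of the forms: the proof of
helper26 (`J4H26/VN/C.lean`, `D.lean`) with the bound `|c| ≤ K N` in place of a fixed constant. -/

namespace Pool.Agent.J4H80.QU.VN

open Finset

/-- sum over the points of a box of the box norms -/
theorem sum_points2 (hRES : S_BOXRES) {d t H N A Q : ℕ} (hQ : 8 * (A + 1) ≤ Q) (hHN : H ≤ N) (hN : 1 ≤ N)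
    {a b : Fin (d + 1) → ℤ} (hab : ∀ l, -(N : ℤ) ≤ a l ∧ b l ≤ N) (L : Fin (d + 1) → ℤ) (c : ℤ)
    (l₀ : Fin (d + 1)) (hl₀ : L l₀ ≠ 0) (e : Fin (t + 2) → ℤ) (he : ∀ k, e k ≠ 0)
    (K : ℕ) (hc : |c| ≤ (K : ℤ) * N)
    (hA : (∑ l, (L l).natAbs) + K + (∑ k, (e k).natAbs) ≤ A) (f : ℤ → ℝ) :
    ∑ x ∈ Finset.Icc a b, Box (t + 2) (fun h : Fin (t + 2) → Fin H =>
        f ((∑ l, L l * x l + c) + ∑ k, e k * (((h k : Fin H) : ℕ) : ℤ))) ≤
      (2 * (N : ℝ) + 1) ^ d * ((H : ℝ) ^ (t + 2) *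
        UG (t + 2) (fun x : ZMod (Q * N + 1) => if |x.valMinAbs| ≤ (A : ℤ) * N then f x.valMinAbs else 0)) := by
  classical
  set G : ZMod (Q * N + 1) → ℝ := fun x => if |x.valMinAbs| ≤ (A : ℤ) * N then f x.valMinAbs else 0 with hG
  set ei : Fin (t + 2) → Fin H → ZMod (Q * N + 1) := fun k u => ((e k * ((u : ℕ) : ℤ) : ℤ) : ZMod (Q * N + 1)) with hei
  set BX : ZMod (Q * N + 1) → ℝ := fun y => Box (t + 2) (fun h : Fin (t + 2) → Fin H => G (y + ∑ k, ei k (h k))) with hBX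
  have hNz : (1 : ℤ) ≤ N := by exact_mod_cast hN
  -- sizes
  have hx : ∀ x ∈ Finset.Icc a b, |∑ l, L l * x l + c| ≤ (((∑ l, (L l).natAbs) + K : ℕ) : ℤ) * N := by
    intro x hx
    rw [Finset.mem_Icc] at hx
    have h1 := abs_form L x N fun l => abs_le.2 ⟨(hab l).1.trans (hx.1 l), (hx.2 l).trans (hab l).2⟩
    refine (abs_add_le _ _).trans ?_
    push_cast at h1 ⊢
    linarith
  have hh : ∀ h : Fin (t + 2) → Fin H, |∑ k, e k * (((h k : Fin H) : ℕ) : ℤ)| ≤ ((∑ k, (e k).natAbs : ℕ) : ℤ) * N := by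
    intro h
    refine abs_form e _ N fun k => ?_
    rw [Nat.abs_cast]
    have := (h k).2
    exact_mod_cast (this.le.trans hHN)
  have hAz : ((((∑ l, (L l).natAbs) + K : ℕ) : ℤ) * N) + ((∑ k, (e k).natAbs : ℕ) : ℤ) * N ≤ (A : ℤ) * N := by
    rw [← add_mul]
    refine mul_le_mul_of_nonneg_right ?_ (by positivity)
    exact_mod_cast hA
  have hAQ : 2 * ((A : ℤ) * N) < ((Q * N + 1 : ℕ) : ℤ) := by
    push_cast
    have : (8 * ((A : ℤ) + 1)) ≤ Q := by exact_mod_cast hQ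
    have h3 : (8 * ((A : ℤ) + 1)) * N ≤ Q * N := mul_le_mul_of_nonneg_right this (by positivity)
    have h4 : (0 : ℤ) ≤ (A : ℤ) * N := by positivity
    nlinarith
  have hval : ∀ x ∈ Finset.Icc a b, ∀ h : Fin (t + 2) → Fin H,
      f ((∑ l, L l * x l + c) + ∑ k, e k * (((h k : Fin H) : ℕ) : ℤ)) =
        G (((∑ l, L l * x l + c : ℤ) : ZMod (Q * N + 1)) + ∑ k, ei k (h k)) := by
    intro x hxm h
    have h1 : |(∑ l, L l * x l + c) + ∑ k, e k * (((h k : Fin H) : ℕ) : ℤ)| ≤ (A : ℤ) * N :=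
      (abs_add_le _ _).trans ((add_le_add (hx x hxm) (hh h)).trans hAz)
    have h2 : (((∑ l, L l * x l + c : ℤ) : ZMod (Q * N + 1)) + ∑ k, ei k (h k)) =
        (((∑ l, L l * x l + c) + ∑ k, e k * (((h k : Fin H) : ℕ) : ℤ) : ℤ) : ZMod (Q * N + 1)) := by
      rw [hei]
      push_cast
      rfl
    rw [h2, hG]
    simp only
    rw [vma (by linarith), if_pos h1]
  have hsum : ∑ x ∈ Finset.Icc a b, Box (t + 2) (fun h : Fin (t + 2) → Fin H =>
        f ((∑ l, L l * x l + c) + ∑ k, e k * (((h k : Fin H) : ℕ) : ℤ))) =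
      ∑ x ∈ Finset.Icc a b, BX ((∑ l, L l * x l + c : ℤ) : ZMod (Q * N + 1)) := by
    refine Finset.sum_congr rfl fun x hxm => ?_
    rw [hBX]
    simp only
    congr 1
    funext h
    exact hval x hxm h
  have hBX0 : ∀ y, 0 ≤ BX y := fun y => Box_nonneg (t + 1) _
  have hinj : ∀ k, Function.Injective (ei k) := by
    intro k u u' huu
    rw [hei] at huu
    simp only at huu
    have hb : ∀ u : Fin H, |e k * ((u : ℕ) : ℤ)| ≤ (A : ℤ) * N := by
      intro u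
      rw [abs_mul, Nat.abs_cast]
      have h1 : |e k| ≤ (A : ℤ) := by
        rw [← Int.natCast_natAbs]
        have h2 : (e k).natAbs ≤ ∑ k, (e k).natAbs := Finset.single_le_sum (f := fun k => (e k).natAbs)
          (fun _ _ => Nat.zero_le _) (Finset.mem_univ k)
        have h3 : (e k).natAbs ≤ A := by omega
        exact_mod_cast h3
      have h4 : ((u : ℕ) : ℤ) ≤ N := by
        have := u.2
        exact_mod_cast (this.le.trans hHN)
      exact mul_le_mul h1 h4 (by positivity) (by positivity)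
    have h1 := congrArg ZMod.valMinAbs huu
    rw [vma (by linarith [hb u]), vma (by linarith [hb u'])] at h1
    have h2 := mul_left_cancel₀ (he k) h1
    exact Fin.ext (by exact_mod_cast h2)
  have hR := hRES (ZMod (Q * N + 1)) (Fin H) t G ei hinj
  rw [Fintype.card_fin] at hR
  rw [hsum]
  have hfib : ∑ x ∈ Finset.Icc a b, BX ((∑ l, L l * x l + c : ℤ) : ZMod (Q * N + 1)) ≤
      ∑ y : ZMod (Q * N + 1), (2 * (N : ℝ) + 1) ^ d * BX y := by
    rw [← Finset.sum_fiberwise (Finset.Icc a b) (fun x => ((∑ l, L l * x l + c : ℤ) : ZMod (Q * N + 1)))]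
    refine Finset.sum_le_sum fun y _ => ?_
    have h1 : ∀ x ∈ (Finset.Icc a b).filter (fun x => ((∑ l, L l * x l + c : ℤ) : ZMod (Q * N + 1)) = y),
        BX ((∑ l, L l * x l + c : ℤ) : ZMod (Q * N + 1)) = BX y := by
      intro x hxm
      rw [(Finset.mem_filter.1 hxm).2]
    rw [Finset.sum_congr rfl h1, Finset.sum_const, nsmul_eq_mul]
    refine mul_le_mul_of_nonneg_right ?_ (hBX0 y)
    have h2 : (Finset.Icc a b).filter (fun x => ((∑ l, L l * x l + c : ℤ) : ZMod (Q * N + 1)) = y) ⊆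
        (Finset.Icc a b).filter (fun x => ∑ l, L l * x l + c = y.valMinAbs) := by
      intro x hxm
      rw [Finset.mem_filter] at hxm ⊢
      refine ⟨hxm.1, ?_⟩
      rw [← hxm.2, vma]
      have h3 := hx x hxm.1
      have h4 : (0 : ℤ) ≤ ((∑ k, (e k).natAbs : ℕ) : ℤ) * N := by positivity
      linarith
    have h3 := (Finset.card_le_card h2).trans (card_value hab L l₀ hl₀ c y.valMinAbs)
    rw [Nat.add_sub_cancel] at h3
    calc (((Finset.Icc a b).filter (fun x => ((∑ l, L l * x l + c : ℤ) : ZMod (Q * N + 1)) = y)).card : ℝ)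
        ≤ (((2 * N + 1) ^ d : ℕ) : ℝ) := by exact_mod_cast h3
      _ = (2 * (N : ℝ) + 1) ^ d := by push_cast; rfl
  refine hfib.trans ?_
  rw [← Finset.mul_sum]
  exact mul_le_mul_of_nonneg_left hR (by positivity)

end Pool.Agent.J4H80.QU.VN

namespace Pool.Agent.J4H80.QU

open Finset VN

/-- **The generalised von Neumann theorem**, uniformly in the constants. -/
theorem t_VN2 (hCS : S_BOXCS) (hRES : S_BOXRES) : S_VN2 := by
  classical
  intro d t L h1 h2 K ε hε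
  rcases t with _ | t
  · exact ⟨0, 8, 0, 1, one_pos, by norm_num, fun N _ c _ a b _ f _ i₀ => i₀.elim0⟩
  rcases d with _ | d
  · obtain ⟨v, hv⟩ := h1 0
    simp at hv
  obtain ⟨v, hv⟩ := directions L h1 h2
  have hex : ∀ i₀ : Fin (t + 1), ∃ l₀, L i₀ l₀ ≠ 0 := by
    intro i₀
    by_contra hcon
    push Not at hcon
    obtain ⟨w, hw⟩ := h1 i₀
    exact hw (Finset.sum_eq_zero fun l _ => by rw [hcon l, zero_mul])
  set e : Fin (t + 1) → Fin (t + 1) → Fin (t + 2) → ℤ := fun i₀ i k => ∑ l, L i l * v i₀ k l with he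
  set V : ℕ := ∑ i, ∑ k, ∑ l, (v i k l).natAbs with hV
  set A : ℕ := (∑ i, ∑ l, (L i l).natAbs) + K + (∑ i, ∑ k, (e i i k).natAbs) with hA
  set κ : ℝ := min 1 (ε / (8 * (d + 1) * (V + 1) * 3 ^ d)) with hκdef
  have hκ : 0 < κ := lt_min one_pos (by positivity)
  have hκ1 : κ ≤ 1 := min_le_left _ _
  have hκ2 : κ * (8 * (d + 1) * (V + 1) * 3 ^ d) ≤ ε := by
    have h3 : κ ≤ ε / (8 * (d + 1) * (V + 1) * 3 ^ d) := min_le_right _ _
    rwa [le_div_iff₀ (by positivity)] at h3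
  refine ⟨A, 8 * (A + 1), ⌈2 / κ⌉₊ + 1, (ε / 2) ^ (2 ^ (t + 2)) * (κ / 2) ^ (t + 2) / (3 ^ (d + 1)) ^ (2 ^ (t + 2)),
    by positivity, le_rfl, fun N hN c hcK a b hab f hf i₀ hUG => ?_⟩
  have hN1 : 1 ≤ N := by omega
  have hNr : (1 : ℝ) ≤ N := by exact_mod_cast hN1
  have hN2 : 2 / κ ≤ N := by
    refine (Nat.le_ceil _).trans ?_
    exact_mod_cast (show ⌈2 / κ⌉₊ ≤ N by omega)
  rw [div_le_iff₀ hκ] at hN2
  set H : ℕ := ⌊κ * N⌋₊ with hHdef
  have hHle : (H : ℝ) ≤ κ * N := Nat.floor_le (by positivity)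
  have hHge : κ / 2 * N ≤ H := by
    have := Nat.lt_floor_add_one (κ * (N : ℝ))
    rw [← hHdef] at this
    nlinarith
  have hHpos : (0 : ℝ) < H := lt_of_lt_of_le (by positivity) hHge
  have hHN : H ≤ N := by
    have : (H : ℝ) ≤ N := hHle.trans (mul_le_of_le_one_left (by positivity) hκ1)
    exact_mod_cast this
  obtain ⟨m, hm⟩ : ∃ m, 2 ^ (t + 2) = m + 2 := by
    refine ⟨2 ^ (t + 2) - 2, ?_⟩
    have : 2 ^ 1 ≤ 2 ^ (t + 2) := Nat.pow_le_pow_right (by norm_num) (by omega)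
    omega
  -- the sum over the shifts at a point
  set S : (Fin (d + 1) → ℤ) → ℝ := fun x => ∑ h : Fin (t + 2) → Fin H, ∏ i, f i (arg L c (e i₀) i x h) with hS
  set P : (Fin (d + 1) → ℤ) → ℝ := fun x => ∏ i, f i (∑ l, L i l * x l + c i) with hP
  have hP1 : ∀ x, |P x| ≤ 1 := by
    intro x
    rw [hP]
    simp only
    rw [Finset.abs_prod]
    exact Finset.prod_le_one (fun _ _ => abs_nonneg _) fun i _ => hf i _
  set w : (Fin (t + 2) → Fin H) → Fin (d + 1) → ℤ := fun h l => ∑ k, (((h k : Fin H) : ℕ) : ℤ) * v i₀ k l with hw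
  have hwle : ∀ h l, |w h l| ≤ ((H * V : ℕ) : ℤ) := by
    intro h l
    rw [hw]
    simp only
    refine (Finset.abs_sum_le_sum_abs _ _).trans ?_
    have h3 : ∀ k, |(((h k : Fin H) : ℕ) : ℤ) * v i₀ k l| ≤ (H : ℤ) * ((v i₀ k l).natAbs : ℤ) := by
      intro k
      rw [abs_mul, Nat.abs_cast, Int.natCast_natAbs]
      refine mul_le_mul_of_nonneg_right ?_ (abs_nonneg _)
      exact_mod_cast (h k).2.le
    refine (Finset.sum_le_sum fun k _ => h3 k).trans ?_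
    rw [← Finset.mul_sum]
    push_cast
    refine mul_le_mul_of_nonneg_left ?_ (by positivity)
    have h4 : ∑ k, (v i₀ k l).natAbs ≤ V := by
      rw [hV]
      calc ∑ k, (v i₀ k l).natAbs ≤ ∑ k, ∑ l, (v i₀ k l).natAbs := Finset.sum_le_sum fun k _ =>
            Finset.single_le_sum (f := fun l => (v i₀ k l).natAbs) (fun _ _ => Nat.zero_le _) (Finset.mem_univ l)
        _ ≤ _ := Finset.single_le_sum (f := fun i => ∑ k, ∑ l, (v i k l).natAbs) (fun _ _ => Nat.zero_le _)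
            (Finset.mem_univ i₀)
    have h5 : ((∑ k, (v i₀ k l).natAbs : ℕ) : ℤ) ≤ (V : ℤ) := by exact_mod_cast h4
    push_cast at h5
    simpa using h5
  set T : ℝ := ∑ x ∈ Finset.Icc a b, P x with hT
  set Err : ℝ := 2 * ((((d + 1) * (2 * (H * V)) * (2 * N + 1) ^ (d + 1 - 1) : ℕ)) : ℝ) with hErr
  have hshift : ∀ h, |T - ∑ x ∈ Finset.Icc a b, P (x + w h)| ≤ Err := fun h =>
    sum_shift (W := H * V) hab (hwle h) P hP1
  have hPS : ∀ x, ∑ h, P (x + w h) = S x := by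
    intro x
    rw [hS, hP]
    simp only
    refine Finset.sum_congr rfl fun h _ => Finset.prod_congr rfl fun i _ => ?_
    congr 1
    exact arg_shift L c (v i₀) i x h
  have hcardH : (Fintype.card (Fin (t + 2) → Fin H) : ℝ) = (H : ℝ) ^ (t + 2) := by
    rw [Fintype.card_fun, Fintype.card_fin, Fintype.card_fin]
    push_cast
    rfl
  have hmain : (H : ℝ) ^ (t + 2) * |T| ≤ (H : ℝ) ^ (t + 2) * Err + ∑ x ∈ Finset.Icc a b, |S x| := by
    have e1 : (H : ℝ) ^ (t + 2) * T = ∑ h : Fin (t + 2) → Fin H, (T - ∑ x ∈ Finset.Icc a b, P (x + w h)) +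
        ∑ x ∈ Finset.Icc a b, S x := by
      rw [Finset.sum_sub_distrib, Finset.sum_const, nsmul_eq_mul, Finset.card_univ, hcardH, Finset.sum_comm,
        Finset.sum_congr rfl fun x _ => hPS x]
      ring
    have e2 : (H : ℝ) ^ (t + 2) * |T| = |(H : ℝ) ^ (t + 2) * T| := by
      rw [abs_mul, abs_of_nonneg (by positivity : (0:ℝ) ≤ (H : ℝ) ^ (t + 2))]
    rw [e2, e1]
    refine (abs_add_le _ _).trans (add_le_add ?_ (Finset.abs_sum_le_sum_abs _ _))
    refine (Finset.abs_sum_le_sum_abs _ _).trans ((Finset.sum_le_sum fun h _ => hshift h).trans ?_)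
    rw [Finset.sum_const, nsmul_eq_mul, Finset.card_univ, hcardH]
  -- the bound for the sum of the `|S x|`
  obtain ⟨l₀, hl₀⟩ := hex i₀
  have hAi : (∑ l, (L i₀ l).natAbs) + K + (∑ k, (e i₀ i₀ k).natAbs) ≤ A := by
    rw [hA]
    have b1 : ∑ l, (L i₀ l).natAbs ≤ ∑ i, ∑ l, (L i l).natAbs :=
      Finset.single_le_sum (f := fun i => ∑ l, (L i l).natAbs) (fun _ _ => Nat.zero_le _) (Finset.mem_univ i₀)
    have b3 : ∑ k, (e i₀ i₀ k).natAbs ≤ ∑ i, ∑ k, (e i i k).natAbs :=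
      Finset.single_le_sum (f := fun i => ∑ k, (e i i k).natAbs) (fun _ _ => Nat.zero_le _) (Finset.mem_univ i₀)
    omega
  have hpt : ∀ x, |S x| ^ (m + 2) ≤ (H : ℝ) ^ ((t + 2) * m) *
      Box (t + 2) (fun h : Fin (t + 2) → Fin H => f i₀ (arg L c (e i₀) i₀ x h)) := by
    intro x
    have h3 := point_bound hCS (H := H) L c (e i₀) i₀ (fun i hi => (hv i₀ i.castSucc).2 i hi rfl) f hf x
    have h4 : (t + 1 + 1) * 2 ^ (t + 1 + 1) - 2 * (t + 1 + 1) = (t + 2) * m := by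
      rw [show t + 1 + 1 = t + 2 from rfl, hm, mul_add, mul_comm (t + 2) 2, Nat.add_sub_cancel]
    have hm' : 2 ^ (t + 1 + 1) = m + 2 := hm
    rw [h4, hm'] at h3
    exact h3
  have hsumB := sum_points2 hRES (t := t) (H := H) (N := N) (A := A) (Q := 8 * (A + 1)) le_rfl hHN hN1 hab (L i₀) (c i₀)
    l₀ hl₀ (e i₀ i₀) (fun k => (hv i₀ k).1) K (hcK i₀) hAi (f i₀)
  have hSum : (∑ x ∈ Finset.Icc a b, |S x|) ^ (m + 2) ≤ ((2 * (N : ℝ) + 1) ^ (d + 1)) ^ (m + 1) *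
      ((H : ℝ) ^ ((t + 2) * m) * ((2 * (N : ℝ) + 1) ^ d * ((H : ℝ) ^ (t + 2) *
      ((ε / 2) ^ (m + 2) * (κ / 2) ^ (t + 2) / (3 ^ (d + 1)) ^ (m + 2) * (N : ℝ) ^ (t + 3))))) := by
    have h3 := pow_sum_le_card_mul_sum_pow (s := Finset.Icc a b) (f := fun x => |S x|) (fun x _ => abs_nonneg _) (m + 1)
    refine h3.trans ?_
    have h4 : ((Finset.Icc a b).card : ℝ) ≤ (2 * (N : ℝ) + 1) ^ (d + 1) := by
      have := card_box hab
      exact_mod_cast this
    have h5 : ∑ x ∈ Finset.Icc a b, |S x| ^ (m + 1 + 1) ≤ (H : ℝ) ^ ((t + 2) * m) *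
        ((2 * (N : ℝ) + 1) ^ d * ((H : ℝ) ^ (t + 2) *
        ((ε / 2) ^ (m + 2) * (κ / 2) ^ (t + 2) / (3 ^ (d + 1)) ^ (m + 2) * (N : ℝ) ^ (t + 3)))) := by
      refine (Finset.sum_le_sum fun x _ => hpt x).trans ?_
      rw [← Finset.mul_sum]
      refine mul_le_mul_of_nonneg_left (hsumB.trans ?_) (by positivity)
      refine mul_le_mul_of_nonneg_left (mul_le_mul_of_nonneg_left ?_ (by positivity)) (by positivity)
      rw [← hm]
      exact hUG
    gcongr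
  have hU := numer (d := d) (t := t) (m := m) hNr hκ hε hHge (by positivity) (by linarith)
    (Finset.sum_nonneg fun x _ => abs_nonneg (S x)) hSum
  have hE : Err ≤ ε / 2 * (N : ℝ) ^ (d + 1) := by
    rw [hErr, Nat.add_sub_cancel]
    push_cast
    calc 2 * (((d : ℝ) + 1) * (2 * ((H : ℝ) * V)) * (2 * (N : ℝ) + 1) ^ d)
        ≤ 2 * (((d : ℝ) + 1) * (2 * ((κ * N) * (V + 1))) * (3 * (N : ℝ)) ^ d) := by
          gcongr
          · linarith
          · linarith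
      _ = (κ * (8 * (d + 1) * (V + 1) * 3 ^ d)) / 2 * (N : ℝ) ^ (d + 1) := by
          rw [mul_pow]
          ring
      _ ≤ ε / 2 * (N : ℝ) ^ (d + 1) := by gcongr
  have hfin : (H : ℝ) ^ (t + 2) * |T| ≤ (H : ℝ) ^ (t + 2) * (ε * (N : ℝ) ^ (d + 1)) := by
    refine hmain.trans ?_
    calc (H : ℝ) ^ (t + 2) * Err + ∑ x ∈ Finset.Icc a b, |S x|
        ≤ (H : ℝ) ^ (t + 2) * (ε / 2 * (N : ℝ) ^ (d + 1)) + ε / 2 * (N : ℝ) ^ (d + 1) * (H : ℝ) ^ (t + 2) := by gcongr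
      _ = _ := by ring
  exact le_of_mul_le_mul_left hfin (by positivity)

end Pool.Agent.J4H80.QU
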