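import Pool.Agent.J4H80.QU.M1
import Pool.Agent.J4H8.QU.Box

set_option autoImplicit false

/-! Linear patterns in invariant sets: words of fates along progressions, and the criterion. -/

namespace Pool.Agent.J4H80.QU

open Filter Topology Finset

/-- the uniform count of patterns -/
theorem count_done : S_COUNT := t_COUNT (t_VN2 Pool.Agent.J4H8.QU.t_BOXCS Pool.Agent.J4H8.QU.t_BOXRES)

theorem invS_compl {S : Set ℤ} (hS : InvS S) : InvS Sᶜ := fun x => not_congr (hS x)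

theorem mean_compl {s : ℤ} {S : Set ℤ} {δ : ℝ} (h : MeanF s (S.indicator fun _ => (1 : ℝ)) δ) :
    MeanF s ((Sᶜ).indicator fun _ => (1 : ℝ)) (1 - δ) := by
  unfold MeanF at h ⊢
  have h1 : Tendsto (fun N : ℕ => (1 : ℝ) - (∑ n ∈ Finset.Icc 1 N, S.indicator (fun _ => (1 : ℝ)) (s * n)) / N) atTop
      (𝓝 (1 - δ)) := tendsto_const_nhds.sub h
  refine h1.congr' ?_
  filter_upwards [eventually_gt_atTop 0] with N hN
  have hNR : (N : ℝ) ≠ 0 := by exact_mod_cast hN.ne'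
  have e : ∑ n ∈ Finset.Icc 1 N, (Sᶜ).indicator (fun _ => (1 : ℝ)) (s * (n : ℤ)) =
      N - ∑ n ∈ Finset.Icc 1 N, S.indicator (fun _ => (1 : ℝ)) (s * (n : ℤ)) := by
    have e1 : (N : ℝ) = ∑ n ∈ Finset.Icc 1 N, (1 : ℝ) := by simp
    rw [e1, ← Finset.sum_sub_distrib]
    refine Finset.sum_congr rfl fun n _ => ?_
    classical
    rw [Set.indicator_apply, Set.indicator_apply]
    by_cases hx : s * (n : ℤ) ∈ S
    · rw [if_pos hx, if_neg (fun h => h hx)]; ring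
    · rw [if_neg hx, if_pos (show s * (n : ℤ) ∈ Sᶜ from hx)]; ring
  rw [e]
  field_simp

theorem mean_pos {s : ℤ} (hs : s = 1 ∨ s = -1) {S : Set ℤ} (hS : InvS S) (hne : ∃ x ∈ S, 0 < s * x) :
    ∃ δ : ℝ, 0 < δ ∧ MeanF s (S.indicator fun _ => (1 : ℝ)) δ := by
  obtain ⟨δ, h0, h1⟩ := Pool.Agent.Results.MP_d02c56_nt.FourierUniformity.dens_pos hs
    (show Pool.Agent.Results.MP_d02c56_nt.FourierUniformity.Invariant S from hS) hne
  exact ⟨δ, h0, dens_mean hs hS h1⟩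

theorem mean_unique {s : ℤ} {F : ℤ → ℝ} {μ ν : ℝ} (h1 : MeanF s F μ) (h2 : MeanF s F ν) : μ = ν :=
  tendsto_nhds_unique h1 h2

theorem mean_zero {s : ℤ} {S : Set ℤ} (h : ∀ x ∈ S, ¬ 0 < s * x) (hs : s = 1 ∨ s = -1) :
    MeanF s (S.indicator fun _ => (1 : ℝ)) 0 := by
  unfold MeanF
  refine tendsto_const_nhds.congr fun N => ?_
  rw [Finset.sum_eq_zero, zero_div]
  intro n hn
  rw [Finset.mem_Icc] at hn
  rw [Set.indicator_of_notMem]
  intro hx
  refine h _ hx ?_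
  rw [← mul_assoc]
  rcases hs with rfl | rfl
  · simp only [one_mul]; omega
  · simp only [neg_one_mul, neg_neg, one_mul]; omega

/-- words along progressions -/
theorem words {s : ℤ} (hs : s = 1 ∨ s = -1) {E : Set ℤ} (hE : InvS E) {δ : ℝ}
    (hδ : MeanF s (E.indicator fun _ => (1 : ℝ)) δ) {k : ℕ} (hk : 2 ≤ k) (A : Finset (Fin k)) :
    Tendsto (fun N : ℕ => ({p : ℕ × ℕ | 1 ≤ p.1 ∧ 1 ≤ p.2 ∧ p.1 + (k - 1) * p.2 ≤ N ∧
      ∀ i : Fin k, (s * (p.1 + i * p.2 : ℤ) ∈ E ↔ i ∈ A)}.ncard : ℝ) / (N : ℝ) ^ 2) atTop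
      (𝓝 (δ ^ A.card * (1 - δ) ^ (k - A.card) / (2 * (k - 1)))) := by
  classical
  have hkR : (0 : ℝ) < k - 1 := by
    have : (2 : ℝ) ≤ k := by exact_mod_cast hk
    linarith
  set S : Fin k → Set ℤ := fun i => if i ∈ A then E else Eᶜ with hSdef
  have hS : ∀ i, InvS (S i) := by
    intro i
    simp only [hSdef]
    split_ifs
    · exact hE
    · exact invS_compl hE
  set δ' : Fin k → ℝ := fun i => if i ∈ A then δ else 1 - δ with hδ'
  have hm : ∀ i, MeanF s ((S i).indicator fun _ => (1 : ℝ)) (δ' i) := by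
    intro i
    simp only [hSdef, hδ']
    split_ifs
    · exact hδ
    · exact mean_compl hδ
  have hprod : ∏ i, δ' i = δ ^ A.card * (1 - δ) ^ (k - A.card) := by
    simp only [hδ']
    rw [Finset.prod_ite, Finset.prod_const, Finset.prod_const]
    congr 2
    · congr 1
      ext i
      simp
    · have h1 : (Finset.univ.filter fun i : Fin k => i ∉ A) = Aᶜ := by ext i; simp
      rw [h1, Finset.card_compl, Fintype.card_fin]
  have hset : ∀ N : ℕ, Prog s N S = {p : ℕ × ℕ | 1 ≤ p.1 ∧ 1 ≤ p.2 ∧ p.1 + (k - 1) * p.2 ≤ N ∧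
      ∀ i : Fin k, (s * (p.1 + i * p.2 : ℤ) ∈ E ↔ i ∈ A)}.ncard := by
    intro N
    unfold Prog
    congr 1
    ext p
    simp only [Set.mem_ofPred_eq, hSdef]
    refine and_congr_right fun _ => and_congr_right fun _ => and_congr_right fun _ => forall_congr' fun i => ?_
    by_cases hi : i ∈ A
    · rw [if_pos hi]; exact ⟨fun h => ⟨fun _ => hi, fun _ => h⟩, fun h => h.2 hi⟩
    · rw [if_neg hi]; exact ⟨fun h => ⟨fun h2 => absurd h2 h, fun h2 => absurd h2 hi⟩, fun h h2 => hi (h.1 h2)⟩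
  rw [Metric.tendsto_atTop]
  intro ε hε
  obtain ⟨N₀, H⟩ := progs count_done hs hk (show 0 < ε / 2 by positivity)
  refine ⟨N₀ + 1, fun N hN => ?_⟩
  have h1 := H S hS δ' hm N (by omega)
  rw [hset, hprod] at h1
  have hN0 : (0 : ℝ) < N := by exact_mod_cast (by omega : 0 < N)
  rw [Real.dist_eq]
  set X : ℝ := ({p : ℕ × ℕ | 1 ≤ p.1 ∧ 1 ≤ p.2 ∧ p.1 + (k - 1) * p.2 ≤ N ∧
      ∀ i : Fin k, (s * (p.1 + i * p.2 : ℤ) ∈ E ↔ i ∈ A)}.ncard : ℝ) with hX
  have e : X / (N : ℝ) ^ 2 - δ ^ A.card * (1 - δ) ^ (k - A.card) / (2 * (k - 1)) =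
      (X - δ ^ A.card * (1 - δ) ^ (k - A.card) * ((N : ℝ) ^ 2 / (2 * (k - 1)))) / (N : ℝ) ^ 2 := by
    field_simp
  rw [e, abs_div, abs_of_pos (by positivity : (0 : ℝ) < (N : ℝ) ^ 2), div_lt_iff₀ (by positivity)]
  have : 0 < (N : ℝ) ^ 2 := by positivity
  nlinarith

/-- patterns with prescribed nonempty classes have positive density -/
theorem many {d t : ℕ} (s : Fin t → ℤ) (hs : ∀ i, s i = 1 ∨ s i = -1) (L : Fin t → Fin d → ℤ) (hL : Nonprop L)
    (c : Fin t → ℤ) (hpos : ∃ y : Fin d → ℤ, ∀ i, 0 < s i * ∑ l, L i l * y l) (S : Fin t → Set ℤ)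
    (hS : ∀ i, InvS (S i)) (hne : ∀ i, ∃ x ∈ S i, 0 < s i * x) : ∃ κ : ℝ, 0 < κ ∧ ∃ N₀ : ℕ, ∀ N : ℕ, N₀ ≤ N →
    κ * (N : ℝ) ^ d ≤ ({x : Fin d → ℤ | (∀ l, |x l| ≤ N) ∧ ∀ i, 0 < s i * (∑ l, L i l * x l + c i) ∧
      (∑ l, L i l * x l + c i) ∈ S i}.ncard : ℝ) := by
  classical
  choose δ hδ0 hδ using fun i => mean_pos (hs i) (hS i) (hne i)
  obtain ⟨κ, hκ, N₁, H1⟩ := many_points L c s hpos
  have hδp : 0 < ∏ i, δ i := Finset.prod_pos fun i _ => hδ0 i
  set Z : ℕ := ∑ i, ∑ l, (L i l).natAbs with hZ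
  set W : ℕ := ∑ i, (c i).natAbs with hW
  obtain ⟨N₂, H2⟩ := patterns_set count_done d t (Z + W) s hs (show 0 < (∏ i, δ i) * κ / 2 by positivity)
  refine ⟨(∏ i, δ i) * κ / 2, by positivity, N₁ + N₂ + 1, fun N hN => ?_⟩
  have hLZ : ∀ i l, |L i l| ≤ (Z : ℤ) := by
    intro i l
    have h1 : (L i l).natAbs ≤ ∑ l, (L i l).natAbs :=
      Finset.single_le_sum (f := fun l => (L i l).natAbs) (fun _ _ => Nat.zero_le _) (Finset.mem_univ l)
    have h2 : ∑ l, (L i l).natAbs ≤ Z :=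
      Finset.single_le_sum (f := fun i => ∑ l, (L i l).natAbs) (fun _ _ => Nat.zero_le _) (Finset.mem_univ i)
    rw [← Int.natCast_natAbs]
    exact_mod_cast h1.trans h2
  have hcW : ∀ i, |c i| ≤ (W : ℤ) := by
    intro i
    have h1 : (c i).natAbs ≤ W :=
      Finset.single_le_sum (f := fun i => (c i).natAbs) (fun _ _ => Nat.zero_le _) (Finset.mem_univ i)
    rw [← Int.natCast_natAbs]
    exact_mod_cast h1
  have hNz : (1 : ℤ) ≤ N := by exact_mod_cast (by omega : 1 ≤ N)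
  have h3 := H2 S hS δ hδ N (by omega) L
    (fun i l => (hLZ i l).trans (by push_cast; have : (0 : ℤ) ≤ W := Nat.cast_nonneg _; omega)) hL c
    (fun i => (hcW i).trans (by
      push_cast
      have a1 : (0 : ℤ) ≤ Z := Nat.cast_nonneg _
      have a2 : (0 : ℤ) ≤ W := Nat.cast_nonneg _
      nlinarith))
    (fun _ => -(N : ℤ)) (fun _ => (N : ℤ)) (fun l => ⟨le_rfl, le_rfl⟩) (fun _ => 0) (fun _ => (Z + W) * N)
  have hbd : ∀ x : Fin d → ℤ, (∀ l, |x l| ≤ N) → ∀ i, s i * (∑ l, L i l * x l + c i) ≤ (((Z + W) * N : ℕ) : ℤ) := by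
    intro x hx i
    have a1 : |∑ l, L i l * x l| ≤ (Z : ℤ) * N := by
      refine (Finset.abs_sum_le_sum_abs _ _).trans ?_
      calc ∑ l, |L i l * x l| ≤ ∑ l, ((L i l).natAbs : ℤ) * N := by
            refine Finset.sum_le_sum fun l _ => ?_
            rw [abs_mul, Int.natCast_natAbs]
            exact mul_le_mul_of_nonneg_left (hx l) (abs_nonneg _)
        _ = ((∑ l, (L i l).natAbs : ℕ) : ℤ) * N := by push_cast; rw [Finset.sum_mul]
        _ ≤ (Z : ℤ) * N := by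
            refine mul_le_mul_of_nonneg_right ?_ (by positivity)
            have h2 : ∑ l, (L i l).natAbs ≤ Z :=
              Finset.single_le_sum (f := fun i => ∑ l, (L i l).natAbs) (fun _ _ => Nat.zero_le _) (Finset.mem_univ i)
            exact_mod_cast h2
    have a2 : |s i * (∑ l, L i l * x l + c i)| ≤ (Z : ℤ) * N + W := by
      rw [abs_mul]
      have : |s i| = 1 := by rcases hs i with h | h <;> rw [h] <;> norm_num
      rw [this, one_mul]
      exact (abs_add_le _ _).trans (add_le_add a1 (hcW i))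
    refine (le_abs_self _).trans (a2.trans ?_)
    push_cast
    have a3 : (0 : ℤ) ≤ W := Nat.cast_nonneg _
    nlinarith
  have hregion : (Region s L c (fun _ => -(N : ℤ)) (fun _ => (N : ℤ)) (fun _ => 0) (fun _ => (Z + W) * N)) =
      (Finset.Icc (fun _ : Fin d => -(N : ℤ)) (fun _ => (N : ℤ))).filter
      (fun x => ∀ i, 0 < s i * (∑ l, L i l * x l + c i)) := by
    unfold Region Val
    apply Finset.filter_congr
    intro x hx
    rw [Finset.mem_Icc] at hx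
    constructor
    · intro h i
      have := (h i).1
      simpa using this
    · intro h i
      exact ⟨by simpa using h i, hbd x (fun l => abs_le.2 ⟨hx.1 l, hx.2 l⟩) i⟩
  have h4 := H1 N (by omega)
  rw [← hregion] at h4
  have h5 : (Hits s L c (fun _ => -(N : ℤ)) (fun _ => (N : ℤ)) (fun _ => 0) (fun _ => (Z + W) * N) S : ℝ) =
      ({x : Fin d → ℤ | (∀ l, |x l| ≤ N) ∧ ∀ i, 0 < s i * (∑ l, L i l * x l + c i) ∧
      (∑ l, L i l * x l + c i) ∈ S i}.ncard : ℝ) := by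
    unfold Hits
    rw [hregion, ← Set.ncard_coe_finset]
    congr 2
    ext x
    rw [Finset.mem_coe, Finset.mem_filter, Finset.mem_filter, Finset.mem_Icc, Set.mem_ofPred_eq]
    unfold Val
    constructor
    · rintro ⟨⟨⟨h6, h7⟩, h8⟩, h9⟩
      exact ⟨fun l => abs_le.2 ⟨h6 l, h7 l⟩, fun i => ⟨h8 i, h9 i⟩⟩
    · rintro ⟨h6, h7⟩
      exact ⟨⟨⟨fun l => (abs_le.1 (h6 l)).1, fun l => (abs_le.1 (h6 l)).2⟩, fun i => (h7 i).1⟩, fun i => (h7 i).2⟩
  rw [h5] at h3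
  have h6 := (abs_le.1 h3).1
  have h7 := mul_le_mul_of_nonneg_left h4 hδp.le
  nlinarith

end Pool.Agent.J4H80.QU
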