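import Pool.Agent.J4H80.QU.M1

set_option autoImplicit false

/-! The generalised von Neumann theorem with weights that are invariant in given directions: the
proof of helper26 (`J4H26/VN`) with such weights in place of the other factors. -/

namespace Pool.Agent.J4H80.QU

/-- the generalised von Neumann theorem with weights invariant in given directions -/
def S_VN3 : Prop := ∀ (d t K : ℕ) (L : Fin d → ℤ) (v : Fin (t + 2) → Fin d → ℤ), (∀ k, ∑ l, L l * v k l ≠ 0) →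
  ∀ ε : ℝ, 0 < ε → ∃ (A Q N₀ : ℕ) (ε' : ℝ), 0 < ε' ∧ 8 * (A + 1) ≤ Q ∧ ∀ N : ℕ, N₀ ≤ N →
  ∀ c : ℤ, |c| ≤ (K : ℤ) * N →
  ∀ a b : Fin d → ℤ, (∀ l, -(N : ℤ) ≤ a l ∧ b l ≤ N) → ∀ f : ℤ → ℝ, (∀ n, |f n| ≤ 1) →
  ∀ g : Fin (t + 2) → (Fin d → ℤ) → ℂ, (∀ k x, ‖g k x‖ ≤ 1) → (∀ k x, g k (x + v k) = g k x) →
  UG (t + 2) (fun x : ZMod (Q * N + 1) => if |x.valMinAbs| ≤ (A : ℤ) * N then f x.valMinAbs else 0) ≤
    ε' * (N : ℝ) ^ (t + 3) →
  ‖∑ x ∈ Finset.Icc a b, (f (∑ l, L l * x l + c) : ℂ) * ∏ k, g k x‖ ≤ ε * (N : ℝ) ^ d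

end Pool.Agent.J4H80.QU

namespace Pool.Agent.J4H80.QU.VN

open Finset

/-- translating the summand -/
theorem sum_shiftC {d : ℕ} {N W : ℕ} {a b w : Fin d → ℤ} (hab : ∀ l, -(N : ℤ) ≤ a l ∧ b l ≤ N)
    (hw : ∀ l, |w l| ≤ (W : ℤ)) (P : (Fin d → ℤ) → ℂ) (hP : ∀ x, ‖P x‖ ≤ 1) :
    ‖∑ x ∈ Finset.Icc a b, P x - ∑ x ∈ Finset.Icc a b, P (x + w)‖ ≤
      2 * ((d * (2 * W) * (2 * N + 1) ^ (d - 1) : ℕ) : ℝ) := by
  classical
  have e1 : ∑ x ∈ Finset.Icc a b, P (x + w) = ∑ x ∈ Finset.Icc (a + w) (b + w), P x := by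
    rw [← Finset.map_add_right_Icc, Finset.sum_map]
    rfl
  have hcard : (Finset.Icc a b).card = (Finset.Icc (a + w) (b + w)).card := by
    rw [← Finset.map_add_right_Icc, Finset.card_map]
  have hc := card_leave hab hw
  have hc' := hc
  rw [Finset.card_sdiff_comm hcard] at hc'
  rw [e1, ← Finset.sum_sdiff_sub_sum_sdiff]
  have b1 : ∀ s : Finset (Fin d → ℤ), ‖∑ x ∈ s, P x‖ ≤ (s.card : ℝ) := by
    intro s
    refine (norm_sum_le _ _).trans ?_
    refine (Finset.sum_le_sum fun x _ => hP x).trans ?_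
    rw [Finset.sum_const, nsmul_eq_mul, mul_one]
  refine (norm_sub_le _ _).trans ?_
  have h3 := b1 (Finset.Icc (a + w) (b + w) \ Finset.Icc a b)
  have h4 := b1 (Finset.Icc a b \ Finset.Icc (a + w) (b + w))
  have h5 : ((Finset.Icc a b \ Finset.Icc (a + w) (b + w)).card : ℝ) ≤
    ((d * (2 * W) * (2 * N + 1) ^ (d - 1) : ℕ) : ℝ) := by exact_mod_cast hc
  have h6 : ((Finset.Icc (a + w) (b + w) \ Finset.Icc a b).card : ℝ) ≤
    ((d * (2 * W) * (2 * N + 1) ^ (d - 1) : ℕ) : ℝ) := by exact_mod_cast hc'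
  linarith

/-- invariance in a direction -/
theorem per_zsmul {d : ℕ} {g : (Fin d → ℤ) → ℂ} {v : Fin d → ℤ} (h : ∀ x, g (x + v) = g x) (n : ℤ) :
    ∀ x, g (x + n • v) = g x := by
  induction n with
  | zero => intro x; rw [zero_smul, add_zero]
  | succ n ih =>
    intro x
    rw [add_smul, one_smul, ← add_assoc, h, ih]
  | pred n ih =>
    intro x
    rw [← h (x + (-(n : ℤ) - 1) • v), add_assoc]
    have e : (-(n : ℤ) - 1) • v + v = (-(n : ℤ)) • v := by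
      rw [sub_smul, one_smul, sub_add_cancel]
    rw [e, ih]

/-- the shift -/
def sh {d t H : ℕ} (v : Fin t → Fin d → ℤ) (h : Fin t → Fin H) : Fin d → ℤ :=
  fun l => ∑ k, (((h k : Fin H) : ℕ) : ℤ) * v k l

theorem sh_update {d t H : ℕ} (v : Fin t → Fin d → ℤ) (h : Fin t → Fin H) (j : Fin t) (u : Fin H) :
    sh v (Function.update h j u) = sh v h + (((u : ℕ) : ℤ) - ((h j : ℕ) : ℤ)) • v j := by
  classical
  funext l
  unfold sh
  rw [Pi.add_apply, Pi.smul_apply, smul_eq_mul, ← Finset.add_sum_erase _ _ (Finset.mem_univ j),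
    ← Finset.add_sum_erase Finset.univ (fun k => (((h k : Fin H) : ℕ) : ℤ) * v k l) (Finset.mem_univ j),
    Function.update_self]
  have e : ∑ k ∈ Finset.univ.erase j, (((Function.update h j u k : Fin H) : ℕ) : ℤ) * v k l =
      ∑ k ∈ Finset.univ.erase j, (((h k : Fin H) : ℕ) : ℤ) * v k l := by
    refine Finset.sum_congr rfl fun k hk => ?_
    rw [Function.update_of_ne (Finset.ne_of_mem_erase hk)]
  rw [e]
  ring

/-- box Cauchy-Schwarz for a fixed point -/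
theorem point_boundC (hCS : S_BOXCS) {d t H : ℕ} (v : Fin (t + 1) → Fin d → ℤ) (Φ : (Fin (t + 1) → Fin H) → ℝ)
    (g : Fin (t + 1) → (Fin d → ℤ) → ℂ) (hg : ∀ k x, ‖g k x‖ ≤ 1) (hv : ∀ k x, g k (x + v k) = g k x)
    (x : Fin d → ℤ) :
    ‖∑ h : Fin (t + 1) → Fin H, (Φ h : ℂ) * ∏ k, g k (x + sh v h)‖ ^ (2 ^ (t + 1)) ≤
      (H : ℝ) ^ ((t + 1) * 2 ^ (t + 1) - 2 * (t + 1)) * Box (t + 1) Φ := by
  classical
  have key := hCS (Fin H) t Φ (fun k h => g k (x + sh v h)) (fun k h => hg k _) (fun k h u => by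
    rw [sh_update, ← add_assoc, per_zsmul (hv k)])
  rw [Fintype.card_fin] at key
  exact key

end Pool.Agent.J4H80.QU.VN

namespace Pool.Agent.J4H80.QU

open Finset VN

/-- **The generalised von Neumann theorem** with weights -/
theorem t_VN3 (hCS : S_BOXCS) (hRES : S_BOXRES) : S_VN3 := by
  classical
  intro d t K L v hv ε hε
  rcases d with _ | d
  · have := hv 0
    simp at this
  have hex : ∃ l₀, L l₀ ≠ 0 := by
    by_contra hcon
    push Not at hcon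
    exact hv 0 (Finset.sum_eq_zero fun l _ => by rw [hcon l, zero_mul])
  obtain ⟨l₀, hl₀⟩ := hex
  set e : Fin (t + 2) → ℤ := fun k => ∑ l, L l * v k l with he
  set V : ℕ := ∑ k, ∑ l, (v k l).natAbs with hV
  set A : ℕ := (∑ l, (L l).natAbs) + K + (∑ k, (e k).natAbs) with hA
  set κ : ℝ := min 1 (ε / (8 * (d + 1) * (V + 1) * 3 ^ d)) with hκdef
  have hκ : 0 < κ := lt_min one_pos (by positivity)
  have hκ1 : κ ≤ 1 := min_le_left _ _
  have hκ2 : κ * (8 * (d + 1) * (V + 1) * 3 ^ d) ≤ ε := by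
    have h3 : κ ≤ ε / (8 * (d + 1) * (V + 1) * 3 ^ d) := min_le_right _ _
    rwa [le_div_iff₀ (by positivity)] at h3
  refine ⟨A, 8 * (A + 1), ⌈2 / κ⌉₊ + 1, (ε / 2) ^ (2 ^ (t + 2)) * (κ / 2) ^ (t + 2) / (3 ^ (d + 1)) ^ (2 ^ (t + 2)),
    by positivity, le_rfl, fun N hN c hcK a b hab f hf g hg hgv hUG => ?_⟩
  have hN1 : 1 ≤ N := by omega
  have hNr : (1 : ℝ) ≤ N := by exact_mod_cast hN1
  have hN2 : 2 / κ ≤ N := by
    refine (Nat.le_ceil _).trans ?_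
    exact_mod_cast (show ⌈2 / κ⌉₊ ≤ N by omega)
  rw [div_le_iff₀ hκ] at hN2
  set H : ℕ := ⌊κ * N⌋₊ with hHdef
  have hHle : (H : ℝ) ≤ κ * N := Nat.floor_le (by positivity)
  have hHge : κ / 2 * N ≤ H := by
    have := Nat.lt_floor_add_one (κ * (N : ℝ))
    rw [← hHdef] at this
    nlinarith
  have hHpos : (0 : ℝ) < H := lt_of_lt_of_le (by positivity) hHge
  have hHN : H ≤ N := by
    have : (H : ℝ) ≤ N := hHle.trans (mul_le_of_le_one_left (by positivity) hκ1)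
    exact_mod_cast this
  obtain ⟨m, hm⟩ : ∃ m, 2 ^ (t + 2) = m + 2 := by
    refine ⟨2 ^ (t + 2) - 2, ?_⟩
    have : 2 ^ 1 ≤ 2 ^ (t + 2) := Nat.pow_le_pow_right (by norm_num) (by omega)
    omega
  -- the sum over the shifts at a point
  set Φ : (Fin (d + 1) → ℤ) → (Fin (t + 2) → Fin H) → ℝ := fun x h =>
    f ((∑ l, L l * x l + c) + ∑ k, e k * (((h k : Fin H) : ℕ) : ℤ)) with hΦ
  set S : (Fin (d + 1) → ℤ) → ℂ := fun x => ∑ h : Fin (t + 2) → Fin H, (Φ x h : ℂ) * ∏ k, g k (x + sh v h) with hS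
  set P : (Fin (d + 1) → ℤ) → ℂ := fun x => (f (∑ l, L l * x l + c) : ℂ) * ∏ k, g k x with hP
  have hP1 : ∀ x, ‖P x‖ ≤ 1 := by
    intro x
    rw [hP]
    simp only
    rw [norm_mul, norm_prod, Complex.norm_real, Real.norm_eq_abs]
    exact mul_le_one₀ (hf _) (Finset.prod_nonneg fun _ _ => norm_nonneg _)
      (Finset.prod_le_one (fun _ _ => norm_nonneg _) fun k _ => hg k x)
  have hwle : ∀ (h : Fin (t + 2) → Fin H) l, |sh v h l| ≤ ((H * V : ℕ) : ℤ) := by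
    intro h l
    unfold sh
    refine (Finset.abs_sum_le_sum_abs _ _).trans ?_
    have h3 : ∀ k, |(((h k : Fin H) : ℕ) : ℤ) * v k l| ≤ (H : ℤ) * ((v k l).natAbs : ℤ) := by
      intro k
      rw [abs_mul, Nat.abs_cast, Int.natCast_natAbs]
      refine mul_le_mul_of_nonneg_right ?_ (abs_nonneg _)
      exact_mod_cast (h k).2.le
    refine (Finset.sum_le_sum fun k _ => h3 k).trans ?_
    rw [← Finset.mul_sum]
    push_cast
    refine mul_le_mul_of_nonneg_left ?_ (by positivity)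
    have h4 : ∑ k, (v k l).natAbs ≤ V := by
      rw [hV]
      exact Finset.sum_le_sum fun k _ =>
            Finset.single_le_sum (f := fun l => (v k l).natAbs) (fun _ _ => Nat.zero_le _) (Finset.mem_univ l)
    have h5 : ((∑ k, (v k l).natAbs : ℕ) : ℤ) ≤ (V : ℤ) := by exact_mod_cast h4
    push_cast at h5
    simpa using h5
  set T : ℂ := ∑ x ∈ Finset.Icc a b, P x with hT
  set Err : ℝ := 2 * ((((d + 1) * (2 * (H * V)) * (2 * N + 1) ^ (d + 1 - 1) : ℕ)) : ℝ) with hErr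
  have hshift : ∀ h : Fin (t + 2) → Fin H, ‖T - ∑ x ∈ Finset.Icc a b, P (x + sh v h)‖ ≤ Err := fun h =>
    sum_shiftC (W := H * V) hab (hwle h) P hP1
  have hPS : ∀ x, ∑ h : Fin (t + 2) → Fin H, P (x + sh v h) = S x := by
    intro x
    rw [hS, hP]
    simp only
    refine Finset.sum_congr rfl fun h _ => ?_
    congr 3
    have e1 : ∀ l, L l * (x + sh v h) l = L l * x l + ∑ k, L l * v k l * (((h k : Fin H) : ℕ) : ℤ) := by
      intro l
      unfold sh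
      rw [Pi.add_apply, mul_add, Finset.mul_sum]
      congr 1
      exact Finset.sum_congr rfl fun k _ => by ring
    rw [Finset.sum_congr rfl fun l _ => e1 l, Finset.sum_add_distrib, Finset.sum_comm]
    have e2 : ∀ k, ∑ l, L l * v k l * (((h k : Fin H) : ℕ) : ℤ) = e k * (((h k : Fin H) : ℕ) : ℤ) :=
      fun k => (Finset.sum_mul _ _ _).symm
    rw [Finset.sum_congr rfl fun k _ => e2 k]
    ring
  have hcardH : (Fintype.card (Fin (t + 2) → Fin H) : ℂ) = (H : ℂ) ^ (t + 2) := by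
    rw [Fintype.card_fun, Fintype.card_fin, Fintype.card_fin]
    push_cast
    rfl
  have hcardR : (Fintype.card (Fin (t + 2) → Fin H) : ℝ) = (H : ℝ) ^ (t + 2) := by
    rw [Fintype.card_fun, Fintype.card_fin, Fintype.card_fin]
    push_cast
    rfl
  have hmain : (H : ℝ) ^ (t + 2) * ‖T‖ ≤ (H : ℝ) ^ (t + 2) * Err + ∑ x ∈ Finset.Icc a b, ‖S x‖ := by
    have e1 : (H : ℂ) ^ (t + 2) * T = ∑ h : Fin (t + 2) → Fin H, (T - ∑ x ∈ Finset.Icc a b, P (x + sh v h)) +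
        ∑ x ∈ Finset.Icc a b, S x := by
      rw [Finset.sum_sub_distrib, Finset.sum_const, nsmul_eq_mul, Finset.card_univ, hcardH, Finset.sum_comm,
        Finset.sum_congr rfl fun x _ => hPS x]
      ring
    have e2 : (H : ℝ) ^ (t + 2) * ‖T‖ = ‖(H : ℂ) ^ (t + 2) * T‖ := by
      rw [norm_mul, norm_pow, Complex.norm_natCast]
    rw [e2, e1]
    refine (norm_add_le _ _).trans (add_le_add ?_ (norm_sum_le _ _))
    refine (norm_sum_le _ _).trans ((Finset.sum_le_sum fun h _ => hshift h).trans ?_)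
    rw [Finset.sum_const, nsmul_eq_mul, Finset.card_univ, hcardR]
  -- the bound for the sum of the norms
  have hAi : (∑ l, (L l).natAbs) + K + (∑ k, (e k).natAbs) ≤ A := le_rfl
  have hpt : ∀ x, ‖S x‖ ^ (m + 2) ≤ (H : ℝ) ^ ((t + 2) * m) * Box (t + 2) (Φ x) := by
    intro x
    have h3 := point_boundC hCS (H := H) v (Φ x) g hg hgv x
    have h4 : (t + 1 + 1) * 2 ^ (t + 1 + 1) - 2 * (t + 1 + 1) = (t + 2) * m := by
      rw [show t + 1 + 1 = t + 2 from rfl, hm, mul_add, mul_comm (t + 2) 2, Nat.add_sub_cancel]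
    have hm' : 2 ^ (t + 1 + 1) = m + 2 := hm
    rw [h4, hm'] at h3
    exact h3
  have hsumB := sum_points2 hRES (t := t) (H := H) (N := N) (A := A) (Q := 8 * (A + 1)) le_rfl hHN hN1 hab L c
    l₀ hl₀ e hv K hcK hAi f
  have hSum : (∑ x ∈ Finset.Icc a b, ‖S x‖) ^ (m + 2) ≤ ((2 * (N : ℝ) + 1) ^ (d + 1)) ^ (m + 1) *
      ((H : ℝ) ^ ((t + 2) * m) * ((2 * (N : ℝ) + 1) ^ d * ((H : ℝ) ^ (t + 2) *
      ((ε / 2) ^ (m + 2) * (κ / 2) ^ (t + 2) / (3 ^ (d + 1)) ^ (m + 2) * (N : ℝ) ^ (t + 3))))) := by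
    have h3 := pow_sum_le_card_mul_sum_pow (s := Finset.Icc a b) (f := fun x => ‖S x‖) (fun x _ => norm_nonneg _) (m + 1)
    refine h3.trans ?_
    have h4 : ((Finset.Icc a b).card : ℝ) ≤ (2 * (N : ℝ) + 1) ^ (d + 1) := by
      have := card_box hab
      exact_mod_cast this
    have h5 : ∑ x ∈ Finset.Icc a b, ‖S x‖ ^ (m + 1 + 1) ≤ (H : ℝ) ^ ((t + 2) * m) *
        ((2 * (N : ℝ) + 1) ^ d * ((H : ℝ) ^ (t + 2) *
        ((ε / 2) ^ (m + 2) * (κ / 2) ^ (t + 2) / (3 ^ (d + 1)) ^ (m + 2) * (N : ℝ) ^ (t + 3)))) := by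
      refine (Finset.sum_le_sum fun x _ => hpt x).trans ?_
      rw [← Finset.mul_sum]
      refine mul_le_mul_of_nonneg_left (hsumB.trans ?_) (by positivity)
      refine mul_le_mul_of_nonneg_left (mul_le_mul_of_nonneg_left ?_ (by positivity)) (by positivity)
      rw [← hm]
      exact hUG
    gcongr
  have hU := numer (d := d) (t := t) (m := m) hNr hκ hε hHge (by positivity) (by linarith)
    (Finset.sum_nonneg fun x _ => norm_nonneg (S x)) hSum
  have hE : Err ≤ ε / 2 * (N : ℝ) ^ (d + 1) := by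
    rw [hErr, Nat.add_sub_cancel]
    push_cast
    calc 2 * (((d : ℝ) + 1) * (2 * ((H : ℝ) * V)) * (2 * (N : ℝ) + 1) ^ d)
        ≤ 2 * (((d : ℝ) + 1) * (2 * ((κ * N) * (V + 1))) * (3 * (N : ℝ)) ^ d) := by
          gcongr
          · linarith
          · linarith
      _ = (κ * (8 * (d + 1) * (V + 1) * 3 ^ d)) / 2 * (N : ℝ) ^ (d + 1) := by
          rw [mul_pow]
          ring
      _ ≤ ε / 2 * (N : ℝ) ^ (d + 1) := by gcongr
  have hfin : (H : ℝ) ^ (t + 2) * ‖T‖ ≤ (H : ℝ) ^ (t + 2) * (ε * (N : ℝ) ^ (d + 1)) := by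
    refine hmain.trans ?_
    calc (H : ℝ) ^ (t + 2) * Err + ∑ x ∈ Finset.Icc a b, ‖S x‖
        ≤ (H : ℝ) ^ (t + 2) * (ε / 2 * (N : ℝ) ^ (d + 1)) + ε / 2 * (N : ℝ) ^ (d + 1) * (H : ℝ) ^ (t + 2) := by gcongr
      _ = _ := by ring
  exact le_of_mul_le_mul_left hfin (by positivity)

end Pool.Agent.J4H80.QU
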