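import Pool.Agent.J4H80.QU.M3
import Pool.Agent.J4H8.QU.Box

set_option autoImplicit false

/-! Invariant functions on linear forms against weights invariant in given directions. -/

namespace Pool.Agent.J4H80.QU

open Filter Topology Finset

/-- one factor against weights -/
theorem slot3 {d t : ℕ} (L : Fin d → ℤ) (v : Fin (t + 2) → Fin d → ℤ) (hv : ∀ k, ∑ l, L l * v k l ≠ 0) (K : ℕ)
    {s : ℤ} (hs : s = 1 ∨ s = -1) {ε : ℝ} (hε : 0 < ε) : ∃ N₀ : ℕ, ∀ F : ℤ → ℝ, InvF F → ∀ μ : ℝ, MeanF s F μ →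
    ∀ N : ℕ, N₀ ≤ N → ∀ c : ℤ, |c| ≤ (K : ℤ) * N →
    ∀ a b : Fin d → ℤ, (∀ l, -(N : ℤ) ≤ a l ∧ b l ≤ N) →
    ∀ g : Fin (t + 2) → (Fin d → ℤ) → ℂ, (∀ k x, ‖g k x‖ ≤ 1) → (∀ k x, g k (x + v k) = g k x) → ∀ M : ℕ,
    ‖∑ x ∈ Finset.Icc a b, (gcut s F μ M (∑ l, L l * x l + c) : ℂ) * ∏ k, g k x‖ ≤ ε * (N : ℝ) ^ d := by
  obtain ⟨A, Q, N₀, ε', hε', hQ, H⟩ :=
    t_VN3 Pool.Agent.J4H8.QU.t_BOXCS Pool.Agent.J4H8.QU.t_BOXRES d t K L v hv ε hε
  set ε'' : ℝ := ε' / (A + 1) ^ (t + 3) with hε''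
  have hε''0 : 0 < ε'' := by positivity
  obtain ⟨N₁, H1⟩ := unifF hs t hε''0
  refine ⟨N₀ + ⌈(4 * (N₁ : ℝ) + 1) ^ (t + 3) / ε'⌉₊ + 1, fun F hF μ hμ N hN c hc a b hab g hg hgv M => ?_⟩
  have hμ1 := mean_abs hF.1 hμ
  refine H N (by omega) c hc a b hab (gcut s F μ M) (gcut_abs hF.1 hμ1 M) g hg hgv ?_
  have hN1 : (1 : ℝ) ≤ N := by exact_mod_cast (by omega : 1 ≤ N)
  set L' : ℕ := min M (A * N) with hL'
  set f0 : ℤ → ℝ := fun n => 1 / 2 * (F (s * n) - μ) with hf0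
  have e1 : (fun x : ZMod (Q * N + 1) => if |x.valMinAbs| ≤ (A : ℤ) * N then gcut s F μ M x.valMinAbs else 0) =
      emb (Q * N + 1) (fun n => cut f0 L' (s * n)) := by
    funext x
    have key := gcut_eq hs F μ M (A * N) x.valMinAbs
    push_cast at key
    exact key
  rw [e1]
  have hsupp : ∀ n : ℤ, ((A * N : ℕ) : ℤ) < |n| → cut f0 L' (s * n) = 0 := by
    intro n hn
    apply cut_supp
    have habs : |n| = |s * n| := by
      rcases hs with rfl | rfl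
      · rw [one_mul]
      · rw [neg_one_mul, abs_neg]
    rw [← habs]
    have : (L' : ℤ) ≤ ((A * N : ℕ) : ℤ) := by exact_mod_cast min_le_right _ _
    omega
  rw [UG_link (p := Q * N + 1) (R := A * N) (by nlinarith) (t + 2) _ hsupp]
  have e2 : UGZ (A * N) (t + 2) (fun n => cut f0 L' (s * n)) = UGZ (A * N) (t + 2) (cut f0 L') := by
    rcases hs with h | h
    · rw [h]; simp only [one_mul]
    · rw [← UGZ_neg (t + 2) (cut f0 L')]
      congr 1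
      funext n
      rw [h, neg_one_mul]
  rw [e2, UGZ_indep (t + 2) (min_le_right _ _ : L' ≤ A * N) (cut f0 L') (cut_supp f0 L')]
  have hf01 : ∀ x, |f0 x| ≤ 1 := by
    intro x
    have h1 := abs_le.1 (hF.1 (s * x))
    have h2 := abs_le.1 hμ1
    rw [hf0, abs_le]
    constructor <;> linarith
  rcases le_or_gt N₁ L' with h | h
  · refine (H1 F hF μ hμ L' h).trans ?_
    have h3 : (L' : ℝ) ≤ (A + 1) * N := by
      have h4 : L' ≤ A * N := min_le_right _ _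
      have h5 : (L' : ℝ) ≤ ((A * N : ℕ) : ℝ) := by exact_mod_cast h4
      push_cast at h5
      nlinarith
    calc ε'' * (L' : ℝ) ^ (t + 3) ≤ ε'' * ((A + 1) * N) ^ (t + 3) := by gcongr
      _ = ε' * (N : ℝ) ^ (t + 3) := by
          rw [hε'', mul_pow, ← mul_assoc]
          field_simp
  · refine (le_abs_self _).trans ((UGZ_abs (t + 2) _ (cut_abs hf01 L')).trans ?_)
    have h3 : (4 * (L' : ℝ) + 1) ^ (t + 2 + 1) ≤ (4 * (N₁ : ℝ) + 1) ^ (t + 3) := by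
      have : (L' : ℝ) ≤ N₁ := by exact_mod_cast h.le
      gcongr
    refine h3.trans ?_
    have a1 := Nat.le_ceil ((4 * (N₁ : ℝ) + 1) ^ (t + 3) / ε')
    have a2 : ⌈(4 * (N₁ : ℝ) + 1) ^ (t + 3) / ε'⌉₊ ≤ N := by omega
    have a3 : ((⌈(4 * (N₁ : ℝ) + 1) ^ (t + 3) / ε'⌉₊ : ℕ) : ℝ) ≤ N := Nat.cast_le.2 a2
    have a4 := a1.trans a3
    rw [div_le_iff₀ hε'] at a4
    have a5 : (N : ℝ) ≤ (N : ℝ) ^ (t + 3) := le_self_pow₀ hN1 (by omega)
    calc (4 * (N₁ : ℝ) + 1) ^ (t + 3) ≤ N * ε' := a4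
      _ ≤ (N : ℝ) ^ (t + 3) * ε' := mul_le_mul_of_nonneg_right a5 hε'.le
      _ = _ := mul_comm _ _

/-- one factor, uniformly in the form and the directions -/
theorem slot4 (d r K : ℕ) {s : ℤ} (hs : s = 1 ∨ s = -1) {ε : ℝ} (hε : 0 < ε) : ∃ N₀ : ℕ, ∀ F : ℤ → ℝ, InvF F →
    ∀ μ : ℝ, MeanF s F μ → ∀ N : ℕ, N₀ ≤ N → ∀ L : Fin d → ℤ, (∀ l, |L l| ≤ (K : ℤ)) → (∃ l, L l ≠ 0) →
    ∀ v : Fin r → Fin d → ℤ, (∀ k l, |v k l| ≤ (K : ℤ)) → (∀ k, ∑ l, L l * v k l ≠ 0) →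
    ∀ c : ℤ, |c| ≤ (K : ℤ) * N → ∀ a b : Fin d → ℤ, (∀ l, -(N : ℤ) ≤ a l ∧ b l ≤ N) →
    ∀ g : Fin r → (Fin d → ℤ) → ℂ, (∀ k x, ‖g k x‖ ≤ 1) → (∀ k x, g k (x + v k) = g k x) → ∀ M M' : ℕ,
    ‖∑ x ∈ Finset.Icc a b, ((fcut s F M M' (∑ l, L l * x l + c) -
      fcut s (fun _ => μ) M M' (∑ l, L l * x l + c) : ℝ) : ℂ) * ∏ k, g k x‖ ≤ ε * (N : ℝ) ^ d := by
  classical
  have key : ∀ (L : Fin d → ℤ) (v : Fin (r + 2) → Fin d → ℤ), ∃ N₀ : ℕ, (∀ k, ∑ l, L l * v k l ≠ 0) →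
      ∀ F : ℤ → ℝ, InvF F → ∀ μ : ℝ, MeanF s F μ →
      ∀ N : ℕ, N₀ ≤ N → ∀ c : ℤ, |c| ≤ (K : ℤ) * N →
      ∀ a b : Fin d → ℤ, (∀ l, -(N : ℤ) ≤ a l ∧ b l ≤ N) →
      ∀ g : Fin (r + 2) → (Fin d → ℤ) → ℂ, (∀ k x, ‖g k x‖ ≤ 1) → (∀ k x, g k (x + v k) = g k x) → ∀ M : ℕ,
      ‖∑ x ∈ Finset.Icc a b, (gcut s F μ M (∑ l, L l * x l + c) : ℂ) * ∏ k, g k x‖ ≤ ε / 4 * (N : ℝ) ^ d := by
    intro L v
    by_cases h : ∀ k, ∑ l, L l * v k l ≠ 0
    · obtain ⟨N₀, h0⟩ := slot3 L v h K hs (show 0 < ε / 4 by positivity)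
      exact ⟨N₀, fun _ => h0⟩
    · exact ⟨0, fun h' => absurd h' h⟩
  choose N₀ H using key
  set P : Finset (Fin d → ℤ) := Fintype.piFinset fun _ => Finset.Icc (-((K + 1 : ℕ) : ℤ)) ((K + 1 : ℕ) : ℤ) with hP
  set P2 : Finset (Fin (r + 2) → Fin d → ℤ) := Fintype.piFinset fun _ => P with hP2
  refine ⟨∑ q ∈ P ×ˢ P2, N₀ q.1 q.2, fun F hF μ hμ N hN L hL hL0 v hvK hv c hc a b hab g hg hgv M M' => ?_⟩
  obtain ⟨l₀, hl₀⟩ := hL0
  set E : Fin d → ℤ := Pi.single l₀ 1 with hE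
  have hE1 : ∑ l, L l * E l ≠ 0 := by
    rw [Finset.sum_eq_single l₀]
    · rw [hE, Pi.single_eq_same, mul_one]; exact hl₀
    · intro j _ hj; rw [hE, Pi.single_eq_of_ne hj, mul_zero]
    · intro h; exact absurd (Finset.mem_univ l₀) h
  have hEK : ∀ l, |E l| ≤ ((K + 1 : ℕ) : ℤ) := by
    intro l
    rw [hE]
    by_cases h : l = l₀
    · subst h
      rw [Pi.single_eq_same, abs_one]
      push_cast
      omega
    · rw [Pi.single_eq_of_ne h, abs_zero]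
      positivity
  set v' : Fin (r + 2) → Fin d → ℤ := Fin.snoc (α := fun _ => Fin d → ℤ) (Fin.snoc (α := fun _ => Fin d → ℤ) v E) E with hv'
  set g' : Fin (r + 2) → (Fin d → ℤ) → ℂ :=
    Fin.snoc (α := fun _ => (Fin d → ℤ) → ℂ) (Fin.snoc (α := fun _ => (Fin d → ℤ) → ℂ) g (fun _ => 1)) (fun _ => 1) with hg'
  have v1 : ∀ k : Fin r, v' k.castSucc.castSucc = v k := by intro k; rw [hv', Fin.snoc_castSucc, Fin.snoc_castSucc]
  have v2 : v' (Fin.last r).castSucc = E := by rw [hv', Fin.snoc_castSucc, Fin.snoc_last]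
  have v3 : v' (Fin.last (r + 1)) = E := by rw [hv', Fin.snoc_last]
  have g1 : ∀ k : Fin r, g' k.castSucc.castSucc = g k := by intro k; rw [hg', Fin.snoc_castSucc, Fin.snoc_castSucc]
  have g2 : g' (Fin.last r).castSucc = fun _ => 1 := by rw [hg', Fin.snoc_castSucc, Fin.snoc_last]
  have g3 : g' (Fin.last (r + 1)) = fun _ => 1 := by rw [hg', Fin.snoc_last]
  have cases' : ∀ (Pr : Fin (r + 2) → Prop), (∀ k : Fin r, Pr k.castSucc.castSucc) → Pr (Fin.last r).castSucc →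
      Pr (Fin.last (r + 1)) → ∀ k, Pr k := by
    intro Pr h1 h2 h3 k
    refine Fin.lastCases h3 (fun k => ?_) k
    exact Fin.lastCases (motive := fun k : Fin (r + 1) => Pr k.castSucc) h2 h1 k
  have hv1 : ∀ k, ∑ l, L l * v' k l ≠ 0 :=
    cases' _ (fun k => by rw [v1]; exact hv k) (by rw [v2]; exact hE1) (by rw [v3]; exact hE1)
  have hvK' : ∀ k l, |v' k l| ≤ ((K + 1 : ℕ) : ℤ) :=
    cases' (fun k => ∀ l, |v' k l| ≤ ((K + 1 : ℕ) : ℤ))
      (fun k l => by rw [v1]; exact (hvK k l).trans (by push_cast; omega)) (by rw [v2]; exact hEK) (by rw [v3]; exact hEK)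
  have hg1 : ∀ k x, ‖g' k x‖ ≤ 1 :=
    cases' (fun k => ∀ x, ‖g' k x‖ ≤ 1) (fun k x => by rw [g1]; exact hg k x) (by rw [g2]; intro x; rw [norm_one])
      (by rw [g3]; intro x; rw [norm_one])
  have hgv1 : ∀ k x, g' k (x + v' k) = g' k x :=
    cases' (fun k => ∀ x, g' k (x + v' k) = g' k x) (fun k x => by rw [g1, v1]; exact hgv k x)
      (by rw [g2]; intro x; rfl) (by rw [g3]; intro x; rfl)
  have hprod : ∀ x, ∏ k, g' k x = ∏ k, g k x := by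
    intro x
    rw [Fin.prod_univ_castSucc, Fin.prod_univ_castSucc, g2, g3, mul_one, mul_one]
    exact Finset.prod_congr rfl fun k _ => by rw [g1]
  have hmem : (L, v') ∈ P ×ˢ P2 := by
    rw [Finset.mem_product]
    refine ⟨?_, ?_⟩
    · rw [hP, Fintype.mem_piFinset]
      intro l
      rw [Finset.mem_Icc]
      exact abs_le.1 ((hL l).trans (by push_cast; omega))
    · show v' ∈ P2
      rw [hP2, Fintype.mem_piFinset]
      intro k
      rw [hP, Fintype.mem_piFinset]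
      intro l
      rw [Finset.mem_Icc]
      exact abs_le.1 (hvK' k l)
  have hNN : N₀ L v' ≤ N := (Finset.single_le_sum (f := fun q : (Fin d → ℤ) × (Fin (r + 2) → Fin d → ℤ) => N₀ q.1 q.2)
    (fun _ _ => Nat.zero_le _) hmem).trans hN
  have h1 := H L v' hv1 F hF μ hμ N hNN c hc a b hab g' hg1 hgv1 (max M M')
  have h2 := H L v' hv1 F hF μ hμ N hNN c hc a b hab g' hg1 hgv1 M
  have e : ∑ x ∈ Finset.Icc a b, ((fcut s F M M' (∑ l, L l * x l + c) -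
      fcut s (fun _ => μ) M M' (∑ l, L l * x l + c) : ℝ) : ℂ) * ∏ k, g k x =
      2 * ∑ x ∈ Finset.Icc a b, (gcut s F μ (max M M') (∑ l, L l * x l + c) : ℂ) * ∏ k, g' k x -
      2 * ∑ x ∈ Finset.Icc a b, (gcut s F μ M (∑ l, L l * x l + c) : ℂ) * ∏ k, g' k x := by
    rw [Finset.mul_sum, Finset.mul_sum, ← Finset.sum_sub_distrib]
    refine Finset.sum_congr rfl fun x _ => ?_
    rw [hprod, fcut_diff]
    push_cast
    ring
  rw [e]
  refine (norm_sub_le _ _).trans ?_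
  rw [norm_mul, norm_mul]
  have h3 : ‖(2 : ℂ)‖ = 2 := by norm_num
  rw [h3]
  linarith

/-- directions -/
theorem dirs {d t K : ℕ} {L : Fin t → Fin d → ℤ} (h : Nonprop L) (hK : ∀ i l, |L i l| ≤ (K : ℤ)) (j i : Fin t) :
    ∃ v : Fin d → ℤ, (∀ l, |v l| ≤ 2 * (K : ℤ) + 1) ∧ (i ≠ j → ∑ l, L i l * v l = 0) ∧ ∑ l, L j l * v l ≠ 0 := by
  classical
  have hK0 : (0 : ℤ) ≤ K := Nat.cast_nonneg _
  by_cases hij : i = j
  · obtain ⟨l₀, hl₀⟩ := h.1 j
    refine ⟨Pi.single l₀ 1, fun l => ?_, fun h => absurd hij h, ?_⟩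
    · by_cases h2 : l = l₀
      · subst h2
        rw [Pi.single_eq_same, abs_one]
        omega
      · rw [Pi.single_eq_of_ne h2, abs_zero]
        omega
    · rw [Finset.sum_eq_single l₀]
      · rw [Pi.single_eq_same, mul_one]; exact hl₀
      · intro j _ hj; rw [Pi.single_eq_of_ne hj, mul_zero]
      · intro h; exact absurd (Finset.mem_univ l₀) h
  · obtain ⟨b, hb⟩ := h.1 i
    have h1 : ∃ a, L i b * L j a ≠ L j b * L i a := by
      by_contra hcon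
      push Not at hcon
      exact hb (h.2 j i (Ne.symm hij) (L i b) (L j b) hcon).1
    obtain ⟨a, ha⟩ := h1
    have hs : ∀ m : Fin t, ∑ l, L m l * (Pi.single a (L i b) - Pi.single b (L i a) : Fin d → ℤ) l =
        L m a * L i b - L m b * L i a := by
      intro m
      simp only [Pi.sub_apply, mul_sub, Finset.sum_sub_distrib]
      congr 1
      · rw [Finset.sum_eq_single a]
        · rw [Pi.single_eq_same]
        · intro l _ hl; rw [Pi.single_eq_of_ne hl, mul_zero]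
        · intro h; exact absurd (Finset.mem_univ a) h
      · rw [Finset.sum_eq_single b]
        · rw [Pi.single_eq_same]
        · intro l _ hl; rw [Pi.single_eq_of_ne hl, mul_zero]
        · intro h; exact absurd (Finset.mem_univ b) h
    have hsing : ∀ (a' : Fin d) (y : ℤ), |y| ≤ (K : ℤ) → ∀ l, |(Pi.single a' y : Fin d → ℤ) l| ≤ (K : ℤ) := by
      intro a' y hy l
      by_cases h2 : l = a'
      · subst h2
        rw [Pi.single_eq_same]
        exact hy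
      · rw [Pi.single_eq_of_ne h2, abs_zero]
        exact hK0
    refine ⟨Pi.single a (L i b) - Pi.single b (L i a), fun l => ?_, fun _ => ?_, ?_⟩
    · rw [Pi.sub_apply]
      refine (abs_sub _ _).trans ?_
      have := hsing a (L i b) (hK i b) l
      have := hsing b (L i a) (hK i a) l
      linarith
    · rw [hs]; ring
    · rw [hs]
      intro h0
      apply ha
      linarith

end Pool.Agent.J4H80.QU
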