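import Pool.Agent.J4H80.QU.M4

set_option autoImplicit false

/-! Invariant functions on pairwise non-proportional linear forms, against weights. -/

namespace Pool.Agent.J4H80.QU

open Filter Topology Finset

/-- invariant functions on pairwise non-proportional forms, against weights invariant in given directions -/
theorem law (d t r K : ℕ) (s : Fin t → ℤ) (hs : ∀ i, s i = 1 ∨ s i = -1) {ε : ℝ} (hε : 0 < ε) : ∃ N₀ : ℕ,
    ∀ F : Fin t → ℤ → ℝ, (∀ i, InvF (F i)) → ∀ μ : Fin t → ℝ, (∀ i, MeanF (s i) (F i) (μ i)) →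
    ∀ N : ℕ, N₀ ≤ N → ∀ L : Fin t → Fin d → ℤ, (∀ i l, |L i l| ≤ (K : ℤ)) → Nonprop L →
    ∀ w : Fin r → Fin d → ℤ, (∀ k l, |w k l| ≤ (K : ℤ)) → (∀ i k, ∑ l, L i l * w k l ≠ 0) →
    ∀ c : Fin t → ℤ, (∀ i, |c i| ≤ (K : ℤ) * N) →
    ∀ a b : Fin d → ℤ, (∀ l, -(N : ℤ) ≤ a l ∧ b l ≤ N) →
    ∀ g : Fin r → (Fin d → ℤ) → ℂ, (∀ k x, ‖g k x‖ ≤ 1) → (∀ k x, g k (x + w k) = g k x) → ∀ M M' : Fin t → ℕ,
    ‖∑ x ∈ Finset.Icc a b, (∏ i, (fcut (s i) (F i) (M i) (M' i) (∑ l, L i l * x l + c i) : ℂ)) * ∏ k, g k x -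
      (∏ i, (μ i : ℂ)) * ∑ x ∈ Finset.Icc a b,
        (∏ i, (fcut (s i) (fun _ => 1) (M i) (M' i) (∑ l, L i l * x l + c i) : ℂ)) * ∏ k, g k x‖ ≤
      ε * (N : ℝ) ^ d := by
  classical
  choose N₀ H using fun j : Fin t => slot4 d (t + r) (2 * K + 1) (hs j) (ε := ε / (t + 1)) (by positivity)
  refine ⟨∑ j, N₀ j, fun F hF μ hμ N hN L hL hLn w hwK hw c hc a b hab g hg hgw M M' => ?_⟩
  have hμ1 : ∀ i, |μ i| ≤ 1 := fun i => mean_abs (hF i).1 (hμ i)
  set P : Fin t → (Fin d → ℤ) → ℤ := fun i x => ∑ l, L i l * x l + c i with hP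
  set Aa : Fin t → ℤ → ℝ := fun i => fcut (s i) (F i) (M i) (M' i) with hAa
  set Bb : Fin t → ℤ → ℝ := fun i => fcut (s i) (fun _ => μ i) (M i) (M' i) with hBb
  set G : (Fin d → ℤ) → ℂ := fun x => ∏ k, g k x with hG
  have hA1 : ∀ i n, |Aa i n| ≤ 1 := fun i n => fcut_abs (hF i).1 _ _ _
  have hB1 : ∀ i n, |Bb i n| ≤ 1 := fun i n => fcut_abs (fun _ => hμ1 i) _ _ _
  set q : ℕ → ℂ := fun j => ∑ x ∈ Finset.Icc a b,
    (∏ i : Fin t, ((if (i : ℕ) < j then Bb i (P i x) else Aa i (P i x) : ℝ) : ℂ)) * G x with hq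
  have hq0 : q 0 = ∑ x ∈ Finset.Icc a b, (∏ i, (Aa i (P i x) : ℂ)) * G x := by
    simp only [hq, Nat.not_lt_zero, if_false]
  have hqt : q t = (∏ i, (μ i : ℂ)) * ∑ x ∈ Finset.Icc a b,
      (∏ i, (fcut (s i) (fun _ => 1) (M i) (M' i) (P i x) : ℂ)) * G x := by
    simp only [hq]
    rw [Finset.mul_sum]
    refine Finset.sum_congr rfl fun x _ => ?_
    rw [← mul_assoc, ← Finset.prod_mul_distrib]
    congr 1
    refine Finset.prod_congr rfl fun i _ => ?_
    rw [if_pos i.2, hBb]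
    simp only [fcut]
    split_ifs <;> push_cast <;> ring
  have hstep : ∀ j : Fin t, ‖q j - q (j + 1)‖ ≤ ε / (t + 1) * (N : ℝ) ^ d := by
    intro j
    choose v hvK hv0 hv1 using fun i : Fin t => dirs hLn hL j i
    set h : Fin t → (Fin d → ℤ) → ℂ := fun i x => if i = j then 1 else
      ((if (i : ℕ) < j then Bb i (P i x) else Aa i (P i x) : ℝ) : ℂ) with hh
    have hh1 : ∀ i x, ‖h i x‖ ≤ 1 := by
      intro i x
      simp only [hh]
      split_ifs
      · rw [norm_one]
      · rw [Complex.norm_real, Real.norm_eq_abs]; exact hB1 _ _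
      · rw [Complex.norm_real, Real.norm_eq_abs]; exact hA1 _ _
    have hh2 : ∀ i x, h i (x + v i) = h i x := by
      intro i x
      simp only [hh]
      by_cases hij : i = j
      · rw [if_pos hij, if_pos hij]
      · rw [if_neg hij, if_neg hij]
        have e : P i (x + v i) = P i x := by
          rw [hP]
          simp only [Pi.add_apply, mul_add, Finset.sum_add_distrib]
          rw [hv0 i hij, add_zero]
        rw [e]
    set vv : Fin (t + r) → Fin d → ℤ := Fin.append v w with hvv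
    set gg : Fin (t + r) → (Fin d → ℤ) → ℂ := Fin.append h g with hgg
    have hcases : ∀ (Pr : Fin (t + r) → Prop), (∀ i : Fin t, Pr (Fin.castAdd r i)) → (∀ k : Fin r, Pr (Fin.natAdd t k)) →
        ∀ k, Pr k := fun Pr h1 h2 k => Fin.addCases h1 h2 k
    have a1 : ∀ k l, |vv k l| ≤ ((2 * K + 1 : ℕ) : ℤ) := by
      refine hcases (fun k => ∀ l, |vv k l| ≤ ((2 * K + 1 : ℕ) : ℤ)) (fun i l => ?_) (fun k l => ?_)
      · rw [hvv, Fin.append_left]; push_cast; exact hvK i l
      · rw [hvv, Fin.append_right]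
        refine (hwK k l).trans ?_
        push_cast
        have : (0 : ℤ) ≤ K := Nat.cast_nonneg _
        omega
    have a2 : ∀ k, ∑ l, L j l * vv k l ≠ 0 := by
      refine hcases _ (fun i => ?_) (fun k => ?_)
      · rw [hvv, Fin.append_left]; exact hv1 i
      · rw [hvv, Fin.append_right]; exact hw j k
    have a3 : ∀ k x, ‖gg k x‖ ≤ 1 := by
      refine hcases (fun k => ∀ x, ‖gg k x‖ ≤ 1) (fun i x => ?_) (fun k x => ?_)
      · rw [hgg, Fin.append_left]; exact hh1 i x
      · rw [hgg, Fin.append_right]; exact hg k x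
    have a4 : ∀ k x, gg k (x + vv k) = gg k x := by
      refine hcases (fun k => ∀ x, gg k (x + vv k) = gg k x) (fun i x => ?_) (fun k x => ?_)
      · rw [hgg, hvv, Fin.append_left, Fin.append_left]; exact hh2 i x
      · rw [hgg, hvv, Fin.append_right, Fin.append_right]; exact hgw k x
    have hNj : N₀ j ≤ N := (Finset.single_le_sum (f := N₀) (fun _ _ => Nat.zero_le _) (Finset.mem_univ j)).trans hN
    have key := H j (F j) (hF j) (μ j) (hμ j) N hNj (L j)
      (fun l => (hL j l).trans (by push_cast; have : (0 : ℤ) ≤ K := Nat.cast_nonneg _; omega)) (hLn.1 j) vv a1 a2 (c j)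
      ((hc j).trans (by
        push_cast
        have h1 : (0 : ℤ) ≤ K := Nat.cast_nonneg _
        have h2 : (0 : ℤ) ≤ N := Nat.cast_nonneg _
        nlinarith)) a b hab gg a3 a4 (M j) (M' j)
    refine le_trans (le_of_eq ?_) key
    congr 1
    simp only [hq]
    rw [← Finset.sum_sub_distrib]
    refine Finset.sum_congr rfl fun x _ => ?_
    have hprod : ∏ k, gg k x = (∏ i, h i x) * G x := by
      rw [Fin.prod_univ_add]
      congr 1
      · exact Finset.prod_congr rfl fun i _ => by rw [hgg, Fin.append_left]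
      · exact Finset.prod_congr rfl fun k _ => by rw [hgg, Fin.append_right]
    rw [hprod, ← Finset.mul_prod_erase _ _ (Finset.mem_univ j), ← Finset.mul_prod_erase Finset.univ
        (fun i : Fin t => ((if (i : ℕ) < (j : ℕ) + 1 then Bb i (P i x) else Aa i (P i x) : ℝ) : ℂ)) (Finset.mem_univ j),
        ← Finset.mul_prod_erase Finset.univ (fun i => h i x) (Finset.mem_univ j)]
    set R := ∏ i ∈ Finset.univ.erase j, ((if (i : ℕ) < (j : ℕ) then Bb i (P i x) else Aa i (P i x) : ℝ) : ℂ) with hR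
    have r1 : ∏ i ∈ Finset.univ.erase j, ((if (i : ℕ) < (j : ℕ) + 1 then Bb i (P i x) else Aa i (P i x) : ℝ) : ℂ) = R := by
      refine Finset.prod_congr rfl fun i hi => ?_
      have hne : (i : ℕ) ≠ j := fun h => Finset.ne_of_mem_erase hi (Fin.ext h)
      by_cases h : (i : ℕ) < j
      · rw [if_pos h, if_pos (by omega)]
      · rw [if_neg h, if_neg (by omega)]
    have r2 : ∏ i ∈ Finset.univ.erase j, h i x = R := by
      refine Finset.prod_congr rfl fun i hi => ?_
      simp only [hh]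
      rw [if_neg (Finset.ne_of_mem_erase hi)]
    rw [r1, r2]
    simp only [hh, if_true, lt_irrefl, if_false]
    rw [if_pos (by omega)]
    have r4 : Aa j (P j x) - Bb j (P j x) = fcut (s j) (F j) (M j) (M' j) (P j x) -
      fcut (s j) (fun _ => μ j) (M j) (M' j) (P j x) := rfl
    have r5 : fcut (s j) (F j) (M j) (M' j) (∑ l, L j l * x l + c j) - fcut (s j) (fun _ => μ j) (M j) (M' j)
      (∑ l, L j l * x l + c j) = Aa j (P j x) - Bb j (P j x) := rfl
    rw [r5]
    push_cast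
    ring
  have hfin : ‖q 0 - q t‖ ≤ ε * (N : ℝ) ^ d := by
    have htel : q 0 - q t = ∑ j : Fin t, (q j - q (j + 1)) := by
      rw [Fin.sum_univ_eq_sum_range (fun j => q j - q (j + 1)) t, Finset.sum_range_sub']
    rw [htel]
    refine (norm_sum_le _ _).trans ((Finset.sum_le_sum fun j _ => hstep j).trans ?_)
    rw [Finset.sum_const, Finset.card_univ, Fintype.card_fin, nsmul_eq_mul]
    have h1 : (t : ℝ) * (ε / (t + 1) * (N : ℝ) ^ d) = (t / (t + 1)) * (ε * (N : ℝ) ^ d) := by field_simp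
    rw [h1]
    refine mul_le_of_le_one_left (by positivity) ?_
    rw [div_le_one (by positivity)]
    linarith
  rw [hq0, hqt] at hfin
  exact hfin

end Pool.Agent.J4H80.QU
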